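import Pool.Agent.MP_6d695c_gt.t2.Spec

/-! PROJECT T2: limit charts, boxes, the global argument.
See /team-store/d12_6d695c_helper39_T2.md and /team-store/d12_6d695c_T2_read_helper94.md. -/

open scoped Manifold ContDiff Topology MeasureTheory
open Set Metric Filter Real

namespace Pool.Agent.MP_6d695c_gt.T2

open SW T1 Theta

noncomputable section

/-- coordinates centred at `c` -/
def Rf (c q : B4) : B4 :=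
  (q.1 - c.1, (exp c.1 * (q.2.1.1 - c.2.1.1), q.2.1.2 - c.2.1.2), exp c.1 * q.2.2)

/-- the inverse change of coordinates -/
def Ri (c q : B4) : B4 :=
  (q.1 + c.1, (exp (-c.1) * q.2.1.1 + c.2.1.1, q.2.1.2 + c.2.1.2), exp (-c.1) * q.2.2)

/-- the correction of the normal function -/
def dv (ν : ℝ → ℝ) (c : (ℝ × ℝ) × ℝ → ℝ) (g : ℝ × ℝ → ℝ) (yk : B4 → ℝ) (q : B4) : ℝ :=
  c q.2 * ν q.1 * (exp (q.1 + g q.2.1) * q.2.2 - yk q)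

section Amb
variable {V : Type} [NormedAddCommGroup V] [NormedSpace ℝ V]

omit [NormedAddCommGroup V] [NormedSpace ℝ V] in
/-- the square of the normal function -/
def Vh (N : ℝ) (yk δv : V → ℝ) (q : V × ℂ) : ℝ := ((yk q.1 + δv q.1) * (1 + rho N q.2)) ^ 2

/-- what a box does over the compact set `A` -/
structure Bxo [FiniteDimensional ℝ V] (M A : Set V) (l : V → V →L[ℝ] ℝ)
    (Pi : V → (V →L[ℝ] ℝ) →L[ℝ] V) (yk L : V → ℝ) (y' N R : ℝ) (G δL : V × ℂ → ℝ) (δv : V → ℝ) :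
    Prop where
  sG : ContDiff ℝ ∞ G
  sL : ContDiff ℝ ∞ δL
  sv : ContDiff ℝ ∞ δv
  out : ∀ q : V × ℂ, q.1 ∈ M → q.1 ∉ A → G q = 0 ∧ δL q = 0 ∧ δv q.1 = 0
  rad : ∀ q : V × ℂ, q.1 ∈ M → R < ‖q.2‖ → G q = 0
  ly : ∀ q : V × ℂ, q.1 ∈ A → Vh N yk δv q < y' ^ 2 →
    Ly (ov M ℂ) (XT N l Pi G) (fun q => L q.1 + δL q) q
  up : ∀ q : V × ℂ, q.1 ∈ A → y' ^ 2 / 4 ≤ Vh N yk δv q →
    0 < fderiv ℝ (Vh N yk δv) q (XT N l Pi G q)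

/-- a smooth chart in which `l = exp s * (da + y dσ)` -/
structure SCh (M : Set V) (l : V → V →L[ℝ] ℝ) (Ψ : B4 → V) (κ : V → B4) (O : Set B4)
    (N : Set V) : Prop where
  par : Par M Ψ κ O N
  sκ : ContDiff ℝ ∞ κ
  form : ∀ q ∈ O, ∀ v, l (Ψ q) (fderiv ℝ Ψ q v) = lb q v

/-- a topological flow box -/
structure TCh (M : Set V) (fl : ℝ → V → V) (Ψ : B4 → V) (κ : V → B4) (O : Set B4) (N : Set V) :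
    Prop where
  oO : IsOpen O
  oN : IsOpen N
  cΨ : ContinuousOn Ψ O
  cκ : Continuous κ
  gm : ∀ q ∈ O, Ψ q ∈ M ∧ Ψ q ∈ N ∧ κ (Ψ q) = q
  rm : ∀ x ∈ M, x ∈ N → κ x ∈ O ∧ Ψ (κ x) = x
  flow : ∀ q t, (∀ u ∈ uIcc (0 : ℝ) t, q + u • es ∈ O) → fl t (Ψ q) = Ψ (q + t • es)

/-- a flow box adapted to `yv` that is a limit of smooth charts -/
structure Lim (M : Set V) (l : V → V →L[ℝ] ℝ) (yv μ : V → ℝ) (fl : ℝ → V → V) (Ψ : B4 → V)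
    (κ : V → B4) (lm : B4 → ℝ) (O : Set B4) (N : Set V) : Prop where
  top : TCh M fl Ψ κ O N
  cm : ContinuousOn lm O
  eq : ∀ q ∈ O, yv (Ψ q) = exp (lm q) * q.2.2
  dm : ∀ q ∈ O, HasDerivAt (fun t : ℝ => lm (q + t • es)) (μ (Ψ q)) 0
  app : ∀ Q, IsCompact Q → Q ⊆ O → ∃ C, ∀ e, 0 < e → ∃ Ψ' κ' O' N', SCh M l Ψ' κ' O' N' ∧
    Q ⊆ O' ∧ ∀ q ∈ Q, ‖Ψ' q - Ψ q‖ ≤ e ∧ Ψ q ∈ N' ∧ ‖κ' (Ψ q) - q‖ ≤ e ∧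
      ‖fderiv ℝ Ψ' q ey‖ ≤ C

/-- data of a box -/
structure Bx3 (V : Type) where
  Ψ : B4 → V
  κ : V → B4
  lm : B4 → ℝ
  O : Set B4
  N : Set V
  w : ℝ

/-- finitely many disjoint boxes inside `N0` -/
structure Boxes3 (M N0 : Set V) (l : V → V →L[ℝ] ℝ) (yv μ : V → ℝ) (fl : ℝ → V → V) {m : ℕ}
    (bx : Fin m → Bx3 V) (h : ℝ) : Prop where
  hpos : 0 < h
  hle : h ≤ 1 / 100
  wpos : ∀ b, 0 < (bx b).w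
  wle : ∀ b, (bx b).w ≤ 1 / 20
  ch : ∀ b, Lim M l yv μ fl (bx b).Ψ (bx b).κ (bx b).lm (bx b).O (bx b).N
  sub : ∀ b, cb (10 * h) (5 * (bx b).w) ⊆ (bx b).O
  low : ∀ b, ∀ q ∈ cb (10 * h) (5 * (bx b).w), (bx b).Ψ q ∈ N0
  disj : ∀ b b', b ≠ b' → ∀ q ∈ cb (10 * h) (5 * (bx b).w),
    ∀ q' ∈ cb (10 * h) (5 * (bx b').w), (bx b).Ψ q ≠ (bx b').Ψ q'

/-- the hypothesis in the ambient space -/
structure Hyp (M : Set V) (l : V → V →L[ℝ] ℝ) (Pi : V → (V →L[ℝ] ℝ) →L[ℝ] V) (φ yv μ : V → ℝ)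
    (U K₀ : Set V) : Prop where
  sy : ContDiff ℝ 1 yv
  cμ : Continuous μ
  oU : IsOpen U
  core : Core M l Pi φ K₀
  eq : ∀ x ∈ M, φ x ≤ 4 → x ∈ U → fderiv ℝ yv x (Pi x (l x)) = μ x * yv x
  on : ∀ x ∈ K₀, x ∈ M → φ x ≤ 4 → x ∈ U ∧ yv x = 0 ∧ 0 < μ x ∧
    ∃ u ∈ Tg M x, ∃ v ∈ Tg M x, fderiv ℝ yv x u * l x v ≠ fderiv ℝ yv x v * l x u

end Amb

end

/-! ### Charts -/

/-- LIMM: the limit chart in the model -/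
def LimMStmt : Prop :=
  ∀ η : ℝ × ℝ → ℝ, ContDiff ℝ 1 η → HasCompactSupport η → η 0 = 0 →
    ∃ (Ξ κ : B4 → B4) (lj : B4 → ℝ), Continuous Ξ ∧ Continuous κ ∧ Continuous lj ∧ Ξ 0 = 0 ∧
      (∀ q, κ (Ξ q) = q ∧ Ξ (κ q) = q ∧ (Ξ q).2.2 - η (Ξ q).2.1 = exp (lj q) * q.2.2 ∧
        ∀ t : ℝ, Ξ (q + t • es) = Ξ q + t • es ∧ lj (q + t • es) = lj q) ∧
      ∀ R : ℝ, ∃ C, ∀ e, 0 < e → ∃ Ξ' κ' : B4 → B4, ContDiff ℝ ∞ Ξ' ∧ ContDiff ℝ ∞ κ' ∧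
        (∀ q, κ' (Ξ' q) = q ∧ Ξ' (κ' q) = q ∧ ∀ v, lb (Ξ' q) (fderiv ℝ Ξ' q v) = lb q v) ∧
        ∀ q, ‖q‖ ≤ R → ‖Ξ' q - Ξ q‖ ≤ e ∧ ‖κ' q - κ q‖ ≤ e ∧ ‖fderiv ℝ Ξ' q ey‖ ≤ C

/-- GRAPH: the hypersurface as a graph -/
def GraphStmt : Prop :=
  ∀ y μ : B4 → ℝ, ContDiff ℝ 1 y → Continuous μ → y 0 = 0 →
    (∀ᶠ q in 𝓝 (0 : B4), fderiv ℝ y q es = μ q * y q) → 0 < fderiv ℝ y 0 ey →
    ∃ (η : ℝ × ℝ → ℝ) (lm : B4 → ℝ), ContDiff ℝ 1 η ∧ HasCompactSupport η ∧ η 0 = 0 ∧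
      ∀ᶠ q in 𝓝 (0 : B4), ContinuousAt lm q ∧ y q = exp (lm q) * (q.2.2 - η q.2.1) ∧
        HasDerivAt (fun t : ℝ => lm (q + t • es)) (μ q) 0

/-- DARB4: a smooth chart in which `yv` grows with the last coordinate -/
def Darb4Stmt : Prop :=
  ∀ (V : Type) [NormedAddCommGroup V] [NormedSpace ℝ V] [FiniteDimensional ℝ V] (M : Set V)
    (l : V → V →L[ℝ] ℝ) (Pi : V → (V →L[ℝ] ℝ) →L[ℝ] V) (α : V →L[ℝ] ℝ) (p : V),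
    Smp (Euc 4) M l Pi → p ∈ M → α (Pi p (l p)) = 0 →
    (∃ u ∈ Tg M p, ∃ v ∈ Tg M p, α u * l p v ≠ α v * l p u) →
    ∃ Ψ κ O N, SCh M l Ψ κ O N ∧ p ∈ N ∧ κ p = 0 ∧ 0 < α (fderiv ℝ Ψ 0 ey)

/-- LIMCH: limit charts -/
def LimChStmt : Prop :=
  ∀ (V : Type) [NormedAddCommGroup V] [NormedSpace ℝ V] [FiniteDimensional ℝ V] (M : Set V)
    (l : V → V →L[ℝ] ℝ) (Pi : V → (V →L[ℝ] ℝ) →L[ℝ] V) (φ yv μ : V → ℝ) (Z : V → V)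
    (fl : ℝ → V → V) (p : V), Smp (Euc 4) M l Pi → Continuous φ → Cut M l Pi φ Z fl →
    ContDiff ℝ 1 yv → Continuous μ → p ∈ M → φ p < 4 → yv p = 0 →
    (∀ᶠ x in 𝓝[M] p, fderiv ℝ yv x (Pi x (l x)) = μ x * yv x) →
    (∃ u ∈ Tg M p, ∃ v ∈ Tg M p, fderiv ℝ yv p u * l p v ≠ fderiv ℝ yv p v * l p u) →
    ∃ Ψ κ lm O N, Lim M l yv μ fl Ψ κ lm O N ∧ p ∈ N ∧ κ p = 0

/-- RECENT: a limit chart may be centred elsewhere -/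
def RecentStmt : Prop :=
  ∀ (V : Type) [NormedAddCommGroup V] [NormedSpace ℝ V] (M : Set V) (l : V → V →L[ℝ] ℝ)
    (yv μ : V → ℝ) (fl : ℝ → V → V) (Ψ : B4 → V) (κ : V → B4) (lm : B4 → ℝ) (O : Set B4)
    (N : Set V) (c : B4), Lim M l yv μ fl Ψ κ lm O N →
    Lim M l yv μ fl (fun q => Ψ (Ri c q)) (fun x => Rf c (κ x)) (fun q => lm (Ri c q) - c.1)
      (Ri c ⁻¹' O) N

/-- SECT3: disjoint boxes whose cores meet every orbit through `C` -/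
def Sect3Stmt : Prop :=
  ∀ (V : Type) [NormedAddCommGroup V] [NormedSpace ℝ V] (M N0 C : Set V) (l : V → V →L[ℝ] ℝ)
    (yv μ : V → ℝ) (Z : V → V) (fl : ℝ → V → V), IsFlow Z fl → IsOpen N0 → IsCompact C →
    (∀ p ∈ C, p ∈ M ∧ p ∈ N0 ∧ yv p = 0 ∧
      ∃ Ψ κ lm O N, Lim M l yv μ fl Ψ κ lm O N ∧ p ∈ N ∧ κ p = 0) →
    ∃ (m : ℕ) (bx : Fin m → Bx3 V) (h : ℝ), Boxes3 M N0 l yv μ fl bx h ∧
      ∀ y ∈ C, ∃ b, ∃ u ∈ Icc (-(1 / 2) : ℝ) (1 / 2), ∃ q ∈ cb 0 ((bx b).w / 2),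
        fl u y = (bx b).Ψ q

/-! ### The box -/

/-- VEST: the corrected normal function grows, up to a small error -/
def VestStmt : Prop :=
  ∀ C κ δ h'' : ℝ, 1 ≤ C → 0 < κ → κ ≤ 1 → 0 ≤ δ → 2 * exp (2 * C) * (C + 2) * δ ≤ κ → 0 < h'' →
    ∃ E0, 0 < E0 ∧ ∀ (h w y4 K e y μ r : ℝ) (ν ν2 : ℝ → ℝ) (c : (ℝ × ℝ) × ℝ → ℝ)
      (g : ℝ × ℝ → ℝ) (yk : B4 → ℝ) (q : B4), Cs h w h'' y4 δ K ν ν2 c → ContDiff ℝ ∞ g →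
      ContDiff ℝ ∞ yk → |yk q - y| ≤ e → |fderiv ℝ yk q es - μ * y| ≤ e → κ ≤ μ → μ ≤ C →
      |exp (q.1 + g q.2.1) * q.2.2 - exp r * y| ≤ e → |r| ≤ C →
      (|q.2.2| ≤ y4 → |r| ≤ C * |q.1| + 2 * h'') →
      κ / 2 * (yk q + dv ν c g yk q) ^ 2 - E0 * e * |yk q + dv ν c g yk q| ≤
        (yk q + dv ν c g yk q) * fderiv ℝ (fun q => yk q + dv ν c g yk q) q es

/-- BOXL: the Lyapunov function in the box -/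
def BoxLStmt : Prop :=
  ∀ (h w h'' y4 δ K M η ys I1 ε R N C C' e y' : ℝ) (tp ν ν2 : ℝ → ℝ) (c : (ℝ × ℝ) × ℝ → ℝ)
    (g : ℝ × ℝ → ℝ) (L yk : B4 → ℝ) (F E Ξ : Mo → ℝ), 0 < w → 0 ≤ M → Top h tp →
    Cs h w h'' y4 δ K ν ν2 c → Big h (h'' / 4) (y4 / 16) I1 ε N → ContDiff ℝ ∞ L →
    Plg w (h'' / 4) η (y4 / 16) ys I1 ε R (1 / N) (ell L) g F E Ξ →
    (∀ q ∈ cb h (4 * w), 2 + M * deriv tp q.1 ≤ fderiv ℝ L q es ∧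
      (w < ‖q.2‖ → 2 ≤ fderiv ℝ L q es) ∧ |L (0, q.2) - ell L q.2.1| ≤ C * |q.2.2| ∧
      |q.2.2| ≤ C' * (|yk q| + e)) →
    0 ≤ C → C * y4 ≤ 2 * h'' → K * η ≤ 1 → 0 ≤ C' → 0 ≤ e → 0 < y' → 6 * C' * y' ≤ y4 / 16 →
    18 * C' * e ≤ y4 / 16 * h →
    ∀ x : B4 × ℂ, x.1 ∈ cb h (4 * w) → Vh N yk (dv ν c g yk) x < y' ^ 2 →
      Ly univ (XT N lb Pb fun x => F (Th N x)) (fun x => L x.1 + dL N M tp ν ν2 c L E Ξ x) x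

/-- BOXU: the normal function in the box -/
def BoxUStmt : Prop :=
  ∀ (h w h'' y4 δ K η ys I1 ε R N C κ e y' : ℝ) (ν ν2 : ℝ → ℝ) (c : (ℝ × ℝ) × ℝ → ℝ)
    (ℓ g : ℝ × ℝ → ℝ) (yk : B4 → ℝ) (F E Ξ : Mo → ℝ), 0 < w → Cs h w h'' y4 δ K ν ν2 c →
    Big h (h'' / 4) (y4 / 16) I1 ε N → ContDiff ℝ ∞ g → ContDiff ℝ ∞ yk →
    Plg w (h'' / 4) η (y4 / 16) ys I1 ε R (1 / N) ℓ g F E Ξ →
    (∀ q ∈ cb h (4 * w), g q.2.1 ≤ C ∧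
      κ * (yk q + dv ν c g yk q) ^ 2 - e * |yk q + dv ν c g yk q| ≤
        (yk q + dv ν c g yk q) * fderiv ℝ (fun q => yk q + dv ν c g yk q) q es) →
    0 < κ → κ ≤ 1 → e < κ * y' / 2 → 0 < y' → ys * exp C ≤ y' / 2 →
    ∀ x : B4 × ℂ, x.1 ∈ cb h (4 * w) → y' ^ 2 / 4 ≤ Vh N yk (dv ν c g yk) x →
      0 < fderiv ℝ (Vh N yk (dv ν c g yk)) x (XT N lb Pb (fun x => F (Th N x)) x)

/-- BOX: the box in the model -/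
def BoxMStmt : Prop :=
  ∀ (h w M C κ : ℝ) (tp : ℝ → ℝ), 0 < h → h ≤ 1 / 100 → 0 < w → w ≤ 1 / 20 → 0 ≤ M → 1 ≤ C →
    0 < κ → κ ≤ 1 → Top h tp →
    ∃ h'' y40, 0 < h'' ∧ h'' ≤ 1 ∧ 0 < y40 ∧ ∀ y4, 0 < y4 → y4 ≤ y40 →
      ∃ y1, 0 < y1 ∧ ∀ y', 0 < y' → y' ≤ y1 → ∃ e, 0 < e ∧
        ∀ (L yk : B4 → ℝ) (g : ℝ × ℝ → ℝ), ContDiff ℝ ∞ L → ContDiff ℝ ∞ yk → ContDiff ℝ ∞ g →
          (∀ q ∈ cb h (4 * w), 2 + M * deriv tp q.1 ≤ fderiv ℝ L q es ∧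
            (w < ‖q.2‖ → 2 ≤ fderiv ℝ L q es) ∧ |L (0, q.2) - ell L q.2.1| ≤ C * |q.2.2| ∧
            |g q.2.1| ≤ C ∧ ∃ y μ r : ℝ, |yk q - y| ≤ e ∧ |fderiv ℝ yk q es - μ * y| ≤ e ∧
              κ ≤ μ ∧ μ ≤ C ∧ |exp (q.1 + g q.2.1) * q.2.2 - exp r * y| ≤ e ∧ |r| ≤ C ∧
              (|q.2.2| ≤ y4 → |r| ≤ C * |q.1| + 2 * h'')) →
          ∃ N0 R, 0 ≤ N0 ∧ ∀ N, N0 ≤ N →
            ∃ G δL δv, Bxo univ (cb h (4 * w)) lb Pb yk L y' N R G δL δv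

/-- TRANSF: a box is moved by a smooth chart -/
def TransfStmt : Prop :=
  ∀ (V E : Type) [NormedAddCommGroup V] [NormedSpace ℝ V] [FiniteDimensional ℝ V]
    [NormedAddCommGroup E] [NormedSpace ℝ E] (M : Set V) (l : V → V →L[ℝ] ℝ)
    (Pi : V → (V →L[ℝ] ℝ) →L[ℝ] V) (Ψ : B4 → V) (κ : V → B4) (O A : Set B4) (N' : Set V)
    (yk L : V → ℝ) (yk' L' : B4 → ℝ) (y' N R : ℝ) (G δL : B4 × ℂ → ℝ) (δv : B4 → ℝ),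
    Smp E M l Pi → SCh M l Ψ κ O N' → IsCompact A → A ⊆ O → ContDiff ℝ ∞ yk → ContDiff ℝ ∞ L →
    ContDiff ℝ ∞ yk' → ContDiff ℝ ∞ L' → 0 ≤ N →
    (∀ q ∈ A, ∀ᶠ q' in 𝓝 q, yk' q' = yk (Ψ q') ∧ L' q' = L (Ψ q')) →
    Bxo univ A lb Pb yk' L' y' N R G δL δv →
    ∃ G' δL' δv', Bxo M (Ψ '' A) l Pi yk L y' N R G' δL' δv'

/-- BOXG: the box in the ambient space -/
def BoxGStmt : Prop :=
  ∀ (V E : Type) [NormedAddCommGroup V] [NormedSpace ℝ V] [FiniteDimensional ℝ V]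
    [NormedAddCommGroup E] [NormedSpace ℝ E] (M N1 : Set V) (l : V → V →L[ℝ] ℝ)
    (Pi : V → (V →L[ℝ] ℝ) →L[ℝ] V) (yv μ : V → ℝ) (fl : ℝ → V → V) (B : Bx3 V) (h κ Cμ : ℝ),
    Smp E M l Pi → Continuous yv → Lim M l yv μ fl B.Ψ B.κ B.lm B.O B.N → 0 < h → h ≤ 1 / 100 →
    0 < B.w → B.w ≤ 1 / 20 → cb (10 * h) (5 * B.w) ⊆ B.O → IsOpen N1 →
    B.Ψ '' cb h (4 * B.w) ⊆ N1 → 0 < κ → κ ≤ 1 → (∀ x ∈ M, x ∈ N1 → κ ≤ μ x ∧ μ x ≤ Cμ) →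
    ∃ (β : V → ℝ) (s₀ : ℝ), ContDiff ℝ ∞ β ∧ (∀ x, 0 ≤ β x) ∧
      (∀ x ∈ M, x ∉ B.Ψ '' cb h (4 * B.w) → β x = 0) ∧ s₀ ∈ Icc 0 h ∧
      (∀ q ∈ cb 0 (B.w / 2), 0 < β (B.Ψ (q + s₀ • es))) ∧
      ∀ (M0 : ℝ) (L : V → ℝ), 0 ≤ M0 → ContDiff ℝ ∞ L →
        (∀ x ∈ M, x ∈ N1 → 2 - M0 * β x ≤ fderiv ℝ L x (Pi x (l x))) →
        ∃ y1, 0 < y1 ∧ ∀ y', 0 < y' → y' ≤ y1 → ∃ e, 0 < e ∧ ∀ yk : V → ℝ, ContDiff ℝ ∞ yk →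
          (∀ x ∈ M, x ∈ N1 → |yk x - yv x| ≤ e ∧
            |fderiv ℝ yk x (Pi x (l x)) - μ x * yv x| ≤ e) →
          ∃ (A : Set V) (N0 R : ℝ), IsCompact A ∧ (∀ x ∈ A, x ∈ M ∧ x ∈ N1) ∧
            (∀ x ∈ M, x ∉ A → β x = 0) ∧ 0 ≤ N0 ∧ ∀ N, N0 ≤ N →
              ∃ G δL δv, Bxo M A l Pi yk L y' N R G δL δv

/-! ### The global argument -/

/-- SUM: all boxes together -/
def SumStmt : Prop :=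
  ∀ (V E : Type) [NormedAddCommGroup V] [NormedSpace ℝ V] [FiniteDimensional ℝ V]
    [NormedAddCommGroup E] [NormedSpace ℝ E] (M U N0 : Set V) (l : V → V →L[ℝ] ℝ)
    (Pi : V → (V →L[ℝ] ℝ) →L[ℝ] V) (φ yk Λ L : V → ℝ) (y' N R ε κ e : ℝ) (m : ℕ)
    (A : Fin m → Set V) (G δL : Fin m → V × ℂ → ℝ) (δv : Fin m → V → ℝ),
    Amb E M l Pi φ (1 / 8) → ContDiff ℝ ∞ yk → ContDiff ℝ ∞ Λ → ContDiff ℝ ∞ L → IsOpen N0 →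
    0 < y' → 0 ≤ N → 0 < ε → 0 < κ → κ ≤ 1 → e ≤ κ * y' / 2 →
    (∀ i, IsCompact (A i)) → (∀ i, ∀ x ∈ A i, x ∈ M ∧ φ x < 1 ∧ x ∈ N0) →
    (∀ i j, i ≠ j → Disjoint (A i) (A j)) →
    (∀ i, Bxo M (A i) l Pi yk L y' N R (G i) (δL i) (δv i)) →
    (∀ x, Λ x ∈ Icc (0 : ℝ) 1) → (∀ x ∈ N0, Λ x = 0) →
    (∀ x ∈ M, φ x ≤ 2 → 0 ≤ fderiv ℝ Λ x (Pi x (l x)) ∧ (x ∉ U → Λ x = 1) ∧
      (x ∈ U → κ * yk x ^ 2 - e * |yk x| ≤ yk x * fderiv ℝ yk x (Pi x (l x)))) →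
    (∀ x ∈ M, φ x ≤ 7 / 4 → (∀ i, x ∉ A i) → 0 < fderiv ℝ L x (Pi x (l x))) →
    ∃ G' Φ : V × ℂ → ℝ, ContDiff ℝ ∞ G' ∧ ContDiff ℝ ∞ Φ ∧
      (∀ q ∈ ov M ℂ, 1 ≤ φ q.1 ∨ R < ‖q.2‖ → ∀ᶠ q' in 𝓝[ov M ℂ] q, G' q' = 0) ∧
      ∀ q ∈ ov M ℂ, psT φ ε q ≤ 7 / 4 → Ly (ov M ℂ) (XT N l Pi G') Φ q

/-- MAIN: the ambient form of the theorem -/
def Main2Stmt : Prop :=
  ∀ (V : Type) [NormedAddCommGroup V] [NormedSpace ℝ V] [FiniteDimensional ℝ V] (M U K₀ : Set V)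
    (l : V → V →L[ℝ] ℝ) (Pi : V → (V →L[ℝ] ℝ) →L[ℝ] V) (φ yv μ : V → ℝ),
    Amb (Euc 4) M l Pi φ (1 / 8) → (∀ x ∈ M, 0 ≤ fderiv ℝ φ x (Pi x (l x))) →
    Hyp M l Pi φ yv μ U K₀ →
    ∃ N ε A B G Φ, 0 ≤ N ∧ 0 < ε ∧ Wein (ov M ℂ) (lT N l) (PT N l Pi) (psT φ ε) A B G Φ

/-- HYP: the hypothesis passes to the ambient space -/
def HypStmt : Prop :=
  ∀ (d : ℕ) (W V : Type) [TopologicalSpace W] [ChartedSpace (Euc d) W] [IsManifold (𝓡 d) ∞ W]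
    [NormedAddCommGroup V] [NormedSpace ℝ V] [FiniteDimensional ℝ V] (l : OneForm (𝓡 d) W)
    (Z : VField (𝓡 d) W) (φ y μ : W → ℝ) (U : Set W) (e : W → V) (l' : V → V →L[ℝ] ℝ)
    (Pi : V → (V →L[ℝ] ℝ) →L[ℝ] V) (φ' : V → ℝ), IsLiouville (𝓡 d) l Z →
    Emb l Z φ e l' Pi φ' → IsOpen U → ContMDiffOn (𝓡 d) 𝓘(ℝ, ℝ) 1 y U → ContinuousOn μ U →
    (∀ x ∈ U, der (𝓡 d) y x (Z x) = μ x * y x) →
    (∀ x ∈ skeleton Z, x ∈ U ∧ y x = 0 ∧ 0 < μ x ∧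
      ∃ u v, der (𝓡 d) y x u * l x v ≠ der (𝓡 d) y x v * l x u) →
    ∃ yv μ' U' K₀, Hyp (e '' {x | φ x < 6}) l' Pi φ' yv μ' U' K₀

/-! ### Small shared lemmas -/

section Small

theorem Rf_Ri (c q : B4) : Rf c (Ri c q) = q := by
  ext <;> simp [Rf, Ri, ← mul_assoc, ← exp_add]

theorem Ri_Rf (c q : B4) : Ri c (Rf c q) = q := by
  ext <;> simp [Rf, Ri, ← mul_assoc, ← exp_add]

theorem contDiff_dv {ν : ℝ → ℝ} {c : (ℝ × ℝ) × ℝ → ℝ} {g : ℝ × ℝ → ℝ} {yk : B4 → ℝ}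
    (hν : ContDiff ℝ ∞ ν) (hc : ContDiff ℝ ∞ c) (hg : ContDiff ℝ ∞ g) (hy : ContDiff ℝ ∞ yk) :
    ContDiff ℝ ∞ (dv ν c g yk) := by
  unfold dv
  fun_prop

variable {V : Type} [NormedAddCommGroup V] [NormedSpace ℝ V] {M : Set V} {l : V → V →L[ℝ] ℝ}
  {Pi : V → (V →L[ℝ] ℝ) →L[ℝ] V} {N : ℝ}

theorem contDiff_Vh {yk δv : V → ℝ} (h : ContDiff ℝ ∞ yk) (h' : ContDiff ℝ ∞ δv) :
    ContDiff ℝ ∞ (Vh N yk δv) :=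
  (((h.comp contDiff_fst).add (h'.comp contDiff_fst)).mul (contDiff_const.add
    ((contDiff_rho N).comp contDiff_snd))).pow 2

variable {E : Type} [NormedAddCommGroup E] [NormedSpace ℝ E] {φ : V → ℝ} {Ψ : B4 → V}
  {κ : V → B4} {O : Set B4} {N' : Set V}

/-- the Liouville field in a smooth chart -/
theorem SCh.dΨ (h : SCh M l Ψ κ O N') (hS : Smp E M l Pi) {q : B4} (hq : q ∈ O) :
    fderiv ℝ Ψ q es = Pi (Ψ q) (l (Ψ q)) := by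
  have ht := h.par.tg hq
  refine hS.uniq (h.par.gm q hq).1 (ht ▸ mem_range_self _) fun v hv => ?_
  rw [ht] at hv
  obtain ⟨u, rfl⟩ := hv
  have he : Darb.pb l Ψ =ᶠ[𝓝 q] lb := by
    filter_upwards [h.par.oO.mem_nhds hq] with q' hq'
    exact ContinuousLinearMap.ext fun v => h.form q' hq' v
  rw [← Darb.dd_pb hS.sl.contDiffAt (h.par.cg hq), Darb.dd_congr he, dd_lb_es, h.form q hq]

/-- the flow in a smooth chart -/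
theorem SCh.flow (h : SCh M l Ψ κ O N') (hS : Smp E M l Pi) {Z : V → V} {fl : ℝ → V → V}
    (hc : Cut M l Pi φ Z fl) {q : B4} {t : ℝ}
    (hq : ∀ u ∈ uIcc 0 t, q + u • es ∈ O ∧ φ (Ψ (q + u • es)) ≤ 4) :
    fl t (Ψ q) = Ψ (q + t • es) := by
  have := hc.flow.eq_of (c := fun u => Ψ (q + u • es)) (a := 0) (b := t) fun u hu => by
    obtain ⟨h1, h2⟩ := hq u hu
    rw [hc.eq _ (h.par.gm _ h1).1 h2, ← h.dΨ hS h1]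
    have h3 : HasDerivAt (fun u : ℝ => q + u • es) es u := by
      simpa using ((hasDerivAt_id u).smul_const es).const_add q
    exact (h.par.dg h1).hasFDerivAt.comp_hasDerivAt u h3
  simpa using this.symm

end Small

end Pool.Agent.MP_6d695c_gt.T2
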