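import Mathlib.Geometry.Manifold.SmoothApprox
import Pool.Agent.MP_6d695c_gt.t2.SpecB

/-! PROJECT T2, row BOXG: the box in the ambient space. -/

open scoped Manifold ContDiff Topology Uniformity
open Set Metric Filter Real

namespace Pool.Agent.MP_6d695c_gt.T2

open SW T1 Theta

namespace BoxG

/-- uniform continuity near a compact set -/
theorem near {X F : Type} [NormedAddCommGroup X] [NormedAddCommGroup F] {K : Set X}
    (hK : IsCompact K) {f : X → F} (hf : Continuous f) {ε : ℝ} (hε : 0 < ε) :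
    ∃ δ, 0 < δ ∧ ∀ x ∈ K, ∀ x', ‖x' - x‖ ≤ δ → ‖f x' - f x‖ ≤ ε := by
  obtain ⟨δ, hδ, h⟩ := mem_uniformity_dist.1 (hK.uniformContinuousAt_of_continuousAt f
    (fun a _ => hf.continuousAt) (dist_mem_uniformity hε))
  refine ⟨δ / 2, half_pos hδ, fun x hx x' hx' => ?_⟩
  have h1 : dist x x' < δ := by
    rw [dist_comm, dist_eq_norm]
    linarith
  have h2 : dist (f x) (f x') < ε := h h1 hx
  rw [dist_comm, dist_eq_norm] at h2
  exact h2.le

theorem near_open {X : Type} [NormedAddCommGroup X] {K U : Set X} (hK : IsCompact K)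
    (hU : IsOpen U) (h : K ⊆ U) : ∃ δ, 0 < δ ∧ ∀ x ∈ K, ∀ x', ‖x' - x‖ ≤ δ → x' ∈ U := by
  obtain ⟨δ, hδ, h1⟩ := hK.exists_cthickening_subset_open hU h
  exact ⟨δ, hδ, fun x hx x' hx' =>
    h1 (mem_cthickening_of_dist_le x' x δ K hx (by rwa [dist_eq_norm]))⟩

/-- smooth approximation on a square -/
theorem approx {f : ℝ × ℝ → ℝ} {r ε : ℝ} (hr : 0 ≤ r) (hf : ContinuousOn f (closedBall 0 r))
    (hε : 0 < ε) : ∃ g : ℝ × ℝ → ℝ, ContDiff ℝ ∞ g ∧ ∀ p, ‖p‖ ≤ r → |g p - f p| ≤ ε := by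
  let c : ℝ → ℝ := fun t => max (-r) (min r t)
  have c1 : ∀ t, |c t| ≤ r := fun t =>
    abs_le.2 ⟨le_max_left _ _, max_le (by linarith) (min_le_left _ _)⟩
  have c2 : ∀ t, |t| ≤ r → c t = t := fun t ht => by
    have := abs_le.1 ht
    simp only [c, min_eq_right this.2, max_eq_right this.1]
  have c3 : Continuous c := continuous_const.max (continuous_const.min continuous_id)
  have h1 : Continuous fun p : ℝ × ℝ => f (c p.1, c p.2) :=
    hf.comp_continuous ((c3.comp continuous_fst).prodMk (c3.comp continuous_snd)) fun p => by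
      rw [mem_closedBall_zero_iff, Prod.norm_def]
      exact max_le (c1 _) (c1 _)
  obtain ⟨g, hg, h2, -⟩ := h1.exists_contDiff_approx ⊤ (ε := fun _ => ε) continuous_const
    fun _ => hε
  refine ⟨g, hg, fun p hp => ?_⟩
  have h3 := h2 p
  rw [c2 _ ((norm_fst_le p).trans hp), c2 _ ((norm_snd_le p).trans hp), Real.dist_eq] at h3
  exact h3.le

theorem mem_cb {h w : ℝ} {q : B4} (hq : q ∈ cb h w) {s t : ℝ} (hs : |s| ≤ h) (ht : |t| ≤ w) :
    ((s, q.2.1, t) : B4) ∈ cb h w :=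
  ⟨hs, by
    rw [Prod.norm_def]
    exact max_le ((norm_fst_le q.2).trans hq.2) ht⟩

/-- the mean value inequality on an interval -/
theorem mvt {f f' : ℝ → ℝ} {a C x : ℝ} (hx : |x| ≤ a)
    (h : ∀ t, |t| ≤ a → HasDerivAt f (f' t) t ∧ |f' t| ≤ C) : |f x - f 0| ≤ C * |x| := by
  have := Convex.norm_image_sub_le_of_norm_hasDerivWithin_le (f := f) (f' := f') (C := C)
    (s := Icc (-a) a) (fun t ht => (h t (abs_le.2 ht)).1.hasDerivWithinAt)
    (fun t ht => (h t (abs_le.2 ht)).2) (convex_Icc _ _)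
    (abs_le.1 (show |(0 : ℝ)| ≤ a by rw [abs_zero]; exact (abs_nonneg x).trans hx)) (abs_le.1 hx)
  simpa using this

/-- a function on the chart that is smooth everywhere -/
theorem ext {V : Type} [NormedAddCommGroup V] [NormedSpace ℝ V] {Ψ : B4 → V} {O Q : Set B4}
    (hO : IsOpen O) (hΨ : ContDiffOn ℝ ∞ Ψ O) (hQ : IsCompact Q) (h : Q ⊆ O) {u : V → ℝ}
    (hu : ContDiff ℝ ∞ u) :
    ∃ u' : B4 → ℝ, ContDiff ℝ ∞ u' ∧ ∀ q ∈ Q, ∀ᶠ q' in 𝓝 q, u' q' = u (Ψ q') := by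
  obtain ⟨b, b1, -, b2, b3, -⟩ := exists_cut hQ hO h
  refine ⟨fun q => b q • u (Ψ q), contDiff_cut_smul hO b1 b2 (hu.comp_contDiffOn hΨ),
    fun q hq => (b3 q hq).mono fun q' hq' => ?_⟩
  simp only [hq', one_smul]

theorem dcomp {V : Type} [NormedAddCommGroup V] [NormedSpace ℝ V] {Ψ : B4 → V} {q : B4}
    (hΨ : DifferentiableAt ℝ Ψ q) {u : V → ℝ} (hu : ContDiff ℝ ∞ u) {u' : B4 → ℝ}
    (h : ∀ᶠ q' in 𝓝 q, u' q' = u (Ψ q')) :
    HasFDerivAt u' ((fderiv ℝ u (Ψ q)).comp (fderiv ℝ Ψ q)) q :=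
  ((hu.differentiable (by simp) _).hasFDerivAt.comp q hΨ.hasFDerivAt).congr_of_eventuallyEq h

end BoxG

open BoxG in
theorem boxG (cuts : CutsStmt) (boxM : BoxMStmt) (transf : TransfStmt) : BoxGStmt := by
  rintro V E _ _ _ _ _ M N1 l Pi yv μ fl ⟨Ψ, κ₀, lm, O, N, w⟩ h κ Cμ hS hyv hL h0 h1 w0 w1 hsub
    hN1 hlow κ0 κ1 hμ
  simp only at hL w0 w1 hsub hlow ⊢
  have hT := hL.top
  have hQ := isCompact_cb h (4 * w)
  have hQO : cb h (4 * w) ⊆ O := (cb_mono (by linarith) (by linarith)).trans hsub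
  have hK : IsCompact (Ψ '' cb h (4 * w)) := hQ.image_of_continuousOn (hT.cΨ.mono hQO)
  have hMN : ∀ q ∈ cb h (4 * w), Ψ q ∈ M ∧ Ψ q ∈ N1 := fun q hq =>
    ⟨(hT.gm q (hQO hq)).1, hlow ⟨q, hq, rfl⟩⟩
  have hc : IsCompact (cb h (w / 2) ∩ {q | q.1 = 2 / 5 * h}) :=
    (isCompact_cb _ _).inter_right (isClosed_eq continuous_fst continuous_const)
  have hcQ : cb h (w / 2) ∩ {q | q.1 = 2 / 5 * h} ⊆ cb h (4 * w) :=
    inter_subset_left.trans (cb_mono le_rfl (by linarith))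
  have hU : IsOpen (N ∩ {x | 7 / 20 * h < (κ₀ x).1 ∧ (κ₀ x).1 < 9 / 20 * h ∧
      ‖(κ₀ x).2‖ < 9 / 10 * w}) :=
    hT.oN.inter ((isOpen_lt continuous_const hT.cκ.fst).inter
      ((isOpen_lt hT.cκ.fst continuous_const).inter (isOpen_lt hT.cκ.snd.norm continuous_const)))
  obtain ⟨β, β1, -, β2, β3, β4⟩ := exists_cut
    (hc.image_of_continuousOn (hT.cΨ.mono (hcQ.trans hQO))) hU (by
      rintro _ ⟨q, hq, rfl⟩
      have h2 := hT.gm q (hQO (hcQ hq))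
      have h3 : q.1 = 2 / 5 * h := hq.2
      have h4 : ‖q.2‖ ≤ w / 2 := hq.1.2
      refine ⟨h2.2.1, ?_⟩
      rw [mem_ofPred_eq, h2.2.2]
      exact ⟨by linarith, by linarith, by linarith⟩)
  have hβ : ∀ x, β x ≠ 0 → x ∈ N ∧ 7 / 20 * h < (κ₀ x).1 ∧ (κ₀ x).1 < 9 / 20 * h ∧
      ‖(κ₀ x).2‖ < 9 / 10 * w := fun x hx => β2 (subset_tsupport β hx)
  have hβQ : ∀ x, β x ≠ 0 → κ₀ x ∈ cb h (4 * w) := fun x hx => by
    obtain ⟨-, a1, a2, a3⟩ := hβ x hx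
    exact ⟨abs_le.2 ⟨by linarith, by linarith⟩, by linarith⟩
  refine ⟨β, 2 / 5 * h, β1, fun x => (β4 x).1, fun x hx hx' => ?_, ⟨by linarith, by linarith⟩,
    fun q hq => ?_, fun M0 L hM0 hLs hLd => ?_⟩
  · by_contra hb
    exact hx' ⟨_, hβQ x hb, (hT.rm x hx (hβ x hb).1).2⟩
  · have h2 : q.1 = 0 := abs_nonpos_iff.1 hq.1
    have h3 : (q + (2 / 5 * h) • es).1 = 2 / 5 * h := by simp [es, h2]
    have h4 : (q + (2 / 5 * h) • es).2 = q.2 := by simp [es]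
    rw [(β3 _ ⟨_, ⟨⟨by rw [h3]; exact abs_le.2 ⟨by linarith, by linarith⟩,
      by rw [h4]; exact hq.2⟩, h3⟩, rfl⟩).self_of_nhds]
    exact one_pos
  obtain ⟨⟨tp, htp⟩, -⟩ := cuts h w h0 w0
  obtain ⟨c0, c0p, hc0⟩ := exists_pos_le (u := fun s => -deriv tp s)
    (isCompact_Icc (a := 17 / 50 * h) (b := 23 / 50 * h))
    (htp.st.continuous_deriv (by simp)).neg.continuousOn
    fun s hs => neg_pos.2 (htp.neg s ⟨by linarith [hs.1], by linarith [hs.2]⟩)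
  obtain ⟨Ca, hCa⟩ := hL.app _ hQ hQO
  have := FiniteDimensional.proper_real V
  obtain ⟨CL, CLp, hCL⟩ := exists_fderiv_bound (hLs.of_le (by simp)) (hK.cthickening (r := 1))
  obtain ⟨S, hS0⟩ := hQ.exists_bound_of_continuousOn (hL.cm.mono hQO)
  obtain ⟨C, C1, C2, C3, C4⟩ : ∃ C : ℝ, 1 ≤ C ∧ CL * Ca ≤ C ∧ 2 * |S| + 2 ≤ C ∧ |Cμ| + 1 ≤ C :=
    ⟨1 + |CL * Ca| + (2 * |S| + 2) + (|Cμ| + 1), by
      have := abs_nonneg (CL * Ca); have := abs_nonneg S; have := abs_nonneg Cμ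
      have := le_abs_self (CL * Ca)
      exact ⟨by linarith, by linarith, by linarith, by linarith⟩⟩
  have hS1 : ∀ q ∈ cb h (4 * w), |lm q| ≤ |S| := fun q hq => (hS0 q hq).trans (le_abs_self S)
  obtain ⟨h'', y40, h''0, h''1, y40p, hbox⟩ :=
    boxM h w (M0 / c0) C κ tp h0 h1 w0 w1 (div_nonneg hM0 c0p.le) C1 κ0 κ1 htp
  have hax : ∀ p : ℝ × ℝ, ‖p‖ ≤ 4 * w → ((0, p, 0) : B4) ∈ cb h (4 * w) := fun p hp =>
    ⟨by simpa using h0.le, by simpa using hp⟩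
  obtain ⟨g, hg, hg'⟩ := approx (f := fun p => lm (0, p, 0)) (r := 4 * w) (by linarith)
    ((hL.cm.mono hQO).comp (by fun_prop) fun p hp => hax p (mem_closedBall_zero_iff.1 hp)) h''0
  obtain ⟨δ, δp, hδ⟩ := Metric.uniformContinuousOn_iff_le.1
    (hQ.uniformContinuousOn_of_continuous (hL.cm.mono hQO)) h'' h''0
  obtain ⟨y1, y1p, hbox⟩ := hbox (min y40 δ) (lt_min y40p δp) (min_le_left _ _)
  refine ⟨y1, y1p, fun y' y'p hy' => ?_⟩
  obtain ⟨e, ep, hbox⟩ := hbox y' y'p hy'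
  refine ⟨e, ep, fun yk hyk hyk' => ?_⟩
  obtain ⟨e1, e1p, he1⟩ := near_open hK hN1 hlow
  obtain ⟨e2, e2p, he2⟩ := near hK hyv (div_pos ep (exp_pos C))
  obtain ⟨e3, e3p, he3⟩ := near hK hT.cκ (lt_min (show 0 < h / 100 by linarith)
    (show 0 < w / 10 by linarith))
  obtain ⟨e', e'p, k1, k2, k3, k4, k5, k6⟩ : ∃ e' : ℝ, 0 < e' ∧ e' ≤ e1 ∧ e' ≤ e2 ∧ e' ≤ e3 ∧
      e' ≤ 1 ∧ e' ≤ h / 2 ∧ e' ≤ w := by
    refine ⟨min (min e1 e2) (min (min e3 1) (min (h / 2) w)), by positivity, ?_⟩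
    simp only [min_le_iff, le_refl, true_or, or_true, and_self]
  obtain ⟨Ψ', κ', O', N', hch, hQO', happ⟩ := hCa e' e'p
  have hMN' : ∀ q ∈ cb h (4 * w), Ψ' q ∈ M ∧ Ψ' q ∈ N1 := fun q hq =>
    ⟨(hch.par.gm q (hQO' hq)).1, he1 _ ⟨q, hq, rfl⟩ _ ((happ q hq).1.trans k1)⟩
  obtain ⟨L', hL's, hL'⟩ := ext hch.par.oO hch.par.sg hQ hQO' hLs
  obtain ⟨yk', hy's, hy''⟩ := ext hch.par.oO hch.par.sg hQ hQO' hyk
  obtain ⟨N0, R, N0p, hbox⟩ := hbox L' yk' g hL's hy's hg fun q hq => by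
    have m1 := hMN' q hq
    have d1 : fderiv ℝ L' q es = fderiv ℝ L (Ψ' q) (Pi (Ψ' q) (l (Ψ' q))) := by
      rw [(dcomp (hch.par.dg (hQO' hq)) hLs (hL' q hq)).fderiv, ← hch.dΨ hS (hQO' hq)]
      rfl
    have d2 : fderiv ℝ yk' q es = fderiv ℝ yk (Ψ' q) (Pi (Ψ' q) (l (Ψ' q))) := by
      rw [(dcomp (hch.par.dg (hQO' hq)) hyk (hy'' q hq)).fderiv, ← hch.dΨ hS (hQO' hq)]
      rfl
    have d3 := hLd _ m1.1 m1.2
    have d4 : β (Ψ' q) ≠ 0 → q.1 ∈ Icc (17 / 50 * h) (23 / 50 * h) ∧ ‖q.2‖ ≤ w := fun hb => by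
      obtain ⟨-, a1, a2, a3⟩ := hβ _ hb
      have a4 := he3 _ ⟨q, hq, rfl⟩ _ ((happ q hq).1.trans k3)
      rw [(hT.gm q (hQO hq)).2.2] at a4
      have a5 := abs_le.1 (show |(κ₀ (Ψ' q)).1 - q.1| ≤ h / 100 from
        ((norm_fst_le _).trans a4).trans (min_le_left _ _))
      have a6 : ‖(κ₀ (Ψ' q)).2 - q.2‖ ≤ w / 10 :=
        ((norm_snd_le (κ₀ (Ψ' q) - q)).trans a4).trans (min_le_right _ _)
      have a7 := norm_sub_norm_le q.2 (κ₀ (Ψ' q)).2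
      rw [norm_sub_rev] at a7
      exact ⟨⟨by linarith, by linarith⟩, by linarith⟩
    have hp : ‖q.2.1‖ ≤ 4 * w := (norm_fst_le q.2).trans hq.2
    have hy : |q.2.2| ≤ 4 * w := (norm_snd_le q.2).trans hq.2
    have hs : |q.1| ≤ h := hq.1
    have g1 := abs_le.1 (hg' _ hp)
    have g2 := abs_le.1 (hS1 _ (hax _ hp))
    have g3 := abs_le.1 (hS1 q hq)
    have g4 := abs_le.1 hs
    have g5 := abs_nonneg S
    have r1 : |q.1 + g q.2.1 - lm q| ≤ C := abs_le.2 ⟨by linarith, by linarith⟩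
    refine ⟨?_, fun hw => ?_, ?_, abs_le.2 ⟨by linarith, by linarith⟩, yv (Ψ' q), μ (Ψ' q),
      q.1 + g q.2.1 - lm q, ?_, ?_, (hμ _ m1.1 m1.2).1, ?_, ?_, r1, fun hy4 => ?_⟩
    · rw [d1]
      refine le_trans ?_ d3
      by_cases hb : β (Ψ' q) = 0
      · rw [hb]
        linarith [mul_nonneg (div_nonneg hM0 c0p.le) (neg_nonneg.2 (htp.td q.1))]
      · have a1 := mul_le_mul_of_nonneg_left (hc0 _ (d4 hb).1) (div_nonneg hM0 c0p.le)
        rw [div_mul_cancel₀ _ c0p.ne'] at a1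
        linarith [mul_le_mul_of_nonneg_left (β4 (Ψ' q)).2 hM0]
    · have hb : β (Ψ' q) = 0 := by
        by_contra hb
        linarith [(d4 hb).2]
      rw [hb] at d3
      rw [d1]
      linarith
    · refine mvt (f := fun t => L' (0, q.2.1, t))
        (f' := fun t => fderiv ℝ L (Ψ' (0, q.2.1, t)) (fderiv ℝ Ψ' (0, q.2.1, t) ey)) hy
        fun t ht => ?_
      have m2 := mem_cb hq (s := 0) (by simpa using h0.le) ht
      have a1 : HasDerivAt (fun t : ℝ => ((0, q.2.1, t) : B4)) ey t :=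
        (hasDerivAt_const t _).prodMk ((hasDerivAt_const t _).prodMk (hasDerivAt_id t))
      have a2 := HasFDerivAt.comp_hasDerivAt (l := L') (f := fun t : ℝ => ((0, q.2.1, t) : B4)) t
        (dcomp (hch.par.dg (hQO' m2)) hLs (hL' _ m2)) a1
      refine ⟨a2, ?_⟩
      refine ((fderiv ℝ L _).le_opNorm _).trans (le_trans ?_ C2)
      exact mul_le_mul (hCL _ (mem_cthickening_of_dist_le _ _ 1 _ ⟨_, m2, rfl⟩
        (by rw [dist_eq_norm]; exact (happ _ m2).1.trans k4))) (happ _ m2).2.2.2 (norm_nonneg _)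
        CLp.le
    · rw [(hy'' q hq).self_of_nhds]
      exact (hyk' _ m1.1 m1.2).1
    · rw [d2]
      exact (hyk' _ m1.1 m1.2).2
    · linarith [(hμ _ m1.1 m1.2).2, le_abs_self Cμ]
    · have a1 : exp (q.1 + g q.2.1) * q.2.2 = exp (q.1 + g q.2.1 - lm q) * yv (Ψ q) := by
        rw [hL.eq q (hQO hq), ← mul_assoc, ← exp_add, sub_add_cancel]
      have a2 : |yv (Ψ' q) - yv (Ψ q)| ≤ e / exp C :=
        he2 _ ⟨q, hq, rfl⟩ _ ((happ q hq).1.trans k2)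
      rw [a1, ← mul_sub, abs_mul, abs_of_pos (exp_pos _), abs_sub_comm]
      calc _ ≤ exp C * (e / exp C) :=
            mul_le_mul (exp_le_exp.2 (abs_le.1 r1).2) a2 (abs_nonneg _) (exp_pos _).le
        _ = e := mul_div_cancel₀ _ (exp_pos C).ne'
    · have m2 := mem_cb hq (s := 0) (by simpa using h0.le) hy
      have a1 := hδ _ m2 _ (hax _ hp) (by
        simpa [Prod.dist_eq, Real.dist_eq] using hy4.trans (min_le_right _ _))
      rw [Real.dist_eq] at a1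
      have a2 : |lm (q.1, q.2) - lm (0, q.2)| ≤ |Cμ| * |q.1| := by
        refine mvt (f := fun s => lm (s, q.2)) (f' := fun s => μ (Ψ (s, q.2))) hs fun s hs' => ?_
        have m3 : ((s, q.2) : B4) ∈ cb h (4 * w) := ⟨hs', hq.2⟩
        have a3 := hμ _ (hMN _ m3).1 (hMN _ m3).2
        refine ⟨?_, abs_le.2 ⟨by linarith [a3.1, abs_nonneg Cμ], a3.2.trans (le_abs_self _)⟩⟩
        have a4 := HasDerivAt.comp_sub_const s s (f := fun t : ℝ => lm ((s, q.2) + t • es))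
          (by rw [sub_self]; exact hL.dm _ (hQO m3))
        refine a4.congr_of_eventuallyEq (Eventually.of_forall fun t => congrArg lm ?_)
        simp [es]
      have a3 := abs_le.1 a1
      have a4 := abs_le.1 a2
      have a5 := mul_le_mul_of_nonneg_right C4 (abs_nonneg q.1)
      have a6 := le_abs_self q.1
      have a7 := neg_abs_le q.1
      have a8 : lm (q.1, q.2) = lm q := rfl
      have a9 : lm (0, q.2.1, q.2.2) = lm (0, q.2) := rfl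
      exact abs_le.2 ⟨by linarith, by linarith⟩
  refine ⟨Ψ' '' cb h (4 * w), N0, R, hQ.image_of_continuousOn (hch.par.sg.continuousOn.mono hQO'),
    ?_, fun x hx hx' => ?_, N0p, fun N' hN' => ?_⟩
  · rintro _ ⟨q, hq, rfl⟩
    exact hMN' q hq
  · by_contra hb
    obtain ⟨a0, a1, a2, a3⟩ := hβ x hb
    obtain ⟨-, a4, a5, -⟩ := happ _ (hβQ x hb)
    rw [(hT.rm x hx a0).2] at a4 a5
    have a6 := abs_le.1 (show |(κ' x).1 - (κ₀ x).1| ≤ e' from (norm_fst_le _).trans a5)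
    have a7 : ‖(κ' x).2 - (κ₀ x).2‖ ≤ e' := (norm_snd_le (κ' x - κ₀ x)).trans a5
    have a8 := norm_sub_norm_le (κ' x).2 (κ₀ x).2
    exact hx' ⟨κ' x, ⟨abs_le.2 ⟨by linarith, by linarith⟩, by linarith⟩, (hch.par.rm x hx a4).2⟩
  · obtain ⟨G, δL, δv, hB⟩ := hbox N' hN'
    exact transf V E M l Pi Ψ' κ' O' _ _ yk L yk' L' y' N' R G δL δv hS hch hQ hQO' hyk hLs hy's
      hL's (N0p.trans hN') (fun q hq => (hy'' q hq).and (hL' q hq)) hB

end Pool.Agent.MP_6d695c_gt.T2
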