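import Pool.Agent.MP_6d695c_gt.t2.SpecB

/-! PROJECT T2, row BOXL: the Lyapunov function in the box. -/

open scoped Manifold ContDiff Topology MeasureTheory
open Set Metric Filter Real

namespace Pool.Agent.MP_6d695c_gt.T2

open SW T1 Theta

namespace BoxL

section Dr
variable {X : Type} [NormedAddCommGroup X] [NormedSpace ℝ X] {f g : X → ℝ} {x v : X} {r s : ℝ}

/-- the derivative of `f` at `x` along `v` is `r` -/
def Dr (f : X → ℝ) (x v : X) (r : ℝ) : Prop := ∃ A : X →L[ℝ] ℝ, HasFDerivAt f A x ∧ A v = r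

theorem Dr.eq (h : Dr f x v r) : fderiv ℝ f x v = r := by
  obtain ⟨A, h1, h2⟩ := h
  rw [h1.fderiv, h2]

theorem Dr.add (h : Dr f x v r) (h' : Dr g x v s) : Dr (fun y => f y + g y) x v (r + s) := by
  obtain ⟨A, h1, rfl⟩ := h
  obtain ⟨B, h2, rfl⟩ := h'
  exact ⟨_, h1.add h2, rfl⟩

theorem Dr.sub (h : Dr f x v r) (h' : Dr g x v s) : Dr (fun y => f y - g y) x v (r - s) := by
  obtain ⟨A, h1, rfl⟩ := h
  obtain ⟨B, h2, rfl⟩ := h'
  exact ⟨_, h1.sub h2, rfl⟩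

theorem Dr.mul (h : Dr f x v r) (h' : Dr g x v s) :
    Dr (fun y => f y * g y) x v (f x * s + g x * r) := by
  obtain ⟨A, h1, rfl⟩ := h
  obtain ⟨B, h2, rfl⟩ := h'
  exact ⟨_, h1.mul h2, rfl⟩

theorem Dr.cmul (c : ℝ) (h : Dr f x v r) : Dr (fun y => c * f y) x v (c * r) := by
  obtain ⟨A, h1, rfl⟩ := h
  exact ⟨_, h1.const_mul c, rfl⟩

theorem Dr.comp {X' : Type} [NormedAddCommGroup X'] [NormedSpace ℝ X'] {u : X' → ℝ} {A : X → X'}
    (hu : ContDiff ℝ ∞ u) (hA : ContDiff ℝ ∞ A) (x v : X) :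
    Dr (fun y => u (A y)) x v (fderiv ℝ u (A x) (fderiv ℝ A x v)) :=
  ⟨_, (hu.differentiable (by simp) (A x)).hasFDerivAt.comp x
    (hA.differentiable (by simp) x).hasFDerivAt, rfl⟩

theorem Dr.lin {X' : Type} [NormedAddCommGroup X'] [NormedSpace ℝ X'] {u : X' → ℝ}
    (hu : ContDiff ℝ ∞ u) (A : X →L[ℝ] X') (x v : X) :
    Dr (fun y => u (A y)) x v (fderiv ℝ u (A x) (A v)) :=
  ⟨_, (hu.differentiable (by simp) (A x)).hasFDerivAt.comp x A.hasFDerivAt, rfl⟩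

theorem Dr.self (hf : ContDiff ℝ ∞ f) (x v : X) : Dr f x v (fderiv ℝ f x v) :=
  ⟨_, (hf.differentiable (by simp) x).hasFDerivAt, rfl⟩

end Dr

theorem der_one {f : ℝ → ℝ} (hr : ∀ s, f s ∈ Icc (0 : ℝ) 1) {s : ℝ} (h : f s = 1) :
    deriv f s = 0 :=
  IsLocalMax.deriv_eq_zero (.of_forall fun t => (hr t).2.trans h.ge)

theorem der_zero {f : ℝ → ℝ} (hr : ∀ s, f s ∈ Icc (0 : ℝ) 1) {s : ℝ} (h : f s = 0) :
    deriv f s = 0 :=
  IsLocalMin.deriv_eq_zero (.of_forall fun t => h.le.trans (hr t).1)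

/-- growth in the direction of the flow -/
theorem grow {L : B4 → ℝ} (hL : ContDiff ℝ ∞ L) (p : (ℝ × ℝ) × ℝ) {b : ℝ}
    (h : ∀ t, |t| ≤ b → 2 ≤ fderiv ℝ L (t, p) es) {s t : ℝ} (hs : |s| ≤ b) (ht : |t| ≤ b)
    (hst : s ≤ t) : 2 * (t - s) ≤ L (t, p) - L (s, p) := by
  have d : ∀ t : ℝ, HasDerivAt (fun t : ℝ => L (t, p)) (fderiv ℝ L (t, p) es) t := fun t =>
    (hL.differentiable (by simp) (t, p)).hasFDerivAt.comp_hasDerivAt t
      ((hasDerivAt_id t).prodMk (hasDerivAt_const t p))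
  refine (convex_Icc (-b) b).mul_sub_le_image_sub_of_le_deriv
    (fun t _ => (d t).continuousAt.continuousWithinAt)
    (fun t _ => (d t).differentiableAt.differentiableWithinAt) (fun t ht => ?_) s (abs_le.1 hs) t
    (abs_le.1 ht) hst
  rw [(d t).deriv]
  exact h t (abs_le.2 (mem_Icc.1 (interior_subset ht)))

/-- the field off the region where the plug acts -/
theorem XT_off (mod : ModStmt) (smpT : SmpTStmt) {N : ℝ} (hN : 0 ≤ N) {G : B4 × ℂ → ℝ}
    {x : B4 × ℂ} (h : ∀ᶠ y in 𝓝 x, G y = 0) :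
    XT N lb Pb G x = ((1 + rho N x.2)⁻¹ • es, (1 / 2 : ℝ) • x.2) := by
  have : fderiv ℝ G x = 0 := by
    rw [Filter.EventuallyEq.fderiv_eq (f := fun _ => (0 : ℝ)) h]
    simp
  rw [XT, this, add_zero, (smpT _ _ _ _ _ N mod.1 hN).2 x trivial, ZT0, mod.2.1]

end BoxL

open BoxL in
theorem boxL (mod : ModStmt) (smpT : SmpTStmt) (theta : ThetaStmt) (geo : GeoStmt) :
    BoxLStmt := by
  intro h w h'' y4 δ K M η ys I1 ε R N C C' e y' tp ν ν2 c g L yk F E Ξ hw hM top cs big hL plg hq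
    hC hCy hK hC' he hy' hy1 he1 x hx hV
  have h0 := big.h0
  have h1 := big.h1
  have hp := cs.pos
  have hle := cs.le
  have hy4 : 0 < y4 := by linarith [big.Y0]
  have hN : 0 < N := lt_of_lt_of_le (by have := big.Y0; positivity) big.N3
  obtain ⟨g1, g2, -, g4, g5⟩ := geo _ _ _ _ _ _ big x
  have ly := plg.ly _ (g5 hx.1)
  have sl : ContDiff ℝ ∞ fun x : Mo => ell L x.1.2.1 := (contDiff_ell hL).comp (by fun_prop)
  by_cases hA : Th N x ∈ Act w (h'' / 4) (y4 / 16) I1 R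
  · have hs : |x.1.1| ≤ 2 * (h'' / 4) ∧ |x.1.2.2| ≤ 5 * (y4 / 16) := by
      rcases hA.2.2 with h2 | h2
      · exact g2 h2.1 h2.2
      · exact ⟨(g1 h2).1, (g1 h2).2.1.trans (by linarith)⟩
    have ha : ‖x.1.2.1‖ ≤ 3 * w := hA.1
    have ly1 : Ly univ (Xm F) (fun x => ell L x.1.2.1 + E x - M * Ξ x) (Th N x) :=
      ly.le trivial (.of_forall fun y => by
        rw [((Dr.self (sl.add plg.sE) y _).sub ((Dr.self plg.sΞ y _).cmul M)).eq]
        linarith [mul_nonneg hM (neg_nonneg.2 (plg.mono y))])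
    have ly2 := (theta N hN.le F plg.sF x).2 _ ((sl.add plg.sE).sub (contDiff_const.mul plg.sΞ)) ly1
    have e1 : ∀ᶠ y : B4 × ℂ in 𝓝 x, |y.1.1| < h'' :=
      (show ContinuousAt (fun y : B4 × ℂ => |y.1.1|) x by fun_prop).eventually
        (gt_mem_nhds (show |x.1.1| < h'' by linarith [hs.1]))
    have e2 : ∀ᶠ y : B4 × ℂ in 𝓝 x, ‖y.1.2.1‖ < 7 / 2 * w :=
      (show ContinuousAt (fun y : B4 × ℂ => ‖y.1.2.1‖) x by fun_prop).eventually
        (gt_mem_nhds (show ‖x.1.2.1‖ < 7 / 2 * w by linarith))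
    have e3 : ∀ᶠ y : B4 × ℂ in 𝓝 x, |y.1.2.2| < y4 / 2 :=
      (show ContinuousAt (fun y : B4 × ℂ => |y.1.2.2|) x by fun_prop).eventually
        (gt_mem_nhds (show |x.1.2.2| < y4 / 2 by linarith [hs.2]))
    have e4 : (fun x : B4 × ℂ => ell L (Th N x).1.2.1 + E (Th N x) - M * Ξ (Th N x)) =ᶠ[𝓝 x]
        fun x => L x.1 + dL N M tp ν ν2 c L E Ξ x := by
      filter_upwards [e1, e2, e3] with y a1 a2 a3
      rw [dL, cs.c1 _ a2.le a3.le, cs.ν1 _ a1.le, cs.ν21 _ (a1.le.trans hle),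
        top.t1 _ ((le_abs_self _).trans (by linarith)), show (Th N y).1.2.1 = y.1.2.1 from rfl]
      ring
    refine ly2.le trivial (mem_nhdsWithin_of_mem_nhds ?_)
    filter_upwards [e4.eventuallyEq_nhds] with y hy
    exact le_of_eq (by rw [hy.fderiv_eq])
  have z1 : ∀ᶠ y in 𝓝 (Th N x), F y = 0 := by
    filter_upwards [(isClosed_Act _ _ _ _ _).isOpen_compl.mem_nhds hA] with y hy
    exact plg.out y hy
  have hX := XT_off mod smpT hN.le (G := fun x => F (Th N x))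
    ((contDiff_Th N).continuous.continuousAt.eventually z1)
  have hT := (theta N hN.le F plg.sF x).1
  have hρ := rho_nonneg hN.le x.2
  obtain ⟨a, ha⟩ : ∃ a : ℝ, a = (1 + rho N x.2)⁻¹ := ⟨_, rfl⟩
  have a0 : 0 < a := by rw [ha]; positivity
  rw [← ha] at hX
  have hE : 0 < fderiv ℝ E (Th N x) (Xm F (Th N x)) := by
    have h2 := ly.pos (by
      rw [Xm_of_zero z1]
      intro h3
      have h4 : (Th N x).1.1 = 0 := congrArg (fun y : Mo => y.1.1) h3
      have h5 : (Th N x).2 = 0 := (smul_eq_zero.1 (congrArg Prod.snd h3)).resolve_left (by norm_num)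
      rcases g5 hx.1 with h6 | h6
      · linarith
      · rw [h5, nq_eq, norm_zero] at h6
        have : 0 < 1 / N := by positivity
        linarith)
    have h3 := (Dr.lin (contDiff_ell hL) ((ContinuousLinearMap.fst ℝ (ℝ × ℝ) ℝ).comp
      ((ContinuousLinearMap.snd ℝ ℝ _).comp (ContinuousLinearMap.fst ℝ B4 ℂ))) (Th N x)
      (Xm F (Th N x))).add (Dr.self plg.sE _ _)
    have h4 : ((ContinuousLinearMap.fst ℝ (ℝ × ℝ) ℝ).comp
      ((ContinuousLinearMap.snd ℝ ℝ _).comp (ContinuousLinearMap.fst ℝ B4 ℂ)))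
        (Xm F (Th N x)) = 0 := by
      rw [Xm_of_zero z1]
      rfl
    rw [h4, map_zero, zero_add] at h3
    exact h2.trans_eq h3.eq
  have hΞ := plg.mono (Th N x)
  obtain ⟨v, hv⟩ : ∃ v, v = XT N lb Pb (fun x => F (Th N x)) x := ⟨_, rfl⟩
  rw [← hv] at hX hT
  have d1 : Dr (fun y : B4 × ℂ => L y.1) x v (a * fderiv ℝ L x.1 es) := by
    have := Dr.lin hL (ContinuousLinearMap.fst ℝ B4 ℂ) x v
    rwa [show ContinuousLinearMap.fst ℝ B4 ℂ v = a • es by rw [hX]; rfl, map_smul] at this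
  have d2 : Dr (fun y : B4 × ℂ => c y.1.2) x v 0 := by
    have := Dr.lin cs.sc ((ContinuousLinearMap.snd ℝ ℝ _).comp (ContinuousLinearMap.fst ℝ B4 ℂ)) x v
    rwa [show ((ContinuousLinearMap.snd ℝ ℝ _).comp (ContinuousLinearMap.fst ℝ B4 ℂ)) v = 0 by
      rw [hX]; simp [es], map_zero] at this
  have d3 : Dr (fun y : B4 × ℂ => ell L y.1.2.1) x v 0 := by
    have := Dr.lin (contDiff_ell hL) ((ContinuousLinearMap.fst ℝ (ℝ × ℝ) ℝ).comp
      ((ContinuousLinearMap.snd ℝ ℝ _).comp (ContinuousLinearMap.fst ℝ B4 ℂ))) x v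
    rwa [show ((ContinuousLinearMap.fst ℝ (ℝ × ℝ) ℝ).comp ((ContinuousLinearMap.snd ℝ ℝ _).comp
      (ContinuousLinearMap.fst ℝ B4 ℂ))) v = 0 by rw [hX]; simp [es], map_zero] at this
  have d4 : ∀ f : ℝ → ℝ, ContDiff ℝ ∞ f →
      Dr (fun y : B4 × ℂ => f y.1.1) x v (a * deriv f x.1.1) := fun f hf => by
    have := Dr.lin hf ((ContinuousLinearMap.fst ℝ ℝ _).comp (ContinuousLinearMap.fst ℝ B4 ℂ)) x v
    rwa [show ((ContinuousLinearMap.fst ℝ ℝ _).comp (ContinuousLinearMap.fst ℝ B4 ℂ)) v = a by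
      rw [hX]; simp [es], fderiv_eq_smul_deriv] at this
  have d5 : ∀ f : Mo → ℝ, ContDiff ℝ ∞ f →
      Dr (fun y : B4 × ℂ => f (Th N y)) x v (fderiv ℝ f (Th N x) (Xm F (Th N x))) :=
    fun f hf => hT ▸ Dr.comp hf (contDiff_Th N) x v
  have D := (d1.add ((((d2.mul (d4 ν cs.sν)).mul (d3.sub d1)).add
    ((d2.mul (d4 ν2 cs.sν2)).mul (d5 E plg.sE))).sub
      (((d4 tp top.st).mul (d5 Ξ plg.sΞ)).cmul M))).eq
  refine Or.inl ?_
  rw [← hv]
  refine lt_of_lt_of_eq ?_ D.symm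
  obtain ⟨q1, q2, q3, q4⟩ := hq x.1 hx
  have c0 := cs.cr x.1.2
  have t0 := mul_nonneg hM (mul_nonneg (top.tr x.1.1).1 (neg_nonneg.2 hΞ))
  have tp0 : ∀ s ≤ h / 3, deriv tp s = 0 := fun s hs => der_one top.tr (top.t1 s hs)
  rcases le_total |x.1.1| (h / 4) with hs | hs
  · have n1 := cs.ν21 _ hs
    have n2 := tp0 x.1.1 ((le_abs_self _).trans (by linarith))
    have n3 : 0 ≤ c x.1.2 * (deriv ν x.1.1 * (ell L x.1.2.1 - L x.1)) := by
      by_cases k1 : c x.1.2 = 0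
      · rw [k1, zero_mul]
      refine mul_nonneg c0.1 ?_
      rcases le_total |x.1.1| h'' with k2 | k2
      · rw [der_one cs.νr (cs.ν1 _ k2), zero_mul]
      have k3 := abs_le.1 (q3.trans ((mul_le_mul_of_nonneg_left (cs.c0 _ k1).2 hC).trans hCy))
      have k4 : ∀ t, |t| ≤ h / 4 → 2 ≤ fderiv ℝ L (t, x.1.2) es := fun t ht => by
        have := (hq (t, x.1.2) ⟨ht.trans (by linarith), hx.2⟩).1
        rwa [tp0 t ((le_abs_self _).trans (by linarith)), mul_zero, add_zero] at this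
      have k5 : |(0 : ℝ)| ≤ h / 4 := by rw [abs_zero]; linarith
      have k6 := (cs.νd x.1.1).1
      rcases le_abs'.1 k2 with k7 | k7
      · have : 2 * (0 - x.1.1) ≤ L (0, x.1.2) - L x.1 := grow hL _ k4 hs k5 (by linarith)
        exact mul_nonneg (nonneg_of_mul_nonpos_right k6 (by linarith)) (by linarith [k3.2])
      · have : 2 * (x.1.1 - 0) ≤ L x.1 - L (0, x.1.2) := grow hL _ k4 k5 hs (by linarith)
        exact mul_nonneg_of_nonpos_of_nonpos (nonpos_of_mul_nonpos_right k6 (by linarith))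
          (by linarith [k3.1])
    rw [n2, mul_zero, add_zero] at q1
    have n4 : 0 ≤ 1 - c x.1.2 * ν x.1.1 :=
      sub_nonneg.2 (mul_le_one₀ c0.2 (cs.νr _).1 (cs.νr _).2)
    have n5 : 0 < a * ((1 - c x.1.2 * ν x.1.1) * fderiv ℝ L x.1 es) +
        c x.1.2 * fderiv ℝ E (Th N x) (Xm F (Th N x)) := by
      rcases c0.1.eq_or_lt with k | k
      · rw [← k]
        linarith [mul_pos a0 (show 0 < fderiv ℝ L x.1 es by linarith)]
      · exact add_pos_of_nonneg_of_pos (mul_nonneg a0.le (mul_nonneg n4 (by linarith)))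
          (mul_pos k hE)
    rw [n1, n2, der_one cs.ν2r n1]
    linarith [mul_nonneg a0.le n3]
  · have n1 := cs.ν0 _ hs
    have n2 : 2 ≤ fderiv ℝ L x.1 es - M * (deriv tp x.1.1 * Ξ (Th N x)) := by
      rcases le_total x.1.1 (h / 3) with k1 | k1
      · rw [tp0 _ k1] at q1 ⊢
        linarith
      rcases lt_or_ge w ‖x.1.2‖ with k2 | k2
      · linarith [q2 k2, mul_nonneg hM (mul_nonneg (neg_nonneg.2 (top.td x.1.1)) (plg.rng (Th N x)).1)]
      obtain ⟨k3, k4, k5⟩ := g4 k1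
      have k6 : |yk x.1| * (1 + rho N x.2) ≤ y' := by
        rw [Vh, dv, n1, mul_zero, zero_mul, add_zero] at hV
        have := (abs_lt_of_sq_lt_sq hV hy'.le).le
        rwa [abs_mul, abs_of_pos (show 0 < 1 + rho N x.2 by linarith)] at this
      have k7 : exp x.1.1 ≤ 3 :=
        (exp_le_exp.2 ((le_abs_self _).trans (hx.1.trans (by linarith)))).trans
          (exp_one_lt_d9.le.trans (by norm_num))
      have k8 : |(Th N x).1.2.2| ≤ 3 * (C' * (y' + e * (1 + rho N x.2))) := by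
        rw [show (Th N x).1.2.2 = exp x.1.1 * ((1 + rho N x.2) * x.1.2.2) from mul_assoc _ _ _,
          abs_mul, abs_mul, abs_of_pos (exp_pos _), abs_of_pos (show 0 < 1 + rho N x.2 by linarith)]
        refine mul_le_mul k7 ?_ (by positivity) (by norm_num)
        linarith [mul_le_mul_of_nonneg_left q4 (show 0 ≤ 1 + rho N x.2 by linarith),
          mul_le_mul_of_nonneg_left k6 hC']
      rw [plg.one _ k3 ((norm_fst_le x.1.2).trans k2) ?_ k4]
      · linarith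
      linarith [mul_le_mul_of_nonneg_right he1 (show 0 ≤ 1 + rho N x.2 by linarith),
        mul_le_mul_of_nonneg_left k5 hy4.le,
        mul_le_mul_of_nonneg_left (show 1 ≤ (Th N x).1.1 by linarith) hy4.le]
    have n3 : -1 ≤ c x.1.2 * (deriv ν2 x.1.1 * E (Th N x)) := by
      refine (abs_le.1 ?_).1
      rw [abs_mul, abs_mul, abs_of_nonneg c0.1]
      exact mul_le_one₀ c0.2 (by positivity) ((mul_le_mul (cs.ν2d _) (plg.bd _) (abs_nonneg _)
        ((abs_nonneg _).trans (cs.ν2d 0))).trans hK)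
    have n4 := mul_nonneg (mul_nonneg c0.1 (cs.ν2r x.1.1).1) hE.le
    rw [n1, der_zero cs.νr n1]
    linarith [mul_le_mul_of_nonneg_left n2 a0.le, mul_le_mul_of_nonneg_left n3 a0.le]

end Pool.Agent.MP_6d695c_gt.T2
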