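import Pool.Agent.MP_6d695c_gt.t2.SpecB

/-! PROJECT T2, row BOXM: the box in the model. -/

open scoped Manifold ContDiff Topology MeasureTheory
open Set Metric Filter Real

namespace Pool.Agent.MP_6d695c_gt.T2

open SW T1 Theta

namespace BoxM

theorem mem_cb {h w : ℝ} {q : B4} (h1 : |q.1| ≤ h) (h2 : ‖q.2.1‖ ≤ w) (h3 : |q.2.2| ≤ w) :
    q ∈ cb h w :=
  ⟨h1, by rw [Prod.norm_def]; exact max_le h2 h3⟩

/-- the last coordinate is bounded by the normal function -/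
theorem last_le {C e s g y r a b : ℝ} (hC : 1 ≤ C) (he : 0 ≤ e) (hs : |s| ≤ 1) (hg : |g| ≤ C)
    (hr : |r| ≤ C) (h1 : |a - y| ≤ e) (h2 : |exp (s + g) * b - exp r * y| ≤ e) :
    |b| ≤ 2 * exp (2 * C + 1) * (|a| + e) := by
  have hy : |y| ≤ |a| + e := by
    have := abs_sub_abs_le_abs_sub y a
    rw [abs_sub_comm] at this
    linarith
  have h3 : exp (s + g) * |b| ≤ e + exp r * |y| := by
    have := abs_sub_abs_le_abs_sub (exp (s + g) * b) (exp r * y)
    rw [abs_mul, abs_mul, abs_of_pos (exp_pos _), abs_of_pos (exp_pos _)] at this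
    linarith
  have h4 : exp r ≤ exp C := exp_le_exp.2 (abs_le.1 hr).2
  have h5 : 1 ≤ exp C := one_le_exp (by linarith)
  have h6 : exp (s + g) * |b| ≤ 2 * exp C * (|a| + e) := by
    have a1 : exp r * |y| ≤ exp C * (|a| + e) :=
      mul_le_mul h4 hy (abs_nonneg _) (exp_pos _).le
    have a2 : e ≤ exp C * (|a| + e) := by nlinarith [abs_nonneg a]
    linarith
  have h7 : 1 ≤ exp (C + 1) * exp (s + g) := by
    rw [← exp_add]
    exact one_le_exp (by linarith [(abs_le.1 hs).1, (abs_le.1 hg).1])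
  have h8 : exp (2 * C + 1) = exp (C + 1) * exp C := by
    rw [← exp_add]; congr 1; ring
  calc |b| ≤ exp (C + 1) * exp (s + g) * |b| := le_mul_of_one_le_left (abs_nonneg _) h7
    _ = exp (C + 1) * (exp (s + g) * |b|) := by ring
    _ ≤ exp (C + 1) * (2 * exp C * (|a| + e)) := mul_le_mul_of_nonneg_left h6 (exp_pos _).le
    _ = _ := by rw [h8]; ring

theorem contDiff_dL {N M : ℝ} {tp ν ν2 : ℝ → ℝ} {c : (ℝ × ℝ) × ℝ → ℝ} {L : B4 → ℝ}
    {E Ξ : Mo → ℝ} (ht : ContDiff ℝ ∞ tp) (hν : ContDiff ℝ ∞ ν) (hν2 : ContDiff ℝ ∞ ν2)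
    (hc : ContDiff ℝ ∞ c) (hL : ContDiff ℝ ∞ L) (hE : ContDiff ℝ ∞ E) (hΞ : ContDiff ℝ ∞ Ξ) :
    ContDiff ℝ ∞ (dL N M tp ν ν2 c L E Ξ) := by
  have h1 := contDiff_ell hL
  have h2 := contDiff_Th N
  unfold dL
  fun_prop

end BoxM

open BoxM in
theorem boxM (cuts : CutsStmt) (geo : GeoStmt) (plg : PlgStmt) (vest : VestStmt)
    (boxL : BoxLStmt) (boxU : BoxUStmt) : BoxMStmt := by
  intro h w M C κ tp h0 h1 w0 w1 M0 C1 κ0 κ1 ht
  obtain ⟨-, K, K0, hK⟩ := cuts h w h0 w0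
  have C0 : 0 < C := by linarith
  have dp : 0 < 2 * exp (2 * C) * (C + 2) := by positivity
  obtain ⟨h'', hp, hc⟩ := hK (κ / (2 * exp (2 * C) * (C + 2))) (by positivity)
  have hle : h'' ≤ h / 4 := by
    obtain ⟨_, _, _, a⟩ := hc 1 one_pos
    exact a.le
  obtain ⟨E0, E0p, hE0⟩ := vest C κ (κ / (2 * exp (2 * C) * (C + 2))) h'' C1 κ0 κ1
    (by positivity) (mul_div_cancel₀ _ dp.ne').le hp
  refine ⟨h'', min w (2 * h'' / C), hp, by linarith, lt_min w0 (by positivity),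
    fun y4 y0 y1 => ?_⟩
  have yw : y4 ≤ w := y1.trans (min_le_left _ _)
  have yC : C * y4 ≤ 2 * h'' := by
    rw [mul_comm]
    exact (le_div_iff₀ C0).1 (y1.trans (min_le_right _ _))
  obtain ⟨ν, ν2, c, cs⟩ := hc y4 y0
  have C'0 : 0 < 2 * exp (2 * C + 1) := by positivity
  refine ⟨y4 / 16 / (6 * (2 * exp (2 * C + 1))), by positivity, fun y' y'0 y'1 => ?_⟩
  refine ⟨min (y4 / 16 * h / (18 * (2 * exp (2 * C + 1)))) (κ * y' / (8 * E0)),
    lt_min (by positivity) (by positivity), fun L yk g sL sy sg hq => ?_⟩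
  set e := min (y4 / 16 * h / (18 * (2 * exp (2 * C + 1)))) (κ * y' / (8 * E0)) with he
  have e0 : 0 < e := lt_min (by positivity) (by positivity)
  have e1 : 18 * (2 * exp (2 * C + 1)) * e ≤ y4 / 16 * h := by
    rw [mul_comm]
    exact (le_div_iff₀ (by positivity)).1 (min_le_left _ _)
  have e2 : e * (8 * E0) ≤ κ * y' := (le_div_iff₀ (by positivity)).1 (min_le_right _ _)
  have y'2 : 6 * (2 * exp (2 * C + 1)) * y' ≤ y4 / 16 := by
    rw [mul_comm]
    exact (le_div_iff₀ (by positivity)).1 y'1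
  obtain ⟨I1, ε, R, I0, ε0, hP⟩ := plg w (h'' / 4) (1 / K) (y4 / 16) (y' * exp (-C) / 2) (ell L) g
    w0 w1 (by positivity) (by linarith) (by positivity) (by positivity) (by linarith)
    (by positivity) (contDiff_ell sL) sg
  refine ⟨max (6 / (h * ε ^ 2)) (max ((1 + 1 / I1) / (h'' / 4)) (1 + 1 / (y4 / 16))), R,
    le_max_of_le_left (by positivity), fun N hN => ?_⟩
  have N3 : 1 + 1 / (y4 / 16) ≤ N := ((le_max_right _ _).trans (le_max_right _ _)).trans hN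
  have N0 : 0 < N := lt_of_lt_of_le (by positivity) N3
  have big : Big h (h'' / 4) (y4 / 16) I1 ε N :=
    ⟨h0, h1, by positivity, by linarith, by positivity, I0, ε0,
      (div_le_iff₀ (by positivity)).1 ((le_max_left _ _).trans hN),
      (div_le_iff₀ (by positivity)).1 (((le_max_left _ _).trans (le_max_right _ _)).trans hN), N3⟩
  obtain ⟨F, E, Ξ, P⟩ := hP (1 / N) (by positivity)
  have cone : ∀ x : B4 × ℂ, ‖x.1.2.1‖ ≤ 3 * w → Cone I1 (Th N x) → x.1 ∈ cb h (4 * w) :=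
    fun x a b => by
      obtain ⟨b1, b2, -⟩ := (geo _ _ _ _ _ _ big x).1 b
      exact mem_cb (by linarith) (by linarith) (by linarith)
  have cν : ∀ q : B4, q ∉ cb h (4 * w) → c q.2 * ν q.1 = 0 ∧ c q.2 * ν2 q.1 = 0 := fun q hq => by
    by_cases a : c q.2 = 0
    · simp [a]
    · obtain ⟨a1, a2⟩ := cs.c0 _ a
      have b : h < |q.1| := lt_of_not_ge fun b => hq (mem_cb b a1 (by linarith))
      rw [cs.ν0 _ (by linarith), cs.ν20 _ (by linarith)]
      simp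
  refine ⟨fun x => F (Th N x), dL N M tp ν ν2 c L E Ξ, dv ν c g yk, P.sF.comp (contDiff_Th N),
    contDiff_dL ht.st cs.sν cs.sν2 cs.sc sL P.sE P.sΞ, contDiff_dv cs.sν cs.sc sg sy,
    fun x _ hx => ⟨P.out _ fun a => hx ?_, ?_, ?_⟩, fun x _ hx => P.out _ fun a => ?_,
    fun x hx hv => ?_, fun x hx hv => ?_⟩
  · rcases a.2.2 with b | b
    · obtain ⟨b1, b2⟩ := (geo _ _ _ _ _ _ big x).2.1 b.1 b.2
      have a1 : ‖x.1.2.1‖ ≤ 3 * w := a.1
      exact mem_cb (by linarith) (by linarith) (by linarith)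
    · exact cone x a.1 b
  · have k : tp x.1.1 * Ξ (Th N x) = 0 := by
      by_cases s : h / 2 ≤ x.1.1
      · rw [ht.t0 _ s, zero_mul]
      · by_contra a
        obtain ⟨a1, b | b⟩ := P.supp _ (right_ne_zero_of_mul a)
        · obtain ⟨b1, b2⟩ := (geo _ _ _ _ _ _ big x).2.2.1 b.1 b.2
          have a2 : ‖x.1.2.1‖ ≤ 3 * w := a1
          exact hx (mem_cb (abs_le.2 ⟨by linarith, by linarith⟩) (by linarith) (by linarith))
        · exact hx (cone x a1 b)
    rw [dL, (cν _ hx).1, (cν _ hx).2, k]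
    simp
  · rw [dv, (cν _ hx).1, zero_mul]
  · have := a.2.1
    rw [norm_Th] at this
    linarith
  · refine boxL h w h'' y4 _ K M (1 / K) _ I1 ε R N C (2 * exp (2 * C + 1)) e y' tp ν ν2 c g L yk
      F E Ξ w0 M0 ht cs big sL P (fun q a => ?_) C0.le yC (mul_one_div_cancel K0.ne').le C'0.le
      e0.le y'0 y'2 e1 x hx hv
    obtain ⟨a1, a2, a3, a4, y, μ, r, a5, -, -, -, a6, a7, -⟩ := hq q a
    exact ⟨a1, a2, a3, last_le C1 e0.le (a.1.trans (by linarith)) a4 a7 a5 a6⟩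
  · refine boxU h w h'' y4 _ K (1 / K) _ I1 ε R N C (κ / 2) (E0 * e) y' ν ν2 c (ell L) g yk
      F E Ξ w0 cs big sg sy P (fun q a => ?_) (by positivity) (by linarith)
      (by nlinarith [mul_pos κ0 y'0]) y'0 ?_ x hx hv
    · obtain ⟨-, -, -, a4, y, μ, r, a5, a6, a7, a8, a9, a10, a11⟩ := hq q a
      exact ⟨(abs_le.1 a4).2, hE0 h w y4 K e y μ r ν ν2 c g yk q cs sg sy a5 a6 a7 a8 a9 a10 a11⟩
    · rw [div_mul_eq_mul_div, mul_assoc, ← exp_add, neg_add_cancel, exp_zero, mul_one]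

end Pool.Agent.MP_6d695c_gt.T2
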