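import Pool.Agent.MP_6d695c_gt.t2.SpecB

/-! PROJECT T2, rows BOXU and VEST: the normal function in the box. -/

open scoped ContDiff Topology
open Set Metric Filter Real

namespace Pool.Agent.MP_6d695c_gt.T2

open SW T1 Theta

namespace BoxU

theorem along {f : B4 → ℝ} (hf : ContDiff ℝ ∞ f) (q : B4) :
    HasDerivAt (fun t : ℝ => f (q + t • es)) (fderiv ℝ f q es) 0 := by
  have h3 : HasDerivAt (fun u : ℝ => q + u • es) es 0 := by
    simpa using ((hasDerivAt_id (0 : ℝ)).smul_const es).const_add q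
  exact (hf.differentiable (by simp) q).hasFDerivAt.comp_hasDerivAt_of_eq 0 h3 (by simp)

theorem der_v {ν : ℝ → ℝ} {c : (ℝ × ℝ) × ℝ → ℝ} {g : ℝ × ℝ → ℝ} {yk : B4 → ℝ}
    (hν : ContDiff ℝ ∞ ν) (hc : ContDiff ℝ ∞ c) (hg : ContDiff ℝ ∞ g) (hy : ContDiff ℝ ∞ yk)
    (q : B4) : fderiv ℝ (fun q => yk q + dv ν c g yk q) q es =
      fderiv ℝ yk q es + (c q.2 * deriv ν q.1 * (exp (q.1 + g q.2.1) * q.2.2 - yk q) +
        c q.2 * ν q.1 * (exp (q.1 + g q.2.1) * q.2.2 - fderiv ℝ yk q es)) := by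
  refine (along (hy.add (contDiff_dv hν hc hg hy)) q).unique ?_
  have h1 := along hy q
  have h0 : HasDerivAt (fun t : ℝ => q.1 + t) 1 0 := (hasDerivAt_id (0 : ℝ)).const_add q.1
  have h2 : HasDerivAt (fun t : ℝ => ν (q.1 + t)) (deriv ν q.1 * 1) 0 :=
    (hν.differentiable (by simp) q.1).hasDerivAt.comp_of_eq 0 h0 (by simp)
  have h3 := ((h0.add_const (g q.2.1)).exp.mul_const q.2.2).fun_sub h1
  have h4 := h1.fun_add ((h2.const_mul (c q.2)).fun_mul h3)
  have e : (fun t : ℝ => yk (q + t • es) + dv ν c g yk (q + t • es)) = fun t : ℝ =>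
      yk (q + t • es) + c q.2 * ν (q.1 + t) *
        (exp (q.1 + t + g q.2.1) * q.2.2 - yk (q + t • es)) := by
    funext t
    have e2 : (q + t • es).2 = q.2 := by simp [es]
    have e1 : (q + t • es).1 = q.1 + t := by simp [es]
    rw [dv, e1, e2]
  rw [e]
  refine h4.congr_deriv ?_
  simp

theorem exp_sub_one {r C : ℝ} (h : |r| ≤ C) : |exp r - 1| ≤ exp C * |r| := by
  have h1 := add_one_le_exp r
  have h2 := add_one_le_exp (-r)
  have h3 : exp r * exp (-r) = 1 := by rw [← exp_add]; simp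
  have h4 : exp r ≤ exp C := exp_le_exp.2 (le_of_abs_le h)
  have h5 : 1 ≤ exp C := one_le_exp ((abs_nonneg r).trans h)
  have h6 := exp_pos r
  rw [abs_le]
  rcases le_total 0 r with hr | hr
  · rw [abs_of_nonneg hr]
    constructor <;> nlinarith
  · rw [abs_of_nonpos hr]
    have h7 : exp r ≤ 1 := exp_le_one_iff.2 hr
    constructor <;> nlinarith

theorem mix {θ a b e : ℝ} (h0 : 0 ≤ θ) (h1 : θ ≤ 1) (ha : |a| ≤ e) (hb : |b| ≤ e) :
    |(1 - θ) * a + θ * b| ≤ e := by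
  obtain ⟨a1, a2⟩ := abs_le.1 ha
  obtain ⟨b1, b2⟩ := abs_le.1 hb
  rw [abs_le]
  constructor <;> nlinarith

theorem alg {κ m B D e v p p' : ℝ} (h1 : κ / 2 ≤ m) (h0 : 0 ≤ m) (h2 : m ≤ B) (hp : |p| ≤ e)
    (hp' : |p'| ≤ D * e) : κ / 2 * v ^ 2 - (B + D) * e * |v| ≤ v * (m * (v - p) + p') := by
  have h3 : |v * (p' - m * p)| ≤ |v| * ((B + D) * e) := by
    rw [abs_mul]
    refine mul_le_mul_of_nonneg_left ((abs_sub _ _).trans ?_) (abs_nonneg v)
    rw [abs_mul, abs_of_nonneg h0]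
    nlinarith [abs_nonneg p]
  nlinarith [neg_abs_le (v * (p' - m * p)), mul_nonneg (sub_nonneg.2 h1) (sq_nonneg v)]

theorem nu_bd {h w h'' y4 δ K : ℝ} {ν ν2 : ℝ → ℝ} {c : (ℝ × ℝ) × ℝ → ℝ}
    (H : Cs h w h'' y4 δ K ν ν2 c) {s : ℝ} (hs : deriv ν s ≠ 0) :
    h'' ≤ |s| ∧ |deriv ν s| * |s| ≤ δ := by
  constructor
  · by_contra h1
    refine hs ?_
    have h2 : ν =ᶠ[𝓝 s] fun _ => 1 := by
      filter_upwards [(isOpen_lt continuous_abs continuous_const).mem_nhds (not_le.1 h1)] with t ht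
      exact H.ν1 t (le_of_lt ht)
    rw [h2.deriv_eq, deriv_const]
  · rw [← abs_mul, mul_comm, abs_of_nonpos (H.νd s).1]
    linarith [(H.νd s).2]

end BoxU

open BoxU in
theorem vest : VestStmt := by
  intro C κ δ h'' hC hκ hκ1 hδ hs hh
  have hE : 1 ≤ exp C := one_le_exp (by linarith)
  refine ⟨(C + exp C + 1) * exp C + (1 + 2 * (δ / h'')), by positivity, ?_⟩
  intro h w y4 K e y μ r ν ν2 c g yk q H hg hy h1 h2 h3 h4 h5 h6 h7
  rw [der_v H.sν H.sc hg hy, dv]
  obtain ⟨c0, c1⟩ := H.cr q.2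
  obtain ⟨n0, n1⟩ := H.νr q.1
  have he : 0 ≤ e := (abs_nonneg _).trans h1
  have hp : |c q.2 * deriv ν q.1| ≤ δ / h'' ∧
      |c q.2 * deriv ν q.1 * (exp r - 1)| * exp C ≤ κ / 2 := by
    by_cases hz : c q.2 * deriv ν q.1 = 0
    · rw [hz, zero_mul, abs_zero, zero_mul]
      constructor <;> positivity
    · obtain ⟨b1, b2⟩ := nu_bd H (right_ne_zero_of_mul hz)
      have b3 := h7 (H.c0 _ (left_ne_zero_of_mul hz)).2
      have b4 : |c q.2 * deriv ν q.1| ≤ |deriv ν q.1| := by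
        rw [abs_mul, abs_of_nonneg c0]
        exact mul_le_of_le_one_left (abs_nonneg _) c1
      have b0 := abs_nonneg (deriv ν q.1)
      constructor
      · refine b4.trans ?_
        rw [le_div_iff₀ hh]
        nlinarith
      · have b5 : |exp r - 1| ≤ exp C * ((C + 2) * |q.1|) :=
          (exp_sub_one h6).trans (mul_le_mul_of_nonneg_left (by linarith) (by positivity))
        have b6 : |c q.2 * deriv ν q.1 * (exp r - 1)| ≤ exp C * (C + 2) * δ := by
          rw [abs_mul]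
          refine (mul_le_mul b4 b5 (abs_nonneg _) b0).trans ?_
          have := mul_le_mul_of_nonneg_left b2 (by positivity : 0 ≤ exp C * (C + 2))
          linarith
        have b7 := mul_le_mul_of_nonneg_right b6 (exp_pos C).le
        rw [two_mul C, exp_add] at hs
        linarith
  have t0 : 0 ≤ c q.2 * ν q.1 := mul_nonneg c0 n0
  have t1 : c q.2 * ν q.1 ≤ 1 := mul_le_one₀ c1 n0 n1
  generalize c q.2 * ν q.1 = θ at t0 t1 ⊢
  generalize c q.2 * deriv ν q.1 = θ' at hp ⊢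
  generalize exp (q.1 + g q.2.1) * q.2.2 = W at h5 ⊢
  generalize fderiv ℝ yk q es = ys at h2 ⊢
  generalize yk q = y0 at h1 ⊢
  obtain ⟨p1, p2⟩ := hp
  have r1 : exp r ≤ exp C := exp_le_exp.2 (le_of_abs_le h6)
  have r2 : 1 ≤ exp r * exp C := by
    rw [← exp_add]
    exact one_le_exp (by linarith [neg_le_of_abs_le h6])
  have r0 := exp_pos r
  have hτ : 1 ≤ (1 - θ + θ * exp r) * exp C := by nlinarith
  have hτ0 : 0 < 1 - θ + θ * exp r := (mul_pos_iff_of_pos_right (exp_pos C)).1 (by linarith)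
  obtain ⟨u, hu⟩ : ∃ u, u = θ' * (exp r - 1) := ⟨_, rfl⟩
  rw [← hu] at p2
  have u1 : |u| ≤ κ / 2 * (1 - θ + θ * exp r) := by
    refine le_of_mul_le_mul_right (p2.trans ?_) (exp_pos C)
    rw [mul_assoc]
    exact le_mul_of_one_le_right (by positivity) hτ
  have u2 : |u| ≤ 1 := by nlinarith [abs_nonneg u]
  obtain ⟨u3, u4⟩ := abs_le.1 u1
  have l1 : κ / 2 * (1 - θ + θ * exp r) ≤ (1 - θ) * μ + θ * exp r + u := by
    nlinarith [mul_nonneg (sub_nonneg.2 t1) (sub_nonneg.2 h3),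
      mul_nonneg (mul_nonneg t0 r0.le) (sub_nonneg.2 hκ1)]
  have l2 : (1 - θ) * μ + θ * exp r + u ≤ C + exp C + 1 := by
    nlinarith [le_of_abs_le u2, mul_nonneg (sub_nonneg.2 t1) (sub_nonneg.2 h4),
      mul_nonneg (sub_nonneg.2 t1) r0.le]
  have m1 : κ / 2 ≤ ((1 - θ) * μ + θ * exp r + u) / (1 - θ + θ * exp r) := (le_div_iff₀ hτ0).2 l1
  have m2 : ((1 - θ) * μ + θ * exp r + u) / (1 - θ + θ * exp r) ≤ (C + exp C + 1) * exp C := by
    rw [div_le_iff₀ hτ0, mul_assoc, mul_comm (exp C)]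
    exact l2.trans (le_mul_of_one_le_right (by positivity) hτ)
  have e1 := mix t0 t1 h1 h5
  have e2 : |(1 - θ) * (ys - μ * y) + θ * (W - exp r * y) + θ' * (W - exp r * y - (y0 - y))| ≤
      (1 + 2 * (δ / h'')) * e := by
    refine (abs_add_le _ _).trans ?_
    have e3 := mix t0 t1 h2 h5
    have e4 : |θ' * (W - exp r * y - (y0 - y))| ≤ δ / h'' * (e + e) := by
      rw [abs_mul]
      exact mul_le_mul p1 ((abs_sub _ _).trans (add_le_add h5 h1)) (abs_nonneg _) (by positivity)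
    linarith
  refine (alg (v := y0 + θ * (W - y0)) m1 (le_trans (by positivity) m1) m2 e1 e2).trans
    (le_of_eq ?_)
  congr 1
  rw [show y0 + θ * (W - y0) - ((1 - θ) * (y0 - y) + θ * (W - exp r * y)) =
    (1 - θ + θ * exp r) * y by ring, ← mul_assoc, div_mul_cancel₀ _ hτ0.ne', hu]
  ring

theorem boxU (mod : ModStmt) (smpT : SmpTStmt) (theta : ThetaStmt) (geo : GeoStmt) :
    BoxUStmt := by
  intro h w h'' y4 δ K η ys I1 ε R N C κ e y' ν ν2 c ℓ g yk F E Ξ hw H hB hg hy P hq hκ hκ1 he hy'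
    hys x hx hV
  have hY := hB.Y0
  have hN : 0 ≤ N := le_trans (by positivity) hB.N3
  obtain ⟨hgC, hv⟩ := hq x.1 hx
  have dT := (contDiff_Th N).differentiable (by simp) x
  by_cases hA : Th N x ∈ Act w (h'' / 4) (y4 / 16) I1 R
  · obtain ⟨g1, g2, -⟩ := geo h (h'' / 4) (y4 / 16) I1 ε N hB x
    have a1 : ‖x.1.2.1‖ < 7 / 2 * w := lt_of_le_of_lt hA.1 (by linarith)
    have a2 : |x.1.1| < h'' ∧ |x.1.2.2| < y4 / 2 := by
      have := H.pos
      rcases hA.2.2 with a | a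
      · obtain ⟨b1, b2⟩ := g2 a.1 a.2
        constructor <;> linarith
      · obtain ⟨b1, b2, -⟩ := g1 a
        constructor <;> linarith
    have sΦ : ContDiff ℝ ∞ fun x : Mo => (x.1.2.2 * exp (g x.1.2.1)) ^ 2 := by fun_prop
    have ev : Vh N yk (dv ν c g yk) =ᶠ[𝓝 x]
        (fun x : Mo => (x.1.2.2 * exp (g x.1.2.1)) ^ 2) ∘ Th N := by
      filter_upwards [(isOpen_lt (f := fun x : B4 × ℂ => ‖x.1.2.1‖) (by fun_prop)
          continuous_const).mem_nhds a1,
        (isOpen_lt (f := fun x : B4 × ℂ => |x.1.1|) (by fun_prop) continuous_const).mem_nhds a2.1,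
        (isOpen_lt (f := fun x : B4 × ℂ => |x.1.2.2|) (by fun_prop) continuous_const).mem_nhds a2.2]
        with z z1 z2 z3
      simp only [Vh, dv, Function.comp, Th, H.ν1 _ (le_of_lt z2),
        H.c1 _ (le_of_lt z1) (le_of_lt z3), exp_add]
      ring
    rw [ev.fderiv_eq, fderiv_comp x (sΦ.differentiable (by simp) _) dT,
      ContinuousLinearMap.comp_apply, (theta N hN F P.sF x).1]
    refine P.up _ (le_of_mul_le_mul_right (hys.trans ?_) (exp_pos C))
    rw [ev.self_of_nhds] at hV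
    have b1 : y' / 2 ≤ |(Th N x).1.2.2 * exp (g x.1.2.1)| :=
      le_of_pow_le_pow_left₀ two_ne_zero (abs_nonneg _) (by
        rw [sq_abs]
        exact le_trans (le_of_eq (by ring)) hV)
    rw [abs_mul, abs_of_pos (exp_pos _)] at b1
    exact b1.trans (mul_le_mul_of_nonneg_left (exp_le_exp.2 hgC) (abs_nonneg _))
  · have ev : (fun x => F (Th N x)) =ᶠ[𝓝 x] fun _ => 0 := by
      filter_upwards [dT.continuousAt.preimage_mem_nhds
        ((isClosed_Act w (h'' / 4) (y4 / 16) I1 R).isOpen_compl.mem_nhds hA)] with z hz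
      exact P.out _ hz
    have eX : XT N lb Pb (fun x => F (Th N x)) x =
        ((1 + rho N x.2)⁻¹ • es, (1 / 2 : ℝ) • x.2) := by
      rw [XT, ev.fderiv_eq, fderiv_fun_const, Pi.zero_apply, add_zero,
        (smpT B4 B4 univ lb Pb N mod.1 hN).2 x (mem_univ _), ZT0, mod.2.1]
    have sv : ContDiff ℝ ∞ fun q => yk q + dv ν c g yk q :=
      hy.add (contDiff_dv H.sν H.sc hg hy)
    have d1 := ((sv.differentiable (by simp) x.1).hasFDerivAt.comp x hasFDerivAt_fst)
    have d2 := ((((contDiff_rho N).differentiable (by simp) x.2).hasFDerivAt.comp x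
      hasFDerivAt_snd).const_add 1)
    have d3 : HasFDerivAt (Vh N yk (dv ν c g yk)) _ x := (d1.mul d2).pow 2
    have hρ := rho_nonneg hN x.2
    have eρ : fderiv ℝ (rho N) x.2 ((1 / 2 : ℝ) • x.2) = rho N x.2 := by
      rw [fderiv_rho, rho, nq]
      simp
      ring
    rw [eX, d3.fderiv]
    simp only [smul_apply, add_apply, ContinuousLinearMap.comp_apply, ContinuousLinearMap.coe_fst',
      ContinuousLinearMap.coe_snd', eρ, map_smul, smul_eq_mul, Function.comp, Pi.mul_apply,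
      nsmul_eq_mul]
    rw [Vh] at hV
    generalize fderiv ℝ (fun q => yk q + dv ν c g yk q) x.1 es = vs at hv ⊢
    generalize yk x.1 + dv ν c g yk x.1 = v at hv hV ⊢
    generalize rho N x.2 = ρ at hρ hV ⊢
    have b1 : y' / 2 ≤ |v| * (1 + ρ) :=
      le_of_pow_le_pow_left₀ two_ne_zero (by positivity) (by
        rw [mul_pow, sq_abs, ← mul_pow]
        exact le_trans (le_of_eq (by ring)) hV)
    have b2 : 0 < |v| := (mul_pos_iff_of_pos_right (by linarith : 0 < 1 + ρ)).1 (by linarith)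
    have b3 : e < (κ + ρ) * |v| := by
      nlinarith [mul_nonneg (mul_nonneg hρ b2.le) (sub_nonneg.2 hκ1)]
    have b4 : 0 < v * vs + ρ * v ^ 2 := by
      nlinarith [mul_pos b2 (sub_pos.2 b3), sq_abs v]
    have b5 : (1 + ρ) * ((1 + ρ)⁻¹ * vs) = vs := by field_simp
    rw [b5]
    push_cast
    nlinarith [mul_pos (by linarith : 0 < 1 + ρ) b4]

end Pool.Agent.MP_6d695c_gt.T2
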