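import Pool.Agent.MP_6d695c_gt.t2.Spec

/-! PROJECT T2, row CUTS: the cut-off functions and the position of the regions. -/

open scoped Manifold ContDiff Topology MeasureTheory
open Set Metric Filter Real

namespace Pool.Agent.MP_6d695c_gt.T2

open SW T1 Theta

namespace Cuts

theorem top {h : ℝ} (hh : 0 < h) : ∃ tp, Top h tp := by
  have hp : 0 < h / 6 := by positivity
  have hd : ∀ s, deriv (fun s => smoothTransition ((h / 2 - s) / (h / 6))) s =
      deriv smoothTransition ((h / 2 - s) / (h / 6)) * (-1 / (h / 6)) := fun s => by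
    have h1 : HasDerivAt (fun s : ℝ => (h / 2 - s) / (h / 6)) (-1 / (h / 6)) s :=
      ((hasDerivAt_id s).const_sub (h / 2)).div_const (h / 6)
    exact (((smoothTransition.contDiff (n := 1)).differentiable (by simp) _).hasDerivAt.comp
      s h1).deriv
  have hn : -1 / (h / 6) < 0 := div_neg_of_neg_of_pos (by norm_num) hp
  refine ⟨fun s => smoothTransition ((h / 2 - s) / (h / 6)),
    smoothTransition.contDiff.comp (by fun_prop), fun s hs => ?_, fun s hs => ?_,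
    fun s => ⟨smoothTransition.nonneg _, smoothTransition.le_one _⟩, fun s => ?_, fun s hs => ?_⟩
  · exact smoothTransition.one_of_one_le ((one_le_div hp).2 (by linarith))
  · exact smoothTransition.zero_of_nonpos (div_nonpos_of_nonpos_of_nonneg (by linarith) hp.le)
  · rw [hd]
    exact mul_nonpos_of_nonneg_of_nonpos smoothTransition.monotone.deriv_nonneg hn.le
  · rw [hd]
    refine mul_neg_of_pos_of_neg (lt_of_lt_of_le ?_ (trans_deriv _)) hn
    have a := smoothTransition.pos_of_pos (div_pos (sub_pos.2 hs.2) hp)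
    have b := smoothTransition.lt_one_of_lt_one
      ((div_lt_one hp).2 (show h / 2 - s < h / 6 by linarith [hs.1]))
    exact mul_pos two_pos (mul_pos a (sub_pos.2 b))

/-- a step with a bound on its slope -/
theorem bstep {u v : ℝ} (h : u < v) : ∃ (b : ℝ → ℝ) (C : ℝ), 0 < C ∧ ContDiff ℝ ∞ b ∧
    (∀ x ≤ u, b x = 1) ∧ (∀ x, v ≤ x → b x = 0) ∧ (∀ x, b x ∈ Icc (0 : ℝ) 1) ∧
    (∀ x, deriv b x ≤ 0) ∧ (∀ x, v ≤ x → deriv b x = 0) ∧ ∀ x, -C ≤ deriv b x := by
  obtain ⟨b, h1, h2, h3, h4, h5, h6⟩ := Plug2.step h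
  obtain ⟨C, hC⟩ := (isCompact_Icc (a := u) (b := v)).exists_bound_of_continuousOn
    (h1.continuous_deriv (by simp)).continuousOn
  refine ⟨b, |C| + 1, by positivity, h1, h2, h3, h4, h5, fun x hx => h6 x (Or.inr hx), fun x => ?_⟩
  have := abs_nonneg C
  rcases le_total x u with a | a
  · rw [h6 x (Or.inl a)]; linarith
  rcases le_total v x with c | c
  · rw [h6 x (Or.inr c)]; linarith
  have := hC x ⟨a, c⟩
  rw [Real.norm_eq_abs] at this
  linarith [neg_abs_le (deriv b x), le_abs_self C]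

/-- an even bump with a bound on its slope -/
theorem bump {r R : ℝ} (h0 : 0 ≤ r) (h : r < R) : ∃ (e : ℝ → ℝ) (K : ℝ), 0 < K ∧ ContDiff ℝ ∞ e ∧
    (∀ s, |s| ≤ r → e s = 1) ∧ (∀ s, R ≤ |s| → e s = 0) ∧ (∀ s, e s ∈ Icc (0 : ℝ) 1) ∧
    ∀ s, |deriv e s| ≤ K := by
  have hR : 0 < R := h0.trans_lt h
  obtain ⟨b, C, hC, h1, h2, h3, h4, h5, h6, h7⟩ := bstep (show r ^ 2 < R ^ 2 by nlinarith)
  have big : ∀ s, R ≤ |s| → R ^ 2 ≤ s ^ 2 := fun s hs => by
    rw [← sq_abs s]; exact pow_le_pow_left₀ hR.le hs 2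
  refine ⟨fun s => b (s ^ 2), C * (2 * R), by positivity, h1.comp (by fun_prop),
    fun s hs => h2 _ ?_, fun s hs => h3 _ (big s hs), fun s => h4 _, fun s => ?_⟩
  · rw [← sq_abs s]; exact pow_le_pow_left₀ (abs_nonneg s) hs 2
  · have hd : HasDerivAt (fun s : ℝ => b (s ^ 2)) (deriv b (s ^ 2) * (2 * s)) s := by
      have a : HasDerivAt (fun s : ℝ => s ^ 2) (2 * s) s := by simpa using hasDerivAt_pow 2 s
      exact (h1.differentiable (by simp) _).hasDerivAt.comp s a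
    rw [hd.deriv, abs_mul]
    rcases le_total R |s| with c | c
    · rw [h6 _ (big s c), abs_zero, zero_mul]; positivity
    · refine mul_le_mul (abs_le.2 ⟨h7 _, (h5 _).trans hC.le⟩) ?_ (abs_nonneg _) hC.le
      rw [abs_mul, abs_two]; linarith

/-- a cut-off with a small logarithmic slope -/
theorem slow {r δ : ℝ} (hr : 0 < r) (hδ : 0 < δ) : ∃ (r' : ℝ) (ν : ℝ → ℝ), 0 < r' ∧ r' ≤ r ∧
    ContDiff ℝ ∞ ν ∧ (∀ s, |s| ≤ r' → ν s = 1) ∧ (∀ s, r ≤ |s| → ν s = 0) ∧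
    (∀ s, ν s ∈ Icc (0 : ℝ) 1) ∧ ∀ s, s * deriv ν s ≤ 0 ∧ -δ ≤ s * deriv ν s := by
  obtain ⟨b, C, hC, h1, h2, h3, h4, h5, -, h7⟩ := bstep (show (1 / 2 : ℝ) < 1 by norm_num)
  obtain ⟨R, hR, hRC⟩ : ∃ R : ℝ, 0 < R ∧ δ * R = 2 * C :=
    ⟨2 * C / δ, by positivity, by field_simp⟩
  obtain ⟨k, hk, hkR⟩ : ∃ k : ℝ, 0 < k ∧ k * r ^ 2 = exp R :=
    ⟨exp R / r ^ 2, by positivity, by field_simp⟩
  have hp : ∀ s : ℝ, 0 < 1 + k * s ^ 2 := fun s => by positivity
  refine ⟨min r (min 1 (R / (2 * k))), fun s => b (log (1 + k * s ^ 2) / R), by positivity,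
    min_le_left _ _, h1.comp ((ContDiff.log (by fun_prop) fun s => (hp s).ne').div_const R),
    fun s hs => h2 _ ?_, fun s hs => h3 _ ?_, fun s => h4 _, fun s => ?_⟩
  · have a : |s| ≤ 1 := hs.trans ((min_le_right _ _).trans (min_le_left _ _))
    have c : |s| ≤ R / (2 * k) := hs.trans ((min_le_right _ _).trans (min_le_right _ _))
    rw [le_div_iff₀ (by positivity)] at c
    have d : s ^ 2 ≤ |s| := by rw [← sq_abs s]; nlinarith [abs_nonneg s]
    have e := log_le_sub_one_of_pos (hp s)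
    rw [div_le_iff₀ hR]
    nlinarith [mul_le_mul_of_nonneg_left d hk.le]
  · rw [le_div_iff₀ hR, one_mul, le_log_iff_exp_le (hp s), ← hkR]
    have : r ^ 2 ≤ s ^ 2 := by rw [← sq_abs s]; exact pow_le_pow_left₀ hr.le hs 2
    nlinarith [mul_le_mul_of_nonneg_left this hk.le]
  · have a : HasDerivAt (fun s : ℝ => 1 + k * s ^ 2) (k * (2 * s)) s := by
      have a : HasDerivAt (fun s : ℝ => s ^ 2) (2 * s) s := by simpa using hasDerivAt_pow 2 s
      exact (a.const_mul k).const_add 1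
    have hd : HasDerivAt (fun s : ℝ => b (log (1 + k * s ^ 2) / R))
        (deriv b (log (1 + k * s ^ 2) / R) * (k * (2 * s) / (1 + k * s ^ 2) / R)) s :=
      (h1.differentiable (by simp) _).hasDerivAt.comp s ((a.log (hp s).ne').div_const R)
    rw [hd.deriv]
    set D := deriv b (log (1 + k * s ^ 2) / R)
    have D0 : D ≤ 0 := h5 _
    have D1 : -C ≤ D := h7 _
    obtain ⟨q, q0, q1, hq⟩ : ∃ q : ℝ, 0 ≤ q ∧ q * C ≤ δ ∧
        s * (D * (k * (2 * s) / (1 + k * s ^ 2) / R)) = q * D := by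
      refine ⟨2 * (k * s ^ 2) / (1 + k * s ^ 2) / R, by positivity, ?_, by ring⟩
      rw [div_mul_eq_mul_div, div_le_iff₀ hR, hRC]
      refine mul_le_mul_of_nonneg_right ?_ hC.le
      rw [div_le_iff₀ (hp s)]
      linarith
    rw [hq]
    exact ⟨mul_nonpos_of_nonneg_of_nonpos q0 D0, by nlinarith [mul_le_mul_of_nonneg_left D1 q0]⟩

theorem low {s a : ℝ} (h0 : 0 ≤ a) (h1 : a ≤ 1 / 2) (h : 1 - a ≤ exp s) : -(2 * a) ≤ s := by
  have e1 := add_one_le_exp (-s)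
  have e2 : exp (-s) * exp s = 1 := by rw [← exp_add]; simp
  have e3 := mul_le_mul_of_nonneg_left h (exp_pos (-s)).le
  by_contra hc
  have e4 : 1 + 2 * a < exp (-s) := by linarith [not_le.1 hc]
  nlinarith [mul_lt_mul_of_pos_right e4 (show 0 < 1 - a by linarith),
    mul_nonneg h0 (show 0 ≤ 1 - 2 * a by linarith)]

theorem near {s a : ℝ} (h1 : a ≤ 1 / 2) (h : |exp s - 1| ≤ a) : |s| ≤ 2 * a := by
  have h0 := (abs_nonneg _).trans h
  obtain ⟨p, q⟩ := abs_le.1 h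
  exact abs_le.2 ⟨low h0 h1 (by linarith), by linarith [add_one_le_exp s]⟩

end Cuts

open Cuts in
theorem cuts : CutsStmt := by
  intro h w hh hw
  refine ⟨top hh, ?_⟩
  obtain ⟨ν2, K, hK, a1, a2, a3, a4, a5⟩ :=
    bump (show 0 ≤ h / 4 by positivity) (show h / 4 < 3 / 10 * h by linarith)
  obtain ⟨e, -, -, e1, e2, e3, e4, -⟩ :=
    bump (show 0 ≤ 7 / 2 * w by positivity) (show 7 / 2 * w < 4 * w by linarith)
  refine ⟨K, hK, fun δ hδ => ?_⟩
  obtain ⟨h'', ν, b0, b1, b2, b3, b4, b5, b6⟩ := slow (show 0 < h / 4 by positivity) hδ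
  refine ⟨h'', b0, fun y4 hy => ?_⟩
  obtain ⟨f, -, -, f1, f2, f3, f4, -⟩ :=
    bump (show 0 ≤ y4 / 2 by positivity) (show y4 / 2 < y4 by linarith)
  refine ⟨ν, ν2, fun p => e p.1.1 * e p.1.2 * f p.2, b0, b1, b2, b3, b4, b5, b6, a1, a2, a3, a4, a5,
    ((e1.comp (by fun_prop)).mul (e1.comp (by fun_prop))).mul (f1.comp contDiff_snd),
    fun p => ⟨mul_nonneg (mul_nonneg (e4 _).1 (e4 _).1) (f4 _).1,
      mul_le_one₀ (mul_le_one₀ (e4 _).2 (e4 _).1 (e4 _).2) (f4 _).1 (f4 _).2⟩,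
    fun p h1 h2 => ?_, fun p hp => ?_⟩
  · rw [e2 _ ((norm_fst_le p.1).trans h1), e2 _ ((norm_snd_le p.1).trans h1), f2 _ h2]
    norm_num
  · obtain ⟨n1, n3⟩ := mul_ne_zero_iff.1 hp
    obtain ⟨n1, n2⟩ := mul_ne_zero_iff.1 n1
    refine ⟨?_, (not_le.1 fun c => n3 (f3 _ c)).le⟩
    rw [Prod.norm_def]
    exact max_le (not_le.1 fun c => n1 (e3 _ c)).le (not_le.1 fun c => n2 (e3 _ c)).le

open Cuts in
theorem geo : GeoStmt := by
  intro h h' Y1 I1 ε N ⟨h0, h1, k0, k1, Y0, I0, ε0, N1, N2, N3⟩ x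
  have hN : 0 < N := lt_of_lt_of_le (by positivity) N3
  obtain ⟨I, hI, hI2⟩ : ∃ I : ℝ, 0 ≤ I ∧ nq x.2 = 2 * I :=
    ⟨nq x.2 / 2, div_nonneg (nq_nonneg _) two_pos.le, by ring⟩
  have hρ : rho N x.2 = N * I := by rw [rho, hI2]; ring
  have r0 : 0 ≤ N * I := mul_nonneg hN.le hI
  have hP : (Th N x).1.1 = exp x.1.1 * (1 + N * I) - N * I := by rw [← hρ]; rfl
  have hY : |(Th N x).1.2.2| = exp x.1.1 * (1 + N * I) * |x.1.2.2| := by
    rw [show (Th N x).1.2.2 = exp x.1.1 * (1 + N * I) * x.1.2.2 by rw [← hρ]; rfl, abs_mul,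
      abs_of_pos (by positivity)]
  have hQ : nq (Th N x).2 = 2 * I := by rw [nq_Th, hI2]
  have hH : 2 * I / 2 = I := by ring
  have hk : h' ≤ 1 / 2 := by linarith
  have hE := add_one_le_exp x.1.1
  have hE0 := exp_pos x.1.1
  have y0 := abs_nonneg x.1.2.2
  have cl : |(Th N x).1.1 - 1| ≤ h' * (1 + N * I) → |x.1.1| ≤ 2 * h' := fun a => by
    rw [hP, show exp x.1.1 * (1 + N * I) - N * I - 1 = (exp x.1.1 - 1) * (1 + N * I) by ring,
      abs_mul, abs_of_pos (show 0 < 1 + N * I by positivity)] at a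
    exact near hk (le_of_mul_le_mul_right a (by positivity))
  have lg : 1 < N * I → 1 / N < nq (Th N x).2 / 2 := fun a => by
    rw [hQ, hH, div_lt_iff₀ hN]; linarith
  rw [hρ]
  refine ⟨fun ⟨c1, c2, c3⟩ => ?_, fun c1 c2 => ⟨cl (by nlinarith), ?_⟩, fun c1 c2 => ⟨?_, ?_⟩,
    fun c => ?_, fun c => ?_⟩
  · rw [hQ, hH] at c1 c2 c3
    have i0 : 0 < I := I0.trans_le c1
    have a1 : 1 ≤ I * (1 / I1) := by rw [mul_one_div, one_le_div I0]; exact c1
    have a2 : I + 1 ≤ I * (N * h') := by nlinarith [mul_le_mul_of_nonneg_left N2 hI]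
    obtain ⟨p, q⟩ := abs_le.1 c2
    refine ⟨cl (abs_le.2 ⟨by nlinarith, by nlinarith⟩), ?_, lg (by nlinarith)⟩
    rw [hY] at c3
    rw [hP] at p
    have a3 : Y1 * (1 / Y1) = 1 := by field_simp
    have a4 : I * (1 / Y1) ≤ exp x.1.1 * (1 + N * I) := by
      nlinarith [mul_le_mul_of_nonneg_left N3 hI]
    have a5 : I * (1 / Y1) * |x.1.2.2| ≤ I * (1 / Y1) * Y1 := by
      nlinarith [mul_le_mul_of_nonneg_right a4 y0]
    exact le_of_mul_le_mul_left a5 (by positivity)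
  · rw [hY] at c2
    have p := (abs_le.1 c1).1
    rw [hP] at p
    have a : 4 / 5 ≤ exp x.1.1 * (1 + N * I) := by linarith
    nlinarith [mul_le_mul_of_nonneg_right a y0]
  · refine low k0.le hk ?_
    rw [hP] at c1
    by_contra hc
    have a : exp x.1.1 - 1 < 0 := by linarith [not_le.1 hc]
    nlinarith [mul_nonneg (neg_pos.2 a).le r0]
  · rw [hY, hP] at c2
    refine le_of_mul_le_mul_left (a := exp x.1.1 * (1 + N * I)) ?_ (by positivity)
    nlinarith [mul_nonneg Y0.le r0]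
  · have a : h / 3 * (1 + N * I) ≤ (Th N x).1.1 - 1 := by
      rw [hP]
      nlinarith [mul_le_mul_of_nonneg_right (show h / 3 ≤ exp x.1.1 - 1 by linarith)
        (show 0 ≤ 1 + N * I by positivity)]
    have b : 0 ≤ h * (N * I) := mul_nonneg h0.le r0
    refine ⟨by nlinarith, ?_, by linarith⟩
    rw [hQ]
    have d : h / 3 * (N * I) ≤ (Th N x).1.1 := by nlinarith
    nlinarith [mul_le_mul_of_nonneg_left d (sq_nonneg ε), mul_le_mul_of_nonneg_right N1 hI]
  · rcases lt_or_ge 1 (N * I) with a | a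
    · exact Or.inr (lg a)
    · left
      rw [hP]
      have p := (abs_le.1 c).1
      nlinarith [mul_le_mul_of_nonneg_right (show -h ≤ exp x.1.1 - 1 by linarith)
        (show 0 ≤ 1 + N * I by positivity), mul_le_mul_of_nonneg_left a h0.le]

end Pool.Agent.MP_6d695c_gt.T2
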