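import Pool.Agent.MP_6d695c_gt.t2.SpecB

/-! PROJECT T2, rows DARB4 and RECENT. -/

open scoped Manifold ContDiff Topology
open Set Metric Filter Real

namespace Pool.Agent.MP_6d695c_gt.T2

open SW T1 Theta SW.Darb

namespace Darb4

theorem fderiv_lb (q u v : B4) : fderiv ℝ lb q u v =
    exp q.1 * (u.1 * (v.2.1.1 + q.2.2 * v.2.1.2) + u.2.2 * v.2.1.2) := by
  rw [Symp.fd_app (contDiff_lb.differentiable (by simp) q)]
  have h1 : HasFDerivAt (fun y : B4 => exp y.1 * (v.2.1.1 + y.2.2 * v.2.1.2)) _ q :=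
    hasFDerivAt_fst.exp.fun_mul
      (((hasFDerivAt_snd.comp q hasFDerivAt_snd).mul_const v.2.1.2).const_add v.2.1.1)
  rw [show (fun y => lb y v) = fun y : B4 => exp y.1 * (v.2.1.1 + y.2.2 * v.2.1.2) from
    funext fun y => lb_apply y v, h1.fderiv]
  simp
  ring

theorem nondeg_lb {q u : B4} (h : ∀ v, dd lb q u v = 0) : u = 0 := by
  have h1 := h ea
  have h2 := h eσ
  have h3 := h ey
  have h4 := h es
  simp only [dd, fderiv_lb, ea, eσ, ey, es, ← mul_sub, mul_eq_zero, exp_ne_zero, false_or]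
    at h1 h2 h3 h4
  have k1 : u.1 = 0 := by linarith
  have k3 : u.2.1.2 = 0 := by linarith
  rw [k1] at h2
  rw [k3] at h4
  refine Prod.ext k1 (Prod.ext (Prod.ext ?_ k3) ?_)
  · show u.2.1.1 = 0
    linarith
  · show u.2.2 = 0
    linarith

/-- to the model of Darboux -/
noncomputable def cq (q : B4) : Q 1 :=
  (![q.1, q.1 + log (1 + q.2.2)], ![q.2.1.1 - q.2.1.2, q.2.1.2])

theorem cq_zero : cq 0 = 0 := by
  refine Prod.ext (funext fun i => ?_) (funext fun i => ?_) <;> fin_cases i <;> simp [cq]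

theorem contDiffAt_cq {q : B4} (hq : 0 < 1 + q.2.2) : ContDiffAt ℝ ∞ cq q := by
  refine ContDiffAt.prodMk (contDiffAt_pi.2 fun i => ?_) (contDiffAt_pi.2 fun i => ?_)
  · fin_cases i
    · exact contDiffAt_fst
    · exact contDiffAt_fst.add (ContDiffAt.log (by fun_prop) hq.ne')
  · fin_cases i
    · show ContDiffAt ℝ ∞ (fun q : B4 => q.2.1.1 - q.2.1.2) q
      fun_prop
    · show ContDiffAt ℝ ∞ (fun q : B4 => q.2.1.2) q
      fun_prop

theorem l0_cq {q : B4} (hq : 0 < 1 + q.2.2) (v : B4) : l0 (cq q) (fderiv ℝ cq q v) = lb q v := by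
  have d := ((contDiffAt_cq hq).differentiableAt (by simp)).hasFDerivAt
  have k : ∀ (i : Fin 2) (L : B4 →L[ℝ] ℝ), (∀ y, (cq y).2 i = L y) →
      (fderiv ℝ cq q v).2 i = L v := fun i L hL => by
    have h1 := ((ContinuousLinearMap.proj (R := ℝ) (φ := fun _ : Fin 2 => ℝ) i).comp
      (ContinuousLinearMap.snd ℝ (Fin 2 → ℝ) _)).hasFDerivAt.comp q d
    have h2 := h1.unique ((L.hasFDerivAt (x := q)).congr_of_eventuallyEq (.of_forall hL))
    exact congrArg (fun T => T v) h2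
  rw [l0_apply, Fin.sum_univ_two, k 0 (da4 - dσ4) fun _ => rfl, k 1 dσ4 fun _ => rfl, lb_apply]
  simp [cq, da4, dσ4, exp_add, exp_log hq]
  ring

variable {V : Type} [NormedAddCommGroup V] [NormedSpace ℝ V] {M : Set V} {l : V → V →L[ℝ] ℝ}
  {Pi : V → (V →L[ℝ] ℝ) →L[ℝ] V} {Ψ : B4 → V} {κ : V → B4} {O : Set B4} {N : Set V}

theorem base [FiniteDimensional ℝ V] (h : Smp (Euc 4) M l Pi) {p : V} (hp : p ∈ M)
    (h0 : ∃ v ∈ Tg M p, l p v ≠ 0) : ∃ Ψ κ O N, SCh M l Ψ κ O N ∧ p ∈ N ∧ κ p = 0 := by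
  obtain ⟨g, r, O0, N0, hP, hN⟩ := h.sub p hp
  obtain ⟨hy, hg⟩ := hP.rm p hp hN
  obtain ⟨n, Θ, sΘ, Θ0, hr, hΘ⟩ := Chart.loc h hP hy (by rwa [hg])
  obtain rfl : n = 1 := by
    rw [Chart.finrank_Q] at hr
    simp at hr
    omega
  have h00 : 0 < 1 + (0 : B4).2.2 := by simp
  have hc : ContinuousAt cq 0 := (contDiffAt_cq h00).continuousAt
  obtain ⟨U0, hU0, oU0, yU0⟩ := _root_.eventually_nhds_iff.1 (hc.eventually (cq_zero ▸ hΘ))
  have oU := oU0.inter (isOpen_lt continuous_const (by fun_prop : Continuous fun q : B4 => 1 + q.2.2)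
    (f := fun _ => 0))
  set U := U0 ∩ {q : B4 | 0 < 1 + q.2.2} with hUdef
  have yU : (0 : B4) ∈ U := ⟨yU0, h00⟩
  have cf : ∀ q ∈ U, ContDiffAt ℝ ∞ (Θ ∘ cq) q := fun q hq =>
    sΘ.contDiffAt.comp q (contDiffAt_cq hq.2)
  have cg : ∀ q ∈ U, ContDiffAt ℝ ∞ (g ∘ Θ ∘ cq) q := fun q hq =>
    (hP.cg (hU0 q hq.1).1).comp q (cf q hq)
  have hF : ∀ q ∈ U, pb l (g ∘ Θ ∘ cq) q = lb q := fun q hq => by
    obtain ⟨k1, k2⟩ := hU0 q hq.1
    refine ContinuousLinearMap.ext fun v => ?_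
    rw [← Function.comp_assoc, pb_comp ((hP.cg k1).comp _ sΘ.contDiffAt) (contDiffAt_cq hq.2),
      pb_apply, k2, l0_cq hq.2]
  have hinv : ∀ q ∈ U, (fderiv ℝ (Θ ∘ cq) q).IsInvertible := fun q hq => by
    have hi : Function.Injective (fderiv ℝ (Θ ∘ cq) q).toLinearMap :=
      (injective_iff_map_eq_zero _).2 fun w hw => nondeg_lb (q := q) fun v => by
        have he : pb l (g ∘ Θ ∘ cq) =ᶠ[𝓝 q] lb := by
          filter_upwards [oU.mem_nhds hq] with q' hq' using hF q' hq'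
        rw [← dd_congr he, dd_pb h.sl.contDiffAt (cg q hq), fderiv_comp q (hP.dg (hU0 q hq.1).1)
          ((cf q hq).differentiableAt (by simp)), ContinuousLinearMap.comp_apply,
          show fderiv ℝ (Θ ∘ cq) q w = 0 from hw, map_zero]
        simp [dd]
    exact ⟨((fderiv ℝ (Θ ∘ cq) q).toLinearMap.linearEquivOfInjective hi (by
      simp [Module.finrank_prod])).toContinuousLinearEquiv, ContinuousLinearMap.ext fun _ => rfl⟩
  obtain ⟨r1, O1, N1, hp1, hO1, yO1⟩ := Chart.repar hP oU (fun q hq => (cf q hq).contDiffWithinAt)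
    (fun q hq => ⟨(hU0 q hq.1).1, hinv q hq⟩) yU
  have hb0 : (g ∘ Θ ∘ cq) 0 = p := by simp [cq_zero, Θ0, hg]
  obtain ⟨k1, k2, k3⟩ := hp1.gm 0 yO1
  rw [hb0] at k1 k2 k3
  obtain ⟨r2, O, N, hp3, sr, xN, -, hO, he⟩ := hp1.global k1 k2
  exact ⟨_, r2, O, N, ⟨hp3, sr, fun q hq v => congrArg (fun T => T v) (hF q (hO1 (hO hq)))⟩, xN,
    (he xN).trans k3⟩

/-- change of coordinates that keeps the form -/
theorem comp (h : SCh M l Ψ κ O N) {T T' : B4 → B4} (sT : ContDiff ℝ ∞ T) (sT' : ContDiff ℝ ∞ T')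
    (h1 : ∀ q, T' (T q) = q) (h2 : ∀ q, T (T' q) = q)
    (hf : ∀ q v, lb (T q) (fderiv ℝ T q v) = lb q v) :
    SCh M l (fun q => Ψ (T q)) (fun x => T' (κ x)) (T ⁻¹' O) N ∧
      ∀ q, T q ∈ O → ∀ v, fderiv ℝ (fun q => Ψ (T q)) q v = fderiv ℝ Ψ (T q) (fderiv ℝ T q v) := by
  have d : ∀ q, T q ∈ O → ∀ v,
      fderiv ℝ (fun q => Ψ (T q)) q v = fderiv ℝ Ψ (T q) (fderiv ℝ T q v) := fun q hq v =>
    congrArg (fun L => L v) (fderiv_comp q (h.par.dg hq) (sT.differentiable (by simp) q))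
  refine ⟨⟨⟨h.par.oO.preimage sT.continuous, h.par.oN, h.par.sg.comp sT.contDiffOn fun _ hq => hq,
    (sT'.comp h.sκ).contDiffOn, fun q hq => ?_, fun x hx hN => ?_⟩, sT'.comp h.sκ,
    fun q hq v => ?_⟩, d⟩
  · obtain ⟨k1, k2, k3⟩ := h.par.gm _ hq
    exact ⟨k1, k2, by rw [k3, h1]⟩
  · obtain ⟨k1, k2⟩ := h.par.rm x hx hN
    exact ⟨by rwa [mem_preimage, h2], by rwa [h2]⟩
  · rw [d q hq, h.form _ hq, hf]

/-- the reflection -/
def Sa (q : B4) : B4 := (q.1, (q.2.1.1, -q.2.1.2), -q.2.2)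

/-- the change of polarisation -/
def Sb (q : B4) : B4 := (q.1, (q.2.1.1 + q.2.1.2 * q.2.2, q.2.2), -q.2.1.2)

/-- its inverse -/
def Sc (q : B4) : B4 := (q.1, (q.2.1.1 + q.2.1.2 * q.2.2, -q.2.2), q.2.1.2)

theorem hs (q : B4) : HasFDerivAt (fun q : B4 => q.1) (ContinuousLinearMap.fst ℝ _ _) q :=
  hasFDerivAt_fst

theorem ha (q : B4) : HasFDerivAt (fun q : B4 => q.2.1.1) da4 q := da4.hasFDerivAt

theorem hσ (q : B4) : HasFDerivAt (fun q : B4 => q.2.1.2) dσ4 q := dσ4.hasFDerivAt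

theorem hy (q : B4) : HasFDerivAt (fun q : B4 => q.2.2)
    ((ContinuousLinearMap.snd ℝ _ _).comp (ContinuousLinearMap.snd ℝ _ _)) q :=
  hasFDerivAt_snd.comp q hasFDerivAt_snd

theorem dT1 (q v : B4) : fderiv ℝ Sa q v = Sa v := by
  have h : HasFDerivAt Sa _ q :=
    (hs q).prodMk (((ha q).prodMk (hσ q).fun_neg).prodMk (hy q).fun_neg)
  rw [h.fderiv]
  rfl

theorem dT2 (q v : B4) : fderiv ℝ Sb q v =
    (v.1, (v.2.1.1 + (q.2.1.2 * v.2.2 + q.2.2 * v.2.1.2), v.2.2), -v.2.1.2) := by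
  have h : HasFDerivAt Sb _ q :=
    (hs q).prodMk ((((ha q).fun_add ((hσ q).fun_mul (hy q))).prodMk (hy q)).prodMk (hσ q).fun_neg)
  rw [h.fderiv]
  rfl

theorem dRi (c q v : B4) : fderiv ℝ (Ri c) q v =
    (v.1, (exp (-c.1) * v.2.1.1, v.2.1.2), exp (-c.1) * v.2.2) := by
  have h : HasFDerivAt (Ri c) _ q :=
    ((hs q).add_const c.1).prodMk (((((ha q).const_mul (exp (-c.1))).add_const c.2.1.1).prodMk
      ((hσ q).add_const c.2.1.2)).prodMk ((hy q).const_mul (exp (-c.1))))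
  rw [h.fderiv]
  rfl

theorem flip (h : SCh M l Ψ κ O N) {p : V} (hp : p ∈ M) (hN : p ∈ N) (h0 : κ p = 0)
    {α : V →L[ℝ] ℝ} (hα : α (fderiv ℝ Ψ 0 ey) ≠ 0) :
    ∃ Ψ κ O N, SCh M l Ψ κ O N ∧ p ∈ N ∧ κ p = 0 ∧ 0 < α (fderiv ℝ Ψ 0 ey) := by
  rcases hα.lt_or_gt with k | k
  swap
  · exact ⟨Ψ, κ, O, N, h, hN, h0, k⟩
  have e0 : Sa 0 = 0 := by ext <;> simp [Sa]
  have s1 : ContDiff ℝ ∞ Sa := by unfold Sa; fun_prop
  have i1 : ∀ q, Sa (Sa q) = q := fun q => by ext <;> simp [Sa]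
  obtain ⟨k1, k2⟩ := comp h s1 s1 i1 i1 fun q v => by
    rw [dT1, lb_apply, lb_apply]
    simp [Sa]
  refine ⟨_, _, _, _, k1, hN, by rw [h0, e0], ?_⟩
  rw [k2 0 (by rw [e0, ← h0]; exact (h.par.rm p hp hN).1), dT1, e0,
    show Sa ey = -ey by ext <;> simp [Sa, ey], map_neg, map_neg]
  linarith

theorem swap (h : SCh M l Ψ κ O N) {p : V} (hp : p ∈ M) (hN : p ∈ N) (h0 : κ p = 0)
    {α : V →L[ℝ] ℝ} (hα : α (fderiv ℝ Ψ 0 eσ) ≠ 0) :
    ∃ Ψ κ O N, SCh M l Ψ κ O N ∧ p ∈ N ∧ κ p = 0 ∧ α (fderiv ℝ Ψ 0 ey) ≠ 0 := by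
  have e0 : Sb 0 = 0 := by ext <;> simp [Sb]
  obtain ⟨k1, k2⟩ := comp (T := Sb) (T' := Sc) h (by unfold Sb; fun_prop) (by unfold Sc; fun_prop)
    (fun q => by ext <;> simp [Sb, Sc, mul_comm]) (fun q => by ext <;> simp [Sb, Sc, mul_comm])
    fun q v => by
      rw [dT2, lb_apply, lb_apply]
      simp only [Sb]
      ring
  refine ⟨_, _, _, _, k1, hN, by rw [h0]; ext <;> simp [Sc], ?_⟩
  rw [k2 0 (by rw [e0, ← h0]; exact (h.par.rm p hp hN).1), dT2, e0]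
  simpa [ey, eσ] using hα

theorem Ri_add (c q : B4) (t : ℝ) : Ri c (q + t • es) = Ri c q + t • es := by
  ext <;> simp [Ri, es]
  ring

theorem contDiff_Ri (c : B4) : ContDiff ℝ ∞ (Ri c) := by unfold Ri; fun_prop

theorem contDiff_Rf (c : B4) : ContDiff ℝ ∞ (Rf c) := by unfold Rf; fun_prop

theorem Rf_lip (c q q' : B4) : ‖Rf c q - Rf c q'‖ ≤ (1 + exp c.1) * ‖q - q'‖ := by
  have h0 := exp_pos c.1
  have hn := norm_nonneg (q - q')
  have h1 : |(q - q').1| ≤ ‖q - q'‖ := norm_fst_le (q - q')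
  have h2 : |(q - q').2.1.1| ≤ ‖q - q'‖ :=
    (norm_fst_le (q - q').2.1).trans ((norm_fst_le _).trans (norm_snd_le _))
  have h3 : |(q - q').2.1.2| ≤ ‖q - q'‖ :=
    (norm_snd_le (q - q').2.1).trans ((norm_fst_le _).trans (norm_snd_le _))
  have h4 : |(q - q').2.2| ≤ ‖q - q'‖ := (norm_snd_le (q - q').2).trans (norm_snd_le _)
  have e : Rf c q - Rf c q' =
      ((q - q').1, (exp c.1 * (q - q').2.1.1, (q - q').2.1.2), exp c.1 * (q - q').2.2) := by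
    ext <;> simp [Rf] <;> ring
  rw [e]
  generalize ‖q - q'‖ = D at *
  simp only [Prod.norm_def, norm_eq_abs, abs_mul, abs_of_pos h0, max_le_iff]
  refine ⟨by nlinarith, ⟨by nlinarith, by nlinarith⟩, by nlinarith⟩

end Darb4

open Darb4 in
theorem darb4 : Darb4Stmt := by
  intro V _ _ _ M l Pi α p hS hp hα ⟨u, hu, v, hv, hne⟩
  obtain ⟨Ψ, κ, O, N, h, hN, h0⟩ := base hS hp (by
    by_contra hc
    push Not at hc
    exact hne (by rw [hc u hu, hc v hv, mul_zero, mul_zero]))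
  by_cases k1 : α (fderiv ℝ Ψ 0 ey) = 0
  swap
  · exact flip h hp hN h0 k1
  by_cases k2 : α (fderiv ℝ Ψ 0 eσ) = 0
  swap
  · obtain ⟨Ψ', κ', O', N', h', hN', h0', k⟩ := swap h hp hN h0 k2
    exact flip h' hp hN' h0' k
  obtain ⟨hO, hΨ⟩ := h.par.rm p hp hN
  rw [h0] at hO hΨ
  have ht := h.par.tg hO
  have k3 := h.dΨ hS hO
  have hf := h.form 0 hO
  rw [hΨ] at ht k3 hf
  rw [ht] at hu hv
  obtain ⟨u, rfl⟩ := hu
  obtain ⟨v, rfl⟩ := hv
  have k4 : ∀ w, α (fderiv ℝ Ψ 0 w) = w.2.1.1 * α (fderiv ℝ Ψ 0 ea) := fun w => by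
    have := expand4 (α.comp (fderiv ℝ Ψ 0)) w
    simpa only [ContinuousLinearMap.comp_apply, k1, k2, k3, hα, mul_zero, add_zero,
      zero_add] using this
  refine (hne ?_).elim
  rw [hf, hf, k4 u, k4 v, lb_apply, lb_apply]
  simp
  ring

open Darb4 in
theorem recent : RecentStmt := by
  intro V _ _ M l yv μ fl Ψ κ lm O N c h
  have cR := (contDiff_Ri c).continuous
  refine ⟨⟨h.top.oO.preimage cR, h.top.oN, h.top.cΨ.comp cR.continuousOn fun _ hq => hq,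
    (contDiff_Rf c).continuous.comp h.top.cκ, fun q hq => ?_, fun x hx hN => ?_, fun q t hq => ?_⟩,
    (h.cm.comp cR.continuousOn fun _ hq => hq).sub continuousOn_const, fun q hq => ?_,
    fun q hq => ?_, fun Q hQ hQO => ?_⟩
  · obtain ⟨k1, k2, k3⟩ := h.top.gm _ hq
    exact ⟨k1, k2, by rw [k3, Rf_Ri]⟩
  · obtain ⟨k1, k2⟩ := h.top.rm x hx hN
    exact ⟨by rwa [mem_preimage, Ri_Rf], by rwa [Ri_Rf]⟩
  · rw [Ri_add]
    exact h.top.flow _ t fun u hu => Ri_add c q u ▸ hq u hu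
  · rw [h.eq _ hq, sub_eq_add_neg, exp_add, mul_assoc]
    rfl
  · simp only [Ri_add]
    exact (h.dm _ hq).sub_const _
  obtain ⟨C, hC⟩ := h.app _ (hQ.image cR) (image_subset_iff.2 hQO)
  refine ⟨exp (-c.1) * C, fun e he => ?_⟩
  have h0 := exp_pos c.1
  obtain ⟨Ψ', κ', O', N', hs, hsub, hq⟩ := hC (e / (1 + exp c.1)) (by positivity)
  obtain ⟨k1, k2⟩ := comp hs (contDiff_Ri c) (contDiff_Rf c) (Rf_Ri c) (Ri_Rf c) fun q v => by
    rw [dRi, lb_apply, lb_apply]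
    simp only [Ri, exp_add]
    have : exp c.1 * exp (-c.1) = 1 := by rw [← exp_add, add_neg_cancel, exp_zero]
    linear_combination (exp q.1 * (v.2.1.1 + q.2.2 * v.2.1.2)) * this
  refine ⟨_, _, _, _, k1, image_subset_iff.1 hsub, fun q hqQ => ?_⟩
  obtain ⟨a1, a2, a3, a4⟩ := hq _ (mem_image_of_mem _ hqQ)
  refine ⟨a1.trans (div_le_self he.le (by linarith)), a2, ?_, ?_⟩
  · have := Rf_lip c (κ' (Ψ (Ri c q))) (Ri c q)
    rw [Rf_Ri] at this
    refine this.trans ((mul_le_mul_of_nonneg_left a3 (by positivity)).trans_eq ?_)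
    field_simp
  · rw [k2 q (hsub (mem_image_of_mem _ hqQ)), dRi,
      show (ey.1, (exp (-c.1) * ey.2.1.1, ey.2.1.2), exp (-c.1) * ey.2.2) = exp (-c.1) • ey by
        ext <;> simp [ey], map_smul, norm_smul, norm_eq_abs, abs_of_pos (exp_pos _)]
    exact mul_le_mul_of_nonneg_left a4 (exp_pos _).le

end Pool.Agent.MP_6d695c_gt.T2
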