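import Pool.Agent.MP_6d695c_gt.t2.Spec
import Mathlib.Analysis.Calculus.BumpFunction.Convolution
import Mathlib.Analysis.Calculus.ContDiff.Convolution

/-! PROJECT T2, row GLUE2: gluing with the exhausting function, and smooth approximation in the
`C¹` norm. -/

open scoped Manifold ContDiff Topology MeasureTheory Convolution
open Set Metric Filter Real

namespace Pool.Agent.MP_6d695c_gt.T2

open SW T1 Theta

theorem glue2 : Glue2Stmt := by
  intro V E _ _ _ _ S l Pi ψ G Φ hS hψ sG sΦ cpt hfar hly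
  obtain ⟨χ, hχ, χ1, χ0, -, -⟩ := exists_step (show (7 / 4 : ℝ) < 2 by norm_num)
  obtain ⟨s, hs, s1, s0, sr, sd⟩ := exists_step (show (3 / 2 : ℝ) < 13 / 8 by norm_num)
  have dψ : ∀ q, DifferentiableAt ℝ ψ q := hψ.differentiable (by simp)
  have dG : ∀ q, DifferentiableAt ℝ G q := sG.differentiable (by simp)
  set X : V → V := fun x => Pi x (l x + fderiv ℝ G x) with hX
  set W : V → ℝ := fun q => χ (ψ q) * Φ q with hW
  set T : V → ℝ := fun q => (ψ q - 3 / 2) * (1 - s (ψ q)) with hT
  have sW : ContDiff ℝ ∞ W := (hχ.comp hψ).mul sΦ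
  have sT : ContDiff ℝ ∞ T := (hψ.sub contDiff_const).mul (contDiff_const.sub (hs.comp hψ))
  have sX : ContDiff ℝ ∞ X := hS.sP.clm_apply (hS.sl.add (sG.fderiv_right (m := ∞) (by simp)))
  have ltψ : ∀ q (c : ℝ), ψ q < c → ∀ᶠ y in 𝓝 q, ψ y < c := fun q c h =>
    hψ.continuous.continuousAt.eventually (gt_mem_nhds h)
  have X2 : ∀ q ∈ S, 3 / 2 ≤ ψ q → 0 < fderiv ℝ ψ q (X q) := by
    intro q hq h
    have e1 : X q = Pi q (l q) := hS.congr hq fun v hv => by
      rw [add_apply,
        fderiv_congr_tg (dG q) (differentiableAt_const (0 : ℝ)) hq (hfar q hq h).2 hv]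
      simp
    rw [e1]
    exact (hfar q hq h).1
  set K : Set V := {q ∈ S | ψ q ≤ 4} ∩ {q | 3 / 2 ≤ ψ q} with hK
  have cK : IsCompact K := cpt.inter_right (isClosed_le continuous_const hψ.continuous)
  obtain ⟨m, m0, hm⟩ := exists_pos_le (u := fun q => fderiv ℝ ψ q (X q)) cK
    ((hψ.continuous_fderiv (by simp)).clm_apply sX.continuous).continuousOn
    fun q hq => X2 q hq.1.1 hq.2
  obtain ⟨C, hCb⟩ := cK.exists_bound_of_continuousOn (f := fun q => fderiv ℝ W q (X q))
    ((sW.continuous_fderiv (by simp)).clm_apply sX.continuous).continuousOn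
  set A : ℝ := (|C| + 1) / m with hAdef
  have A0 : 0 < A := by positivity
  have dΦ' : ∀ q v, fderiv ℝ (fun q => W q + A * T q) q v =
      fderiv ℝ W q v + A * fderiv ℝ T q v := fun q v => by
    have := ((sW.differentiable (by simp)) q).hasFDerivAt.add
      (((sT.differentiable (by simp)) q).hasFDerivAt.const_mul A)
    have e : HasFDerivAt (fun q => W q + A * T q) _ q := this
    rw [e.fderiv]
    simp
  have dT : ∀ q v, fderiv ℝ T q v = ((1 - s (ψ q)) - (ψ q - 3 / 2) * deriv s (ψ q)) *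
      fderiv ℝ ψ q v := fun q v => by
    have e2 := ((hs.differentiable (by simp)) (ψ q)).hasDerivAt.comp_hasFDerivAt q
      (dψ q).hasFDerivAt
    have e : HasFDerivAt T _ q := ((dψ q).hasFDerivAt.sub_const (3 / 2)).mul (e2.const_sub 1)
    rw [e.fderiv]
    simp
    ring
  refine ⟨A, -(A * (3 / 2)), fun q => W q + A * T q, A0, sG, sW.add (contDiff_const.mul sT),
    fun q hq h => (hfar q hq (by linarith)).2, fun q hq h => ?_, fun q hq h => ?_⟩
  · simp only [hW, hT, χ0 _ (show 2 ≤ ψ q by linarith), s0 _ (show 13 / 8 ≤ ψ q by linarith)]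
    ring
  · rcases lt_or_ge (ψ q) (7 / 4) with h5 | h5
    · refine (hly q hq h5.le).le hq ?_
      filter_upwards [self_mem_nhdsWithin, mem_nhdsWithin_of_mem_nhds (ltψ q _ h5)] with y hy h2
      have e : fderiv ℝ W y = fderiv ℝ Φ y := Filter.EventuallyEq.fderiv_eq
        ((ltψ y _ h2).mono fun z hz => by simp only [hW, χ1 _ hz.le, one_mul])
      rw [dΦ', e, le_add_iff_nonneg_right]
      refine mul_nonneg A0.le ?_
      rcases lt_or_ge (ψ y) (3 / 2) with h3 | h3
      · have e' : fderiv ℝ T y = fderiv ℝ (fun _ => (0 : ℝ)) y := Filter.EventuallyEq.fderiv_eq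
          ((ltψ y _ h3).mono fun z hz => by simp only [hT, s1 _ hz.le, sub_self, mul_zero])
        simp [e']
      · rw [dT]
        refine mul_nonneg ?_ (X2 y hy h3).le
        have a1 := (sr (ψ y)).2
        have a2 := mul_nonneg (sub_nonneg.2 h3) (neg_nonneg.2 (sd (ψ y)))
        linarith
    · refine Or.inl ?_
      have hqK : q ∈ K := ⟨⟨hq, h⟩, show 3 / 2 ≤ ψ q by linarith⟩
      have b1 := hm q hqK
      have b2 := (abs_le.1 ((hCb q hqK).trans (le_abs_self C))).1
      have b3 := mul_nonneg (sub_nonneg.2 hqK.2) (neg_nonneg.2 (sd (ψ q)))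
      have b4 : fderiv ℝ ψ q (X q) ≤ fderiv ℝ T q (X q) := by
        rw [dT, s0 _ (show 13 / 8 ≤ ψ q by linarith)]
        have := mul_nonneg b3 (m0.le.trans b1)
        linarith
      have b5 : A * m = |C| + 1 := by rw [hAdef]; field_simp
      have b6 := mul_le_mul_of_nonneg_left (b1.trans b4) A0.le
      change 0 < fderiv ℝ (fun q => W q + A * T q) q (X q)
      rw [dΦ']
      linarith

theorem moll : MollStmt := by
  intro X _ _ _ f e hf hc he
  borelize X
  let μ : MeasureTheory.Measure X := MeasureTheory.Measure.addHaar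
  have cf := hf.continuous
  have cd : Continuous (fderiv ℝ f) := hf.continuous_fderiv (by simp)
  have hd : HasCompactSupport (fderiv ℝ f) := hc.fderiv ℝ
  obtain ⟨δ1, d1, h1⟩ := Metric.uniformContinuous_iff.1 (hc.uniformContinuous_of_continuous cf) e he
  obtain ⟨δ2, d2, h2⟩ := Metric.uniformContinuous_iff.1 (hd.uniformContinuous_of_continuous cd) e he
  have d0 : 0 < min δ1 δ2 := lt_min d1 d2
  let φ : ContDiffBump (0 : X) := ⟨min δ1 δ2 / 2, min δ1 δ2, by positivity, by linarith⟩
  have li : MeasureTheory.LocallyIntegrable (φ.normed μ) μ :=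
    φ.continuous_normed.locallyIntegrable
  refine ⟨φ.normed μ ⋆[ContinuousLinearMap.lsmul ℝ ℝ, μ] f,
    φ.hasCompactSupport_normed.contDiff_convolution_left _ φ.contDiff_normed cf.locallyIntegrable,
    φ.hasCompactSupport_normed.convolution _ hc, fun x => ⟨?_, ?_⟩⟩
  · rw [← Real.dist_eq]
    exact φ.dist_normed_convolution_le cf.aestronglyMeasurable fun y hy =>
      (h1 (lt_of_lt_of_le (mem_ball.1 hy) (min_le_left _ _))).le
  · rw [(hc.hasFDerivAt_convolution_right (ContinuousLinearMap.lsmul ℝ ℝ) li hf x).fderiv,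
      ← dist_eq_norm]
    have e1 : (ContinuousLinearMap.lsmul ℝ ℝ : ℝ →L[ℝ] ℝ →L[ℝ] ℝ).precompR X =
        ContinuousLinearMap.lsmul ℝ ℝ := by
      ext
      simp
    rw [e1]
    exact φ.dist_normed_convolution_le cd.aestronglyMeasurable fun y hy =>
      (h2 (lt_of_lt_of_le (mem_ball.1 hy) (min_le_right _ _))).le

end Pool.Agent.MP_6d695c_gt.T2
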