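import Pool.Agent.MP_6d695c_gt.t2.SpecB

/-! PROJECT T2, row HYP: the hypothesis passes to the ambient space. -/

open scoped Manifold ContDiff Topology MeasureTheory
open Set Metric Filter Real

namespace Pool.Agent.MP_6d695c_gt.T2

open SW T1 Theta

namespace HypA

variable {d : ℕ} {W V : Type} [TopologicalSpace W] [ChartedSpace (Euc d) W]
  [NormedAddCommGroup V] [NormedSpace ℝ V] [FiniteDimensional ℝ V] {l : OneForm (𝓡 d) W}
  {Z : VField (𝓡 d) W} {φ : W → ℝ} {e : W → V} {l' : V → V →L[ℝ] ℝ}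
  {Pi : V → (V →L[ℝ] ℝ) →L[ℝ] V} {φ' : V → ℝ}

/-- the image of the skeleton is a core -/
theorem coreSkel (hL : IsLiouville (𝓡 d) l Z) (hE : Emb l Z φ e l' Pi φ') :
    Core (e '' {x | φ x < 6}) l' Pi φ' (e '' (skeleton Z ∩ {x | φ x ≤ 3})) := by
  intro c hc
  obtain ⟨⟨x, hx, hx0⟩, h3, -⟩ := hc 0 le_rfl
  have hx3 : φ x ≤ 3 := by rwa [← hx0, hE.fn x hx] at h3
  obtain ⟨γ, hγ0, hγ⟩ := hL.complete x
  refine ⟨x, ⟨⟨γ, {x | φ x ≤ 4}, hγ0, hγ, hE.ex.2 4, fun b hb => ?_⟩, hx3⟩, hx0⟩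
  by_contra hb4
  have hcφ : Continuous fun t => φ (γ t) := hE.ex.1.continuous.comp hγ.continuous
  obtain ⟨τ, hτ, h4, hlt⟩ := first_time (T := {t | 4 ≤ φ (γ t)})
    (isClosed_le continuous_const hcφ) (show 4 ≤ φ (γ b) from (not_le.1 hb4).le) hb
  have hτ0 : 0 < τ := lt_of_le_of_ne hτ.1 fun h => by
    have : 4 ≤ φ (γ τ) := h4
    rw [← h, hγ0] at this
    linarith
  have hle : ∀ t ∈ Icc 0 τ, φ (γ t) ≤ 4 := by
    have : closure (Ico 0 τ) ⊆ {t | φ (γ t) ≤ 4} :=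
      closure_minimal (fun t ht => (show φ (γ t) < 4 from not_le.1 (hlt t ht)).le)
        (isClosed_le hcφ continuous_const)
    rwa [closure_Ico hτ0.ne] at this
  have hd : ∀ t ∈ Icc 0 τ, HasDerivAt (fun t => e (γ t)) (Pi (e (γ t)) (l' (e (γ t)))) t :=
    fun t ht => by
      let D : Euc d →L[ℝ] V := mfderiv (𝓡 d) 𝓘(ℝ, V) e (γ t)
      let v : Euc d := Z (γ t)
      have h1 : HasFDerivAt (fun t => e (γ t)) (D.comp ((1 : ℝ →L[ℝ] ℝ).smulRight v)) t :=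
        ((hE.sm.mdifferentiableAt (x := γ t) (by simp)).hasMFDerivAt.comp t (hγ t)).hasFDerivAt
      have h2 : D v = Pi (e (γ t)) (l' (e (γ t))) := hE.fld _ ((hle t ht).trans_lt (by norm_num))
      simpa [h2] using h1.hasDerivAt
  have c1 : ContinuousOn c (Icc 0 τ) := fun t ht =>
    (hc t ht.1).2.2.continuousAt.continuousWithinAt
  have c2 : ContinuousOn (fun t => e (γ t)) (Icc 0 τ) := fun t ht =>
    (hd t ht).continuousAt.continuousWithinAt
  obtain ⟨R, hR⟩ := ((isCompact_Icc.image_of_continuousOn c1).union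
    (isCompact_Icc.image_of_continuousOn c2)).isBounded.subset_closedBall 0
  have : ProperSpace V := FiniteDimensional.proper_real V
  obtain ⟨K, hK⟩ := (hE.amb.smZ.contDiffOn (s := closedBall 0 R)).exists_lipschitzOnWith
    (by simp) (convex_closedBall _ _) (isCompact_closedBall _ _)
  have heq := ODE_solution_unique_of_mem_Icc_right (v := fun _ x => Pi x (l' x))
    (s := fun _ => closedBall 0 R) (K := K) (fun _ _ => hK) c1
    (fun t ht => (hc t ht.1).2.2.hasDerivWithinAt)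
    (fun t ht => hR (Or.inl ⟨t, Ico_subset_Icc_self ht, rfl⟩)) c2
    (fun t ht => (hd t (Ico_subset_Icc_self ht)).hasDerivWithinAt)
    (fun t ht => hR (Or.inr ⟨t, Ico_subset_Icc_self ht, rfl⟩)) (by rw [hγ0, hx0])
    (right_mem_Icc.2 hτ.1)
  have h5 := (hc τ hτ.1).2.1
  rw [heq, hE.fn _ ((hle τ (right_mem_Icc.2 hτ.1)).trans_lt (by norm_num))] at h5
  have : 4 ≤ φ (γ τ) := h4
  linarith

/-- a function given near a compact set extends to the ambient space -/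
theorem ext_fn (hE : Emb l Z φ e l' Pi φ') {U P : Set W} (hU : IsOpen U) (hP : IsCompact P)
    (hPU : ∀ x ∈ P, x ∈ U ∧ φ x < 6) {f : W → ℝ} (n : ℕ)
    (hf : ContMDiffOn (𝓡 d) 𝓘(ℝ, ℝ) n f U) :
    ∃ F : V → ℝ, ContDiff ℝ n F ∧ ∀ x ∈ P, F (e x) = f x := by
  obtain ⟨A, hA⟩ := exists_contMDiffMap_forall_mem_convex_of_local (n := (n : ℕ∞)) 𝓘(ℝ, V)
    (t := fun v => ⋂ x ∈ {x ∈ P | e x = v}, ({f x} : Set ℝ))
    (fun v => convex_iInter₂ fun x _ => convex_singleton _) fun v => by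
      by_cases hv : v ∈ e '' P
      · obtain ⟨x, hx, rfl⟩ := hv
        obtain ⟨ρ, h1, h2⟩ := hE.inv x (hPU x hx).2
        have h3 : ρ (e x) = x := h2.self_of_nhds x (hPU x hx).2 rfl
        have h4 : ContMDiffAt (𝓡 d) 𝓘(ℝ, ℝ) n f (ρ (e x)) := by
          rw [h3]
          exact hf.contMDiffAt (hU.mem_nhds (hPU x hx).1)
        have h5 : ContMDiffAt 𝓘(ℝ, V) 𝓘(ℝ, ℝ) n (f ∘ ρ) (e x) :=
          h4.comp _ (h1.of_le (by exact_mod_cast le_top))
        obtain ⟨u, hu, h6⟩ := (contMDiffAt_iff_contMDiffOn_nhds (by simp)).1 h5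
        refine ⟨_, inter_mem hu h2, f ∘ ρ, h6.mono inter_subset_left, fun y hy => ?_⟩
        refine mem_iInter₂.2 fun x' hx' => ?_
        exact congrArg f (hy.2 x' (hPU x' hx'.1).2 hx'.2)
      · exact ⟨_, (hP.image hE.sm.continuous).isClosed.isOpen_compl.mem_nhds hv, fun _ => 0,
          contMDiffOn_const,
          fun y hy => mem_iInter₂.2 fun x' hx' => absurd ⟨x', hx'.1, hx'.2⟩ hy⟩
  exact ⟨A, A.contMDiff.contDiff, fun x hx => mem_iInter₂.1 (hA (e x)) x ⟨hx, rfl⟩⟩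

end HypA

open HypA in
theorem hyp : HypStmt := by
  intro d W V _ _ _ _ _ _ l Z φ y μ U e l' Pi φ' hL hE hU hy hμ heq hsk
  obtain ⟨Y', K, fl, -, -, hY, hf, hinv⟩ := aflow V (Euc d) _ (fun x => Pi x (l' x)) φ' 4
    hE.amb.sub hE.amb.smZ hE.amb.sφ (fun x hx => hE.amb.tan x hx _) (hE.amb.cpt _ (by norm_num))
  have he := hE.sm.continuous
  have cφ := hE.ex.1.continuous
  let K₀ : Set V := {x ∈ e '' {x | φ x < 6} | φ' x ≤ 4 + 1} ∩
    ⋂ t ∈ Ici (0 : ℝ), {x | φ' (fl t x) ≤ 3}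
  have cK : IsCompact K₀ := (hE.amb.cpt _ (by norm_num)).inter_right
    (isClosed_biInter fun t _ => isClosed_le (hE.amb.sφ.continuous.comp
      (hf.sm.continuous.comp (continuous_const.prodMk continuous_id))) continuous_const)
  have core : Core (e '' {x | φ x < 6}) l' Pi φ' K₀ := fun c hc => by
    refine ⟨⟨(hc 0 le_rfl).1, by linarith [(hc 0 le_rfl).2.1]⟩, mem_iInter₂.2 fun t ht => ?_⟩
    have := hf.eq_of (c := c) (a := 0) (b := t) fun s hs => by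
      have h0 : 0 ≤ s := (uIcc_of_le (show (0 : ℝ) ≤ t from ht) ▸ hs).1
      rw [hY _ (hc s h0).1 (by linarith [(hc s h0).2.1])]
      exact (hc s h0).2.2
    rw [sub_zero] at this
    show φ' (fl t (c 0)) ≤ 3
    rw [← this]
    exact (hc t ht).2.1
  have sub : K₀ ⊆ e '' (skeleton Z ∩ {x | φ x ≤ 3}) := fun x hx => by
    have := coreSkel hL hE (fun t => fl t x) fun t ht => by
      have h1 := (hinv t x hx.1.1 hx.1.2).1
      have h2 : φ' (fl t x) ≤ 3 := mem_iInter₂.1 hx.2 t ht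
      refine ⟨h1, h2, ?_⟩
      rw [← hY _ h1 (by linarith)]
      exact hf.der x t
    rwa [hf.zero] at this
  have inj : ∀ x x', φ x < 6 → φ x' < 6 → e x' = e x → x' = x := fun x x' hx hx' h => by
    obtain ⟨ρ, -, h2⟩ := hE.inv x hx
    exact (h2.self_of_nhds x' hx' h).symm.trans (h2.self_of_nhds x hx rfl)
  have oU : IsOpen (e '' ({x | φ x ≤ 5} \ U))ᶜ :=
    (((hE.ex.2 5).diff hU).image he).isClosed.isOpen_compl
  have : ProperSpace V := FiniteDimensional.proper_real V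
  obtain ⟨C, cC, hKC, hCU⟩ := exists_compact_between cK oU fun x hx => by
    obtain ⟨z, ⟨hz, hz3⟩, rfl⟩ := sub hx
    rintro ⟨z', ⟨h1, h2⟩, h3⟩
    have h4 : φ z ≤ 3 := hz3
    have h5 : φ z' ≤ 5 := h1
    rw [inj z z' (by linarith) (by linarith) h3] at h2
    exact h2 (hsk z hz).1
  have cP : IsCompact ({x | φ x ≤ 5} ∩ e ⁻¹' C) :=
    (hE.ex.2 5).inter_right (cC.isClosed.preimage he)
  have hPU : ∀ x ∈ {x | φ x ≤ 5} ∩ e ⁻¹' C, x ∈ U ∧ φ x < 6 := fun x hx =>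
    ⟨by_contra fun h => hCU hx.2 ⟨x, ⟨hx.1, h⟩, rfl⟩, lt_of_le_of_lt hx.1 (by norm_num)⟩
  obtain ⟨yv, sy, hyv⟩ := ext_fn hE hU cP hPU 1 (f := y) (by exact_mod_cast hy)
  obtain ⟨μ', sμ, hμ'⟩ := ext_fn hE hU cP hPU 0 (f := μ)
    (by exact_mod_cast contMDiffOn_zero_iff.2 hμ)
  have sy' : ContDiff ℝ 1 yv := by exact_mod_cast sy
  have loc : ∀ z, φ z ≤ 4 → e z ∈ interior C → z ∈ {x | φ x ≤ 5} ∩ e ⁻¹' C ∧
      ∀ v, der (𝓡 d) y z v = fderiv ℝ yv (e z) (mfderiv (𝓡 d) 𝓘(ℝ, V) e z v) := fun z h4 hz => by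
    have ev : ∀ᶠ z' in 𝓝 z, z' ∈ {x | φ x ≤ 5} ∩ e ⁻¹' C := by
      filter_upwards [cφ.continuousAt.eventually (gt_mem_nhds (show φ z < 5 by linarith)),
        he.continuousAt.eventually (mem_interior_iff_mem_nhds.1 hz)] with z' a1 a2
      exact ⟨a1.le, a2⟩
    exact ⟨ev.self_of_nhds, fun v => der_comp (hE.sm.mdifferentiableAt (by simp))
      (sy'.differentiable one_ne_zero _) (ev.mono fun z' h => (hyv z' h).symm) v⟩
  refine ⟨yv, μ', interior C, K₀, sy', sμ.continuous, isOpen_interior, core, ?_, ?_⟩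
  · rintro _ ⟨z, hz, rfl⟩ h4 hC
    rw [hE.fn z hz] at h4
    obtain ⟨h1, h2⟩ := loc z h4 hC
    rw [← hE.fld z hz, ← h2, hyv z h1, hμ' z h1]
    exact heq z (hPU z h1).1
  · intro x hx _ _
    obtain ⟨z, ⟨hz, hz3⟩, rfl⟩ := sub hx
    have h3 : φ z ≤ 3 := hz3
    have h6 : φ z < 6 := by linarith
    obtain ⟨h1, h2⟩ := loc z (by linarith) (hKC hx)
    obtain ⟨-, a1, a2, u, v, a3⟩ := hsk z hz
    refine ⟨hKC hx, (hyv z h1).trans a1, (hμ' z h1).symm ▸ a2, _, ?_, _, ?_,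
      by rwa [h2, h2, hE.form z h6, hE.form z h6] at a3⟩
    · rw [hE.tg z h6]
      exact mem_range_self _
    · rw [hE.tg z h6]
      exact mem_range_self _

end Pool.Agent.MP_6d695c_gt.T2
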