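import Pool.Agent.MP_6d695c_gt.t2.Spec

/-! PROJECT T2, row JAY: the polar chart relates the fields. -/

open scoped Manifold ContDiff Topology MeasureTheory
open Set Metric Filter Real

namespace Pool.Agent.MP_6d695c_gt.T2

open SW T1 Theta

noncomputable section

namespace Jay

/-- the complex coordinate of the inverse chart -/
def wv (y : ℝ × Y 2) : ℂ :=
  ((√2 * exp (y.1 / 2) * cos y.2.1 : ℝ) : ℂ) + ((√2 * exp (y.1 / 2) * sin y.2.1 : ℝ) : ℂ) * Complex.I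

/-- the inverse of the polar chart -/
def Jv (y : ℝ × Y 2) : Mo :=
  ((y.2.2.2 0 * exp y.1, (y.2.2.1 0, y.2.2.1 1), y.2.2.2 1 * exp y.1), wv y)

theorem wv_re (y : ℝ × Y 2) : (wv y).re = √2 * exp (y.1 / 2) * cos y.2.1 := by
  simp only [wv, Complex.add_re, Complex.ofReal_re, Complex.mul_re, Complex.I_re, Complex.I_im,
    Complex.ofReal_im]
  ring

theorem wv_im (y : ℝ × Y 2) : (wv y).im = √2 * exp (y.1 / 2) * sin y.2.1 := by
  simp only [wv, Complex.add_im, Complex.ofReal_re, Complex.mul_im, Complex.I_re, Complex.I_im,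
    Complex.ofReal_im]
  ring

theorem contDiff_wv : ContDiff ℝ ∞ wv := by
  have h1 : ContDiff ℝ ∞ fun y : ℝ × Y 2 => ((√2 * exp (y.1 / 2) * cos y.2.1 : ℝ) : ℂ) :=
    Complex.ofRealCLM.contDiff.comp
      (by fun_prop : ContDiff ℝ ∞ fun y : ℝ × Y 2 => √2 * exp (y.1 / 2) * cos y.2.1)
  have h2 : ContDiff ℝ ∞ fun y : ℝ × Y 2 => ((√2 * exp (y.1 / 2) * sin y.2.1 : ℝ) : ℂ) :=
    Complex.ofRealCLM.contDiff.comp
      (by fun_prop : ContDiff ℝ ∞ fun y : ℝ × Y 2 => √2 * exp (y.1 / 2) * sin y.2.1)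
  exact h1.add (h2.mul contDiff_const)

theorem contDiff_Jv : ContDiff ℝ ∞ Jv := by
  have h := contDiff_wv
  unfold Jv
  fun_prop

/-- the components of the differential -/
theorem comp_der (L : Mo →L[ℝ] ℝ) (y v : ℝ × Y 2) {g : ℝ × Y 2 → ℝ}
    {g' : (ℝ × Y 2) →L[ℝ] ℝ} (e : ∀ y, L (Jv y) = g y) (h : HasFDerivAt g g' y) :
    L (fderiv ℝ Jv y v) = g' v := by
  have d := L.hasFDerivAt.comp y (contDiff_Jv.differentiable (by simp) y).hasFDerivAt
  rw [show L ∘ Jv = g from funext e] at d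
  exact congrArg (fun T => T v) (d.unique h)

theorem form (y v : ℝ × Y 2) : lm (Jv y) (fderiv ℝ Jv y v) = lam0 y v := by
  have t : HasFDerivAt (fun y : ℝ × Y 2 => √2 * exp (y.1 / 2)) _ y :=
    ((hasFDerivAt_fst.mul_const (2 : ℝ)⁻¹).exp).const_mul √2
  have z : HasFDerivAt (fun y : ℝ × Y 2 => y.2.1) _ y :=
    ((ContinuousLinearMap.fst ℝ ℝ _).comp (ContinuousLinearMap.snd ℝ ℝ (Y 2))).hasFDerivAt
  let q (j : Fin 2) : (ℝ × Y 2) →L[ℝ] ℝ := (ContinuousLinearMap.proj j).comp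
    ((ContinuousLinearMap.fst ℝ _ _).comp ((ContinuousLinearMap.snd ℝ ℝ _).comp
      (ContinuousLinearMap.snd ℝ ℝ _)))
  have a := comp_der (da4.comp (ContinuousLinearMap.fst ℝ B4 ℂ)) y v (g := q 0) (fun _ => rfl)
    (q 0).hasFDerivAt
  have s := comp_der (dσ4.comp (ContinuousLinearMap.fst ℝ B4 ℂ)) y v (g := q 1) (fun _ => rfl)
    (q 1).hasFDerivAt
  have re := comp_der (Complex.reCLM.comp (ContinuousLinearMap.snd ℝ B4 ℂ)) y v wv_re
    (t.fun_mul z.cos)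
  have im := comp_der (Complex.imCLM.comp (ContinuousLinearMap.snd ℝ B4 ℂ)) y v wv_im
    (t.fun_mul z.sin)
  have a' : (fderiv ℝ Jv y v).1.2.1.1 = v.2.2.1 0 := a
  have s' : (fderiv ℝ Jv y v).1.2.1.2 = v.2.2.1 1 := s
  have re' : (fderiv ℝ Jv y v).2.re = √2 * exp (y.1 / 2) * (-sin y.2.1 * v.2.1) +
      cos y.2.1 * (√2 * (exp (y.1 / 2) * (v.1 / 2))) := by
    refine re.trans ?_
    simp [div_eq_mul_inv, mul_comm]
  have im' : (fderiv ℝ Jv y v).2.im = √2 * exp (y.1 / 2) * (cos y.2.1 * v.2.1) +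
      sin y.2.1 * (√2 * (exp (y.1 / 2) * (v.1 / 2))) := by
    refine im.trans ?_
    simp [div_eq_mul_inv, mul_comm]
  have e1 : exp (y.1 / 2) ^ 2 = exp y.1 := by rw [sq, ← exp_add, add_halves]
  have e2 : √2 ^ 2 = (2 : ℝ) := sq_sqrt two_pos.le
  have e3 := sin_sq_add_cos_sq y.2.1
  rw [lm_apply, a', s', re', im', Chart.lam0_apply, Chart.al0_apply, Fin.sum_univ_two]
  simp only [Jv, wv_re, wv_im]
  rw [← e1]
  linear_combination (exp (y.1 / 2) ^ 2 * v.2.1 * (sin y.2.1 ^ 2 + cos y.2.1 ^ 2) / 2) * e2 +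
    exp (y.1 / 2) ^ 2 * v.2.1 * e3

theorem nq_pos {w : ℂ} (h : w ≠ 0) : 0 < nq w / 2 := by
  rw [nq_eq]
  exact half_pos (pow_pos (norm_pos_iff.2 h) 2)

theorem Jv_Jm {x : Mo} (h : x.2 ≠ 0) : Jv (Jm x) = x := by
  have h1 := nq_pos h
  have h2 : √2 * exp (log (nq x.2 / 2) / 2) = ‖x.2‖ := by
    refine (pow_left_inj₀ (by positivity) (norm_nonneg _) two_ne_zero).1 ?_
    rw [mul_pow, sq_sqrt two_pos.le, sq (exp _), ← exp_add, add_halves, exp_log h1, ← nq_eq]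
    ring
  refine Prod.ext (Prod.ext ?_ (Prod.ext rfl ?_)) (Complex.ext ?_ ?_)
  · simp only [Jv, Jm, Matrix.cons_val_zero, exp_log h1]
    exact div_mul_cancel₀ _ h1.ne'
  · simp only [Jv, Jm, Matrix.cons_val_one, Matrix.cons_val_zero, exp_log h1]
    exact div_mul_cancel₀ _ h1.ne'
  · simp only [Jv, wv_re, Jm, h2]
    exact Complex.norm_mul_cos_arg _
  · simp only [Jv, wv_im, Jm, h2]
    exact Complex.norm_mul_sin_arg _

theorem smooth {x : Mo} (h : x.2 ∈ Complex.slitPlane) : ContDiffAt ℝ ∞ Jm x := by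
  have h0 := (nq_pos (Complex.slitPlane_ne_zero h)).ne'
  have h1 : ContDiffAt ℝ ∞ (fun x : Mo => Complex.log x.2) x :=
    ((Complex.contDiffAt_log (n := ∞) h).restrict_scalars ℝ).comp x contDiffAt_snd
  have h2 : ContDiffAt ℝ ∞ (fun x : Mo => Complex.arg x.2) x := by
    simp only [← Complex.log_im]
    exact Complex.imCLM.contDiff.contDiffAt.comp x h1
  have h3 : ContDiffAt ℝ ∞ (fun x : Mo => nq x.2 / 2) x :=
    ((contDiff_nq.comp contDiff_snd).div_const 2).contDiffAt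
  refine (h3.log h0).prodMk (h2.prodMk (ContDiffAt.prodMk (contDiffAt_pi.2 fun i => ?_)
    (contDiffAt_pi.2 fun i => ?_)))
  · fin_cases i
    · exact (by fun_prop : ContDiffAt ℝ ∞ (fun x : Mo => x.1.2.1.1) x)
    · exact (by fun_prop : ContDiffAt ℝ ∞ (fun x : Mo => x.1.2.1.2) x)
  · fin_cases i
    · exact (by fun_prop : ContDiffAt ℝ ∞ (fun x : Mo => x.1.1) x).div h3 h0
    · exact (by fun_prop : ContDiffAt ℝ ∞ (fun x : Mo => x.1.2.2) x).div h3 h0

theorem isOpen_N : IsOpen {x : Mo | x.2 ∈ Complex.slitPlane} :=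
  Complex.isOpen_slitPlane.preimage continuous_snd

theorem left_inv {x : Mo} (h : x.2 ∈ Complex.slitPlane) (v : Mo) :
    fderiv ℝ Jv (Jm x) (fderiv ℝ Jm x v) = v := by
  have d := (contDiff_Jv.differentiable (by simp) (Jm x)).hasFDerivAt.comp x
    ((smooth h).differentiableAt (by simp)).hasFDerivAt
  have e : id =ᶠ[𝓝 x] Jv ∘ Jm := by
    filter_upwards [isOpen_N.mem_nhds h] with y hy
    exact (Jv_Jm (Complex.slitPlane_ne_zero hy)).symm
  exact congrArg (fun L : Mo →L[ℝ] Mo => L v)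
    ((d.congr_of_eventuallyEq e).unique (hasFDerivAt_id x))

theorem surj {x : Mo} (h : x.2 ∈ Complex.slitPlane) : Function.Surjective (fderiv ℝ Jm x) :=
  (LinearMap.injective_iff_surjective_of_finrank_eq_finrank
    (f := (fderiv ℝ Jm x : Mo →ₗ[ℝ] ℝ × Y 2)) (by simp [Module.finrank_prod])).1
    (Function.LeftInverse.injective (left_inv h))

theorem field (mod : ModStmt) {x : Mo} (h : x.2 ∈ Complex.slitPlane) {f : ℝ × Y 2 → ℝ}
    {F : Mo → ℝ} (hf : ContDiff ℝ ∞ f) (e : ∀ᶠ x' in 𝓝 x, F x' = f (Jm x')) :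
    fderiv ℝ Jm x (Xm F x) = XY f (Jm x) := by
  obtain ⟨h1, h2⟩ := prel _ _ _ _ univ {x : Mo | x.2 ∈ Complex.slitPlane} univ _ _ _ _ Jm 1 x
    mod.2.2 (model 2).1 isOpen_N h trivial (fun y hy => (smooth hy).contDiffWithinAt)
    (fun y _ hy => ⟨trivial, fun v _ => by
      rw [← form, left_inv hy, Jv_Jm (Complex.slitPlane_ne_zero hy), one_mul]⟩)
    fun w _ => (surj h w).imp fun v hv => ⟨tg_univ _ _, hv⟩
  have d : HasFDerivAt F _ x := ((hf.differentiable (by simp) (Jm x)).hasFDerivAt.comp x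
    ((smooth h).differentiableAt (by simp)).hasFDerivAt).congr_of_eventuallyEq e
  simp only [smul_apply, (model 2).2.1, one_smul] at h1 h2
  rw [Xm, d.fderiv, map_add, map_add, h1, h2, XY, XS]

end Jay

end

open Jay in
theorem jay (mod : ModStmt) : JayStmt := by
  intro x h
  refine ⟨smooth h, fun f F hf _ e => ⟨field mod h hf e, fun Λ' Λ hΛ' hΛ e' hL => ?_⟩⟩
  refine rel _ _ univ _ univ Jm Jv _ _ _ _ x 0 isOpen_N h trivial
    (fun y hy => (smooth hy).contDiffWithinAt) (contDiff_Jv.differentiable (by simp) _) hΛ hΛ' ?_ hL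
  rw [nhdsWithin_univ]
  filter_upwards [isOpen_N.mem_nhds h, e.eventually_nhds, e'] with y h1 h2 h3
  exact ⟨trivial, Jv_Jm (Complex.slitPlane_ne_zero h1), tg_univ _ _, field mod h1 hf h2,
    by rw [h3, add_zero]⟩

end Pool.Agent.MP_6d695c_gt.T2
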