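import Pool.Agent.MP_6d695c_gt.t2.Spec

/-! PROJECT T2, rows KSET and AVG: the invariant set, and averaging along the flow. -/

open scoped ContDiff Topology
open Set Metric Filter Real

namespace Pool.Agent.MP_6d695c_gt.T2

open SW T1 Theta

namespace Ks

variable {X : Type} [NormedAddCommGroup X] [NormedSpace ℝ X] {Y : X → X} {fl : ℝ → X → X}

theorem sm_fl (hf : IsFlow Y fl) (t : ℝ) : ContDiff ℝ ∞ (fl t) :=
  hf.sm.comp (contDiff_const.prodMk contDiff_id)

theorem der_fl (hf : IsFlow Y fl) {u : X → ℝ} (hu : ContDiff ℝ ∞ u) (x : X) (t : ℝ) :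
    HasDerivAt (fun s => u (fl s x)) (fderiv ℝ u (fl t x) (Y (fl t x))) t :=
  (hu.differentiable (by simp) _).hasFDerivAt.comp_hasDerivAt t (hf.der x t)

/-- the integral of `b` along the flow up to time `T` -/
theorem avg [FiniteDimensional ℝ X] {K : NNReal} (hY : ContDiff ℝ ∞ Y) (hK : LipschitzWith K Y)
    (hf : IsFlow Y fl) {b : X → ℝ} (hb : ContDiff ℝ ∞ b) (hc : HasCompactSupport b) (T : ℝ) :
    ∃ u : X → ℝ, ContDiff ℝ ∞ u ∧ ∀ x, fderiv ℝ u x (Y x) = b (fl T x) - b x := by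
  have := FiniteDimensional.complete ℝ X
  obtain ⟨K', hK'⟩ := hb.lipschitzWith_of_hasCompactSupport hc (by simp)
  obtain ⟨F, hF⟩ := exists_isFlow (f := fun q : X × ℝ => (Y q.1, b q.1))
    ((hY.comp contDiff_fst).prodMk (hb.comp contDiff_fst))
    ((hK.comp LipschitzWith.prod_fst).prodMk (hK'.comp LipschitzWith.prod_fst))
  have hu : ContDiff ℝ ∞ fun x : X => (F T (x, 0)).2 :=
    (hF.sm.comp (contDiff_const.prodMk (contDiff_id.prodMk contDiff_const))).snd
  refine ⟨_, hu, fun x => ?_⟩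
  obtain ⟨P, -, -, hP⟩ := exists_primitive (b := fun s => b (fl s x))
    (hb.comp (hf.sm.comp (contDiff_id.prodMk contDiff_const)))
  have h1 : ∀ τ, (F T (fl τ x, 0)).2 = P (T + τ) - P τ := fun τ => by
    have h2 := hF.eq_of (c := fun t => (fl (t + τ) x, P (t + τ) - P τ)) (a := 0) (b := T)
      fun t _ => ((hf.der x (t + τ)).comp_add_const t τ).prodMk
        (((hP (t + τ)).comp_add_const t τ).sub_const _)
    simp only [sub_zero, zero_add, sub_self] at h2
    rw [← h2]
  have h3 : HasDerivAt (fun τ => P (T + τ) - P τ) (b (fl T x) - b x) 0 := by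
    have h4 := ((hP (T + 0)).comp_const_add T 0).sub (hP 0)
    simp only [add_zero, hf.zero] at h4
    exact h4
  have h5 := der_fl hf hu x 0
  rw [hf.zero] at h5
  exact h5.unique (h3.congr_of_eventuallyEq (Eventually.of_forall h1))

/-- finitely many nonnegative times are enough on a compact set -/
theorem times (hf : IsFlow Y fl) {D : Set X} (hD : IsCompact D) {u : X → ℝ} (hu : Continuous u)
    {c : ℝ} (h : ∀ x ∈ D, ∃ t, 0 ≤ t ∧ c < u (fl t x)) :
    ∃ T : Finset (Ici (0 : ℝ)), ∀ x ∈ D, ∃ t ∈ T, c < u (fl t x) := by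
  obtain ⟨T, hT⟩ := hD.elim_finite_subcover (fun t : Ici (0 : ℝ) => {x | c < u (fl t x)})
    (fun t => isOpen_lt continuous_const (hu.comp (sm_fl hf t).continuous)) fun x hx => by
      obtain ⟨t, h1, h2⟩ := h x hx
      exact mem_iUnion.2 ⟨⟨t, h1⟩, h2⟩
  exact ⟨T, fun x hx => by simpa only [mem_iUnion, exists_prop, mem_ofPred_eq] using hT hx⟩

theorem st_der (y : ℝ) : HasDerivAt smoothTransition (deriv smoothTransition y) y :=
  ((smoothTransition.contDiff (n := 1)).differentiable (by simp) y).hasDerivAt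

theorem st_zero {y : ℝ} (h : 1 < y) : deriv smoothTransition y = 0 := by
  have e : smoothTransition =ᶠ[𝓝 y] fun _ => 1 :=
    Eventually.mono (Ioi_mem_nhds h) fun z hz => smoothTransition.one_of_one_le (le_of_lt hz)
  rw [e.deriv_eq, deriv_const]

end Ks

open Ks in
theorem avgT : AvgStmt := by
  intro V _ _ _ D D₁ Z K fl f hZ hK hf hD hD₁ hs hi sf f0 h
  obtain ⟨R, hR, hb⟩ := hD₁.isBounded.subset_closedBall_lt 0 0
  let c : ContDiffBump (0 : V) := ⟨R, R + 1, hR, by linarith⟩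
  have e : ∀ x ∈ D₁, f x * c x = f x := fun x hx => by
    rw [c.one_of_mem_closedBall (hb hx), mul_one]
  choose u su hu using avg hZ hK hf (b := fun x => f x * c x) (sf.mul c.contDiff)
    c.hasCompactSupport.mul_left
  obtain ⟨T, hT⟩ := times hf hD sf.continuous h
  obtain ⟨δ, h1, h2⟩ := exists_pos_le hD (u := fun x => ∑ t ∈ T, f (fl t x))
    (continuous_finsetSum T fun t _ =>
      sf.continuous.comp (sm_fl hf (t : ℝ)).continuous).continuousOn
    fun x hx => Finset.sum_pos' (fun _ _ => f0 _) (hT x hx)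
  have sL : ContDiff ℝ ∞ fun x => ∑ t ∈ T, u t x := ContDiff.sum fun t _ => su t
  refine ⟨fun x => 2 / δ * ∑ t ∈ T, u t x, 2 / δ * T.card, contDiff_const.mul sL, by positivity,
    fun x hx => ?_⟩
  rw [fderiv_const_mul (sL.differentiable (by simp) x),
    fderiv_fun_sum fun (t : Ici (0 : ℝ)) _ => (su t).differentiable (by simp) x]
  have h3 : ∀ t : Ici (0 : ℝ), fderiv ℝ (u t) x (Z x) = f (fl t x) - f x := fun t => by
    rw [hu, e _ (hi t x (hs hx)), e _ (hs hx)]
  simp only [smul_apply, sum_apply, h3, Finset.sum_sub_distrib,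
    Finset.sum_const, smul_eq_mul, nsmul_eq_mul]
  have h4 := mul_le_mul_of_nonneg_left (h2 x hx) (by positivity : 0 ≤ 2 / δ)
  rw [div_mul_cancel₀ _ h1.ne'] at h4
  linarith

open Ks Abs in
theorem kset : KsetStmt := by
  intro V E _ _ _ _ _ M K₀ l Pi φ Z fl hA h0 hC hK
  have hφ : Continuous φ := hA.sφ.continuous
  have hf := hC.flow
  have hQ : IsCompact {x ∈ M | φ x ≤ 2} := hA.cpt 2 (by norm_num)
  set K : Set V := {x ∈ M | φ x ≤ 2} ∩ ⋂ t ∈ Ici (0 : ℝ), {x | φ (fl t x) ≤ 2} with hKdef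
  have hKm : ∀ x, x ∈ K ↔ (x ∈ M ∧ φ x ≤ 2) ∧ ∀ t, 0 ≤ t → φ (fl t x) ≤ 2 := fun x => by
    simp [hKdef]
  have k1 : ∀ x ∈ K, φ x < 1 := fun x hx => by
    obtain ⟨⟨hM, h3⟩, ht⟩ := (hKm x).1 hx
    by_contra h1
    rw [not_lt] at h1
    have hu : Continuous fun y => fderiv ℝ φ y (Pi y (l y)) :=
      (hA.sφ.continuous_fderiv (by simp)).clm_apply hA.smZ.continuous
    obtain ⟨m, hm, hle⟩ := exists_pos_le (hQ.inter_right (isClosed_le continuous_const hφ :
      IsClosed {y | (1 : ℝ) ≤ φ y})) hu.continuousOn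
      fun y hy => hA.shell y hy.1.1 (le_trans (by norm_num) hy.2)
    have h5 : φ x ≤ 5 := by linarith
    have hT : 0 ≤ 3 / m := by positivity
    have h2 := speed_ge (f := fun r => φ (fl r x)) (m := m) hT
      (hφ.comp (cont_t hf x)).continuousOn fun r hr =>
        rd hA.sφ hC hM h5 r (by linarith [ht r hr.1]) (hle _ ⟨⟨(hC.inv r x hM h5).1, ht r hr.1⟩, by
          have := mono hA h0 hC hM h5 hr.1 (by linarith [ht r hr.1])
          rw [hf.zero] at this
          exact h1.trans this⟩)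
    have h4 : m * (3 / m - 0) = 3 := by field_simp; ring
    rw [h4, hf.zero] at h2
    linarith [ht _ hT]
  have k2 : ∀ x ∈ K, ∀ t, 0 ≤ t → fl t x ∈ K := fun x hx t h => by
    obtain ⟨⟨hM, h3⟩, ht⟩ := (hKm x).1 hx
    refine (hKm _).2 ⟨⟨(hC.inv t x hM (by linarith)).1, ht t h⟩, fun s hs => ?_⟩
    rw [← hf.add]
    exact ht _ (add_nonneg hs h)
  have k3 : ∀ x ∈ M, φ x ≤ 2 → x ∉ K → ∃ t, 0 ≤ t ∧ 2 < φ (fl t x) := fun x hx h2 h => by
    by_contra! c
    exact h ((hKm x).2 ⟨⟨hx, h2⟩, c⟩)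
  refine ⟨K, hQ.inter_right (isClosed_biInter fun t _ =>
    isClosed_le (hφ.comp (cont_fl hf t)) continuous_const), fun x hx => ?_,
    fun x hx => ⟨((hKm x).1 hx).1.1, k1 x hx, k2 x hx⟩, k3, fun U hU hKU => ?_⟩
  · obtain ⟨⟨hM, h3⟩, ht⟩ := (hKm x).1 hx
    have := hK (fun t => fl t x) fun t h => by
      have hm := (hC.inv t x hM (by linarith)).1
      refine ⟨hm, by linarith [ht t h], ?_⟩
      rw [← hC.eq _ hm (by linarith [ht t h])]
      exact hf.der x t
    rwa [hf.zero] at this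
  obtain ⟨T, hT⟩ := times hf (hQ.diff hU) hφ fun x hx => k3 x hx.1.1 hx.1.2 fun h => hx.2 (hKU h)
  have sΛ : ContDiff ℝ ∞ fun x => smoothTransition
      (∑ t ∈ T, smoothTransition (8 * φ (fl t x) - 15)) :=
    smoothTransition.contDiff.comp (ContDiff.sum fun t _ => smoothTransition.contDiff.comp
      ((contDiff_const.mul (hA.sφ.comp (sm_fl hf t))).sub contDiff_const))
  refine ⟨_, ⋂ t ∈ T, {x | φ (fl t x) < 15 / 8}, sΛ,
    isOpen_biInter_finset fun t _ => isOpen_lt (hφ.comp (cont_fl hf t)) continuous_const,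
    fun x hx => mem_iInter₂.2 fun t _ => (k1 _ (k2 x hx t t.2)).trans (by norm_num),
    fun x => ⟨smoothTransition.nonneg _, smoothTransition.le_one _⟩, fun x hx => ?_,
    fun x hx h2 => ⟨?_, fun h => ?_⟩⟩
  · rw [Finset.sum_eq_zero fun t ht => smoothTransition.zero_of_nonpos ?_, smoothTransition.zero]
    have : φ (fl t x) < 15 / 8 := mem_iInter₂.1 hx t ht
    linarith
  · have d1 := der_fl hf sΛ x 0
    simp only [← hf.add] at d1
    rw [hf.zero, hC.eq x hx (by linarith)] at d1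
    have d2 : ∀ t ∈ T, HasDerivAt (fun s => smoothTransition (8 * φ (fl (t + s) x) - 15))
        (deriv smoothTransition (8 * φ (fl (t + 0) x) - 15) *
          (8 * fderiv ℝ φ (fl (t + 0) x) (Z (fl (t + 0) x)))) 0 := fun t _ =>
      (st_der _).comp (0 : ℝ)
        ((((der_fl hf hA.sφ x (t + 0)).comp_const_add (t : ℝ) 0).const_mul 8).sub_const 15)
    rw [d1.unique ((st_der _).comp (0 : ℝ) (HasDerivAt.fun_sum d2))]
    refine mul_nonneg smoothTransition.monotone.deriv_nonneg (Finset.sum_nonneg fun t _ => ?_)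
    have hm := (hC.inv (t + 0) x hx (by linarith)).1
    rcases le_or_gt (φ (fl (t + 0) x)) 4 with c | c
    · rw [hC.eq _ hm c]
      exact mul_nonneg smoothTransition.monotone.deriv_nonneg (mul_nonneg (by norm_num) (h0 _ hm))
    · rw [st_zero (by linarith), zero_mul]
  · obtain ⟨t, h3, h4⟩ := hT x ⟨⟨hx, h2⟩, h⟩
    refine smoothTransition.one_of_one_le (le_trans ?_ (Finset.single_le_sum
      (f := fun t : Ici (0 : ℝ) => smoothTransition (8 * φ (fl t x) - 15))
      (fun _ _ => smoothTransition.nonneg _) h3))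
    exact (smoothTransition.one_of_one_le (by linarith)).ge

end Pool.Agent.MP_6d695c_gt.T2
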