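import Pool.Agent.MP_6d695c_gt.t2.SpecB

/-! PROJECT T2, row LIMCH: limit charts. -/

open scoped Manifold ContDiff Topology
open Set Metric Filter Real

namespace Pool.Agent.MP_6d695c_gt.T2

open SW T1 Theta

namespace LimChA

variable {V : Type} [NormedAddCommGroup V] [NormedSpace ℝ V] {M N : Set V} {l : V → V →L[ℝ] ℝ}
  {Ψ : B4 → V} {κ : V → B4} {O : Set B4}

theorem mono (h : SCh M l Ψ κ O N) {O' : Set B4} (ho : IsOpen O') (hO : O' ⊆ O) :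
    SCh M l Ψ κ O' (N ∩ κ ⁻¹' O') :=
  ⟨h.par.mono ho hO, h.sκ, fun q hq => h.form q (hO hq)⟩

theorem fd_comp (h : SCh M l Ψ κ O N) {A : B4 → B4} (hA : ContDiff ℝ ∞ A) {q : B4}
    (hq : A q ∈ O) (v : B4) :
    fderiv ℝ (fun q => Ψ (A q)) q v = fderiv ℝ Ψ (A q) (fderiv ℝ A q v) := by
  have h1 := (h.par.dg hq).hasFDerivAt.comp q (hA.differentiable (by simp) q).hasFDerivAt
  exact congrArg (fun L => L v) h1.fderiv

/-- a smooth chart composed with an automorphism of the model -/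
theorem comp (h : SCh M l Ψ κ O N) {A B : B4 → B4} (hA : ContDiff ℝ ∞ A) (hB : ContDiff ℝ ∞ B)
    (hf : ∀ q, B (A q) = q ∧ A (B q) = q ∧ ∀ v, lb (A q) (fderiv ℝ A q v) = lb q v) :
    SCh M l (fun q => Ψ (A q)) (fun x => B (κ x)) (A ⁻¹' O) N := by
  refine ⟨⟨h.par.oO.preimage hA.continuous, h.par.oN, h.par.sg.comp hA.contDiffOn fun q hq => hq,
    (hB.comp h.sκ).contDiffOn, fun q hq => ?_, fun x hx hN => ?_⟩, hB.comp h.sκ,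
    fun q hq v => ?_⟩
  · obtain ⟨a, b, c⟩ := h.par.gm _ hq
    exact ⟨a, b, by rw [c, (hf q).1]⟩
  · obtain ⟨a, b⟩ := h.par.rm x hx hN
    exact ⟨by rw [mem_preimage, (hf _).2.1]; exact a, by rw [(hf _).2.1, b]⟩
  · rw [fd_comp h hA hq, h.form _ hq, (hf q).2.2]

/-- approximation of a limit chart -/
theorem app (h : SCh M l Ψ κ O N) {Ξ k : B4 → B4} (hΞ : Continuous Ξ) (hk : ∀ q, k (Ξ q) = q)
    (ha : ∀ R : ℝ, ∃ C, ∀ e, 0 < e → ∃ Ξ' κ' : B4 → B4, ContDiff ℝ ∞ Ξ' ∧ ContDiff ℝ ∞ κ' ∧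
      (∀ q, κ' (Ξ' q) = q ∧ Ξ' (κ' q) = q ∧ ∀ v, lb (Ξ' q) (fderiv ℝ Ξ' q v) = lb q v) ∧
      ∀ q, ‖q‖ ≤ R → ‖Ξ' q - Ξ q‖ ≤ e ∧ ‖κ' q - k q‖ ≤ e ∧ ‖fderiv ℝ Ξ' q ey‖ ≤ C)
    (Q : Set B4) (hQ : IsCompact Q) (hO : Q ⊆ Ξ ⁻¹' O) :
    ∃ C, ∀ e, 0 < e → ∃ Ψ' κ' O' N', SCh M l Ψ' κ' O' N' ∧ Q ⊆ O' ∧
      ∀ q ∈ Q, ‖Ψ' q - Ψ (Ξ q)‖ ≤ e ∧ Ψ (Ξ q) ∈ N' ∧ ‖κ' (Ψ (Ξ q)) - q‖ ≤ e ∧
        ‖fderiv ℝ Ψ' q ey‖ ≤ C := by
  have hK : IsCompact (Ξ '' Q) := hQ.image hΞ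
  obtain ⟨δ, hδ, hδO⟩ := hK.exists_cthickening_subset_open h.par.oO (image_subset_iff.2 hO)
  have hK' : IsCompact (cthickening δ (Ξ '' Q)) := hK.cthickening
  obtain ⟨D, hD⟩ := hK'.exists_bound_of_continuousOn
    ((h.par.sg.continuousOn_fderiv_of_isOpen h.par.oO (by simp)).mono hδO)
  have hu := hK'.uniformContinuousOn_of_continuous (h.par.sg.continuousOn.mono hδO)
  obtain ⟨R, hR⟩ := (hQ.union hK).isBounded.exists_norm_le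
  obtain ⟨C, hC⟩ := ha R
  refine ⟨|D| * C, fun e he => ?_⟩
  obtain ⟨e1, he1, hu1⟩ := Metric.uniformContinuousOn_iff_le.1 hu e he
  obtain ⟨Ξ', κ', s1, s2, hf, hn⟩ := hC (min e (min δ e1)) (by positivity)
  have hm : ∀ q ∈ Q, Ξ' q ∈ cthickening δ (Ξ '' Q) := fun q hq =>
    mem_cthickening_of_dist_le _ (Ξ q) _ _ (mem_image_of_mem _ hq) (by
      rw [dist_eq_norm]
      exact (hn q (hR q (Or.inl hq))).1.trans ((min_le_right _ _).trans (min_le_left _ _)))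
  refine ⟨_, _, _, _, comp h s1 s2 hf, fun q hq => hδO (hm q hq), fun q hq => ?_⟩
  obtain ⟨n1, -, n3⟩ := hn q (hR q (Or.inl hq))
  obtain ⟨-, b, c⟩ := h.par.gm _ (hO hq)
  refine ⟨?_, b, ?_, ?_⟩
  · rw [← dist_eq_norm]
    refine hu1 _ (hm q hq) _ (self_subset_cthickening _ (mem_image_of_mem _ hq)) ?_
    rw [dist_eq_norm]
    exact n1.trans ((min_le_right _ _).trans (min_le_right _ _))
  · have := (hn (Ξ q) (hR _ (Or.inr (mem_image_of_mem _ hq)))).2.1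
    rw [hk] at this
    rw [c]
    exact this.trans (min_le_left _ _)
  · rw [fd_comp h s1 (hδO (hm q hq))]
    refine (ContinuousLinearMap.le_opNorm _ _).trans ?_
    exact mul_le_mul ((hD _ (hm q hq)).trans (le_abs_self D)) n3 (norm_nonneg _) (abs_nonneg D)

end LimChA

theorem limCh (darb4 : Darb4Stmt) (graph : GraphStmt) (limM : LimMStmt) : LimChStmt := by
  intro V _ _ _ M l Pi φ yv μ Z fl p hS hφ hc hy hμ hp h4 hy0 hev hnd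
  obtain ⟨Ψ0, κ0, O0, N0, h0, hpN, hκp, hpos⟩ := darb4 V M l Pi (fderiv ℝ yv p) p hS hp
    (by rw [hev.self_of_nhdsWithin hp, hy0, mul_zero]) hnd
  obtain ⟨hO0, hΨp⟩ := h0.par.rm p hp hpN
  rw [hκp] at hO0 hΨp
  obtain ⟨b, hb, -, hbs, hb1, -⟩ := exists_cut (isCompact_singleton (x := (0 : B4))) h0.par.oO
    (singleton_subset_iff.2 hO0)
  have s1 : ContDiff ℝ ∞ fun q => b q • Ψ0 q := contDiff_cut_smul h0.par.oO hb hbs h0.par.sg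
  have e1 : (fun q => b q • Ψ0 q) =ᶠ[𝓝 0] Ψ0 := by
    filter_upwards [hb1 0 rfl] with q hq
    rw [hq, one_smul]
  generalize (fun q => b q • Ψ0 q) = Ψ1 at s1 e1
  have hO0' := h0.par.oO.mem_nhds hO0
  have t0 : Tendsto Ψ0 (𝓝 0) (𝓝 p) := hΨp ▸ (h0.par.cg hO0).continuousAt.tendsto
  have t1 : Tendsto Ψ0 (𝓝 0) (𝓝[M] p) := tendsto_nhdsWithin_iff.2 ⟨t0,
    mem_of_superset hO0' fun q hq => (h0.par.gm q hq).1⟩
  have hd : ∀ᶠ q in 𝓝 (0 : B4), ∀ v,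
      fderiv ℝ (fun q => yv (Ψ1 q)) q v = fderiv ℝ yv (Ψ0 q) (fderiv ℝ Ψ0 q v) := by
    filter_upwards [e1.eventually_nhds, hO0'] with q hq hqO v
    have a : (fun q => yv (Ψ1 q)) =ᶠ[𝓝 q] fun q => yv (Ψ0 q) :=
      hq.mono fun q' hq' => congrArg yv hq'
    have c := (hy.differentiable one_ne_zero (Ψ0 q)).hasFDerivAt.comp q
      (h0.par.dg hqO).hasFDerivAt
    rw [a.fderiv_eq]
    exact congrArg (fun L => L v) c.fderiv
  obtain ⟨η, lm0, hη, hηc, hη0, hg⟩ := graph (fun q => yv (Ψ1 q)) (fun q => μ (Ψ1 q))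
    (hy.comp (s1.of_le (by simp))) (hμ.comp s1.continuous)
    (by rw [e1.self_of_nhds, hΨp, hy0])
    (by
      filter_upwards [hd, e1, hO0', t1.eventually hev] with q a1 a2 a3 a4
      rw [a1, h0.dΨ hS a3, a4, a2])
    (by rw [hd.self_of_nhds, hΨp]; exact hpos)
  obtain ⟨Ξ, κ, lj, cΞ, cκ, cl, Ξ0, hΞ, ha⟩ := limM η hη hηc hη0
  obtain ⟨O1, hO1, oO1, mO1⟩ := _root_.eventually_nhds_iff.1 (((hg.and e1).and
    (show ∀ᶠ q in 𝓝 (0 : B4), q ∈ O0 from hO0')).and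
    (t0.eventually (hφ.continuousAt.eventually (gt_mem_nhds h4))))
  have h1 := LimChA.mono h0 oO1 fun q hq => (hO1 q hq).1.2
  refine ⟨fun q => Ψ0 (Ξ q), fun x => κ (κ0 x), fun q => lm0 (Ξ q) + lj q, Ξ ⁻¹' O1, _,
    ⟨⟨oO1.preimage cΞ, h1.par.oN, h1.par.sg.continuousOn.comp cΞ.continuousOn fun q hq => hq,
      cκ.comp h1.sκ.continuous, fun q hq => ?_, fun x hx hN => ?_, fun q t hq => ?_⟩,
      fun q hq => ?_, fun q hq => ?_, fun q hq => ?_,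
      LimChA.app h1 cΞ (fun q => (hΞ q).1) ha⟩, ⟨hpN, by rw [mem_preimage, hκp]; exact mO1⟩, ?_⟩
  · obtain ⟨a, b, c⟩ := h1.par.gm _ hq
    exact ⟨a, b, by rw [c, (hΞ q).1]⟩
  · obtain ⟨a, b⟩ := h1.par.rm x hx hN
    exact ⟨by rw [mem_preimage, (hΞ _).2.1]; exact a, by rw [(hΞ _).2.1, b]⟩
  · rw [((hΞ q).2.2.2 t).1]
    refine h1.flow hS hc fun u hu => ?_
    have := hq u hu
    rw [mem_preimage, ((hΞ q).2.2.2 u).1] at this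
    exact ⟨this, (hO1 _ this).2.le⟩
  · exact (((hO1 _ hq).1.1.1.1.comp cΞ.continuousAt).add cl.continuousAt).continuousWithinAt
  · obtain ⟨⟨⟨⟨-, a, -⟩, b⟩, -⟩, -⟩ := hO1 _ hq
    rw [← b, a, (hΞ q).2.2.1, exp_add, mul_assoc]
  · obtain ⟨⟨⟨⟨-, -, a⟩, b⟩, -⟩, -⟩ := hO1 _ hq
    rw [b] at a
    refine (a.add_const (lj q)).congr_of_eventuallyEq (Eventually.of_forall fun t => ?_)
    simp only [((hΞ q).2.2.2 t).1, ((hΞ q).2.2.2 t).2]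
  · have := (hΞ 0).1
    rw [Ξ0] at this
    exact (congrArg κ hκp).trans this

end Pool.Agent.MP_6d695c_gt.T2
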