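import Mathlib.Analysis.Calculus.BumpFunction.Convolution
import Mathlib.Analysis.Calculus.BumpFunction.FiniteDimension
import Mathlib.Analysis.Calculus.ContDiff.Convolution
import Mathlib.Analysis.Calculus.FDeriv.Symmetric
import Mathlib.Analysis.ODE.Gronwall
import Mathlib.Analysis.SpecialFunctions.ExpDeriv
import Mathlib.MeasureTheory.Measure.Haar.OfBasis
import Mathlib.Topology.UniformSpace.UniformApproximation
import Pool.Agent.MP_6d695c_gt.sw.Flow

/-! PROJECT T2: smooth approximation in `C¹`, and first integrals of `a' = -η (a, σ)` for a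
function `η` of class `C¹`. -/

open scoped ContDiff Topology Convolution
open Set Filter Real MeasureTheory Metric

namespace Pool.Agent.MP_6d695c_gt.T2

open SW

/-- smooth functions are dense in `C¹` -/
theorem approx {V : Type} [NormedAddCommGroup V] [NormedSpace ℝ V] [FiniteDimensional ℝ V]
    {f : V → ℝ} (hf : ContDiff ℝ 1 f) (hc : HasCompactSupport f) {ε : ℝ} (hε : 0 < ε) :
    ∃ g : V → ℝ, ContDiff ℝ ∞ g ∧ HasCompactSupport g ∧
      ∀ x, |g x - f x| ≤ ε ∧ ‖fderiv ℝ g x - fderiv ℝ f x‖ ≤ ε := by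
  borelize V
  have h1 : Continuous (fderiv ℝ f) := hf.continuous_fderiv one_ne_zero
  obtain ⟨δ₁, p1, u1⟩ := Metric.uniformContinuous_iff.1
    (hc.uniformContinuous_of_continuous hf.continuous) ε hε
  obtain ⟨δ₂, p2, u2⟩ := Metric.uniformContinuous_iff.1
    ((hc.fderiv ℝ).uniformContinuous_of_continuous h1) ε hε
  have p : 0 < min δ₁ δ₂ := lt_min p1 p2
  let φ : ContDiffBump (0 : V) := ⟨min δ₁ δ₂ / 2, min δ₁ δ₂, half_pos p, half_lt_self p⟩
  let μ : Measure V := Measure.addHaar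
  have hl : LocallyIntegrable (φ.normed μ) μ := φ.continuous_normed.locallyIntegrable
  refine ⟨φ.normed μ ⋆[ContinuousLinearMap.lsmul ℝ ℝ, μ] f,
    φ.hasCompactSupport_normed.contDiff_convolution_left _ φ.contDiff_normed
      hf.continuous.locallyIntegrable, φ.hasCompactSupport_normed.convolution _ hc, fun x =>
    ⟨φ.dist_normed_convolution_le hf.continuous.aestronglyMeasurable fun y hy =>
      (u1 (hy.trans_le (min_le_left _ _))).le, ?_⟩⟩
  rw [(hc.hasFDerivAt_convolution_right _ hl hf x).fderiv]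
  refine ContinuousLinearMap.opNorm_le_bound _ hε.le fun v => ?_
  rw [sub_apply, convolution_precompR_apply _ hl (hc.fderiv ℝ) h1]
  refine φ.dist_normed_convolution_le (g := fun a => fderiv ℝ f a v)
    (h1.clm_apply continuous_const).aestronglyMeasurable fun y hy => ?_
  rw [dist_eq_norm, ← sub_apply]
  refine (ContinuousLinearMap.le_opNorm _ _).trans (mul_le_mul_of_nonneg_right ?_ (norm_nonneg _))
  exact (dist_eq_norm _ _).ge.trans (u2 (hy.trans_le (min_le_right _ _))).le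

/-- `A (·, σ)` is the inverse of `I (·, σ)` -/
structure Inv (I A : ℝ × ℝ → ℝ) : Prop where
  li : ∀ x, A (I x, x.2) = x.1
  ri : ∀ x, I (A x, x.2) = x.1

namespace Integ

/-- the field of the equation -/
def fld (η : ℝ × ℝ → ℝ) (x : ℝ × ℝ) : ℝ × ℝ := (-η x, 1)

variable {η : ℝ × ℝ → ℝ} {fl : ℝ → ℝ × ℝ → ℝ × ℝ}

theorem lip {K : NNReal} (h : Differentiable ℝ η) (hK : ∀ x, ‖fderiv ℝ η x‖ ≤ K) :
    LipschitzWith K (fld η) := by
  have := (lipschitzWith_of_nnnorm_fderiv_le (C := K) h hK).neg.prodMk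
    (LipschitzWith.const (1 : ℝ))
  rw [max_eq_left zero_le] at this
  exact this

theorem dfst {c : ℝ → ℝ × ℝ} {v : ℝ × ℝ} {t : ℝ} (h : HasDerivAt c v t) :
    HasDerivAt (fun s => (c s).1) v.1 t :=
  (ContinuousLinearMap.fst ℝ ℝ ℝ).hasFDerivAt.comp_hasDerivAt t h

theorem dsnd {c : ℝ → ℝ × ℝ} {v : ℝ × ℝ} {t : ℝ} (h : HasDerivAt c v t) :
    HasDerivAt (fun s => (c s).2) v.2 t :=
  (ContinuousLinearMap.snd ℝ ℝ ℝ).hasFDerivAt.comp_hasDerivAt t h

theorem snd_eq (h : IsFlow (fld η) fl) (t : ℝ) (x : ℝ × ℝ) : (fl t x).2 = x.2 + t := by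
  have h1 : ∀ s, HasDerivAt (fun s => (fl s x).2 - s) 0 s := fun s => by
    simpa [fld] using (dsnd (h.der x s)).fun_sub (hasDerivAt_id' s)
  have := is_const_of_deriv_eq_zero (fun s => (h1 s).differentiableAt) (fun s => (h1 s).deriv) t 0
  rw [h.zero] at this
  linarith

/-- the variational equation -/
theorem var (hη : ContDiff ℝ ∞ η) (h : IsFlow (fld η) fl) (x : ℝ × ℝ) (t : ℝ) :
    fderiv ℝ (fun q : ℝ × ℝ × ℝ => (fl q.1 q.2).1) (t, x) (0, 1, 0) =
      exp (-∫ τ in (0 : ℝ)..t, fderiv ℝ η (fl τ x) (1, 0)) := by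
  set G : ℝ × ℝ × ℝ → ℝ := fun q => (fl q.1 q.2).1 with hG
  have sG : ContDiff ℝ ∞ G := h.sm.fst
  have dG : Differentiable ℝ G := sG.differentiable (by simp)
  have sD : ContDiff ℝ ∞ (fderiv ℝ G) := sG.fderiv_right (m := ∞) (by simp)
  have sl : ∀ (F : ℝ × ℝ × ℝ → ℝ) (q : ℝ × ℝ × ℝ), DifferentiableAt ℝ F q →
      HasDerivAt (fun s => F (s, q.2)) (fderiv ℝ F q (1, 0)) q.1 := fun F q hF =>
    hF.hasFDerivAt.comp_hasDerivAt q.1 ((hasDerivAt_id q.1).prodMk (hasDerivAt_const q.1 q.2))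
  have h1 : (fun q => fderiv ℝ G q (1, 0)) = fun q => -η (G q, q.2.2 + q.1) := funext fun q => by
    have := (sl G q (dG q)).unique (dfst (h.der q.2 q.1))
    rw [this, ← snd_eq h]
    rfl
  have key : ∀ q v w, fderiv ℝ (fun z => fderiv ℝ G z v) q w = fderiv ℝ (fderiv ℝ G) q w v :=
    fun q v w => by
      rw [fderiv_clm_apply (sD.differentiable (by simp) q) (differentiableAt_const v)]
      simp
  have h2 : ∀ s, HasDerivAt (fun s => fderiv ℝ G (s, x) (0, 1, 0))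
      (-(fderiv ℝ η (fl s x) (1, 0) * fderiv ℝ G (s, x) (0, 1, 0))) s := fun s => by
    have h3 := sl (fun z => fderiv ℝ G z (0, 1, 0)) (s, x)
      ((sD.clm_apply contDiff_const).differentiable (by simp) _)
    have h4 : IsSymmSndFDerivAt ℝ G (s, x) :=
      sG.contDiffAt.isSymmSndFDerivAt (by simp; exact WithTop.coe_le_coe.2 le_top)
    rw [key, h4, ← key, h1] at h3
    have h5 : HasFDerivAt (fun q : ℝ × ℝ × ℝ => (G q, q.2.2 + q.1)) _ (s, x) :=
      (dG _).hasFDerivAt.prodMk ((hasFDerivAt_snd.comp _ hasFDerivAt_snd).add hasFDerivAt_fst)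
    have h6 := ((hη.differentiable (by simp) _).hasFDerivAt.comp (s, x) h5).neg.fderiv
    have h7 : (G (s, x), x.2 + s) = fl s x := Prod.ext rfl (snd_eq h s x).symm
    convert h3 using 1
    erw [h6]
    have h8 : (fderiv ℝ G (s, x) (0, 1, 0), (0 : ℝ)) =
        fderiv ℝ G (s, x) (0, 1, 0) • ((1, 0) : ℝ × ℝ) := by simp
    simp only [neg_apply, ContinuousLinearMap.comp_apply,
      ContinuousLinearMap.prod_apply, add_apply, ContinuousLinearMap.coe_snd',
      ContinuousLinearMap.coe_fst', add_zero, h7]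
    rw [h8, map_smul, smul_eq_mul, mul_comm]
  have hc : Continuous fun τ => fderiv ℝ η (fl τ x) (1, 0) :=
    ((hη.continuous_fderiv (by simp)).comp (h.cont x)).clm_apply continuous_const
  have h9 : ∀ s, HasDerivAt (fun s => fderiv ℝ G (s, x) (0, 1, 0) *
      exp (∫ τ in (0 : ℝ)..s, fderiv ℝ η (fl τ x) (1, 0))) 0 s := fun s => by
    refine ((h2 s).fun_mul (hc.integral_hasStrictDerivAt 0 s).hasDerivAt.exp).congr_deriv ?_
    ring
  have h10 := is_const_of_deriv_eq_zero (fun s => (h9 s).differentiableAt)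
    (fun s => (h9 s).deriv) t 0
  have h11 : fderiv ℝ G (0, x) (0, 1, 0) = 1 := by
    have a1 : HasDerivAt (fun a : ℝ => ((0 : ℝ), a, x.2)) (0, 1, 0) x.1 :=
      (hasDerivAt_const _ _).prodMk ((hasDerivAt_id _).prodMk (hasDerivAt_const _ _))
    have a2 := (dG (0, x)).hasFDerivAt.comp_hasDerivAt x.1 a1
    have a3 : (G ∘ fun a : ℝ => ((0 : ℝ), a, x.2)) = id := funext fun a => by
      simp [hG, h.zero]
    rw [a3] at a2
    exact a2.unique (hasDerivAt_id _)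
  simp only [intervalIntegral.integral_same, exp_zero, mul_one, h11] at h10
  rw [exp_neg]
  exact eq_inv_of_mul_eq_one_left h10

/-- the first integral and its inverse, for a smooth field -/
theorem smooth (hη : ContDiff ℝ ∞ η) (h : IsFlow (fld η) fl) :
    ContDiff ℝ ∞ (fun x : ℝ × ℝ => (fl (-x.2) x).1) ∧
    ∀ x, fderiv ℝ (fun x : ℝ × ℝ => (fl (-x.2) x).1) x (1, 0) =
        exp (-∫ τ in (0 : ℝ)..(-x.2), fderiv ℝ η (fl τ x) (1, 0)) ∧
      fderiv ℝ (fun x : ℝ × ℝ => (fl (-x.2) x).1) x (0, 1) =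
        η x * fderiv ℝ (fun x : ℝ × ℝ => (fl (-x.2) x).1) x (1, 0) := by
  have s0 : ContDiff ℝ ∞ fun x : ℝ × ℝ => (-x.2, x) := contDiff_snd.neg.prodMk contDiff_id
  have s1 : ContDiff ℝ ∞ fun x : ℝ × ℝ => (fl (-x.2) x).1 := h.sm.fst.comp s0
  refine ⟨s1, fun x => ⟨?_, ?_⟩⟩
  · have a1 : HasFDerivAt (fun x : ℝ × ℝ => (-x.2, x)) _ x :=
      (hasFDerivAt_snd (𝕜 := ℝ) (p := x)).neg.prodMk (hasFDerivAt_id x)
    have a2 := ((h.sm.fst.differentiable (by simp) _).hasFDerivAt.comp x a1).fderiv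
    rw [← var hη h]
    erw [a2]
    simp
  · have a1 := (s1.differentiable (by simp) (fl 0 x)).hasFDerivAt.comp_hasDerivAt 0 (h.der x 0)
    have a2 : ((fun x : ℝ × ℝ => (fl (-x.2) x).1) ∘ fun t => fl t x) = fun _ => (fl (-x.2) x).1 :=
      funext fun t => by
        simp only [Function.comp_apply, snd_eq h, ← h.add]
        congr 2
        ring
    rw [a2, h.zero] at a1
    have a3 := a1.unique (hasDerivAt_const _ _)
    have a4 : fld η x = (0, 1) - η x • ((1, 0) : ℝ × ℝ) := by simp [fld]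
    rw [a4, map_sub, map_smul, smul_eq_mul] at a3
    linarith

theorem inv (h2 : ∀ t x, (fl t x).2 = x.2 + t) (h0 : ∀ x, fl 0 x = x)
    (ha : ∀ s t x, fl (s + t) x = fl s (fl t x)) :
    Inv (fun x => (fl (-x.2) x).1) fun x => (fl x.2 (x.1, 0)).1 := by
  refine ⟨fun x => ?_, fun x => ?_⟩
  · have : ((fl (-x.2) x).1, (0 : ℝ)) = fl (-x.2) x := Prod.ext rfl (by simp [h2])
    simp only [this, ← ha, add_neg_cancel, h0]
  · have : ((fl x.2 (x.1, 0)).1, x.2) = fl x.2 (x.1, 0) := Prod.ext rfl (by simp [h2])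
    simp only [this, ← ha, neg_add_cancel, h0]

/-- two flows of fields close to one Lipschitz field -/
theorem close {X : Type} [NormedAddCommGroup X] [NormedSpace ℝ X] {F F₁ F₂ : X → X}
    {f₁ f₂ : ℝ → X → X} {K : NNReal} (hK : 1 ≤ K) (hF : LipschitzWith K F) (h₁ : IsFlow F₁ f₁)
    (h₂ : IsFlow F₂ f₂) {ε₁ ε₂ : ℝ} (e₁ : ∀ x, dist (F₁ x) (F x) ≤ ε₁)
    (e₂ : ∀ x, dist (F₂ x) (F x) ≤ ε₂) (t : ℝ) (x : X) :
    dist (f₁ t x) (f₂ t x) ≤ (ε₁ + ε₂) * exp (K * |t|) := by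
  obtain ⟨c, hc, ht⟩ : ∃ c : ℝ, |c| = 1 ∧ c * |t| = t := by
    rcases le_total 0 t with h | h
    · exact ⟨1, abs_one, by rw [abs_of_nonneg h, one_mul]⟩
    · exact ⟨-1, by simp, by rw [abs_of_nonpos h]; ring⟩
  have hs : ∀ u v : X, dist (c • u) (c • v) = dist u v := fun u v => by
    rw [dist_smul₀, Real.norm_eq_abs, hc, one_mul]
  have hd : ∀ {G : X → X} {g : ℝ → X → X}, IsFlow G g → ∀ s,
      HasDerivAt (fun s => g (c * s) x) (c • G (g (c * s) x)) s := fun h s => by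
    have := (h.der x (c * s)).scomp s ((hasDerivAt_id' s).const_mul c)
    rw [mul_one] at this
    exact this
  have h := dist_le_of_approx_trajectories_ODE (v := fun _ y => c • F y) (K := K) (a := 0)
    (b := |t|) (δ := 0)
    (fun _ => LipschitzWith.of_dist_le_mul fun u v => (hs _ _).trans_le (hF.dist_le_mul u v))
    (fun s _ => (hd h₁ s).continuousAt.continuousWithinAt) (fun s _ => (hd h₁ s).hasDerivWithinAt)
    (fun s _ => (hs _ _).trans_le (e₁ _))
    (fun s _ => (hd h₂ s).continuousAt.continuousWithinAt) (fun s _ => (hd h₂ s).hasDerivWithinAt)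
    (fun s _ => (hs _ _).trans_le (e₂ _)) (by simp [h₁.zero, h₂.zero]) |t| ⟨abs_nonneg t, le_rfl⟩
  have hK' : (1 : ℝ) ≤ K := hK
  rw [ht, gronwallBound_of_K_ne_0 (by linarith), sub_zero] at h
  have h0 : 0 ≤ ε₁ + ε₂ := add_nonneg (dist_nonneg.trans (e₁ x)) (dist_nonneg.trans (e₂ x))
  have h3 : (ε₁ + ε₂) / K ≤ ε₁ + ε₂ := div_le_self h0 hK'
  have h4 : 1 ≤ exp (K * |t|) := one_le_exp (by positivity)
  have h5 : 0 ≤ (ε₁ + ε₂) / K := by positivity
  simp only [zero_mul, zero_add] at h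
  nlinarith

theorem exp_sub_le {u v B : ℝ} (hu : |u| ≤ B) (hv : |v| ≤ B) :
    |exp u - exp v| ≤ exp B * |u - v| := by
  wlog h : v ≤ u generalizing u v
  · rw [abs_sub_comm, abs_sub_comm u]
    exact this hv hu (not_le.1 h).le
  have h1 : exp v = exp u * exp (v - u) := by rw [← exp_add]; ring_nf
  have h2 := add_one_le_exp (v - u)
  have h3 : exp u ≤ exp B := exp_le_exp.2 (abs_le.1 hu).2
  rw [abs_of_nonneg (sub_nonneg.2 (exp_le_exp.2 h)), abs_of_nonneg (sub_nonneg.2 h), h1]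
  nlinarith [exp_pos u, mul_le_mul_of_nonneg_right h3 (sub_nonneg.2 h)]

/-- the limit flow -/
theorem limit {K : NNReal} (hK : 1 ≤ K) (hF : LipschitzWith K (fld η)) {e : ℕ → ℝ × ℝ → ℝ}
    {f : ℕ → ℝ → ℝ × ℝ → ℝ × ℝ} (hf : ∀ n, IsFlow (fld (e n)) (f n)) {ε : ℕ → ℝ}
    (hε : Tendsto ε atTop (𝓝 0)) (he : ∀ n x, |e n x - η x| ≤ ε n) :
    ∃ Φ : ℝ → ℝ × ℝ → ℝ × ℝ, Continuous (fun q : ℝ × ℝ × ℝ => Φ q.1 q.2) ∧
      (∀ t x, (Φ t x).2 = x.2 + t) ∧ (∀ x, Φ 0 x = x) ∧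
      (∀ s t x, Φ (s + t) x = Φ s (Φ t x)) ∧
      ∀ n t x, dist (f n t x) (Φ t x) ≤ ε n * exp (K * |t|) := by
  have h1 : ∀ n x, dist (fld (e n) x) (fld η x) ≤ ε n := fun n x => by
    simpa [fld, Prod.dist_eq, Real.dist_eq] using he n x
  have h2 := fun n m => close hK hF (hf n) (hf m) (h1 n) (h1 m)
  have h3 : ∀ t x, ∃ y, Tendsto (fun n => f n t x) atTop (𝓝 y) := fun t x => by
    refine cauchySeq_tendsto_of_complete (Metric.cauchySeq_iff.2 fun δ hδ => ?_)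
    have := (hε.mul_const (exp (K * |t|))).eventually (gt_mem_nhds (show _ < δ / 2 by simpa using hδ))
    obtain ⟨N, hN⟩ := eventually_atTop.1 this
    exact ⟨N, fun m hm n hn => (h2 m n t x).trans_lt (by linarith [hN m hm, hN n hn])⟩
  choose Φ hΦ using h3
  have h4 : ∀ n t x, dist (f n t x) (Φ t x) ≤ ε n * exp (K * |t|) := fun n t x => by
    have := le_of_tendsto_of_tendsto' (tendsto_const_nhds.dist (hΦ t x))
      ((tendsto_const_nhds.add hε).mul_const _) fun m => h2 n m t x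
    simpa using this
  have h5 : Continuous fun q : ℝ × ℝ × ℝ => Φ q.1 q.2 := by
    have c0 : Continuous fun q : ℝ × ℝ × ℝ => exp (-(K * |q.1|)) := by fun_prop
    have c1 : Continuous fun q : ℝ × ℝ × ℝ => exp (-(K * |q.1|)) • Φ q.1 q.2 := by
      refine TendstoUniformly.continuous (p := atTop)
        (F := fun n (q : ℝ × ℝ × ℝ) => exp (-(K * |q.1|)) • f n q.1 q.2)
        (Metric.tendstoUniformly_iff.2 fun δ hδ => ?_)
        (Frequently.of_forall fun n => c0.smul (hf n).sm.continuous)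
      filter_upwards [hε.eventually (gt_mem_nhds hδ)] with n hn q
      rw [dist_smul₀, Real.norm_of_nonneg (exp_pos _).le, dist_comm]
      refine lt_of_le_of_lt ?_ hn
      rw [exp_neg, inv_mul_le_iff₀ (exp_pos _), mul_comm]
      exact h4 n _ _
    have c2 : Continuous fun q : ℝ × ℝ × ℝ => exp (K * |q.1|) := by fun_prop
    refine (c2.smul c1).congr fun q => ?_
    show exp (K * |q.1|) • exp (-(K * |q.1|)) • Φ q.1 q.2 = _
    rw [smul_smul, ← exp_add, add_neg_cancel, exp_zero, one_smul]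
  refine ⟨Φ, h5, fun t x => tendsto_nhds_unique (continuous_snd.tendsto _ |>.comp (hΦ t x))
    (tendsto_const_nhds.congr fun n => (snd_eq (hf n) t x).symm), fun x =>
    tendsto_nhds_unique (hΦ 0 x) (tendsto_const_nhds.congr fun n => ((hf n).zero x).symm),
    fun s t x => tendsto_nhds_unique (hΦ _ x) ?_, h4⟩
  have h6 : Tendsto (fun n => Φ s (f n t x)) atTop (𝓝 (Φ s (Φ t x))) :=
    (h5.tendsto (s, Φ t x)).comp (tendsto_const_nhds.prodMk_nhds (hΦ t x))
  refine h6.congr_dist (squeeze_zero (fun _ => dist_nonneg) (fun n => ?_)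
    (by simpa using hε.mul_const (exp (K * |s|))))
  rw [(hf n).add, dist_comm]
  exact h4 n s _

end Integ

open Integ in
/-- continuous first integrals of `a' = -η (a, σ)`, and smooth functions that converge to them
together with their derivatives -/
theorem integ {η : ℝ × ℝ → ℝ} (hη : ContDiff ℝ 1 η) (hc : HasCompactSupport η) :
    ∃ I J A : ℝ × ℝ → ℝ, Continuous I ∧ Continuous J ∧ Continuous A ∧ (∀ x, 0 < J x) ∧ Inv I A ∧
      (∀ a, I (a, 0) = a ∧ J (a, 0) = 1) ∧ ∀ R ε : ℝ, 0 < ε → ∃ I' A' : ℝ × ℝ → ℝ,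
        ContDiff ℝ ∞ I' ∧ ContDiff ℝ ∞ A' ∧ Inv I' A' ∧ (∀ x, 0 < fderiv ℝ I' x (1, 0)) ∧
        ∀ x : ℝ × ℝ, |x.2| ≤ R → |I' x - I x| ≤ ε ∧ |A' x - A x| ≤ ε ∧
          |fderiv ℝ I' x (1, 0) - J x| ≤ ε ∧ |fderiv ℝ I' x (0, 1) - η x * J x| ≤ ε := by
  have c1 : Continuous (fderiv ℝ η) := hη.continuous_fderiv one_ne_zero
  obtain ⟨B, hB⟩ := c1.bounded_above_of_compact_support (hc.fderiv ℝ)
  obtain ⟨B₀, hB₀⟩ := hη.continuous.bounded_above_of_compact_support hc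
  have hB0 : 0 ≤ B := (norm_nonneg _).trans (hB 0)
  have hB00 : 0 ≤ B₀ := (norm_nonneg _).trans (hB₀ 0)
  let K : NNReal := ⟨B + 1, by positivity⟩
  have hK : (K : ℝ) = B + 1 := rfl
  have hK1 : 1 ≤ K := show (1 : ℝ) ≤ B + 1 by linarith
  have hε : Tendsto (fun n : ℕ => 1 / ((n : ℝ) + 1)) atTop (𝓝 0) :=
    tendsto_one_div_add_atTop_nhds_zero_nat
  have hε1 : ∀ n : ℕ, 1 / ((n : ℝ) + 1) ≤ 1 := fun n =>
    div_le_one_of_le₀ (by simp) (by positivity)
  choose e se _ he using fun n : ℕ => approx hη hc (ε := 1 / ((n : ℝ) + 1)) (by positivity)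
  have hd : ∀ n x, ‖fderiv ℝ (e n) x‖ ≤ K := fun n x => by
    linarith [norm_sub_norm_le (fderiv ℝ (e n) x) (fderiv ℝ η x), (he n x).2, hB x, hε1 n]
  choose f hf using fun n => exists_isFlow (f := fld (e n)) ((se n).neg.prodMk contDiff_const)
    (lip ((se n).differentiable (by simp)) (hd n))
  obtain ⟨Φ, cΦ, p2, p0, pa, hΦ⟩ := limit hK1
    (lip (hη.differentiable one_ne_zero) fun x => by linarith [hB x]) hf hε fun n x => (he n x).1
  have n1 : ‖((1, 0) : ℝ × ℝ)‖ = 1 := by simp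
  have ev : ∀ L : ℝ × ℝ →L[ℝ] ℝ, |L (1, 0)| ≤ ‖L‖ := fun L => by simpa [n1] using L.le_opNorm (1, 0)
  have c2 : Continuous fun q : (ℝ × ℝ) × ℝ => fderiv ℝ η (Φ q.2 q.1) (1, 0) :=
    (c1.comp (cΦ.comp continuous_swap)).clm_apply continuous_const
  refine ⟨fun x => (Φ (-x.2) x).1,
    fun x => exp (-∫ τ in (0 : ℝ)..(-x.2), fderiv ℝ η (Φ τ x) (1, 0)), fun x => (Φ x.2 (x.1, 0)).1,
    (cΦ.comp (continuous_snd.neg.prodMk continuous_id)).fst,
    (intervalIntegral.continuous_parametric_intervalIntegral_of_continuous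
      (f := fun x τ => fderiv ℝ η (Φ τ x) (1, 0)) c2 continuous_snd.neg).neg.rexp,
    (cΦ.comp (continuous_snd.prodMk (continuous_fst.prodMk continuous_const))).fst,
    fun x => exp_pos _, inv p2 p0 pa, fun a => by simp [p0], fun R ε hε0 => ?_⟩
  obtain ⟨θ, hθ, hθ1⟩ : ∃ θ : ℝ, 0 < θ ∧ (1 + B₀) * (exp (K * |R|) * (2 * θ * |R|)) ≤ ε / 2 := by
    have : Tendsto (fun θ : ℝ => (1 + B₀) * (exp (K * |R|) * (2 * θ * |R|))) (𝓝 0) (𝓝 0) :=
      Continuous.tendsto' (by fun_prop) _ _ (by simp)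
    obtain ⟨θ, a, b⟩ := (((this.eventually (gt_mem_nhds (half_pos hε0))).filter_mono
      (nhdsWithin_le_nhds (s := Ioi 0))).and self_mem_nhdsWithin).exists
    exact ⟨θ, b, a.le⟩
  obtain ⟨δ, hδ, hu⟩ := Metric.uniformContinuous_iff.1
    ((hc.fderiv ℝ).uniformContinuous_of_continuous c1) θ hθ
  have t1 : Tendsto (fun n : ℕ => 1 / ((n : ℝ) + 1) * exp (K * |R|)) atTop (𝓝 0) := by
    simpa using hε.mul_const (exp (K * |R|))
  obtain ⟨n, ⟨q1, q2⟩, q3⟩ := (((t1.eventually (gt_mem_nhds hδ)).and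
    (t1.eventually (gt_mem_nhds (half_pos hε0)))).and (hε.eventually (gt_mem_nhds hθ))).exists
  obtain ⟨s1, s2⟩ := smooth (se n) (hf n)
  have g1 : ∀ t x, |t| ≤ |R| → dist (f n t x) (Φ t x) ≤ 1 / ((n : ℝ) + 1) * exp (K * |R|) :=
    fun t x ht => (hΦ n t x).trans (by gcongr)
  have g2 : ∀ t x, |t| ≤ |R| → |(f n t x).1 - (Φ t x).1| ≤ ε := fun t x ht => by
    have : dist (f n t x).1 (Φ t x).1 ≤ dist (f n t x) (Φ t x) := le_max_left _ _
    rw [Real.dist_eq] at this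
    linarith [g1 t x ht]
  refine ⟨_, _, s1, (hf n).sm.fst.comp (contDiff_snd.prodMk (contDiff_fst.prodMk contDiff_const)),
    inv (snd_eq (hf n)) (hf n).zero (hf n).add, fun x => (s2 x).1 ▸ exp_pos _, fun x hx => ?_⟩
  have hx' : |-x.2| ≤ |R| := by rw [abs_neg]; exact hx.trans (le_abs_self R)
  have c3 : Continuous fun τ => fderiv ℝ (e n) (f n τ x) (1, 0) :=
    (((se n).continuous_fderiv (by simp)).comp ((hf n).cont x)).clm_apply continuous_const
  have c4 : Continuous fun τ => fderiv ℝ η (Φ τ x) (1, 0) :=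
    c2.comp (continuous_const.prodMk continuous_id)
  have bd : ∀ {g : ℝ → ℝ} {C : ℝ}, 0 ≤ C → (∀ τ, |τ| ≤ |R| → |g τ| ≤ C) →
      |∫ τ in (0 : ℝ)..(-x.2), g τ| ≤ C * |R| := fun {g C} hC h => by
    refine (intervalIntegral.norm_integral_le_of_norm_le_const (C := C) (f := g) fun τ hτ =>
      h τ (le_trans ?_ hx')).trans (mul_le_mul_of_nonneg_left (by rwa [sub_zero]) hC)
    simpa using abs_sub_left_of_mem_uIcc (uIoc_subset_uIcc hτ)
  have b1 := bd (g := fun τ => fderiv ℝ (e n) (f n τ x) (1, 0)) K.2 fun τ _ => (ev _).trans (hd n _)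
  have b2 := bd (g := fun τ => fderiv ℝ η (Φ τ x) (1, 0)) K.2 fun τ _ =>
    (ev _).trans (by linarith [hB (Φ τ x)])
  have b3 := bd (g := fun τ => fderiv ℝ (e n) (f n τ x) (1, 0) - fderiv ℝ η (Φ τ x) (1, 0))
    (C := 2 * θ) (by positivity) fun τ hτ => by
      have a1 := (he n (f n τ x)).2
      have a2 := hu ((g1 τ x hτ).trans_lt q1)
      rw [dist_eq_norm] at a2
      have a3 := norm_sub_le_norm_sub_add_norm_sub (fderiv ℝ (e n) (f n τ x))
        (fderiv ℝ η (f n τ x)) (fderiv ℝ η (Φ τ x))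
      rw [← sub_apply]
      linarith [ev (fderiv ℝ (e n) (f n τ x) - fderiv ℝ η (Φ τ x))]
  rw [intervalIntegral.integral_sub (c3.intervalIntegrable _ _) (c4.intervalIntegrable _ _)] at b3
  set u := ∫ τ in (0 : ℝ)..(-x.2), fderiv ℝ (e n) (f n τ x) (1, 0)
  set v := ∫ τ in (0 : ℝ)..(-x.2), fderiv ℝ η (Φ τ x) (1, 0)
  have b4 : |exp (-u) - exp (-v)| ≤ exp (K * |R|) * (2 * θ * |R|) := by
    refine (exp_sub_le (by rwa [abs_neg]) (by rwa [abs_neg])).trans
      (mul_le_mul_of_nonneg_left ?_ (exp_pos _).le)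
    rwa [neg_sub_neg, abs_sub_comm]
  have b5 : 0 ≤ B₀ * (exp (K * |R|) * (2 * θ * |R|)) := by positivity
  have b6 : 0 ≤ exp (K * |R|) * (2 * θ * |R|) := by positivity
  refine ⟨g2 _ x hx', g2 _ _ (hx.trans (le_abs_self R)), by rw [(s2 x).1]; linarith, ?_⟩
  rw [(s2 x).2, (s2 x).1]
  have b7 : e n x * exp (-u) - η x * exp (-v) =
      (e n x - η x) * exp (-u) + η x * (exp (-u) - exp (-v)) := by ring
  have b8 : |(e n x - η x) * exp (-u)| ≤ 1 / ((n : ℝ) + 1) * exp (K * |R|) := by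
    rw [abs_mul, abs_of_pos (exp_pos _)]
    exact mul_le_mul (he n x).1 (exp_le_exp.2 ((neg_le_abs u).trans b1)) (exp_pos _).le
      (by positivity)
  have b9 : |η x * (exp (-u) - exp (-v))| ≤ B₀ * (exp (K * |R|) * (2 * θ * |R|)) := by
    rw [abs_mul]
    exact mul_le_mul (hB₀ x) b4 (abs_nonneg _) hB00
  show |e n x * exp (-u) - η x * exp (-v)| ≤ ε
  rw [b7]
  linarith [abs_add_le ((e n x - η x) * exp (-u)) (η x * (exp (-u) - exp (-v)))]

end Pool.Agent.MP_6d695c_gt.T2
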