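import Mathlib.Analysis.Calculus.ImplicitContDiff
import Mathlib.MeasureTheory.Integral.DominatedConvergence
import Mathlib.MeasureTheory.Integral.IntervalIntegral.FundThmCalculus
import Pool.Agent.MP_6d695c_gt.t2.SpecB
import Pool.Agent.MP_6d695c_gt.t2.C1A

/-! PROJECT T2: the zero set of a function of class `C¹` as a graph, and the limit chart in the
model. -/

open scoped ContDiff Topology
open Set Metric Filter Real

namespace Pool.Agent.MP_6d695c_gt.T2

open SW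

section
variable {X : Type} [NormedAddCommGroup X] [NormedSpace ℝ X] [FiniteDimensional ℝ X]

/-- a germ of class `C¹` extends with compact support -/
theorem germ {F : Type} [NormedAddCommGroup F] [NormedSpace ℝ F] {u : X → F} {p : X}
    (h : ContDiffAt ℝ 1 u p) :
    ∃ v : X → F, ContDiff ℝ 1 v ∧ HasCompactSupport v ∧ ∀ᶠ x in 𝓝 p, v x = u x := by
  obtain ⟨N, hN, oN, pN⟩ := _root_.eventually_nhds_iff.1 (h.eventually (by simp))
  obtain ⟨b, sb, cb, tb, b1, -⟩ := exists_cut (isCompact_singleton (x := p)) oN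
    (singleton_subset_iff.2 pN)
  refine ⟨fun x => b x • u x, contDiff_iff_contDiffAt.2 fun x => ?_, cb.smul_right,
    (b1 p rfl).mono fun x hx => by simp [hx]⟩
  by_cases hx : x ∈ N
  · exact (sb.of_le (by simp)).contDiffAt.smul (hN x hx)
  · have : b =ᶠ[𝓝 x] 0 := notMem_tsupport_iff_eventuallyEq.1 fun h => hx (tb h)
    refine (contDiffAt_const (c := (0 : F))).congr_of_eventuallyEq ?_
    filter_upwards [this] with y hy
    simp [hy]

/-- the implicit function, with compact support -/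
theorem impl {f : X × ℝ → ℝ} (hf : ContDiff ℝ 1 f) (h0 : f 0 = 0)
    (hb : fderiv ℝ f 0 (0, 1) ≠ 0) :
    ∃ η : X → ℝ, ContDiff ℝ 1 η ∧ HasCompactSupport η ∧ η 0 = 0 ∧
      ∀ᶠ p in 𝓝 (0 : X), f (p, η p) = 0 := by
  have := FiniteDimensional.complete ℝ X
  have hi : (fderiv ℝ f 0 ∘L ContinuousLinearMap.inr ℝ X ℝ).IsInvertible := by
    refine ⟨ContinuousLinearEquiv.unitsEquivAut ℝ (Units.mk0 _ hb), ?_⟩
    ext
    simp
  have c := hf.contDiffAt (x := 0)
  obtain ⟨η, h1, h2, h3⟩ := germ (c.contDiffAt_implicitFunction one_ne_zero hi)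
  refine ⟨η, h1, h2, h3.self_of_nhds.trans (c.implicitFunction_apply_self one_ne_zero hi), ?_⟩
  filter_upwards [h3, c.eventually_apply_implicitFunction one_ne_zero hi] with p a b
  rw [a, b, h0]

end

/-- near a zero, `y = exp n * (b - η (a, σ))` with `∂ n / ∂ s = μ` -/
theorem graph0 {y μ : B4 → ℝ} (hy : ContDiff ℝ 1 y) (hμ : Continuous μ) (h0 : y 0 = 0)
    (hb : 0 < fderiv ℝ y 0 ey) (hs : ∀ᶠ q in 𝓝 (0 : B4), fderiv ℝ y q es = μ q * y q) :
    ∃ (η : ℝ × ℝ → ℝ) (n : B4 → ℝ), ContDiff ℝ 1 η ∧ HasCompactSupport η ∧ η 0 = 0 ∧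
      Continuous n ∧ (∀ q : B4, HasDerivAt (fun s => n (s, q.2)) (μ q) q.1) ∧
      ∀ᶠ q in 𝓝 (0 : B4), y q = exp (n q) * (q.2.2 - η q.2.1) := by
  have dy := hy.differentiable one_ne_zero
  have cy : Continuous fun q => fderiv ℝ y q ey :=
    (hy.continuous_fderiv one_ne_zero).clm_apply continuous_const
  have hf : ContDiff ℝ 1 fun p : (ℝ × ℝ) × ℝ => y (0, p) :=
    hy.comp (contDiff_const.prodMk contDiff_id)
  have hf' : fderiv ℝ (fun p : (ℝ × ℝ) × ℝ => y (0, p)) 0 (0, 1) = fderiv ℝ y 0 ey := by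
    have := ((dy 0).hasFDerivAt.comp (0 : (ℝ × ℝ) × ℝ)
      (ContinuousLinearMap.inr ℝ ℝ ((ℝ × ℝ) × ℝ)).hasFDerivAt).fderiv
    exact congrArg (fun L => L (0, 1)) this
  obtain ⟨η, h1, h2, h3, h4⟩ := impl hf h0 (hf'.trans_ne hb.ne')
  have cη := h1.continuous
  set m : (ℝ × ℝ) × ℝ → ℝ := fun p =>
    ∫ t in (0 : ℝ)..1, fderiv ℝ y (0, p.1, η p.1 + t * (p.2 - η p.1)) ey with hm
  have cm : Continuous m :=
    intervalIntegral.continuous_parametric_intervalIntegral_of_continuous'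
      (f := fun (p : (ℝ × ℝ) × ℝ) (t : ℝ) => fderiv ℝ y (0, p.1, η p.1 + t * (p.2 - η p.1)) ey)
      (cy.comp (f := fun x : ((ℝ × ℝ) × ℝ) × ℝ =>
        ((0, x.1.1, η x.1.1 + x.2 * (x.1.2 - η x.1.1)) : B4)) (by fun_prop)) 0 1
  have m0 : m 0 = fderiv ℝ y 0 ey := by
    simp [hm, h3, ← Prod.zero_eq_mk]
  have had : ∀ p : (ℝ × ℝ) × ℝ, y (0, p) - y (0, p.1, η p.1) = m p * (p.2 - η p.1) := fun p => by
    have d : ∀ t : ℝ, HasDerivAt (fun t : ℝ => y (0, p.1, η p.1 + t * (p.2 - η p.1)))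
        (fderiv ℝ y (0, p.1, η p.1 + t * (p.2 - η p.1)) ey * (p.2 - η p.1)) t := fun t => by
      have c : HasDerivAt (fun t : ℝ => ((0, p.1, η p.1 + t * (p.2 - η p.1)) : B4))
          ((p.2 - η p.1) • ey) t := by
        convert (hasDerivAt_const t (0 : ℝ)).prodMk ((hasDerivAt_const t p.1).prodMk
          (((hasDerivAt_id' t).mul_const (p.2 - η p.1)).const_add (η p.1))) using 1
        ext <;> simp [ey]
      exact ((dy _).hasFDerivAt.comp_hasDerivAt t c).congr_deriv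
        (by rw [map_smul, smul_eq_mul, mul_comm])
    have := intervalIntegral.integral_eq_sub_of_hasDerivAt (a := 0) (b := 1) (fun t _ => d t)
      (((cy.comp (f := fun t : ℝ => ((0, p.1, η p.1 + t * (p.2 - η p.1)) : B4))
        (by fun_prop)).mul continuous_const).intervalIntegrable 0 1)
    rw [intervalIntegral.integral_mul_const] at this
    simpa using this.symm
  set k : B4 → ℝ := fun q => ∫ t in (0 : ℝ)..q.1, μ (t, q.2) with hk
  have ck : Continuous k :=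
    intervalIntegral.continuous_parametric_intervalIntegral_of_continuous
      (f := fun (q : B4) (t : ℝ) => μ (t, q.2)) (hμ.comp (by fun_prop)) continuous_fst
  have dk : ∀ q : B4, HasDerivAt (fun s => k (s, q.2)) (μ q) q.1 := fun q =>
    ((hμ.comp (f := fun t : ℝ => ((t, q.2) : B4)) (by fun_prop)).integral_hasStrictDerivAt 0
      q.1).hasDerivAt
  have hc : 0 < fderiv ℝ y 0 ey / 2 := half_pos hb
  refine ⟨η, fun q => log (max (m q.2) (fderiv ℝ y 0 ey / 2)) + k q, h1, h2, h3,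
    (((cm.comp continuous_snd).max continuous_const).log fun q =>
      (hc.trans_le (le_max_right _ _)).ne').add ck, fun q =>
      (dk q).const_add (log (max (m q.2) (fderiv ℝ y 0 ey / 2))), ?_⟩
  obtain ⟨r, hr, hB⟩ := Metric.eventually_nhds_iff.1 hs
  have e1 : ∀ᶠ q in 𝓝 (0 : B4), y (0, q.2.1, η q.2.1) = 0 :=
    (show ContinuousAt (fun q : B4 => q.2.1) 0 by fun_prop).eventually h4
  have e2 : ∀ᶠ q in 𝓝 (0 : B4), fderiv ℝ y 0 ey / 2 < m q.2 :=
    (cm.comp continuous_snd).continuousAt.eventually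
      (lt_mem_nhds (show _ < m 0 by rw [m0]; exact half_lt_self hb))
  filter_upwards [e1, e2, ball_mem_nhds 0 hr] with q a b c
  rw [mem_ball_zero_iff, Prod.norm_def, max_lt_iff] at c
  have d : ∀ s ∈ ball (0 : ℝ) r, HasDerivAt (fun s => y (s, q.2) * exp (-k (s, q.2))) 0 s :=
    fun s hs' => by
      have c1 : HasDerivAt (fun t : ℝ => ((t, q.2) : B4)) es s :=
        (hasDerivAt_id' s).prodMk (hasDerivAt_const s q.2)
      have := ((dy _).hasFDerivAt.comp_hasDerivAt s c1).fun_mul (dk (s, q.2)).fun_neg.exp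
      rw [hB (y := (s, q.2)) (by
        rw [dist_zero_right, Prod.norm_def]
        exact max_lt (mem_ball_zero_iff.1 hs') c.2)] at this
      exact this.congr_deriv (by simp; ring)
  have e := (convex_ball (0 : ℝ) r).is_const_of_fderivWithin_eq_zero (𝕜 := ℝ)
    (f := fun s => y (s, q.2) * exp (-k (s, q.2)))
    (fun s hs' => (d s hs').differentiableAt.differentiableWithinAt)
    (fun s hs' => by
      rw [fderivWithin_of_isOpen isOpen_ball hs', (d s hs').hasFDerivAt.fderiv]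
      simp) (mem_ball_zero_iff.2 c.1) (mem_ball_self hr)
  have k0 : k (0, q.2) = 0 := by simp [hk]
  have := had q.2
  rw [a, sub_zero] at this
  rw [k0, neg_zero, exp_zero, mul_one, this] at e
  rw [max_eq_left b.le, exp_add, exp_log (hc.trans b), mul_right_comm, ← e, mul_assoc, ← exp_add]
  simp

theorem add_es (q : B4) (t : ℝ) : q + t • es = (q.1 + t, q.2) := by
  ext <;> simp [es]

theorem add_ey (q : B4) (t : ℝ) : q + t • ey = (q.1, q.2.1, q.2.2 + t) := by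
  ext <;> simp [ey]

theorem graph : GraphStmt := fun y μ hy hμ h0 hs hb => by
  obtain ⟨η, n, h1, h2, h3, h4, h5, h6⟩ := graph0 hy hμ h0 hb hs
  refine ⟨η, n, h1, h2, h3, h6.mono fun q hq => ⟨h4.continuousAt, hq, ?_⟩⟩
  simp only [add_es]
  exact HasDerivAt.comp_const_add (f := fun s => n (s, q.2)) q.1 0 (by simpa using h5 q)

namespace LimM

/-- uniform continuity near a compact set -/
theorem unif {X Y : Type} [PseudoMetricSpace X] [PseudoMetricSpace Y] {F : X → Y} {K : Set X}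
    (hK : IsCompact K) (hF : ∀ x ∈ K, ContinuousAt F x) {e : ℝ} (he : 0 < e) :
    ∃ δ, 0 < δ ∧ ∀ x ∈ K, ∀ x', dist x x' ≤ δ → dist (F x) (F x') < e := by
  obtain ⟨δ, hδ, h⟩ := Metric.mem_uniformity_dist.1
    (hK.uniformContinuousAt_of_continuousAt F hF (Metric.dist_mem_uniformity he))
  exact ⟨δ / 2, half_pos hδ, fun x hx x' h' => h (h'.trans_lt (half_lt_self hδ)) hx⟩

noncomputable section

/-- the chart, from the values of the first integral and of its derivatives -/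
def kf (p : B4 × ℝ × ℝ × ℝ) : B4 :=
  (p.1.1 - log p.2.2.1, (p.2.1, p.1.2.1.2), p.2.2.1 * p.1.2.2 - p.2.2.2)

/-- the inverse chart, in the same way -/
def xf (p : B4 × ℝ × ℝ × ℝ) : B4 :=
  (p.1.1 + log p.2.2.1, (p.2.1, p.1.2.1.2), (p.1.2.2 + p.2.2.2) / p.2.2.1)

/-- the chart -/
def ka (I J P : ℝ × ℝ → ℝ) (q : B4) : B4 := kf (q, I q.2.1, J q.2.1, P q.2.1)

/-- the inverse chart -/
def xi (A J P : ℝ × ℝ → ℝ) (q : B4) : B4 :=
  xf (q, A q.2.1, J (A q.2.1, q.2.1.2), P (A q.2.1, q.2.1.2))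

end

variable {I A J P : ℝ × ℝ → ℝ}

theorem ka_xi (h : Inv I A) (hJ : ∀ x, 0 < J x) (q : B4) : ka I J P (xi A J P q) = q := by
  have := (hJ (A q.2.1, q.2.1.2)).ne'
  ext <;> simp [ka, xi, kf, xf, h.ri]
  field_simp
  ring

theorem xi_ka (h : Inv I A) (hJ : ∀ x, 0 < J x) (q : B4) : xi A J P (ka I J P q) = q := by
  have := (hJ q.2.1).ne'
  ext <;> simp [ka, xi, kf, xf, h.li, this]

theorem sm_kf {n : WithTop ℕ∞} {p : B4 × ℝ × ℝ × ℝ} (h : p.2.2.1 ≠ 0) : ContDiffAt ℝ n kf p := by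
  unfold kf
  fun_prop (disch := exact h)

theorem sm_xf {n : WithTop ℕ∞} {p : B4 × ℝ × ℝ × ℝ} (h : p.2.2.1 ≠ 0) : ContDiffAt ℝ n xf p := by
  unfold xf
  fun_prop (disch := exact h)

theorem sm_ka {n : WithTop ℕ∞} (hI : ContDiff ℝ n I) (hJ : ContDiff ℝ n J) (hP : ContDiff ℝ n P)
    (h : ∀ x, 0 < J x) : ContDiff ℝ n (ka I J P) :=
  contDiff_iff_contDiffAt.2 fun q => (sm_kf (h _).ne').comp q
    (f := fun q : B4 => (q, I q.2.1, J q.2.1, P q.2.1)) (by fun_prop)

theorem sm_xi {n : WithTop ℕ∞} (hA : ContDiff ℝ n A) (hJ : ContDiff ℝ n J) (hP : ContDiff ℝ n P)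
    (h : ∀ x, 0 < J x) : ContDiff ℝ n (xi A J P) :=
  contDiff_iff_contDiffAt.2 fun q => (sm_xf (h _).ne').comp q
    (f := fun q : B4 => (q, A q.2.1, J (A q.2.1, q.2.1.2), P (A q.2.1, q.2.1.2))) (by fun_prop)

theorem d_ey {q : B4} (h : DifferentiableAt ℝ (xi A J P) q) :
    fderiv ℝ (xi A J P) q ey = (J (A q.2.1, q.2.1.2))⁻¹ • ey := by
  have a : HasDerivAt (fun t : ℝ => q + t • ey) ey 0 := by
    simpa using ((hasDerivAt_id (0 : ℝ)).smul_const ey).const_add q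
  have b := (show DifferentiableAt ℝ (xi A J P) (q + (0 : ℝ) • ey) by
    simpa using h).hasFDerivAt.comp_hasDerivAt 0 a
  have c : HasDerivAt (fun t : ℝ => xi A J P q + t • ((J (A q.2.1, q.2.1.2))⁻¹ • ey))
      ((J (A q.2.1, q.2.1.2))⁻¹ • ey) 0 := by
    simpa using ((hasDerivAt_id (0 : ℝ)).smul_const ((J (A q.2.1, q.2.1.2))⁻¹ • ey)).const_add
      (xi A J P q)
  rw [show (xi A J P ∘ fun t : ℝ => q + t • ey) =
      fun t : ℝ => xi A J P q + t • ((J (A q.2.1, q.2.1.2))⁻¹ • ey) from funext fun t => by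
    rw [smul_smul]
    ext <;> simp [xi, xf, add_ey]
    ring] at b
  simpa using b.unique c

theorem form (h : Inv I A) (hI : Differentiable ℝ I) (hA : Differentiable ℝ A)
    (hJ : ∀ x, J x = fderiv ℝ I x (1, 0)) (hP : ∀ x, P x = fderiv ℝ I x (0, 1))
    (h0 : ∀ x, 0 < J x) {q : B4} (d : DifferentiableAt ℝ (xi A J P) q) (v : B4) :
    lb (xi A J P q) (fderiv ℝ (xi A J P) q v) = lb q v := by
  have a : HasFDerivAt (fun x : ℝ × ℝ => (A x, x.2)) _ q.2.1 :=
    (hA _).hasFDerivAt.prodMk hasFDerivAt_snd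
  have b := (hI _).hasFDerivAt.comp q.2.1 a
  rw [show (I ∘ fun x : ℝ × ℝ => (A x, x.2)) = Prod.fst from funext h.ri] at b
  have c := congrArg (fun L => L v.2.1) (b.unique hasFDerivAt_fst)
  have e : ((fderiv ℝ A q.2.1 v.2.1, v.2.1.2) : ℝ × ℝ) =
      fderiv ℝ A q.2.1 v.2.1 • ((1, 0) : ℝ × ℝ) + v.2.1.2 • ((0, 1) : ℝ × ℝ) := by simp
  simp only [ContinuousLinearMap.comp_apply, ContinuousLinearMap.prod_apply,
    ContinuousLinearMap.coe_snd', ContinuousLinearMap.coe_fst'] at c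
  rw [e, map_add, map_smul, map_smul, ← hJ, ← hP, smul_eq_mul, smul_eq_mul] at c
  have a' : HasFDerivAt (fun q : B4 => (A q.2.1, q.2.1.2)) _ q :=
    a.comp q (f := fun q : B4 => q.2.1) (hasFDerivAt_snd (𝕜 := ℝ) (p := q)).fst
  have f := congrArg (fun L => L v) (d.hasFDerivAt.snd.fst.unique a')
  simp only [ContinuousLinearMap.comp_apply, ContinuousLinearMap.prod_apply,
    ContinuousLinearMap.coe_snd', ContinuousLinearMap.coe_fst'] at f
  have := (h0 (A q.2.1, q.2.1.2)).ne'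
  rw [lb_apply, lb_apply, f, ← c]
  simp only [xi, xf, exp_add, exp_log (h0 _)]
  field_simp
  ring

end LimM

open LimM in
theorem limM : LimMStmt := fun η hη hc h0 => by
  obtain ⟨I, J, A, cI, cJ, cA, J0, hi, hz, happ⟩ := integ hη hc
  have cη := hη.continuous
  have cP : Continuous fun x => η x * J x := cη.mul cJ
  have A0 : A 0 = 0 := by
    have := hi.li (0, 0)
    rwa [(hz 0).1] at this
  have J1 : J 0 = 1 := (hz 0).2
  refine ⟨xi A J fun x => η x * J x, ka I J fun x => η x * J x,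
    fun q => -log (J (A q.2.1, q.2.1.2)),
    contDiff_zero.1 (sm_xi (contDiff_zero.2 cA) (contDiff_zero.2 cJ) (contDiff_zero.2 cP) J0),
    contDiff_zero.1 (sm_ka (contDiff_zero.2 cI) (contDiff_zero.2 cJ) (contDiff_zero.2 cP) J0),
    (Continuous.log (by fun_prop) fun q => (J0 _).ne').neg, ?_,
    fun q => ⟨ka_xi hi J0 q, xi_ka hi J0 q, ?_, fun t => ⟨?_, by simp [add_es]⟩⟩, fun R => ?_⟩
  · simp [xi, xf, A0, J1, h0, ← Prod.zero_eq_mk]
  · have := (J0 (A q.2.1, q.2.1.2)).ne'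
    simp only [xi, xf, exp_neg, exp_log (J0 _)]
    field_simp
    ring
  · ext <;> simp [xi, xf, add_es]
    ring
  have hB := isCompact_closedBall (0 : B4) R
  obtain ⟨C, hC⟩ := hB.exists_bound_of_continuousOn
    (f := fun q : B4 => (J (A q.2.1, q.2.1.2))⁻¹)
    (Continuous.inv₀ (by fun_prop) fun q => (J0 _).ne').continuousOn
  refine ⟨C + 1, fun e he => ?_⟩
  obtain ⟨δ₁, p1, u1⟩ := unif (F := kf)
    (hB.image (f := fun q : B4 => (q, I q.2.1, J q.2.1, η q.2.1 * J q.2.1)) (by fun_prop))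
    (by
      rintro _ ⟨q, -, rfl⟩
      exact (sm_kf (n := 0) (J0 _).ne').continuousAt) he
  obtain ⟨δ₂, p2, u2⟩ := unif (F := fun p : B4 × ℝ × ℝ × ℝ =>
      (xf (p.1, p.2.1, J (p.2.1, p.1.2.1.2) + p.2.2.1,
        η (p.2.1, p.1.2.1.2) * J (p.2.1, p.1.2.1.2) + p.2.2.2),
      (J (p.2.1, p.1.2.1.2) + p.2.2.1)⁻¹))
    (hB.image (f := fun q : B4 => (q, A q.2.1, (0 : ℝ), (0 : ℝ))) (by fun_prop))
    (by
      rintro _ ⟨q, -, rfl⟩
      have : J (A q.2.1, q.2.1.2) + 0 ≠ 0 := by simpa using (J0 _).ne'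
      refine ContinuousAt.prodMk (ContinuousAt.comp (sm_xf (n := 0) this).continuousAt
        (by fun_prop)) (ContinuousAt.inv₀ (by fun_prop) this)) (lt_min he one_pos)
  obtain ⟨I', A', sI, sA, hi', J0', hx⟩ := happ R (min δ₁ δ₂) (lt_min p1 p2)
  have sD : ∀ v, ContDiff ℝ ∞ fun x => fderiv ℝ I' x v := fun v =>
    (sI.fderiv_right (by simp)).clm_apply contDiff_const
  have sX := sm_xi sA (sD (1, 0)) (sD (0, 1)) J0'
  have dX := sX.differentiable (by simp)
  refine ⟨_, _, sX, sm_ka sI (sD (1, 0)) (sD (0, 1)) J0', fun q => ⟨ka_xi hi' J0' q,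
    xi_ka hi' J0' q, form hi' (sI.differentiable (by simp)) (sA.differentiable (by simp))
      (fun _ => rfl) (fun _ => rfl) J0' (dX q)⟩, fun q hq => ?_⟩
  have hσ : |q.2.1.2| ≤ R := (norm_snd_le q.2.1).trans ((norm_fst_le q.2).trans
    ((norm_snd_le q).trans hq))
  have hq' := mem_closedBall_zero_iff.2 hq
  obtain ⟨a1, a2, a3, a4⟩ := hx q.2.1 hσ
  obtain ⟨-, -, b3, b4⟩ := hx (A' q.2.1, q.2.1.2) hσ
  have k1 := u1 _ ⟨q, hq', rfl⟩
    (q, I' q.2.1, fderiv ℝ I' q.2.1 (1, 0), fderiv ℝ I' q.2.1 (0, 1)) (by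
      rw [dist_comm]
      exact max_le (by simp [p1.le]) (max_le (a1.trans (min_le_left _ _))
        (max_le (a3.trans (min_le_left _ _)) (a4.trans (min_le_left _ _)))))
  have k2 := u2 _ ⟨q, hq', rfl⟩
    (q, A' q.2.1, fderiv ℝ I' (A' q.2.1, q.2.1.2) (1, 0) - J (A' q.2.1, q.2.1.2),
      fderiv ℝ I' (A' q.2.1, q.2.1.2) (0, 1) - η (A' q.2.1, q.2.1.2) * J (A' q.2.1, q.2.1.2)) (by
      rw [dist_comm]
      exact max_le (by simp [p2.le]) (max_le (a2.trans (min_le_right _ _))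
        (max_le ((dist_zero_right _).trans_le (b3.trans (min_le_right _ _)))
          ((dist_zero_right _).trans_le (b4.trans (min_le_right _ _))))))
  rw [Prod.dist_eq] at k2
  simp only [add_zero, add_sub_cancel, max_lt_iff, lt_min_iff] at k2
  refine ⟨?_, ?_, ?_⟩
  · rw [← dist_eq_norm, dist_comm]
    exact k2.1.1.le
  · rw [← dist_eq_norm, dist_comm]
    exact k1.le
  · rw [d_ey (dX q), norm_smul, show ‖ey‖ = 1 by simp [ey], mul_one]
    have := hC q hq'
    have k3 := k2.2.2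
    rw [dist_comm, dist_eq_norm] at k3
    linarith [norm_sub_norm_le (fderiv ℝ I' (A' q.2.1, q.2.1.2) (1, 0))⁻¹
      (J (A q.2.1, q.2.1.2))⁻¹]

end Pool.Agent.MP_6d695c_gt.T2
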