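import Pool.Agent.MP_6d695c_gt.t2.Spec

/-! PROJECT T2, row LOW: the trap in the model. -/

open scoped Manifold ContDiff Topology MeasureTheory
open Set Metric Filter Real

namespace Pool.Agent.MP_6d695c_gt.T2

open SW T1 Theta

namespace LowA

/-- the open set that carries the trap -/
def UU (w : ℝ) : Set (Y 2) := {y | |y.1| < 1 ∧ ‖y.2.1‖ < 3 * w ∧ ‖y.2.2‖ < 1}

/-- the thin set that is caught -/
def KK (w : ℝ) : Set (Y 2) := {y | y.1 = 0 ∧ ‖y.2.1‖ ≤ 2 * w ∧ y.2.2 = 0}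

theorem isOpen_UU (w : ℝ) : IsOpen (UU w) :=
  (isOpen_lt (f := fun y : Y 2 => |y.1|) (by fun_prop) continuous_const).inter
    ((isOpen_lt (f := fun y : Y 2 => ‖y.2.1‖) (by fun_prop) continuous_const).inter
      (isOpen_lt (f := fun y : Y 2 => ‖y.2.2‖) (by fun_prop) continuous_const))

theorem KK_eq (w : ℝ) :
    KK w = (fun q : Fin 2 → ℝ => ((0, q, 0) : Y 2)) '' closedBall 0 (2 * w) := by
  ext ⟨z, q, b⟩
  constructor
  · rintro ⟨h1, h2, h3⟩
    exact ⟨q, mem_closedBall_zero_iff.2 h2, Prod.ext h1.symm (Prod.ext rfl h3.symm)⟩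
  · rintro ⟨q', h1, h2⟩
    obtain ⟨rfl, rfl, rfl⟩ := h2
    exact ⟨rfl, mem_closedBall_zero_iff.1 h1, rfl⟩

theorem isCompact_KK (w : ℝ) : IsCompact (KK w) := by
  rw [KK_eq]
  exact (isCompact_closedBall _ _).image (by fun_prop)

theorem null_KK (w : ℝ) : μH[((2 : ℕ) : ℝ) + 1] (KK w) = 0 := by
  have hL : ContDiff ℝ 1 fun q : Fin 2 → ℝ => ((0, q, 0) : Y 2) := by fun_prop
  have h1 : dimH (range fun q : Fin 2 → ℝ => ((0, q, 0) : Y 2)) ≤ (2 : ℕ) := by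
    simpa using hL.dimH_range_le
  have h2 : dimH (range fun q : Fin 2 → ℝ => ((0, q, 0) : Y 2)) <
      ((((2 : ℕ) : NNReal) + 1 : NNReal) : ENNReal) := by
    refine h1.trans_lt ?_
    exact_mod_cast Nat.lt_succ_self 2
  have h3 := hausdorffMeasure_of_dimH_lt h2
  refine MeasureTheory.measure_mono_null ?_ (by simpa using h3)
  rw [KK_eq]
  exact image_subset_range _ _

theorem KK_sub {w : ℝ} (hw : 0 < w) : KK w ⊆ UU w := fun y hy =>
  ⟨by rw [hy.1]; simp, hy.2.1.trans_lt (by linarith), by rw [hy.2.2]; simp⟩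

theorem nrm_two (a b : ℝ) : ‖(![a, b] : Fin 2 → ℝ)‖ = ‖((a, b) : ℝ × ℝ)‖ := by
  refine le_antisymm ?_ ?_
  · refine (pi_norm_le_iff_of_nonneg (norm_nonneg _)).2 fun i => ?_
    fin_cases i
    · exact norm_fst_le ((a, b) : ℝ × ℝ)
    · exact norm_snd_le ((a, b) : ℝ × ℝ)
  · rw [Prod.norm_def]
    exact max_le (norm_le_pi_norm (![a, b] : Fin 2 → ℝ) 0) (norm_le_pi_norm (![a, b] : Fin 2 → ℝ) 1)

theorem ne_of_pos {z : ℂ} (h : 0 < nq z / 2) : z ≠ 0 := by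
  rintro rfl
  simp [nq] at h

theorem pos_of_ne {z : ℂ} (h : z ≠ 0) : 0 < nq z / 2 := by
  rw [nq_eq]
  have := norm_pos_iff.2 h
  positivity

theorem cI : ContDiff ℝ ∞ fun x : Mo => nq x.2 / 2 := (contDiff_nq.comp contDiff_snd).div_const 2

theorem not_UU {w : ℝ} {x : Mo} (h : x.2.re < 0) : (Jm x).2 ∉ UU w := fun hU => by
  have h1 : |Complex.arg x.2| < 1 := hU.1
  have h2 : |Complex.arg x.2| ≤ π / 2 := by linarith [pi_gt_three]
  exact absurd (Complex.abs_arg_le_pi_div_two_iff.1 h2) (not_le.2 h)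

theorem re_neg {z : ℂ} (h0 : z ≠ 0) (h : z ∉ Complex.slitPlane) : z.re < 0 := by
  rw [Complex.mem_slitPlane_iff, not_or, not_lt, not_not] at h
  refine lt_of_le_of_ne h.1 fun h1 => h0 (Complex.ext h1 h.2)

theorem ev_neg {x : Mo} (h : x.2.re < 0) : ∀ᶠ x' : Mo in 𝓝 x, x'.2.re < 0 :=
  (isOpen_lt (f := fun x : Mo => x.2.re) (by fun_prop) continuous_const).mem_nhds h

theorem slit_of {w : ℝ} {x : Mo} (h0 : x.2 ≠ 0) (hU : (Jm x).2 ∈ UU w) :
    x.2 ∈ Complex.slitPlane := by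
  by_contra h
  exact not_UU (re_neg h0 h) hU

theorem near_out (jay : JayStmt) {w : ℝ} {C : Set (Y 2)} (hC : IsCompact C) (hCU : C ⊆ UU w)
    {x : Mo} (h0 : x.2 ≠ 0) (hx : (Jm x).2 ∉ C) : ∀ᶠ x' in 𝓝 x, (Jm x').2 ∉ C := by
  by_cases h : x.2 ∈ Complex.slitPlane
  · exact ((jay x h).1.continuousAt.snd).eventually (hC.isClosed.isOpen_compl.mem_nhds hx)
  · exact (ev_neg (re_neg h0 h)).mono fun x' hx' hc => not_UU hx' (hCU hc)

theorem ev_lt {x : Mo} {m : ℝ} (h : nq x.2 / 2 < m) : ∀ᶠ x' : Mo in 𝓝 x, nq x'.2 / 2 < m :=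
  (isOpen_lt cI.continuous continuous_const).mem_nhds h

theorem ev_gt {x : Mo} {m : ℝ} (h : m < nq x.2 / 2) : ∀ᶠ x' : Mo in 𝓝 x, m < nq x'.2 / 2 :=
  (isOpen_lt continuous_const cI.continuous).mem_nhds h

theorem smooth_cut (jay : JayStmt) {w m : ℝ} {C : Set (Y 2)} (hCU : C ⊆ UU w) {k : ℝ → ℝ}
    (hk : ContDiff ℝ ∞ k) (hm : 0 < m) (k0 : ∀ r ≤ m, k r = 0) {g : ℝ × Y 2 → ℝ}
    (hg : ContDiff ℝ ∞ g) (g0 : ∀ y : ℝ × Y 2, y.2 ∉ C → g y = 0) :
    ContDiff ℝ ∞ fun x : Mo => k (nq x.2 / 2) * g (Jm x) := by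
  refine contDiff_iff_contDiffAt.2 fun x => ?_
  by_cases h : x.2 ∈ Complex.slitPlane
  · exact (hk.comp cI).contDiffAt.mul (hg.contDiffAt.comp x (jay x h).1)
  · refine (contDiffAt_const (c := (0 : ℝ))).congr_of_eventuallyEq ?_
    by_cases h0 : x.2 = 0
    · have : nq x.2 / 2 < m := by rw [h0]; simpa [nq] using hm
      exact (ev_lt this).mono fun x' hx' => by simp only [k0 _ hx'.le, zero_mul]
    · exact (ev_neg (re_neg h0 h)).mono fun x' hx' => by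
        simp only [g0 _ fun hc => not_UU hx' (hCU hc), mul_zero]

theorem abs_arg_le {z : ℂ} {c : ℝ} (h0 : z ≠ 0) (hc : 0 < c) (h : |z.im| ≤ c * z.re) :
    |Complex.arg z| ≤ c := by
  have h1 : 0 ≤ z.re := by
    by_contra hn
    have := mul_neg_of_pos_of_neg hc (not_le.1 hn)
    linarith [abs_nonneg z.im]
  have h2 : 0 < z.re := lt_of_le_of_ne h1 fun h2 => h0 (Complex.ext h2.symm (by
    rw [← h2, mul_zero] at h
    exact abs_nonpos_iff.1 h))
  have h3 : |Complex.arg z| < π / 2 := Complex.abs_arg_lt_pi_div_two_iff.2 (Or.inl h2)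
  have h4 := le_tan (abs_nonneg _) h3
  have h5 : tan |Complex.arg z| ≤ |tan (Complex.arg z)| := by
    rcases abs_cases (Complex.arg z) with h | h
    · rw [h.1]; exact le_abs_self _
    · rw [h.1, tan_neg]; exact neg_le_abs _
  rw [Complex.tan_arg, abs_div, abs_of_pos h2] at h5
  exact h4.trans (h5.trans ((div_le_iff₀ h2).2 h))

theorem cone_of {w I1 : ℝ} {x : Mo} (h0 : 0 < nq x.2 / 2) (h1 : I1 ≤ nq x.2 / 2)
    (hU : (Jm x).2 ∈ UU w) : ‖x.1.2.1‖ ≤ 3 * w ∧ Cone I1 x := by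
  have a : ‖(![x.1.2.1.1, x.1.2.1.2] : Fin 2 → ℝ)‖ < 3 * w := hU.2.1
  have b : ‖(![x.1.1 / (nq x.2 / 2), x.1.2.2 / (nq x.2 / 2)] : Fin 2 → ℝ)‖ < 1 := hU.2.2
  rw [nrm_two] at a b
  have b1 : |x.1.1 / (nq x.2 / 2)| < 1 := (norm_fst_le _).trans_lt b
  have b2 : |x.1.2.2 / (nq x.2 / 2)| < 1 := (norm_snd_le _).trans_lt b
  rw [abs_div, abs_of_pos h0, div_lt_one h0] at b1 b2
  exact ⟨a.le, h1, b1.le, b2.le⟩

theorem ly_arctan {f Λ : ℝ × Y 2 → ℝ} (hΛ : ContDiff ℝ ∞ Λ) (h : ∀ y, Ly univ (XY f) Λ y)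
    (y : ℝ × Y 2) : Ly univ (XY f) (fun y => arctan (Λ y)) y := by
  have hc : Continuous fun y => 1 / (1 + Λ y ^ 2) :=
    continuous_const.div (continuous_const.add (hΛ.continuous.pow 2)) fun y => by positivity
  have h0 : 0 < 1 / (1 + Λ y ^ 2) := by positivity
  refine T2.Ly.scale (h y) (mem_univ y) (half_pos h0) ?_
  rw [nhdsWithin_univ]
  refine ((isOpen_lt continuous_const hc).eventually_mem (half_lt_self h0)).mono fun y' hy' => ?_
  have d := (hasDerivAt_arctan (Λ y')).comp_hasFDerivAt y'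
    (hΛ.differentiable (by simp) y').hasFDerivAt
  rw [show (fun y => arctan (Λ y)) = arctan ∘ Λ from rfl, d.fderiv]
  exact mul_le_mul_of_nonneg_right (le_of_lt hy') (h y').nonneg

theorem pos_free {F Λ : Mo → ℝ} {ς : ℝ → ℝ} {x : Mo} (h0 : 0 < nq x.2 / 2)
    (hς : ContDiff ℝ ∞ ς) (hd : ∀ r, 0 ≤ deriv ς r) (hF : ∀ᶠ y in 𝓝 x, F y = 0)
    (hΛ : ∀ᶠ y in 𝓝 x, Λ y = arctan (log (nq y.2 / 2) + ς (log (nq y.2 / 2)))) :
    0 < fderiv ℝ Λ x (Xm F x) := by
  have d0 := (cI.differentiable (by simp) x).hasFDerivAt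
  have e0 : fderiv ℝ (fun x : Mo => nq x.2 / 2) x (Xm F x) = nq x.2 / 2 := by
    have d1 : HasFDerivAt (fun x : Mo => (1 / 2 : ℝ) * nq x.2) _ x :=
      ((contDiff_nq.differentiable (by simp) x.2).hasFDerivAt.comp x hasFDerivAt_snd).const_mul
        (1 / 2 : ℝ)
    rw [show (fun x : Mo => nq x.2 / 2) = fun x : Mo => (1 / 2 : ℝ) * nq x.2 from
      funext fun x => by ring, d1.fderiv, Xm_of_zero hF]
    simp [fderiv_nq, nq]
    ring
  have d2 : HasDerivAt (fun r : ℝ => arctan (log r + ς (log r))) _ (nq x.2 / 2) :=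
    (hasDerivAt_arctan _).comp _ ((hasDerivAt_log h0.ne').add
      ((hς.differentiable (by simp) _).hasDerivAt.comp _ (hasDerivAt_log h0.ne')))
  have d3 := d2.comp_hasFDerivAt x d0
  rw [Filter.EventuallyEq.fderiv_eq
    (f := (fun r : ℝ => arctan (log r + ς (log r))) ∘ fun x : Mo => nq x.2 / 2) hΛ, d3.fderiv]
  simp only [smul_apply, e0, smul_eq_mul]
  have := hd (log (nq x.2 / 2))
  positivity

end LowA

open LowA

theorem low (jay : JayStmt) : LowStmt := by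
  intro w η I0 ℓ hw hw1 hη hI0 hℓ
  obtain ⟨cut, scut, ccut, -, cut1, -⟩ := exists_cut (isCompact_closedBall (0 : Y 2) 1)
    isOpen_univ (subset_univ _)
  have sℓ : ContDiff ℝ ∞ fun y : Y 2 => -ℓ (y.2.1 0, y.2.1 1) := by
    refine (hℓ.comp ?_).neg
    fun_prop
  set u : Y 2 → ℝ := fun y => -ℓ (y.2.1 0, y.2.1 1) * cut y with hu
  have su : ContDiff ℝ ∞ u := sℓ.mul scut
  have cu : HasCompactSupport u := ccut.mul_left
  have uU : ∀ y ∈ UU w, u y = -ℓ (y.2.1 0, y.2.1 1) := fun y hy => by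
    have : y ∈ closedBall (0 : Y 2) 1 := by
      rw [mem_closedBall_zero_iff, Prod.norm_def, Prod.norm_def]
      exact max_le hy.1.le (max_le (hy.2.1.le.trans (by linarith)) hy.2.2.le)
    simp only [hu, (cut1 y this).self_of_nhds, mul_one]
  obtain ⟨T, B, C0, O, f0, Λ0, Ξ0, E0, hO, hKO, hR⟩ := rawAll 2 (KK w) (UU w) u η
    (isCompact_KK w) (isOpen_UU w) (KK_sub hw) (null_KK w) su cu hη
  obtain ⟨H, D, hH, hN⟩ := nrm rel (aut prel) T1.aff 2 (UU w) C0 O (fun _ => 0) u η T B f0 Λ0 Ξ0 E0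
    (isOpen_UU w) contDiff_const su hR
  obtain ⟨f, Λ, Ξ, E, h⟩ := hN (log I0)
  obtain ⟨C, ς, hC, hCU, sς, dς, -, -, hout⟩ := h.out
  obtain ⟨r, hr, hrO⟩ := (isCompact_KK w).exists_cthickening_subset_open hO hKO
  have hI1 : exp (log I0 - H) ≤ I0 := by
    calc exp (log I0 - H) ≤ exp (log I0) := exp_le_exp.2 (by linarith)
      _ = I0 := exp_log hI0
  refine ⟨exp (log I0 - H), r, exp_pos _, hI1, hr, fun I2 hI2 => ?_⟩
  set m := min (exp (log I0 - H)) I2 / 2 with hm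
  have m0 : 0 < min (exp (log I0 - H)) I2 := lt_min (exp_pos _) hI2
  have mp : 0 < m := half_pos m0
  have m1 : m < exp (log I0 - H) := (half_lt_self m0).trans_le (min_le_left _ _)
  have m2 : m < I2 := (half_lt_self m0).trans_le (min_le_right _ _)
  obtain ⟨b, sb, b1, b0, br, -⟩ := exists_step (half_lt_self mp)
  set k : ℝ → ℝ := fun r => 1 - b r with hk
  have sk : ContDiff ℝ ∞ k := contDiff_const.sub sb
  have k0 : ∀ r ≤ m / 2, k r = 0 := fun r hr => by simp only [hk, b1 r hr, sub_self]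
  have k1 : ∀ r, m ≤ r → k r = 1 := fun r hr => by simp only [hk, b0 r hr, sub_zero]
  have kr : ∀ r, k r ∈ Icc (0 : ℝ) 1 := fun r =>
    ⟨sub_nonneg.2 (br r).2, sub_le_self _ (br r).1⟩
  have kp : ∀ {x : Mo} {a : ℝ}, k (nq x.2 / 2) * a ≠ 0 → 0 < nq x.2 / 2 := fun {x a} hx => by
    by_contra hn
    exact hx (by rw [k0 _ ((not_lt.1 hn).trans (half_pos mp).le), zero_mul])
  have kev : ∀ {x : Mo}, m < nq x.2 / 2 → ∀ g : ℝ × Y 2 → ℝ,
      ∀ᶠ x' in 𝓝 x, k (nq x'.2 / 2) * g (Jm x') = g (Jm x') := fun {x} hx g =>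
    (ev_gt hx).mono fun x' hx' => by rw [k1 _ hx'.le, one_mul]
  have sm : ∀ {g : ℝ × Y 2 → ℝ}, ContDiff ℝ ∞ g → (∀ y : ℝ × Y 2, y.2 ∉ C → g y = 0) →
      ContDiff ℝ ∞ fun x : Mo => k (nq x.2 / 2) * g (Jm x) := fun hg g0 =>
    smooth_cut jay hCU sk (half_pos mp) k0 hg g0
  set G : ℝ × Y 2 → ℝ := fun y => Λ y - (y.1 + ς y.1) with hG
  have sG : ContDiff ℝ ∞ G := h.sΛ.sub (contDiff_fst.add (sς.comp contDiff_fst))
  have G0 : ∀ y : ℝ × Y 2, y.2 ∉ C → G y = 0 := fun y hy => by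
    simp only [hG, (hout y hy).2.2.2, sub_zero, sub_self]
  have sF := sm h.sf fun y hy => (hout y hy).1
  have sΞ := sm h.sΞ fun y hy => (hout y hy).2.1
  have sE := sm h.slow.sE fun y hy => (hout y hy).2.2.1
  have sG' := sm sG G0
  set F : Mo → ℝ := fun x => k (nq x.2 / 2) * f (Jm x) with hF
  set L : Mo → ℝ := fun x => k (nq x.2 / 2) *
    arctan (log (nq x.2 / 2) + ς (log (nq x.2 / 2)) + k (nq x.2 / 2) * G (Jm x)) with hL
  have sL : ContDiff ℝ ∞ L := by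
    refine contDiff_iff_contDiffAt.2 fun x => ?_
    by_cases h0 : x.2 = 0
    · have : nq x.2 / 2 < m / 2 := by rw [h0]; simpa [nq] using mp
      refine (contDiffAt_const (c := (0 : ℝ))).congr_of_eventuallyEq ?_
      exact (ev_lt this).mono fun x' hx' => by simp only [hL, k0 _ hx'.le, zero_mul]
    · have a : ContDiffAt ℝ ∞ (fun x : Mo => log (nq x.2 / 2)) x :=
        cI.contDiffAt.log (pos_of_ne h0).ne'
      exact (sk.comp cI).contDiffAt.mul (contDiff_arctan.contDiffAt.comp x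
        ((a.add (sς.contDiffAt.comp x a)).add sG'.contDiffAt))
  have hi : ∀ {x : Mo}, 0 < nq x.2 / 2 → log I0 - H < (Jm x).1 → exp (log I0 - H) < nq x.2 / 2 :=
    fun {x} h0 h1 => (lt_log_iff_exp_lt h0).1 h1
  have suppΞ : ∀ x : Mo, k (nq x.2 / 2) * Ξ (Jm x) ≠ 0 →
      (Jm x).2 ∈ C ∧ exp (log I0 - H) < nq x.2 / 2 := fun x hx => by
    have h1 : Ξ (Jm x) ≠ 0 := right_ne_zero_of_mul hx
    refine ⟨by_contra fun hc => h1 (hout _ hc).2.1, hi (kp hx) (by_contra fun hc => h1 ?_)⟩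
    exact (h.low _ (by simpa using hc)).2
  have rΞ : ∀ x : Mo, k (nq x.2 / 2) * Ξ (Jm x) ∈ Icc (0 : ℝ) 1 := fun x =>
    ⟨mul_nonneg (kr _).1 (h.rng _).1, mul_le_one₀ (kr _).2 (h.rng _).1 (h.rng _).2⟩
  have chain : ∀ {x : Mo}, m < nq x.2 / 2 → x.2 ∈ Complex.slitPlane →
      ∀ (g : ℝ × Y 2 → ℝ) (g' : Mo → ℝ), ContDiff ℝ ∞ g → (∀ᶠ x' in 𝓝 x, g' x' = g (Jm x')) →
      fderiv ℝ g' x (Xm F x) = fderiv ℝ g (Jm x) (XY f (Jm x)) := fun {x} hx hs g g' hg he => by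
    have j := jay x hs
    rw [Filter.EventuallyEq.fderiv_eq (f := g ∘ Jm) he,
      fderiv_comp x (hg.differentiable (by simp) _) (j.1.differentiableAt (by simp)),
      ContinuousLinearMap.comp_apply, (j.2 f F h.sf sF (kev hx f)).1]
  refine ⟨F, L, fun x => k (nq x.2 / 2) * Ξ (Jm x), fun x => k (nq x.2 / 2) * E (Jm x),
    sF, sL, sΞ, sE, fun x hx => ?_, fun x hx => ?_, rΞ, fun x => ?_,
    fun x h1 h2 h3 h4 h5 => ?_, fun x => ?_, fun x => ?_, fun x hx => ?_, fun x hx => ?_⟩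
  · have h0 := kp hx
    have h1 : f (Jm x) ≠ 0 := right_ne_zero_of_mul hx
    have h2 : (Jm x).2 ∈ C := by_contra fun hc => h1 (hout _ hc).1
    have h3 : ¬((Jm x).1 - 0 ≤ log I0 - H + 1 ∨ log I0 - 1 ≤ (Jm x).1 - 0) :=
      fun hc => h1 (h.far _ hc)
    rw [not_or, not_le, not_le] at h3
    have h4 := cone_of h0 (hi h0 (by linarith [h3.1])).le (hCU h2)
    refine ⟨h4.1, h4.2, (log_le_log_iff h0 hI0).1 ?_⟩
    have : log (nq x.2 / 2) - 0 < log I0 - 1 := h3.2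
    linarith
  · exact cone_of (kp hx) (suppΞ x hx).2.le (hCU (suppΞ x hx).1)
  · by_cases hx : k (nq x.2 / 2) * Ξ (Jm x) = 0
    · have : IsLocalMin (fun x : Mo => k (nq x.2 / 2) * Ξ (Jm x)) x :=
        Eventually.of_forall fun y => by
          show k (nq x.2 / 2) * Ξ (Jm x) ≤ _
          rw [hx]
          exact (rΞ y).1
      rw [this.fderiv_eq_zero]
      exact le_rfl
    · have h1 := m1.trans (suppΞ x hx).2
      rw [chain h1 (slit_of (ne_of_pos (kp hx)) (hCU (suppΞ x hx).1)) Ξ _ h.sΞ (kev h1 Ξ)]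
      exact h.mono _
  · have h0 : 0 < nq x.2 / 2 := hI0.trans_le h1
    show k (nq x.2 / 2) * Ξ (Jm x) = 1
    rw [k1 _ (m1.le.trans (hI1.trans h1)), one_mul]
    refine (h.high (Jm x) ?_).2 (hrO ?_)
    · rw [sub_zero]
      exact log_le_log hI0 h1
    · refine mem_cthickening_of_dist_le _ (0, ![x.1.2.1.1, x.1.2.1.2], 0) r _
        ⟨rfl, (nrm_two _ _).le.trans h4, rfl⟩ ?_
      rw [Prod.dist_eq, Prod.dist_eq]
      refine max_le ?_ (max_le ?_ ?_)
      · rw [dist_zero_right]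
        exact abs_arg_le (ne_of_pos h0) hr h5
      · exact (dist_self _).le.trans hr.le
      · rw [dist_zero_right]
        show ‖(![x.1.1 / (nq x.2 / 2), x.1.2.2 / (nq x.2 / 2)] : Fin 2 → ℝ)‖ ≤ r
        rw [nrm_two, Prod.norm_def]
        refine max_le ?_ ?_
        · show |x.1.1 / (nq x.2 / 2)| ≤ r
          rwa [abs_div, abs_of_pos h0, div_le_iff₀ h0]
        · show |x.1.2.2 / (nq x.2 / 2)| ≤ r
          rwa [abs_div, abs_of_pos h0, div_le_iff₀ h0]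
  · show |k (nq x.2 / 2) * E (Jm x)| ≤ η
    rw [abs_mul, abs_of_nonneg (kr _).1]
    exact (mul_le_of_le_one_left (abs_nonneg _) (kr _).2).trans (h.slow.bd _ (mem_univ _))
  · show |k (nq x.2 / 2) * arctan _| ≤ 2
    rw [abs_mul, abs_of_nonneg (kr _).1]
    refine (mul_le_of_le_one_left (abs_nonneg _) (kr _).2).trans (abs_le.2 ⟨?_, ?_⟩)
    · exact le_trans (by linarith [pi_le_four]) (neg_pi_div_two_lt_arctan _).le
    · exact (arctan_lt_pi_div_two _).le.trans (by linarith [pi_le_four])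
  · have h1 := m2.trans hx
    have h0 := ne_of_pos (hI2.trans hx)
    by_cases hU : (Jm x).2 ∈ UU w
    · have hs := slit_of h0 hU
      have s1 : ContDiff ℝ ∞ fun y : ℝ × Y 2 => u y.2 + E y := (su.comp contDiff_snd).add h.slow.sE
      have e1 : ∀ᶠ x' in 𝓝 x, (Jm x').2 ∈ UU w :=
        ((jay x hs).1.continuousAt.snd).eventually ((isOpen_UU w).mem_nhds hU)
      rw [chain h1 hs (fun y => -(u y.2 + E y)) _ s1.neg (((kev h1 E).and e1).mono fun x' hx' => by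
        rw [hx'.1, uU _ hx'.2]
        simp [Jm]
        ring), fderiv_fun_neg]
      exact neg_nonneg.2 (h.slow.mono _ (mem_univ _))
    · have e1 := near_out jay hC hCU h0 fun hc => hU (hCU hc)
      have d1 : HasFDerivAt (fun x : Mo => ℓ x.1.2.1) _ x :=
        (hℓ.differentiable (by simp) _).hasFDerivAt.comp x
          (hasFDerivAt_fst.comp x (hasFDerivAt_snd.comp x hasFDerivAt_fst))
      rw [Filter.EventuallyEq.fderiv_eq (f := fun x : Mo => ℓ x.1.2.1) (e1.mono fun x' hx' => by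
        simp only [(hout _ hx').2.2.1, mul_zero, sub_zero]), d1.fderiv,
        Xm_of_zero (F := F) (e1.mono fun x' hx' => by simp only [hF, (hout _ hx').1, mul_zero])]
      have : ((0, 0) : ℝ × ℝ) = 0 := rfl
      simp [this]
  · have h1 := m2.trans hx
    have h0 := ne_of_pos (hI2.trans hx)
    by_cases hs : x.2 ∈ Complex.slitPlane
    · refine ((jay x hs).2 f F h.sf sF (kev h1 f)).2 (fun y => arctan (Λ y)) L
        (contDiff_arctan.comp h.sΛ) sL ((ev_gt h1).mono fun x' hx' => ?_)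
        (ly_arctan h.sΛ h.lyap _)
      simp only [hL, hG, k1 _ hx'.le, one_mul]
      congr 1
      show _ + (Λ (Jm x') - (log (nq x'.2 / 2) + ς (log (nq x'.2 / 2)))) = _
      ring
    · have e1 : ∀ᶠ x' in 𝓝 x, (Jm x').2 ∉ C :=
        (ev_neg (re_neg h0 hs)).mono fun x' hx' hc => not_UU hx' (hCU hc)
      refine Or.inl (pos_free (hI2.trans hx) sς dς
        (e1.mono fun x' hx' => by simp only [hF, (hout _ hx').1, mul_zero])
        ((e1.and (ev_gt h1)).mono fun x' hx' => ?_))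
      simp only [hL, k1 _ hx'.2.le, G0 _ hx'.1, one_mul, add_zero]

end Pool.Agent.MP_6d695c_gt.T2
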