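import Pool.Agent.MP_6d695c_gt.t2.Spec

/-! PROJECT T2, row PLUG: kick and trap together. -/

open scoped Manifold ContDiff Topology
open Set Metric Filter Real

namespace Pool.Agent.MP_6d695c_gt.T2

open SW T1 Theta

namespace Plug

theorem exJ : ∃ j : ℝ → ℝ, ContDiff ℝ ∞ j ∧ (∀ t ≤ 3 / 10, j t = 0) ∧ (∀ t, 2 / 5 ≤ t → j t = 1) ∧
    (∀ t, j t ∈ Icc (0 : ℝ) 1) ∧ (∀ t, 0 ≤ deriv j t) ∧ (∀ t < 3 / 10, deriv j t = 0) ∧
    (∀ t, 2 / 5 < t → deriv j t = 0) ∧ ∃ J, 0 < J ∧ ∀ t, deriv j t ≤ J := by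
  set j : ℝ → ℝ := fun t => smoothTransition (10 * t - 3) with hj
  have s : ContDiff ℝ ∞ j := smoothTransition.contDiff.comp (by fun_prop)
  have h0 : ∀ t ≤ 3 / 10, j t = 0 := fun t ht => smoothTransition.zero_of_nonpos (by linarith)
  have h1 : ∀ t, 2 / 5 ≤ t → j t = 1 := fun t ht => smoothTransition.one_of_one_le (by linarith)
  have m : Monotone j := fun a b hab => smoothTransition.monotone (by linarith)
  have d0 : ∀ t < 3 / 10, deriv j t = 0 := fun t ht => by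
    rw [Filter.EventuallyEq.deriv_eq (f := fun _ => (0 : ℝ))
      (by filter_upwards [Iio_mem_nhds ht] with x hx using h0 x hx.le)]
    simp
  have d1 : ∀ t, 2 / 5 < t → deriv j t = 0 := fun t ht => by
    rw [Filter.EventuallyEq.deriv_eq (f := fun _ => (1 : ℝ))
      (by filter_upwards [Ioi_mem_nhds ht] with x hx using h1 x hx.le)]
    simp
  obtain ⟨C, hC⟩ := (isCompact_Icc (a := (3 / 10 : ℝ)) (b := 2 / 5)).exists_bound_of_continuousOn
    (s.continuous_deriv (by simp)).continuousOn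
  refine ⟨j, s, h0, h1, fun t => ⟨smoothTransition.nonneg _, smoothTransition.le_one _⟩,
    fun t => m.deriv_nonneg, d0, d1, |C| + 1, by positivity, fun t => ?_⟩
  rcases lt_or_ge t (3 / 10) with h | h
  · rw [d0 t h]; positivity
  rcases lt_or_ge (2 / 5) t with h' | h'
  · rw [d1 t h']; positivity
  have := hC t ⟨h, h'⟩
  rw [Real.norm_eq_abs] at this
  linarith [le_abs_self C, le_abs_self (deriv j t)]

theorem exB : ∃ b : ℝ → ℝ, ContDiff ℝ ∞ b ∧ (∀ t, b t ∈ Icc (0 : ℝ) 1) ∧ (∀ t, 0 ≤ deriv b t) ∧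
    (∀ t ≤ 1 / 5, deriv b t = 0) ∧ (∀ t, 3 / 10 ≤ t → 0 < deriv b t) ∧
    ∃ b0, 0 < b0 ∧ ∀ t ∈ Icc (3 / 10 : ℝ) (11 / 10), b0 ≤ deriv b t := by
  set b : ℝ → ℝ := fun t => expNegInvGlue (t - 1 / 4) with hb
  have s : ContDiff ℝ ∞ b := expNegInvGlue.contDiff.comp (by fun_prop)
  have m : Monotone b := fun a b hab => expNegInvGlue.monotone (by linarith)
  have p : ∀ t, 3 / 10 ≤ t → 0 < deriv b t := fun t ht => by
    have h : 0 < t - 1 / 4 := by linarith
    have h1 : HasDerivAt b _ t := (glue_deriv h).comp_sub_const t (1 / 4)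
    rw [h1.deriv]
    exact mul_pos (expNegInvGlue.pos_of_pos h) (by positivity)
  refine ⟨b, s, fun t => ⟨expNegInvGlue.nonneg _, ?_⟩, fun t => m.deriv_nonneg, fun t ht => ?_, p,
    exists_pos_le isCompact_Icc (s.continuous_deriv (by simp)).continuousOn fun t ht => p t ht.1⟩
  · simp only [hb, expNegInvGlue]
    split_ifs with h
    · exact zero_le_one
    · exact exp_le_one_iff.2 (neg_nonpos.2 (inv_nonneg.2 (not_le.1 h).le))
  · rw [Filter.EventuallyEq.deriv_eq (f := fun _ => (0 : ℝ)) (by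
      filter_upwards [Iio_mem_nhds (show t < 1 / 4 by linarith)] with x hx using
        expNegInvGlue.zero_of_nonpos (sub_nonpos.2 (le_of_lt hx)))]
    simp

theorem dP {φ : ℝ → ℝ} (hφ : ContDiff ℝ ∞ φ) (x v : Mo) :
    fderiv ℝ (fun x : Mo => φ x.1.1) x v = deriv φ x.1.1 * v.1.1 := by
  have h : HasFDerivAt (fun x : Mo => φ x.1.1) _ x :=
    (hφ.differentiable (by simp) x.1.1).hasDerivAt.comp_hasFDerivAt x
      (hasFDerivAt_fst.comp x (hasFDerivAt_fst (𝕜 := ℝ)))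
  rw [h.fderiv]
  simp

theorem dq {k : ℝ × ℝ → ℝ} (hk : ContDiff ℝ ∞ k) (x v : Mo) :
    fderiv ℝ (fun x : Mo => k x.1.2.1) x v = fderiv ℝ k x.1.2.1 v.1.2.1 := by
  have h : HasFDerivAt (fun x : Mo => k x.1.2.1) _ x :=
    (hk.differentiable (by simp) x.1.2.1).hasFDerivAt.comp x
      (hasFDerivAt_fst.comp x (hasFDerivAt_snd.comp x hasFDerivAt_fst))
  rw [h.fderiv]
  simp

theorem dmix {a b c : Mo → ℝ} (ha : ContDiff ℝ ∞ a) (hb : ContDiff ℝ ∞ b) (hc : ContDiff ℝ ∞ c)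
    (x v : Mo) : fderiv ℝ (fun y => a y * b y + (1 - a y) * c y) x v =
      a x * fderiv ℝ b x v + (1 - a x) * fderiv ℝ c x v + fderiv ℝ a x v * (b x - c x) := by
  have a' := (ha.differentiable (by simp) x).hasFDerivAt
  have b' := (hb.differentiable (by simp) x).hasFDerivAt
  have c' := (hc.differentiable (by simp) x).hasFDerivAt
  have h : HasFDerivAt (fun y => a y * b y + (1 - a y) * c y) _ x :=
    (a'.fun_mul b').fun_add ((a'.const_sub 1).fun_mul c')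
  rw [h.fderiv]
  simp
  ring

theorem dPhi {l a e b u : Mo → ℝ} (hl : ContDiff ℝ ∞ l) (ha : ContDiff ℝ ∞ a)
    (he : ContDiff ℝ ∞ e) (hb : ContDiff ℝ ∞ b) (hu : ContDiff ℝ ∞ u) (c1 c2 : ℝ) (x v : Mo) :
    fderiv ℝ (fun y => l y + (c1 * b y + (1 - a y) * (c1 * c2 * u y - e y))) x v =
      a x * fderiv ℝ l x v + (1 - a x) * fderiv ℝ (fun y => l y - e y) x v +
        (1 - a x) * (c1 * c2 * fderiv ℝ u x v) + c1 * fderiv ℝ b x v +
        fderiv ℝ a x v * (e x - c1 * c2 * u x) := by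
  have l' := (hl.differentiable (by simp) x).hasFDerivAt
  have a' := (ha.differentiable (by simp) x).hasFDerivAt
  have e' := (he.differentiable (by simp) x).hasFDerivAt
  have b' := (hb.differentiable (by simp) x).hasFDerivAt
  have u' := (hu.differentiable (by simp) x).hasFDerivAt
  have h : HasFDerivAt (fun y => l y + (c1 * b y + (1 - a y) * (c1 * c2 * u y - e y))) _ x :=
    l'.fun_add ((b'.const_mul c1).fun_add
      ((a'.const_sub 1).fun_mul ((u'.const_mul (c1 * c2)).fun_sub e')))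
  have h2 : HasFDerivAt (fun y => l y - e y) _ x := l'.fun_sub e'
  rw [h.fderiv, h2.fderiv]
  simp
  ring

theorem dup {g : ℝ × ℝ → ℝ} (hg : ContDiff ℝ ∞ g) (x v : Mo) :
    fderiv ℝ (fun x : Mo => (x.1.2.2 * exp (g x.1.2.1)) ^ 2) x v =
      2 * exp (g x.1.2.1) ^ 2 *
        (x.1.2.2 * v.1.2.2 + x.1.2.2 ^ 2 * fderiv ℝ g x.1.2.1 v.1.2.1) := by
  have h1 : HasFDerivAt (fun x : Mo => g x.1.2.1) _ x :=
    (hg.differentiable (by simp) x.1.2.1).hasFDerivAt.comp x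
      (hasFDerivAt_fst.comp x (hasFDerivAt_snd.comp x hasFDerivAt_fst))
  have h2 : HasFDerivAt (fun x : Mo => x.1.2.2) _ x :=
    hasFDerivAt_snd.comp x (hasFDerivAt_snd.comp x (hasFDerivAt_fst (𝕜 := ℝ)))
  have h : HasFDerivAt (fun x : Mo => (x.1.2.2 * exp (g x.1.2.1)) ^ 2) _ x :=
    (h2.fun_mul h1.exp).pow 2
  rw [h.fderiv]
  simp
  ring

/-- a function vanishes near a point off a closed set that contains its support -/
theorem near0 {F : Mo → ℝ} {C : Set Mo} (hC : IsClosed C) (h : ∀ x, F x ≠ 0 → x ∈ C) {x : Mo}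
    (hx : x ∉ C) : ∀ᶠ y in 𝓝 x, F y = 0 := by
  filter_upwards [hC.isOpen_compl.mem_nhds hx] with y hy
  by_contra h0
  exact hy (h y h0)

variable {w h' Y1 c0 θ R ε : ℝ} {F Ξ : Mo → ℝ}

theorem slabP (s : Slab w h' Y1 c0 θ R ε F Ξ) (x : Mo) : x.1.1 - θ ≤ (Xm F x).1.1 := by
  have := s.small x ea
  have h : ‖ea‖ = 1 := by simp [ea, Prod.norm_def]
  rw [h, mul_one] at this
  rw [Xm_eq]
  linarith [(abs_le.1 this).1]

theorem slabY (s : Slab w h' Y1 c0 θ R ε F Ξ) (x : Mo) : |(Xm F x).1.2.2 - x.1.2.2| ≤ θ := by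
  have := s.small x eσ
  have h : ‖eσ‖ = 1 := by simp [eσ, Prod.norm_def]
  rw [h, mul_one] at this
  rw [Xm_eq]
  simpa using this

theorem slabq (s : Slab w h' Y1 c0 θ R ε F Ξ) (hθ : 0 ≤ θ) {k : ℝ × ℝ → ℝ} {C : ℝ} (hC : 0 < C)
    (hk : ∀ p ∈ closedBall (0 : ℝ × ℝ) (3 * w), ‖fderiv ℝ k p‖ ≤ C) (x : Mo) :
    |fderiv ℝ k x.1.2.1 (Xm F x).1.2.1| ≤ C * θ := by
  by_cases hx : ‖x.1.2.1‖ ≤ 3 * w
  · have h1 := s.small x es
    have h2 := s.small x ey
    have e1 : ‖es‖ = 1 := by simp [es, Prod.norm_def]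
    have e2 : ‖ey‖ = 1 := by simp [ey, Prod.norm_def]
    rw [e1, mul_one] at h1
    rw [e2, mul_one] at h2
    have h3 : ‖(Xm F x).1.2.1‖ ≤ θ := by
      rw [Xm_eq, Prod.norm_def]
      exact max_le (by simpa using h1) (by simpa using h2)
    exact ((fderiv ℝ k x.1.2.1).le_opNorm _).trans
      (mul_le_mul (hk _ (mem_closedBall_zero_iff.2 hx)) h3 (norm_nonneg _) hC.le)
  · rw [Xm_of_zero (near0 (C := {x : Mo | ‖x.1.2.1‖ ≤ 3 * w})
      (isClosed_le (by fun_prop) continuous_const) (fun x h => (s.out x h).1) hx)]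
    have : ((0 : ℝ), (0 : ℝ)) = 0 := rfl
    simp only [this, map_zero, abs_zero]
    positivity

end Plug

open Plug in
theorem plg (low : LowStmt) (slab : SlabStmt) : PlgStmt := by
  intro w h' η Y1 ys ℓ g hw hw' hh hh' hη hY hY' hys sℓ sg
  obtain ⟨j, sj, j0, j1, jr, jd, jd0, jd1, J, hJ, jJ⟩ := exJ
  obtain ⟨b, sb, br, bd, bd0, bdp, b0, hb0, bb0⟩ := exB
  obtain ⟨c2, hc2, e2⟩ : ∃ c2 : ℝ, 0 < c2 ∧ J * c2 = b0 / 8 :=
    ⟨b0 / (8 * J), by positivity, by field_simp⟩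
  obtain ⟨c1, hc1, e1⟩ : ∃ c1 : ℝ, 0 < c1 ∧ c1 * (1 + 2 * c2) = η / 2 :=
    ⟨η / (2 * (1 + 2 * c2)), by positivity, by field_simp⟩
  obtain ⟨ηl, hηl, l1, l2⟩ : ∃ ηl : ℝ, 0 < ηl ∧ ηl ≤ η / 2 ∧ J * ηl ≤ c1 * b0 / 4 :=
    ⟨min (η / 2) (c1 * b0 / (4 * J)), by positivity, min_le_left _ _,
      (mul_le_mul_of_nonneg_left (min_le_right _ _) hJ.le).trans_eq (by field_simp)⟩
  obtain ⟨I0, hI0, i1, i2⟩ : ∃ I0 : ℝ, 0 < I0 ∧ I0 ≤ ys / 2 ∧ I0 ≤ 1 / 5 :=
    ⟨min (ys / 2) (1 / 5), by positivity, min_le_left _ _, min_le_right _ _⟩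
  obtain ⟨I1, c0, hI1, hI10, hc0, hlow⟩ := low w ηl I0 ℓ hw hw' hηl hI0 sℓ
  obtain ⟨Cl, hCl, bCl⟩ := exists_fderiv_bound (sℓ.of_le (by simp))
    (isCompact_closedBall (0 : ℝ × ℝ) (3 * w))
  obtain ⟨Cg, hCg, bCg⟩ := exists_fderiv_bound (sg.of_le (by simp))
    (isCompact_closedBall (0 : ℝ × ℝ) (3 * w))
  obtain ⟨θ, hθ, t1, t2, t3, t4⟩ : ∃ θ : ℝ, 0 < θ ∧ θ ≤ 1 / 10 ∧ θ ≤ ys / 4 ∧
      Cl * θ ≤ c1 * b0 / 20 ∧ Cg * θ ≤ 1 / 2 :=
    ⟨min (min (1 / 10) (ys / 4)) (min (c1 * b0 / (20 * Cl)) (1 / (2 * Cg))), by positivity,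
      (min_le_left _ _).trans (min_le_left _ _), (min_le_left _ _).trans (min_le_right _ _),
      (mul_le_mul_of_nonneg_left ((min_le_right _ _).trans (min_le_left _ _)) hCl.le).trans_eq
        (by field_simp),
      (mul_le_mul_of_nonneg_left ((min_le_right _ _).trans (min_le_right _ _)) hCg.le).trans_eq
        (by field_simp)⟩
  obtain ⟨c', hc', k1, k2⟩ : ∃ c' : ℝ, 0 < c' ∧ c' ≤ c0 ∧ c' ≤ 1 :=
    ⟨min c0 1, by positivity, min_le_left _ _, min_le_right _ _⟩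
  obtain ⟨R, ε, Fs, Xs, hε, S⟩ := slab w h' Y1 c' θ hw hh hh' hY hc' hθ
  refine ⟨I1, ε, max R 1, hI1, hε, fun I2 hI2 => ?_⟩
  obtain ⟨Fl, Λ, Xl, El, L⟩ := hlow I2 hI2
  have cP : Continuous fun x : Mo => x.1.1 := by fun_prop
  have cI : Continuous fun x : Mo => nq x.2 / 2 :=
    (contDiff_nq.continuous.comp continuous_snd).div_const 2
  have sJ : ContDiff ℝ ∞ fun x : Mo => j x.1.1 := sj.comp (by fun_prop)
  have sB : ContDiff ℝ ∞ fun x : Mo => b x.1.1 := sb.comp (by fun_prop)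
  have sL : ContDiff ℝ ∞ fun x : Mo => ℓ x.1.2.1 := sℓ.comp (by fun_prop)
  -- where the two generating functions vanish
  have zs : ∀ x : Mo, h' < |x.1.1 - 1| → ∀ᶠ y in 𝓝 x, Fs y = 0 := fun x hx =>
    near0 (C := {x : Mo | |x.1.1 - 1| ≤ h'}) (isClosed_le (by fun_prop) continuous_const)
      (fun x h => (S.out x h).2.2.1) (not_le.2 hx)
  have zl : ∀ x : Mo, I0 < |x.1.1| ∨ I0 < |x.1.2.2| → ∀ᶠ y in 𝓝 x, Fl y = 0 := fun x hx =>
    near0 (C := {x : Mo | |x.1.1| ≤ I0} ∩ {x : Mo | |x.1.2.2| ≤ I0})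
      ((isClosed_le (by fun_prop) continuous_const).inter
        (isClosed_le (by fun_prop) continuous_const))
      (fun x h => ⟨(L.out x h).2.1.2.1.trans (L.out x h).2.2,
        (L.out x h).2.1.2.2.trans (L.out x h).2.2⟩)
      fun h => hx.elim (not_lt.2 h.1) (not_lt.2 h.2)
  set F : Mo → ℝ := fun x => Fs x + Fl x with hF
  have Xs' : ∀ x : Mo, I0 < |x.1.1| ∨ I0 < |x.1.2.2| → Xm F x = Xm Fs x := fun x hx =>
    Xm_congr ((zl x hx).mono fun y hy => by simp [hF, hy])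
  have XS : ∀ x : Mo, 1 / 5 < x.1.1 → Xm F x = Xm Fs x := fun x hx =>
    Xs' x (Or.inl (by linarith [le_abs_self x.1.1]))
  have XL : ∀ x : Mo, x.1.1 < 9 / 10 → Xm F x = Xm Fl x := fun x hx =>
    Xm_congr ((zs x (by linarith [neg_abs_le (x.1.1 - 1)])).mono fun y hy => by simp [hF, hy])
  have XP : ∀ x : Mo, 1 / 5 < x.1.1 → x.1.1 - 1 / 10 ≤ (Xm F x).1.1 := fun x hx => by
    rw [XS x hx]
    linarith [slabP S x]
  -- below the slab the support of the kick lies deep in the cone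
  have deep : ∀ x : Mo, 1 / 5 < x.1.1 → x.1.1 ≤ 1 - h' → Xs x ≠ 0 →
      x.1.1 ≤ nq x.2 / 2 ∧ |x.1.2.2| ≤ x.1.1 ∧ Xl x = 1 := fun x hx hx' h0 => by
    obtain ⟨a1, a2, a3⟩ := S.supp x hx h0
    obtain ⟨a3, a4⟩ := a3 hx'
    have n0 : 0 ≤ nq x.2 / 2 := div_nonneg (nq_nonneg _) two_pos.le
    have a5 : x.1.1 ≤ nq x.2 / 2 := a3.trans (mul_le_of_le_one_left n0 k2)
    have a6 : |x.1.2.2| ≤ x.1.1 := a2.trans (by nlinarith)
    have a7 : x.1.1 ≤ c0 * (nq x.2 / 2) := a3.trans (mul_le_mul_of_nonneg_right k1 n0)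
    have a8 : 0 ≤ x.2.re := le_of_mul_le_mul_left
      (by rw [mul_zero]; exact (abs_nonneg _).trans a4) hc'
    exact ⟨a5, a6, L.one x (by linarith) (by rwa [abs_of_pos (by linarith)]) (a6.trans a7) a1
      (a4.trans (mul_le_mul_of_nonneg_right k1 a8))⟩
  have D := fun x : Mo => dPhi sL sJ L.sE sB L.sΛ c1 c2 x (Xm F x)
  simp only [dP sj, dP sb, dq sℓ] at D
  refine ⟨F, fun y => c1 * b y.1.1 + (1 - j y.1.1) * (c1 * c2 * Λ y - El y),
    fun y => j y.1.1 * Xs y + (1 - j y.1.1) * Xl y, S.sF.add L.sF,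
    (contDiff_const.mul sB).add ((contDiff_const.sub sJ).mul
      ((contDiff_const.mul L.sΛ).sub L.sE)),
    (sJ.mul S.sΞ).add ((contDiff_const.sub sJ).mul L.sΞ), fun x hx => ?_, fun x => ?_,
    fun x hx => ?_, fun x hx => ?_, fun x => ?_, fun x => ?_, fun x a1 a2 a3 a4 => ?_,
    fun x hx => ?_⟩
  · have a : Fs x = 0 := by
      by_contra h
      obtain ⟨a1, a2, a3⟩ := S.out x h
      exact hx ⟨a1, a2.trans (le_max_left _ _), Or.inl a3⟩
    have a' : Fl x = 0 := by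
      by_contra h
      obtain ⟨a1, a2, a3⟩ := L.out x h
      refine hx ⟨a1, le_trans ?_ (le_max_right _ _), Or.inr a2⟩
      rw [nq_eq] at a3
      nlinarith [norm_nonneg x.2]
    simp [hF, a, a']
  · have a1 := br x.1.1
    have a2 := jr x.1.1
    have a3 := abs_le.1 (L.bE x)
    have a4 := abs_le.1 (L.bΛ x)
    have p : 0 < c1 * c2 := mul_pos hc1 hc2
    have a5 : |c1 * c2 * Λ x - El x| ≤ 2 * (c1 * c2) + ηl := abs_le.2 ⟨by nlinarith, by nlinarith⟩
    have a6 : |(1 - j x.1.1) * (c1 * c2 * Λ x - El x)| ≤ 2 * (c1 * c2) + ηl := by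
      rw [abs_mul, abs_of_nonneg (sub_nonneg.2 a2.2)]
      exact (mul_le_of_le_one_left (abs_nonneg _) (by linarith [a2.1])).trans a5
    have a7 : 0 ≤ c1 * b x.1.1 := mul_nonneg hc1.le a1.1
    have a8 : c1 * b x.1.1 ≤ c1 := mul_le_of_le_one_right hc1.le a1.2
    have a9 := abs_le.1 a6
    exact abs_le.2 ⟨by nlinarith, by nlinarith⟩
  · have p : 0 < c1 * c2 := mul_pos hc1 hc2
    rcases lt_or_ge x.1.1 (3 / 10) with h | h
    · have hI : I2 < nq x.2 / 2 := hx.resolve_left (by linarith)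
      have nb : ∀ᶠ y in 𝓝[univ] x, y.1.1 < 3 / 10 ∧ I2 < nq y.2 / 2 :=
        nhdsWithin_le_nhds ((cP.continuousAt.eventually_lt continuousAt_const h).and
          (continuousAt_const.eventually_lt cI.continuousAt hI))
      refine Ly.scale ((L.ly x hI).congr (mem_univ x)
        (nb.mono fun y hy => XL y (by linarith [hy.1]))) (mem_univ x) p (nb.mono fun y hy => ?_)
      have a1 : 0 ≤ fderiv ℝ (fun x => ℓ x.1.2.1 - El x) y (Xm F y) := by
        rw [XL y (by linarith [hy.1])]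
        exact L.slow y hy.2
      have a2 : 0 ≤ deriv b y.1.1 * (Xm F y).1.1 := by
        rcases le_or_gt y.1.1 (1 / 5) with h1 | h1
        · rw [bd0 _ h1, zero_mul]
        · exact mul_nonneg (bd _) (by linarith [XP y h1])
      rw [D y, j0 _ hy.1.le, jd0 _ hy.1]
      linarith [mul_nonneg hc1.le a2]
    · left
      have h5 : 1 / 5 < x.1.1 := by linarith
      have a0 := XP x h5
      have a1 : 0 ≤ (1 - j x.1.1) * fderiv ℝ (fun x => ℓ x.1.2.1 - El x) x (Xm F x) ∧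
          0 ≤ (1 - j x.1.1) * (c1 * c2 * fderiv ℝ Λ x (Xm F x)) := by
        rcases le_or_gt (2 / 5) x.1.1 with h1 | h1
        · simp [j1 _ h1]
        · have hI : I2 < nq x.2 / 2 := hx.resolve_left (by linarith)
          rw [XL x (by linarith)]
          exact ⟨mul_nonneg (sub_nonneg.2 (jr _).2) (L.slow x hI),
            mul_nonneg (sub_nonneg.2 (jr _).2) (mul_nonneg p.le (L.ly x hI).nonneg)⟩
      rw [D x]
      rcases le_or_gt x.1.1 (11 / 10) with h1 | h1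
      · have a2 : |fderiv ℝ ℓ x.1.2.1 (Xm F x).1.2.1| ≤ Cl * θ := by
          rw [XS x h5]
          exact slabq S hθ.le hCl bCl x
        have a3 : -(c1 * b0 / 20) ≤ j x.1.1 * fderiv ℝ ℓ x.1.2.1 (Xm F x).1.2.1 := by
          have : |j x.1.1 * fderiv ℝ ℓ x.1.2.1 (Xm F x).1.2.1| ≤ Cl * θ := by
            rw [abs_mul, abs_of_nonneg (jr _).1]
            exact (mul_le_of_le_one_left (abs_nonneg _) (jr _).2).trans a2
          linarith [(abs_le.1 this).1]
        have a4 : -(ηl + 2 * (c1 * c2)) ≤ El x - c1 * c2 * Λ x := by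
          nlinarith [abs_le.1 (L.bE x), abs_le.1 (L.bΛ x)]
        have a5 : -(J * (ηl + 2 * (c1 * c2))) ≤ deriv j x.1.1 * (El x - c1 * c2 * Λ x) := by
          have q1 := mul_le_mul_of_nonneg_left a4 (jd x.1.1)
          have q2 := mul_le_mul_of_nonneg_right (jJ x.1.1)
            (show 0 ≤ ηl + 2 * (c1 * c2) by positivity)
          linarith
        have a6 : J * (c1 * c2) = c1 * b0 / 8 := by
          rw [mul_left_comm, e2]; ring
        have a7 : c1 * b0 / 2 ≤ c1 * deriv b x.1.1 + deriv j x.1.1 * (El x - c1 * c2 * Λ x) := by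
          have := mul_le_mul_of_nonneg_left (bb0 x.1.1 ⟨h, h1⟩) hc1.le
          linarith
        have a8 : 0 < c1 * b0 := mul_pos hc1 hb0
        have a9 := mul_le_mul (show 1 / 5 ≤ (Xm F x).1.1 by linarith) a7 (by positivity)
          (by linarith)
        linarith [a1.1, a1.2]
      · have a2 : fderiv ℝ ℓ x.1.2.1 (Xm F x).1.2.1 = 0 := by
          rw [XS x h5, Xm_of_zero (zs x (by linarith [le_abs_self (x.1.1 - 1)]))]
          exact map_zero _
        have a3 := mul_pos hc1 (mul_pos (bdp _ h) (show 0 < (Xm F x).1.1 by linarith))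
        rw [a2, jd1 _ (by linarith)]
        linarith [a1.1, a1.2]
  · rw [dup sg, Xs' x (Or.inr (by linarith))]
    refine mul_pos (by positivity) ?_
    have a1 := slabY S x
    have a2 := abs_le.1 ((slabq S hθ.le hCg bCg x).trans t4)
    have a3 : |x.1.2.2 * ((Xm Fs x).1.2.2 - x.1.2.2)| ≤ |x.1.2.2| * (|x.1.2.2| / 4) := by
      rw [abs_mul]
      exact mul_le_mul_of_nonneg_left (by linarith) (abs_nonneg _)
    have a4 : 0 < |x.1.2.2| * |x.1.2.2| := mul_pos (by linarith) (by linarith)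
    have a5 := abs_mul_abs_self x.1.2.2
    have a6 := mul_le_mul_of_nonneg_left a2.1 (sq_nonneg x.1.2.2)
    nlinarith [(abs_le.1 a3).1]
  · have a1 := jr x.1.1
    have a2 := S.rng x
    have a3 := L.rng x
    exact ⟨add_nonneg (mul_nonneg a1.1 a2.1) (mul_nonneg (sub_nonneg.2 a1.2) a3.1), by
      nlinarith [mul_le_of_le_one_right a1.1 a2.2,
        mul_le_of_le_one_right (sub_nonneg.2 a1.2) a3.2]⟩
  · rw [dmix sJ S.sΞ L.sΞ, dP sj]
    have a1 : j x.1.1 * fderiv ℝ Xs x (Xm F x) ≤ 0 := by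
      rcases le_or_gt x.1.1 (3 / 10) with h | h
      · simp [j0 _ h]
      · rw [XS x (by linarith)]
        exact mul_nonpos_of_nonneg_of_nonpos (jr _).1 (S.mono x (by linarith))
    have a2 : (1 - j x.1.1) * fderiv ℝ Xl x (Xm F x) ≤ 0 := by
      rcases le_or_gt (2 / 5) x.1.1 with h | h
      · simp [j1 _ h]
      · rw [XL x (by linarith)]
        exact mul_nonpos_of_nonneg_of_nonpos (sub_nonneg.2 (jr _).2) (L.mono x)
    have a3 : deriv j x.1.1 * (Xm F x).1.1 * (Xs x - Xl x) ≤ 0 := by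
      rcases lt_or_ge x.1.1 (3 / 10) with h | h
      · simp [jd0 _ h]
      rcases lt_or_ge (2 / 5) x.1.1 with h1 | h1
      · simp [jd1 _ h1]
      refine mul_nonpos_of_nonneg_of_nonpos
        (mul_nonneg (jd _) (by linarith [XP x (by linarith)])) ?_
      by_cases h0 : Xs x = 0
      · linarith [(L.rng x).1]
      · linarith [(deep x (by linarith) (by linarith) h0).2.2, (S.rng x).2]
    linarith
  · simp [j1 x.1.1 (by linarith), S.one x a1 a2 a3 a4]
  · by_cases h : Xl x = 0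
    · have a1 : j x.1.1 ≠ 0 := fun h0 => hx (by simp [h, h0])
      have a2 : Xs x ≠ 0 := fun h0 => hx (by simp [h, h0])
      have a3 : 3 / 10 < x.1.1 := lt_of_not_ge fun h0 => a1 (j0 _ h0)
      obtain ⟨b1, b2, -⟩ := S.supp x (by linarith) a2
      refine ⟨by linarith, ?_⟩
      rcases le_total (1 - h') x.1.1 with h1 | h1
      · exact Or.inl ⟨h1, b2⟩
      · obtain ⟨d1, d2, -⟩ := deep x (by linarith) h1 a2
        exact Or.inr ⟨by linarith, by rwa [abs_of_pos (by linarith)], d2.trans d1⟩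
    · exact ⟨(L.supp x h).1, Or.inr (L.supp x h).2⟩

end Pool.Agent.MP_6d695c_gt.T2
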