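import Pool.Agent.MP_6d695c_gt.t2.Spec

/-! PROJECT T2, row PRODT: the twisted forms on `W × ℂ` are Liouville. -/

open scoped Manifold ContDiff Topology
open Set Metric Filter Real

namespace Pool.Agent.MP_6d695c_gt.T2

open SW T1 Theta

namespace ProdT

section Sum
variable {E F : Type} [NormedAddCommGroup E] [NormedSpace ℝ E] [NormedAddCommGroup F]
  [NormedSpace ℝ F]

theorem dd_tw {a : E → E →L[ℝ] ℝ} {b : F → F →L[ℝ] ℝ} {f : F → ℝ} {y : E × F}
    (ha : DifferentiableAt ℝ a y.1) (hb : DifferentiableAt ℝ b y.2)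
    (hf : DifferentiableAt ℝ f y.2) (u v : E × F) :
    dd (fun y => f y.2 • (a y.1).comp (ContinuousLinearMap.fst ℝ E F) +
      (b y.2).comp (ContinuousLinearMap.snd ℝ E F)) y u v =
      fderiv ℝ f y.2 u.2 * a y.1 v.1 - fderiv ℝ f y.2 v.2 * a y.1 u.1 +
        f y.2 * dd a y.1 u.1 v.1 + dd b y.2 u.2 v.2 := by
  have h3 := ((hf.hasFDerivAt.comp y hasFDerivAt_snd).smul
    ((ha.hasFDerivAt.comp y hasFDerivAt_fst).clm_comp
    (hasFDerivAt_const (ContinuousLinearMap.fst ℝ E F) y))).add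
    ((hb.hasFDerivAt.comp y hasFDerivAt_snd).clm_comp
      (hasFDerivAt_const (ContinuousLinearMap.snd ℝ E F) y))
  have h4 : fderiv ℝ (fun y : E × F => f y.2 • (a y.1).comp (ContinuousLinearMap.fst ℝ E F) +
      (b y.2).comp (ContinuousLinearMap.snd ℝ E F)) y = _ := h3.fderiv
  simp only [dd, h4]
  simp
  ring

end Sum

/-- the conformal factor -/
noncomputable def fac (N : ℝ) (z : Fin 1 → ℂ) : ℝ := 1 + rho N (z 0)

theorem contDiff_fac2 : ContDiff ℝ ∞ fun q : ℝ × (Fin 1 → ℂ) => fac q.1 q.2 := by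
  have h : ContDiff ℝ ∞ fun q : ℝ × (Fin 1 → ℂ) => nq (q.2 0) :=
    contDiff_nq.comp ((contDiff_apply ℝ ℂ (0 : Fin 1)).comp contDiff_snd)
  exact contDiff_const.add ((contDiff_fst.mul h).div_const 2)

theorem hasF_fac (N : ℝ) (z : Fin 1 → ℂ) : HasFDerivAt (fac N)
    ((fderiv ℝ (rho N) (z 0)).comp (ContinuousLinearMap.proj (R := ℝ) (0 : Fin 1))) z :=
  ((((contDiff_rho N).differentiable (by simp)) (z 0)).hasFDerivAt.comp z
    (ContinuousLinearMap.proj (R := ℝ) (φ := fun _ : Fin 1 => ℂ) 0).hasFDerivAt).const_add 1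

theorem fderiv_fac (N : ℝ) (z v : Fin 1 → ℂ) :
    fderiv ℝ (fac N) z v = N * ((z 0).re * (v 0).re + (z 0).im * (v 0).im) := by
  rw [(hasF_fac N z).fderiv]
  exact fderiv_rho N (z 0) (v 0)

theorem fac_pos {N : ℝ} (hN : 0 ≤ N) (z : Fin 1 → ℂ) : 0 < fac N z := by
  have := rho_nonneg hN (z 0)
  unfold fac
  linarith

variable {d : ℕ} {W : Type} [TopologicalSpace W] [ChartedSpace (Euc d) W] [IsManifold (𝓡 d) ∞ W]

theorem formIn_LW (l : OneForm (𝓡 d) W) (N : ℝ) {p : W × (Fin 1 → ℂ)}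
    {y : Euc d × (Fin 1 → ℂ)} (hy : y ∈ (extChartAt (IP d 1) p).target) :
    formIn (IP d 1) (LW l N) p y =
      fac N y.2 • (formIn (𝓡 d) l p.1 y.1).comp (ContinuousLinearMap.fst ℝ _ _) +
      (radial y.2).comp (ContinuousLinearMap.snd ℝ _ _) := by
  refine ContinuousLinearMap.ext fun v => ?_
  have h2 := Prd.dS_prod hy v
  have h3 := congrFun (Prd.symm_eq p) y
  change LW l N _ (mfderiv 𝓘(ℝ, Euc d × (Fin 1 → ℂ)) (IP d 1) (extChartAt (IP d 1) p).symm y v) = _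
  rw [h2]
  have h4 : ∀ x, x = ((extChartAt (𝓡 d) p.1).symm y.1, y.2) →
      ∀ w : Euc d × (Fin 1 → ℂ), LW l N x w =
        fac N y.2 * l ((extChartAt (𝓡 d) p.1).symm y.1) w.1 + radial y.2 w.2 := by
    rintro _ rfl w
    rfl
  exact (h4 _ h3 _).trans rfl

theorem sm_LW {l : OneForm (𝓡 d) W}
    (hl : ∀ p, ContDiffOn ℝ ∞ (formIn (𝓡 d) l p) (extChartAt (𝓡 d) p).target)
    (p : W × (Fin 1 → ℂ)) :
    ContDiffOn ℝ ∞ (fun q : ℝ × (Euc d × (Fin 1 → ℂ)) => formIn (IP d 1) (LW l q.1) p q.2)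
      (univ ×ˢ (extChartAt (IP d 1) p).target) := by
  have h1 : ContDiff ℝ ∞ fun q : ℝ × (Euc d × (Fin 1 → ℂ)) => fac q.1 q.2.2 :=
    contDiff_fac2.comp (contDiff_fst.prodMk contDiff_snd.snd)
  refine ContDiffOn.congr ((h1.contDiffOn.smul (((hl p.1).comp (contDiffOn_snd.fst)
    fun q hq => Prd.mem_target.1 hq.2).clm_comp contDiffOn_const)).add
    (((Prd.contDiff_radial (ι := Fin 1)).comp_contDiffOn contDiffOn_snd.snd).clm_comp
      contDiffOn_const)) fun q hq => formIn_LW l q.1 hq.2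

theorem formIn_self (l : OneForm (𝓡 d) W) (x : W) (v : Euc d) :
    formIn (𝓡 d) l x (extChartAt (𝓡 d) x x) v = l x v := by
  have h := Mfd.formIn_dC l (mem_extChartAt_source (I := 𝓡 d) x) v
  rwa [Mfd.dC_self] at h

theorem dForm_LW {l : OneForm (𝓡 d) W}
    (hl : ∀ p, ContDiffOn ℝ ∞ (formIn (𝓡 d) l p) (extChartAt (𝓡 d) p).target) (N : ℝ)
    (p : W × (Fin 1 → ℂ)) (u v : Euc d × (Fin 1 → ℂ)) :
    dForm (IP d 1) (LW l N) p u v =
      fderiv ℝ (fac N) p.2 u.2 * l p.1 v.1 - fderiv ℝ (fac N) p.2 v.2 * l p.1 u.1 +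
        fac N p.2 * dForm (𝓡 d) l p.1 u.1 v.1 + omC u.2 v.2 := by
  have hn := extChartAt_target_mem_nhds (I := IP d 1) p
  have e := congrFun (Prd.chart_eq (d := d) p) p
  have h1 : formIn (IP d 1) (LW l N) p =ᶠ[𝓝 (extChartAt (IP d 1) p p)] _ :=
    mem_of_superset hn fun y hy => formIn_LW l N hy
  have h2 := dd_tw (a := formIn (𝓡 d) l p.1) (b := radial) (f := fac N)
    (y := extChartAt (IP d 1) p p)
    (by rw [e]; exact ((hl p.1).contDiffAt (extChartAt_target_mem_nhds _)).differentiableAt (by simp))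
    (Prd.contDiff_radial.differentiable (by simp) _) (hasF_fac N _).differentiableAt u v
  rw [Prd.dd_radial] at h2
  rw [dForm, h1.fderiv_eq]
  refine h2.trans ?_
  rw [e]
  simp only [formIn_self]
  rfl

omit [IsManifold (𝓡 d) ∞ W] in
theorem dForm_lin (l : OneForm (𝓡 d) W) (x : W) (s t : ℝ) (a b v : Euc d) :
    dForm (𝓡 d) l x (s • a + t • b) v = s * dForm (𝓡 d) l x a v + t * dForm (𝓡 d) l x b v := by
  simp only [dForm, map_add, map_smul, add_apply, smul_apply, smul_eq_mul]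
  ring

omit [IsManifold (𝓡 d) ∞ W] in
theorem dForm_smul (l : OneForm (𝓡 d) W) (x : W) (s : ℝ) (a v : Euc d) :
    dForm (𝓡 d) l x (s • a) v = s * dForm (𝓡 d) l x a v := by
  simp only [dForm, map_smul, smul_apply, smul_eq_mul]
  ring

omit [IsManifold (𝓡 d) ∞ W] in
theorem l_Z {l : OneForm (𝓡 d) W} {Z : VField (𝓡 d) W} (hl : IsLiouville (𝓡 d) l Z) (x : W) :
    l x (Z x) = 0 :=
  (hl.dual x (Z x)).symm.trans (sub_self _)

theorem kill {V : Type} [NormedAddCommGroup V] [NormedSpace ℝ V] (L : V →L[ℝ] ℝ) {z u : V}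
    {a f : ℝ} (hf : f ≠ 0) (hz : L z = 0) (h : a • z + f • u = 0) : L u = 0 := by
  have h3 := congrArg L h
  rw [map_add, map_smul, map_smul, map_zero, hz, smul_zero, zero_add, smul_eq_mul] at h3
  exact (mul_eq_zero.1 h3).resolve_left hf

theorem hasDerivAt_theta {r : ℝ} (hr : 0 ≤ r) (t : ℝ) :
    HasDerivAt (fun t : ℝ => t - log (1 + r * exp t) + log (1 + r)) (1 + r * exp t)⁻¹ t := by
  have h0 : (1 + r * exp t) ≠ 0 := by positivity
  have h := (((hasDerivAt_id t).sub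
    ((((hasDerivAt_exp t).const_mul r).const_add 1).log h0)).add_const (log (1 + r)))
  refine h.congr_deriv ?_
  field_simp
  ring

theorem rho_exp (N t : ℝ) (z : Fin 1 → ℂ) :
    rho N ((exp (t / 2) • z) 0) = rho N (z 0) * exp t := by
  have h : exp t = exp (t / 2) ^ 2 := by rw [sq, ← exp_add]; ring_nf
  simp only [rho, nq, Pi.smul_apply, Complex.smul_re, Complex.smul_im, smul_eq_mul]
  rw [h]
  ring

omit [IsManifold (𝓡 d) ∞ W] in
theorem complete {Z : VField (𝓡 d) W} (h : ∀ x, ∃ γ : ℝ → W, γ 0 = x ∧ IsMIntegralCurve γ Z)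
    {N : ℝ} (hN : 0 ≤ N) (p : W × (Fin 1 → ℂ)) :
    ∃ γ : ℝ → W × (Fin 1 → ℂ), γ 0 = p ∧ IsMIntegralCurve γ (ZW Z N) := by
  obtain ⟨γ, h0, hγ⟩ := h p.1
  refine ⟨fun t => (γ (t - log (1 + rho N (p.2 0) * exp t) + log (1 + rho N (p.2 0))),
    exp (t / 2) • p.2), by simp [h0], fun t => ?_⟩
  have h1 : HasDerivAt (fun t : ℝ => exp (t / 2) • p.2) ((1 / 2 : ℝ) • exp (t / 2) • p.2) t := by
    have := (((hasDerivAt_id t).div_const 2).exp).smul_const p.2
    rwa [mul_comm, mul_smul] at this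
  have h3 := (hasDerivAt_theta (rho_nonneg hN (p.2 0)) t).hasFDerivAt.hasMFDerivAt
  have h2 := ((hγ _).comp t h3).prodMk h1.hasFDerivAt.hasMFDerivAt
  refine h2.congr_mfderiv (ContinuousLinearMap.ext fun s => ?_)
  refine Prod.ext ?_ rfl
  change ((show ℝ from s) * (1 + rho N (p.2 0) * exp t)⁻¹) • (show Euc d from Z _) =
    (show ℝ from s) • (1 + rho N ((exp (t / 2) • p.2) 0))⁻¹ • (show Euc d from Z _)
  rw [rho_exp, mul_smul]

end ProdT

theorem prodT : ProdTStmt := by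
  intro d W _ _ _ l Z hl
  refine ⟨ProdT.sm_LW hl.smooth, fun N hN => ⟨fun p => ?_, fun p u hu => ?_, fun p v => ?_,
    ProdT.complete hl.complete hN⟩⟩
  · exact (ProdT.sm_LW hl.smooth p).comp (f := fun y => (N, y))
      (contDiffOn_const.prodMk contDiffOn_id) fun y hy => ⟨trivial, hy⟩
  · simp only [ProdT.dForm_LW hl.smooth] at hu
    have hf := ProdT.fac_pos hN p.2
    have h1 : fderiv ℝ (ProdT.fac N) p.2 u.2 • (show Euc d from Z p.1) + ProdT.fac N p.2 • u.1 = 0 :=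
      hl.nondeg p.1 _ fun v => by
        have := hu (v, 0)
        rw [ProdT.dForm_lin, hl.dual]
        simpa [Prd.omC_zero] using this
    have h2 : l p.1 u.1 = 0 :=
      ProdT.kill (V := Euc d) (l p.1) hf.ne' (ProdT.l_Z hl p.1) h1
    have h5 : u.2 = 0 := Prd.omC_nondeg fun v => by
      have := hu (0, v)
      have h0 : l p.1 ((0, v) : Euc d × (Fin 1 → ℂ)).1 = 0 := map_zero (l p.1)
      rw [h2, h0] at this
      simpa [dForm] using this
    rw [h5, map_zero, zero_smul, zero_add] at h1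
    exact Prod.ext ((smul_eq_zero.1 h1).resolve_left hf.ne') h5
  · refine (ProdT.dForm_LW hl.smooth N p _ v).trans ?_
    have hf := ProdT.fac_pos hN p.2
    have h4 : (show Euc d →L[ℝ] ℝ from l p.1) (show Euc d from Z p.1) = 0 := ProdT.l_Z hl p.1
    have h1 := hl.dual p.1 v.1
    change fderiv ℝ (ProdT.fac N) p.2 ((1 / 2 : ℝ) • p.2) * l p.1 v.1 -
      fderiv ℝ (ProdT.fac N) p.2 v.2 * (show Euc d →L[ℝ] ℝ from l p.1)
        ((ProdT.fac N p.2)⁻¹ • (show Euc d from Z p.1)) +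
      ProdT.fac N p.2 * dForm (𝓡 d) l p.1 ((ProdT.fac N p.2)⁻¹ • (show Euc d from Z p.1)) v.1 +
      omC ((1 / 2 : ℝ) • p.2) v.2 = ProdT.fac N p.2 * l p.1 v.1 + radial p.2 v.2
    have h6 : fderiv ℝ (ProdT.fac N) p.2 ((1 / 2 : ℝ) • p.2) = ProdT.fac N p.2 - 1 := by
      rw [map_smul, ProdT.fderiv_fac]
      simp only [ProdT.fac, rho, nq, smul_eq_mul]
      ring
    rw [h6, map_smul, h4, smul_zero, mul_zero, ProdT.dForm_smul, h1, Prd.omC_smul,
      Prd.radial_apply, ← mul_assoc, mul_inv_cancel₀ hf.ne']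
    ring

end Pool.Agent.MP_6d695c_gt.T2
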