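import Pool.Agent.MP_6d695c_gt.t2.SpecB

/-! PROJECT T2, row SECT3: disjoint boxes whose cores meet every orbit through `C`. -/

open scoped ContDiff Topology
open Set Metric Filter Real

namespace Pool.Agent.MP_6d695c_gt.T2

open SW T1 Theta

namespace Sect3

theorem add_es (q : B4) (v : ℝ) : q + v • es = (q.1 + v, q.2) := by
  ext <;> simp [es]

theorem cont_Rf : Continuous fun p : B4 × B4 => Rf p.1 p.2 := by
  unfold Rf
  fun_prop

theorem cont_Ri : Continuous fun p : B4 × B4 => Ri p.1 p.2 := by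
  unfold Ri
  fun_prop

theorem thick {W : Set B4} (hW : IsOpen W) {b : ℝ} (h : cb 0 b ⊆ W) :
    ∀ᶠ t in 𝓝 (0 : ℝ), cb (10 * t) b ⊆ W := by
  have h1 : ∀ᶠ t in 𝓝 (0 : ℝ), ∀ q ∈ cb 0 b, q + t • es ∈ W :=
    (isCompact_cb 0 b).eventually_forall_of_forall_eventually fun q hq =>
      (show Continuous fun z : ℝ × B4 => z.2 + z.1 • es by fun_prop).continuousAt.eventually
        (hW.mem_nhds (by simpa using h hq))
  obtain ⟨δ, hδ, h2⟩ := Metric.eventually_nhds_iff.1 h1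
  filter_upwards [Iio_mem_nhds (show (0 : ℝ) < δ / 10 by positivity)] with t ht q hq
  have h3 := h2 (y := q.1) (by
    rw [Real.dist_eq, sub_zero]; linarith [hq.1, mem_Iio.1 ht]) (0, q.2)
    ⟨by simp, hq.2⟩
  rwa [add_es, zero_add] at h3

theorem small {W : Set B4} (hW : W ∈ 𝓝 (0 : B4)) :
    ∃ a, 0 < a ∧ a ≤ 1 / 4 ∧ cb a a ⊆ W := by
  obtain ⟨ε, hε, h⟩ := Metric.mem_nhds_iff.1 hW
  refine ⟨min (ε / 4) (1 / 4), by positivity, min_le_right _ _, fun q hq => h ?_⟩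
  rw [mem_ball_zero_iff, Prod.norm_def, max_lt_iff, Real.norm_eq_abs]
  constructor <;> linarith [hq.1, hq.2, min_le_left (ε / 4) (1 / 4)]

variable {V : Type} [NormedAddCommGroup V] [NormedSpace ℝ V] {M N0 : Set V}
  {l : V → V →L[ℝ] ℝ} {yv μ : V → ℝ} {Ψ : B4 → V} {κ : V → B4} {lm : B4 → ℝ} {O : Set B4}
  {N : Set V} {Y : V → V} {fl : ℝ → V → V}

theorem open_pre (h : Lim M l yv μ fl Ψ κ lm O N) {U : Set V} (hU : IsOpen U) :
    IsOpen (O ∩ Ψ ⁻¹' U) :=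
  h.top.cΨ.isOpen_inter_preimage h.top.oO hU

omit [NormedAddCommGroup V] [NormedSpace ℝ V] in
/-- the flat piece -/
def Pc (B : Bx3 V) : Set V := B.Ψ '' cb 0 (5 * B.w)

variable (M N0 l yv μ fl) in
/-- a good piece -/
structure GP (B : Bx3 V) : Prop where
  wpos : 0 < B.w
  wle : B.w ≤ 1 / 20
  ch : Lim M l yv μ fl B.Ψ B.κ B.lm B.O B.N
  sub : cb 0 (5 * B.w) ⊆ B.O ∩ B.Ψ ⁻¹' N0

variable (M N0 l yv μ fl) in
/-- a finite family of disjoint good pieces -/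
def Fam (S : Set (Bx3 V)) : Prop :=
  S.Finite ∧ (∀ B ∈ S, GP M N0 l yv μ fl B) ∧ S.Pairwise fun B B' => Disjoint (Pc B) (Pc B')

omit [NormedAddCommGroup V] [NormedSpace ℝ V] in
/-- the orbit of `y` meets the core -/
def Cov (fl : ℝ → V → V) (B : Bx3 V) (y : V) : Prop :=
  ∃ u ∈ Icc (-(1 / 2) : ℝ) (1 / 2), ∃ q ∈ cb 0 (B.w / 2), fl u y = B.Ψ q

theorem GP.cpt {B : Bx3 V} (h : GP M N0 l yv μ fl B) : IsCompact (Pc B) :=
  (isCompact_cb _ _).image_of_continuousOn (h.ch.top.cΨ.mono fun _ hq => (h.sub hq).1)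

theorem GP.thin (hf : IsFlow Y fl) {B : Bx3 V} (h : GP M N0 l yv μ fl B) (z : V) :
    Dense {t | fl t z ∉ Pc B} := by
  intro t
  by_cases ht : fl t z ∈ Pc B
  swap
  · exact subset_closure ht
  obtain ⟨q, hq, e⟩ := ht
  have h1 : ∀ᶠ u in 𝓝 (0 : ℝ), q + u • es ∈ B.O :=
    (show Continuous fun u : ℝ => q + u • es by fun_prop).continuousAt.eventually
      (h.ch.top.oO.mem_nhds (by simpa using (h.sub hq).1))
  obtain ⟨δ, hδ, h2⟩ := Metric.eventually_nhds_iff.1 h1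
  have h3 : Tendsto (fun u : ℝ => u + t) (𝓝[≠] 0) (𝓝 t) := by
    simpa using ((continuous_add_const t).tendsto 0).mono_left nhdsWithin_le_nhds
  refine mem_closure_of_tendsto h3 ?_
  filter_upwards [self_mem_nhdsWithin, mem_nhdsWithin_of_mem_nhds (ball_mem_nhds (0 : ℝ) hδ)]
    with u hu0 hu
  rintro ⟨q', hq', e'⟩
  rw [hf.add, ← e, h.ch.top.flow q u fun v hv =>
    h2 ((abs_sub_left_of_mem_uIcc hv).trans_lt hu)] at e'
  have h4 := congrArg B.κ e'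
  rw [(h.ch.top.gm _ (h.sub hq').1).2.2, (h.ch.top.gm _ (h2 hu)).2.2] at h4
  have h5 := abs_nonpos_iff.1 hq'.1
  rw [h4, add_es] at h5
  have h6 := abs_nonpos_iff.1 hq.1
  exact hu0 (by simpa [h6] using h5)

theorem loc (recent : RecentStmt) (hf : IsFlow Y fl) (hN0 : IsOpen N0)
    (h : Lim M l yv μ fl Ψ κ lm O N) {a : ℝ} (ha : 0 < a)
    (ha' : a ≤ 1 / 4) (hs : cb a a ⊆ O ∩ Ψ ⁻¹' N0) (S : Set (Bx3 V))
    (hS : Fam M N0 l yv μ fl S) :
    ∃ S', Fam M N0 l yv μ fl S' ∧ S ⊆ S' ∧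
      ∀ y ∈ cb a a ∩ {q | q.2.2 = 0}, ∃ B ∈ S', Cov fl B (Ψ y) := by
  have hfl : ∀ y ∈ cb a a, ∀ v, |v| ≤ a →
      ((v, y.2) : B4) ∈ cb a a ∧ fl (v - y.1) (Ψ y) = Ψ (v, y.2) := by
    intro y hy v hv
    refine ⟨⟨hv, hy.2⟩, ?_⟩
    rw [h.top.flow y (v - y.1) fun u hu => (hs ?_).1, add_es, add_sub_cancel]
    rw [add_es]
    refine ⟨?_, hy.2⟩
    have h1 := abs_le.1 hy.1
    have h2 := abs_le.1 hv
    show |y.1 + u| ≤ a
    rcases mem_uIcc.1 hu with h3 | h3 <;> exact abs_le.2 ⟨by linarith, by linarith⟩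
  have hcl : IsClosed (⋃ B ∈ S, Pc B) :=
    hS.1.isClosed_biUnion fun B hB => (hS.2.1 B hB).cpt.isClosed
  obtain ⟨S', ⟨h1, -⟩, h2, h3⟩ := Sect.ext_compact
    (fun S' => Fam M N0 l yv μ fl S' ∧ ∃ L : Set ℝ, L.Finite ∧ ∀ B ∈ S', B ∈ S ∨
      ∀ z ∈ Pc B, ∃ q ∈ O, q.1 ∈ L ∧ z = Ψ q) (fun B y => Cov fl B (Ψ y))
    ((isCompact_cb a a).inter_right (t := {q : B4 | q.2.2 = 0})
      (isClosed_eq (by fun_prop) continuous_const)) (fun x hx => by
      have hx0 : x.2.2 = 0 := hx.2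
      have hc : Continuous fun t => fl t (Ψ x) :=
        hf.sm.continuous.comp (continuous_id.prodMk continuous_const)
      obtain ⟨t, t1, t2⟩ := (dense_biInter_of_isOpen (f := fun B => {t | fl t (Ψ x) ∉ Pc B})
        (fun B hB => (hS.2.1 B hB).cpt.isClosed.isOpen_compl.preimage hc) hS.1.countable
        fun B hB => (hS.2.1 B hB).thin hf _).exists_mem_open
        (isOpen_Ioo (a := -a - x.1) (b := a - x.1)) (nonempty_Ioo.2 (by linarith))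
      obtain ⟨u, rfl⟩ : ∃ u, t = u - x.1 := ⟨t + x.1, by ring⟩
      have hu : |u| < a := abs_lt.2 ⟨by linarith [t2.1], by linarith [t2.2]⟩
      obtain ⟨x1, x2⟩ := hfl x hx.1 u hu.le
      have hG : IsOpen (O ∩ Ψ ⁻¹' (N0 ∩ (⋃ B ∈ S, Pc B)ᶜ)) :=
        open_pre h (hN0.inter hcl.isOpen_compl)
      have e1 : ∀ᶠ p : ℝ × B4 in 𝓝 (u, 0), Ri (p.1, x.2) p.2 ∈
          O ∩ Ψ ⁻¹' (N0 ∩ (⋃ B ∈ S, Pc B)ᶜ) := by
        refine (cont_Ri.comp (show Continuous fun p : ℝ × B4 => (((p.1, x.2) : B4), p.2) by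
          fun_prop)).continuousAt.eventually (hG.mem_nhds ?_)
        have : Ri (u, x.2) 0 = (u, x.2) := by ext <;> simp [Ri, hx0]
        simp only [Function.comp_apply, this]
        refine ⟨(hs x1).1, (hs x1).2, fun hm => ?_⟩
        obtain ⟨B, hB, hm⟩ := mem_iUnion₂.1 hm
        exact mem_iInter₂.1 t1 B hB (x2 ▸ hm)
      obtain ⟨I, hI, W, hW, e1⟩ := mem_nhds_prod_iff.1 e1
      obtain ⟨b, b0, b1, b2⟩ := small hW
      have e2 : ∀ᶠ p : ℝ × B4 in 𝓝 (u, x),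
          ‖(Rf (p.1, x.2) (p.1, p.2.2)).2‖ < b / 5 / 2 := by
        refine (continuous_snd.comp (cont_Rf.comp (show Continuous fun p : ℝ × B4 =>
          (((p.1, x.2) : B4), ((p.1, p.2.2) : B4)) by fun_prop))).norm.continuousAt.eventually
          (Iio_mem_nhds ?_)
        have : (Rf (u, x.2) (u, x.2)).2 = 0 := by
          ext <;> simp [Rf, hx0]
        simp only [Function.comp_apply, this, norm_zero]
        positivity
      obtain ⟨I', hI', W', hW', e2⟩ := mem_nhds_prod_iff.1 e2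
      refine ⟨W' ∩ (cb a a ∩ {q | q.2.2 = 0}),
        inter_mem (mem_nhdsWithin_of_mem_nhds hW') self_mem_nhdsWithin, ?_⟩
      rintro S' ⟨f1, L, l1, l2⟩
      obtain ⟨v, ⟨⟨v1, v2⟩, v3⟩, v4⟩ := (infinite_of_mem_nhds u (inter_mem (inter_mem hI hI')
        (Ioo_mem_nhds (abs_lt.1 hu).1 (abs_lt.1 hu).2))).exists_notMem_finite l1
      have hb : ∀ q ∈ cb 0 (5 * (b / 5)), Ri (v, x.2) q ∈
          O ∩ Ψ ⁻¹' (N0 ∩ (⋃ B ∈ S, Pc B)ᶜ) ∧ (Ri (v, x.2) q).1 = v :=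
        fun q hq => ⟨e1 (mk_mem_prod v1 (b2 ⟨hq.1.trans b0.le, hq.2.trans (by linarith)⟩)), by
          show q.1 + v = v
          rw [abs_nonpos_iff.1 hq.1, zero_add]⟩
      let B : Bx3 V := ⟨fun q => Ψ (Ri (v, x.2) q), fun z => Rf (v, x.2) (κ z),
        fun q => lm (Ri (v, x.2) q) - v, Ri (v, x.2) ⁻¹' O, N, b / 5⟩
      have hdis : ∀ B' ∈ S', Disjoint (Pc B) (Pc B') := fun B' hB' => by
        rw [Set.disjoint_left]
        rintro _ ⟨q, hq, rfl⟩ hz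
        obtain ⟨g1, g2⟩ := hb q hq
        rcases l2 B' hB' with g3 | g3
        · exact g1.2.2 (mem_iUnion₂.2 ⟨B', g3, hz⟩)
        · obtain ⟨q', g4, g5, g6⟩ := g3 _ hz
          have g7 := congrArg κ g6
          rw [(h.top.gm _ g4).2.2, show κ (B.Ψ q) = _ from (h.top.gm _ g1.1).2.2] at g7
          exact v4 (by rwa [← g7, g2] at g5)
      refine ⟨insert B S', ⟨⟨f1.1.insert B, ?_, f1.2.2.insert fun B' hB' _ =>
        ⟨hdis B' hB', (hdis B' hB').symm⟩⟩, insert v L, l1.insert v, ?_⟩, subset_insert _ _,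
        fun y hy => ⟨B, mem_insert _ _, v - y.1, ?_,
          Rf (v, x.2) (v, y.2), ⟨?_, (e2 (mk_mem_prod v2 hy.1)).le⟩, ?_⟩⟩
      · rintro B' (rfl | hB')
        · exact ⟨show 0 < b / 5 by positivity, show b / 5 ≤ 1 / 20 by linarith,
            recent V M l yv μ fl Ψ κ lm O N (v, x.2) h,
            fun q hq => ⟨(hb q hq).1.1, (hb q hq).1.2.1⟩⟩
        · exact f1.2.1 B' hB'
      · rintro B' (rfl | hB')
        · right
          rintro _ ⟨q, hq, rfl⟩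
          exact ⟨_, (hb q hq).1.1, Or.inl (hb q hq).2, rfl⟩
        · refine (l2 B' hB').imp_right fun g z hz => ?_
          obtain ⟨q, g1, g2, g3⟩ := g z hz
          exact ⟨q, g1, Or.inr g2, g3⟩
      · have := abs_le.1 hy.2.1.1
        exact ⟨by linarith [v3.1], by linarith [v3.2]⟩
      · show |v - v| ≤ 0
        rw [sub_self, abs_zero]
      · show _ = Ψ (Ri _ _)
        rw [Ri_Rf, (hfl y hy.2.1 v (abs_lt.2 v3).le).2])
    S ⟨hS, ∅, finite_empty, fun B hB => Or.inl hB⟩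
  exact ⟨S', h1, h2, h3⟩

end Sect3

open Sect3 in
theorem sect3 (recent : RecentStmt) : Sect3Stmt := by
  intro V _ _ M N0 C l yv μ Y fl hf hN0 hC hCM
  obtain ⟨S, ⟨s1, s2, s3⟩, -, s4⟩ := Sect.ext_compact (Fam M N0 l yv μ fl) (Cov fl) hC
    (fun p hp => by
    obtain ⟨p1, p2, -, Ψ, κ, lm, O, N, h, hN, hκ⟩ := hCM p hp
    obtain ⟨r1, r2⟩ := h.top.rm p p1 hN
    rw [hκ] at r1 r2
    obtain ⟨a, a0, a1, a2⟩ := small ((open_pre h hN0).mem_nhds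
      (show (0 : B4) ∈ O ∩ Ψ ⁻¹' N0 from ⟨r1, by rw [mem_preimage, r2]; exact p2⟩))
    refine ⟨C ∩ (N ∩ κ ⁻¹' ball 0 a), inter_mem_nhdsWithin _ ((h.top.oN.inter
      (isOpen_ball.preimage h.top.cκ)).mem_nhds ⟨hN, ?_⟩), fun S hS => ?_⟩
    · rw [mem_preimage, hκ]
      exact mem_ball_self a0
    · obtain ⟨S', g1, g2, g3⟩ := loc recent hf hN0 h a0 a1 a2 S hS
      refine ⟨S', g1, g2, fun y hy => ?_⟩
      obtain ⟨k1, k2⟩ := h.top.rm y (hCM y hy.1).1 hy.2.1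
      have k3 : ‖κ y‖ < a := mem_ball_zero_iff.1 hy.2.2
      have k4 := h.eq _ k1
      rw [k2, (hCM y hy.1).2.2.1] at k4
      have := g3 (κ y) ⟨⟨((Real.norm_eq_abs _).symm.le.trans (norm_fst_le _)).trans k3.le,
        (norm_snd_le _).trans k3.le⟩,
        (mul_eq_zero.1 k4.symm).resolve_left (exp_pos _).ne'⟩
      rwa [k2] at this)
    ∅ ⟨finite_empty, fun _ h => h.elim, pairwise_empty _⟩
  obtain ⟨m, bx, hinj, rfl⟩ := s1.fin_param
  have g : ∀ b, GP M N0 l yv μ fl (bx b) := fun b => s2 _ (mem_range_self b)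
  have e1 : ∀ᶠ t in 𝓝 (0 : ℝ), ∀ b, cb (10 * t) (5 * (bx b).w) ⊆
      (bx b).O ∩ (bx b).Ψ ⁻¹' N0 := eventually_all.2 fun b =>
    thick (open_pre (g b).ch hN0) (g b).sub
  have e2 : ∀ᶠ t in 𝓝 (0 : ℝ), ∀ b b', b ≠ b' → ∀ q ∈ cb (10 * t) (5 * (bx b).w),
      ∀ q' ∈ cb (10 * t) (5 * (bx b').w), (bx b).Ψ q ≠ (bx b').Ψ q' := by
    refine eventually_all.2 fun b => eventually_all.2 fun b' => eventually_all.2 fun hb => ?_
    obtain ⟨U, U', u1, u2, u3, u4, u5⟩ := SeparatedNhds.of_isCompact_isCompact (g b).cpt (g b').cpt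
      (s3 (mem_range_self b) (mem_range_self b') fun e => hb (hinj e))
    filter_upwards [thick (open_pre (g b).ch u1) fun q hq => ⟨((g b).sub hq).1, u3 ⟨q, hq, rfl⟩⟩,
      thick (open_pre (g b').ch u2) fun q hq => ⟨((g b').sub hq).1, u4 ⟨q, hq, rfl⟩⟩]
      with t t1 t2 q hq q' hq' e
    exact Set.disjoint_left.1 u5 (t1 hq).2 (by rw [e]; exact (t2 hq').2)
  obtain ⟨t, ⟨⟨t1, t2⟩, t4⟩, t5⟩ := (((e1.and e2).and
    (eventually_le_nhds (show (0 : ℝ) < 1 / 100 by norm_num))).filter_mono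
    (nhdsWithin_le_nhds (s := Ioi 0))).and self_mem_nhdsWithin |>.exists
  refine ⟨m, bx, t, ⟨t5, t4, fun b => (g b).wpos, fun b => (g b).wle, fun b => (g b).ch,
    fun b q hq => (t1 b hq).1, fun b q hq => (t1 b hq).2, t2⟩, fun y hy => ?_⟩
  obtain ⟨_, ⟨b, rfl⟩, hb⟩ := s4 y hy
  exact ⟨b, hb⟩

end Pool.Agent.MP_6d695c_gt.T2
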