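import Pool.Agent.MP_6d695c_gt.t2.Spec

/-! PROJECT T2, row SLAB: the kick. -/

open scoped ContDiff Topology
open Set Metric Filter Real

namespace Pool.Agent.MP_6d695c_gt.T2

open SW T1 Theta

namespace SlabP

theorem der_n {n : ℝ → ℝ} (sn : ContDiff ℝ ∞ n) (n0 : ∀ P, 0 < n P)
    (n2 : ∀ P, 1 / 5 ≤ P → n P ^ 2 * P = 1) {P : ℝ} (hP : 1 / 5 < P) :
    deriv n P * P = -(n P / 2) := by
  have h1 := ((sn.differentiable (by simp) P).hasDerivAt.fun_pow 2).fun_mul (hasDerivAt_id' P)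
  have h2 : HasDerivAt (fun P => n P ^ 2 * P) 0 P :=
    (hasDerivAt_const P (1 : ℝ)).congr_of_eventuallyEq
      ((lt_mem_nhds hP).mono fun y hy => n2 y hy.le)
  have h3 := h1.unique h2
  refine mul_left_cancel₀ (n0 P).ne' ?_
  norm_num at h3
  linarith

/-- a smooth positive function equal to the inverse square root on `P ≥ 1/5` -/
theorem exists_n : ∃ n : ℝ → ℝ, ContDiff ℝ ∞ n ∧ (∀ P, 0 < n P) ∧
    (∀ P, 1 / 5 ≤ P → n P ^ 2 * P = 1) ∧ ∀ P, 1 / 5 < P → deriv n P * P = -(n P / 2) := by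
  obtain ⟨s, ss, s1, s0, sr, -⟩ := exists_step (show (1 / 10 : ℝ) < 1 / 5 by norm_num)
  have rp : ∀ P, 0 < s P + (1 - s P) * P := fun P => by
    rcases le_total P (1 / 10) with h | h
    · rw [s1 P h]; norm_num
    · nlinarith [(sr P).1, (sr P).2, mul_nonneg (sub_nonneg.2 (sr P).2) (sub_nonneg.2 h)]
  have sm : ContDiff ℝ ∞ fun P => (√(s P + (1 - s P) * P))⁻¹ :=
    ((ss.add ((contDiff_const.sub ss).mul contDiff_id)).sqrt fun P => (rp P).ne').inv
      fun P => (sqrt_pos.2 (rp P)).ne'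
  have n0 : ∀ P, 0 < (√(s P + (1 - s P) * P))⁻¹ := fun P => inv_pos.2 (sqrt_pos.2 (rp P))
  have n2 : ∀ P, 1 / 5 ≤ P → (√(s P + (1 - s P) * P))⁻¹ ^ 2 * P = 1 := fun P hP => by
    have hp : 0 < P := by linarith
    rw [inv_pow, sq_sqrt (rp P).le, s0 P hP]
    field_simp
    ring
  exact ⟨_, sm, n0, n2, fun P hP => der_n sm n0 n2 hP⟩

theorem lin (a c : ℝ) : HasDerivAt (fun t : ℝ => a + t * c) c 0 := by
  simpa using ((hasDerivAt_id (0 : ℝ)).mul_const c).const_add a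

theorem cmp {g : ℝ → ℝ} (hg : ContDiff ℝ ∞ g) {u : ℝ → ℝ} {c : ℝ} (hu : HasDerivAt u c 0) :
    HasDerivAt (fun t => g (u t)) (deriv g (u 0) * c) 0 :=
  (hg.differentiable (by simp) (u 0)).hasDerivAt.comp 0 hu

theorem dir {A : Mo → ℝ} (hA : ContDiff ℝ ∞ A) {x v : Mo} {d : ℝ} {g : ℝ → ℝ}
    (h : HasDerivAt g d 0) (e : ∀ t : ℝ, A (x + t • v) = g t) : fderiv ℝ A x v = d := by
  have hl : HasDerivAt (fun t : ℝ => x + t • v) v 0 := by
    simpa using ((hasDerivAt_id (0 : ℝ)).smul_const v).const_add x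
  have h1 : HasFDerivAt A (fderiv ℝ A x) (x + (0 : ℝ) • v) := by
    simpa using (hA.differentiable (by simp) x).hasFDerivAt
  have h2 := h1.comp_hasDerivAt (0 : ℝ) hl
  rw [show (A ∘ fun t : ℝ => x + t • v) = g from funext e] at h2
  exact h2.unique h

theorem sm_re : ContDiff ℝ ∞ fun x : Mo => x.2.re := Complex.reCLM.contDiff.comp contDiff_snd

theorem sm_im : ContDiff ℝ ∞ fun x : Mo => x.2.im := Complex.imCLM.contDiff.comp contDiff_snd

theorem sm_P : ContDiff ℝ ∞ fun x : Mo => x.1.1 := by fun_prop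

/-- the field of the kick without cut-offs -/
theorem Xm_kick {b : ℝ → ℝ} (sb : ContDiff ℝ ∞ b) (x : Mo) :
    Xm (fun x => -(b x.1.1 * x.2.im)) x =
      ((x.1.1, (deriv b x.1.1 * x.2.im, 0), x.1.2.2), ⟨x.2.re / 2 - b x.1.1, x.2.im / 2⟩) := by
  have sF : ContDiff ℝ ∞ fun x : Mo => -(b x.1.1 * x.2.im) := ((sb.comp sm_P).mul sm_im).neg
  have k : ∀ v : Mo, fderiv ℝ (fun x : Mo => -(b x.1.1 * x.2.im)) x v =
      -(deriv b x.1.1 * v.1.1 * x.2.im + b x.1.1 * v.2.im) := fun v => by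
    have := ((cmp sb (lin x.1.1 v.1.1)).fun_mul (lin x.2.im v.2.im)).fun_neg
    rw [dir sF this fun t => by simp]
    simp
  rw [Xm_eq]
  simp only [k]
  simp [ea, es, ey, eσ, sub_eq_add_neg]

end SlabP

open SlabP

theorem slab : SlabStmt := by
  intro w h' Y1 c0 θ hw hh hh1 hY hc hθ
  obtain ⟨n, sn, n0, n2, nd⟩ := exists_n
  obtain ⟨B, sB, B1, B0, Br, -⟩ := exists_step (show 1 - h' < 1 + h' by linarith)
  obtain ⟨T, hT, hT2⟩ : ∃ T : ℝ, 2 ≤ T ∧ 2 ≤ c0 * (T - 1) := by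
    refine ⟨2 + 2 / c0, by linarith [div_pos two_pos hc], ?_⟩
    have : c0 * (2 + 2 / c0 - 1) = c0 + 2 := by field_simp; ring
    linarith
  obtain ⟨b, sb, hb⟩ : ∃ b : ℝ → ℝ, ContDiff ℝ ∞ b ∧ ∀ P, b P * n P = -(T * (deriv B P * P)) := by
    refine ⟨fun P => -(T * (deriv B P * P)) / n P, ?_, fun P => div_mul_cancel₀ _ (n0 P).ne'⟩
    exact (contDiff_const.mul ((contDiff_infty_iff_deriv.1 sB).2.mul contDiff_id)).neg.div sn
      fun P => (n0 P).ne'
  have b0 : ∀ P, h' < |P - 1| → b P = 0 := fun P hP => by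
    have : deriv B P = 0 := by
      rcases lt_abs.1 hP with h | h
      · rw [Filter.EventuallyEq.deriv_eq (f := fun _ => (0 : ℝ))
          ((lt_mem_nhds (show 1 + h' < P by linarith)).mono fun y hy => B0 y hy.le)]
        simp
      · rw [Filter.EventuallyEq.deriv_eq (f := fun _ => (1 : ℝ))
          ((gt_mem_nhds (show P < 1 - h' by linarith)).mono fun y hy => B1 y hy.le)]
        simp
    have h := hb P
    rw [this] at h
    simpa [(n0 P).ne'] using h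
  obtain ⟨χ, sχ, cχ, tχ, χ1, -⟩ := exists_cut (X := B4)
    (K := closedBall 1 (1 / 10) ×ˢ (closedBall 0 (2 * w) ×ˢ closedBall 0 (3 * Y1)))
    (N := univ ×ˢ (ball 0 (3 * w) ×ˢ ball 0 (4 * Y1)))
    ((isCompact_closedBall _ _).prod ((isCompact_closedBall _ _).prod (isCompact_closedBall _ _)))
    (isOpen_univ.prod (isOpen_ball.prod isOpen_ball))
    (prod_mono (subset_univ _) (prod_mono (closedBall_subset_ball (by linarith))
      (closedBall_subset_ball (by linarith))))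
  have sH : ContDiff ℝ ∞ fun q : B4 => b q.1 * χ q := (sb.comp contDiff_fst).mul sχ
  obtain ⟨C, hC0, hC⟩ : ∃ C, 0 < C ∧ ∀ q, ‖fderiv ℝ (fun q : B4 => b q.1 * χ q) q‖ ≤ C := by
    obtain ⟨C, hC⟩ := (sH.continuous_fderiv (by simp)).bounded_above_of_compact_support
      (HasCompactSupport.fderiv ℝ (cχ.mul_left (f := fun q : B4 => b q.1)))
    exact ⟨|C| + 1, by positivity, fun q => (hC q).trans (by linarith [le_abs_self C])⟩
  obtain ⟨ε, e0, e1, e2, e3⟩ : ∃ ε : ℝ, 0 < ε ∧ ε ≤ 1 / 4 ∧ C * (4 * ε) ≤ θ ∧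
      C * (4 * ε) ≤ w / 40 := by
    refine ⟨min (1 / 4) (min θ (w / 40) / (4 * C)), by positivity, min_le_left _ _, ?_⟩
    have h1 : C * (4 * min (1 / 4) (min θ (w / 40) / (4 * C))) ≤ min θ (w / 40) := by
      calc _ ≤ C * (4 * (min θ (w / 40) / (4 * C))) := by gcongr; exact min_le_right _ _
        _ = _ := by field_simp
    exact ⟨h1.trans (min_le_left _ _), h1.trans (min_le_right _ _)⟩
  have cre := Complex.continuous_re
  have cim := Complex.continuous_im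
  obtain ⟨κ, sκ, -, tκ, κ1, κr⟩ := exists_cut (X := ℂ)
    (K := {z | |z.re| ≤ 2 * T + 1 ∧ |z.im| ≤ 3 * ε})
    (N := ball 0 (2 * T + 3) ∩ {z | |z.im| < 4 * ε})
    ((isCompact_closedBall (0 : ℂ) (2 * T + 2)).of_isClosed_subset
      ((isClosed_le cre.abs continuous_const).inter (isClosed_le cim.abs continuous_const))
      fun z hz => mem_closedBall_zero_iff.2
        ((Complex.norm_le_abs_re_add_abs_im z).trans (by linarith [hz.1, hz.2])))
    (isOpen_ball.inter (isOpen_lt cim.abs continuous_const))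
    fun z hz => ⟨mem_ball_zero_iff.2
      ((Complex.norm_le_abs_re_add_abs_im z).trans_lt (by linarith [hz.1, hz.2])),
      hz.2.trans_lt (by linarith)⟩
  have sk : ContDiff ℝ ∞ fun z : ℂ => z.im * κ z := Complex.imCLM.contDiff.mul sκ
  have bk : ∀ z : ℂ, |z.im * κ z| ≤ 4 * ε := fun z => by
    by_cases h : κ z = 0
    · rw [h, mul_zero, abs_zero]; positivity
    · have h1 : |z.im| < 4 * ε := (tκ (subset_tsupport _ h)).2
      rw [abs_mul, abs_of_nonneg (κr z).1]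
      nlinarith [(κr z).1, (κr z).2, abs_nonneg z.im]
  obtain ⟨s1, ss1, s11, s10, s1r, s1d⟩ := exists_step (show 5 / 2 * w ^ 2 < 3 * w ^ 2 by nlinarith)
  obtain ⟨s2, ss2, s21, s20, s2r, -⟩ := exists_step (show Y1 ^ 2 < 4 * Y1 ^ 2 by nlinarith)
  obtain ⟨s3, ss3, s31, s30, s3r, -⟩ := exists_step (show ε ^ 2 < 4 * ε ^ 2 by nlinarith)
  set F : Mo → ℝ := fun x => -(b x.1.1 * χ x.1 * (x.2.im * κ x.2)) with hF
  set Ξ : Mo → ℝ := fun x => s1 (x.1.2.1.1 ^ 2 + x.1.2.1.2 ^ 2 + w ^ 2 / 4 * arctan x.1.1) *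
    (s2 ((x.1.2.2 * n x.1.1 ^ 2) ^ 2) *
      s3 ((x.2.re * n x.1.1 - T * B x.1.1) ^ 2 + (x.2.im * n x.1.1) ^ 2)) with hΞ
  have sF : ContDiff ℝ ∞ F := ((sH.comp contDiff_fst).mul (sk.comp contDiff_snd)).neg
  have sΞ : ContDiff ℝ ∞ Ξ := by
    have a1 := sn.comp sm_P
    have a2 := sB.comp sm_P
    have a3 : ContDiff ℝ ∞ fun x : Mo => arctan x.1.1 := contDiff_arctan.comp sm_P
    refine (ss1.comp ?_).mul ((ss2.comp ?_).mul (ss3.comp ?_))
    · exact ContDiff.add (by fun_prop) (contDiff_const.mul a3)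
    · exact (ContDiff.mul (by fun_prop) (a1.pow 2)).pow 2
    · exact (((sm_re.mul a1).sub (contDiff_const.mul a2)).pow 2).add ((sm_im.mul a1).pow 2)
  have small : ∀ x (v : B4), |fderiv ℝ F x (v, 0)| ≤ C * (4 * ε) * ‖v‖ := fun x v => by
    have h1 := ((sH.differentiable (by simp) x.1).hasFDerivAt.comp x hasFDerivAt_fst).fun_mul
      ((sk.differentiable (by simp) x.2).hasFDerivAt.comp x hasFDerivAt_snd)
    have h2 : HasFDerivAt F _ x := h1.fun_neg
    rw [h2.fderiv]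
    have h3 := (fderiv ℝ (fun q : B4 => b q.1 * χ q) x.1).le_of_opNorm_le (hC x.1) v
    have h4 := bk x.2
    simp only [neg_apply, add_apply, smul_apply, ContinuousLinearMap.comp_apply,
      ContinuousLinearMap.coe_fst', ContinuousLinearMap.coe_snd', map_zero, smul_eq_mul, mul_zero,
      zero_add, abs_neg, Function.comp_apply]
    rw [abs_mul]
    calc _ ≤ 4 * ε * (C * ‖v‖) := mul_le_mul h4 h3 (abs_nonneg _) (by positivity)
      _ = _ := by ring
  have rng : ∀ x, Ξ x ∈ Icc (0 : ℝ) 1 := fun x =>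
    ⟨mul_nonneg (s1r _).1 (mul_nonneg (s2r _).1 (s3r _).1),
      mul_le_one₀ (s1r _).2 (mul_nonneg (s2r _).1 (s3r _).1)
        (mul_le_one₀ (s2r _).2 (s3r _).1 (s3r _).2)⟩
  have key : ∀ x : Mo, 1 / 5 < x.1.1 → Ξ x ≠ 0 → ‖x.1.2.1‖ ≤ 2 * w ∧
      |x.1.2.2| ≤ 2 * Y1 * x.1.1 ∧ |x.2.re * n x.1.1 - T * B x.1.1| ≤ 2 * ε ∧
      |x.2.im * n x.1.1| ≤ 2 * ε := fun x hP hx => by
    have a1 : x.1.2.1.1 ^ 2 + x.1.2.1.2 ^ 2 + w ^ 2 / 4 * arctan x.1.1 < 3 * w ^ 2 :=
      lt_of_not_ge fun h => hx (by simp only [hΞ, s10 _ h, zero_mul])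
    have a2 : (x.1.2.2 * n x.1.1 ^ 2) ^ 2 < 4 * Y1 ^ 2 :=
      lt_of_not_ge fun h => hx (by simp only [hΞ, s20 _ h, zero_mul, mul_zero])
    have a3 : (x.2.re * n x.1.1 - T * B x.1.1) ^ 2 + (x.2.im * n x.1.1) ^ 2 < 4 * ε ^ 2 :=
      lt_of_not_ge fun h => hx (by simp only [hΞ, s30 _ h, mul_zero])
    have a4 : 0 ≤ w ^ 2 / 4 * arctan x.1.1 :=
      mul_nonneg (by positivity) (arctan_nonneg.2 (by linarith))
    refine ⟨?_, ?_, abs_le_of_sq_le_sq' ?_ (by positivity) |> abs_le.2,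
      abs_le_of_sq_le_sq' ?_ (by positivity) |> abs_le.2⟩
    · rw [Prod.norm_def, max_le_iff]
      exact ⟨abs_le.2 (abs_le_of_sq_le_sq' (by nlinarith [sq_nonneg x.1.2.1.2]) (by positivity)),
        abs_le.2 (abs_le_of_sq_le_sq' (by nlinarith [sq_nonneg x.1.2.1.1]) (by positivity))⟩
    · have a5 : |x.1.2.2 * n x.1.1 ^ 2| ≤ 2 * Y1 :=
        abs_le.2 (abs_le_of_sq_le_sq' (by nlinarith) (by positivity))
      have a6 : x.1.2.2 = x.1.2.2 * n x.1.1 ^ 2 * x.1.1 := by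
        rw [mul_assoc, n2 _ hP.le, mul_one]
      rw [a6, abs_mul, abs_of_pos (show 0 < x.1.1 by linarith)]
      exact mul_le_mul_of_nonneg_right a5 (by linarith)
    · nlinarith [sq_nonneg (x.2.im * n x.1.1)]
    · nlinarith [sq_nonneg (x.2.re * n x.1.1 - T * B x.1.1)]
  refine ⟨2 * T + 3, ε, F, Ξ, e0, sF, sΞ, fun x hx => ?_, fun x v => (small x v).trans ?_, rng,
    fun x hP => ?_, fun x h1 h2 h3 h4 => ?_, fun x hP hx => ?_⟩
  · have a1 : b x.1.1 ≠ 0 := fun h => hx (by simp only [hF, h, zero_mul, neg_zero])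
    have a2 : χ x.1 ≠ 0 := fun h => hx (by simp only [hF, h, zero_mul, mul_zero, neg_zero])
    have a3 : κ x.2 ≠ 0 := fun h => hx (by simp only [hF, h, mul_zero, neg_zero])
    have a4 := (tχ (subset_tsupport _ a2)).2
    exact ⟨(mem_ball_zero_iff.1 a4.1).le, (mem_ball_zero_iff.1 (tκ (subset_tsupport _ a3)).1).le,
      le_of_not_gt fun h => a1 (b0 _ h), (mem_ball_zero_iff.1 a4.2).le⟩
  · exact mul_le_mul_of_nonneg_right e2 (norm_nonneg _)
  · by_cases hx : Ξ x = 0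
    · have : IsLocalMin Ξ x := Filter.Eventually.of_forall fun y => hx ▸ (rng y).1
      rw [this.fderiv_eq_zero]
      simp
    obtain ⟨k1, k2, k3, k4⟩ := key x hP hx
    have a0 := n2 _ hP.le
    have a1 := n0 x.1.1
    have far : 1 / 10 < |x.1.1 - 1| → ∀ᶠ P in 𝓝 x.1.1, b P = 0 := fun h =>
      Filter.Eventually.mono ((isOpen_lt continuous_const
        (by fun_prop : Continuous fun P : ℝ => |P - 1|)).mem_nhds h)
        fun P hP => b0 P (hh1.trans_lt hP)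
    have loc : ∀ᶠ y in 𝓝 x, F y = -(b y.1.1 * y.2.im) := by
      rcases le_or_gt |x.1.1 - 1| (1 / 10) with h | h
      · have b1 := abs_le.1 h
        have b2 : 9 / 10 ≤ n x.1.1 := by
          by_contra hn
          have : n x.1.1 ^ 2 ≤ (9 / 10) ^ 2 := by gcongr; exact (not_le.1 hn).le
          nlinarith [b1.2]
        have b3 : |x.2.re| * n x.1.1 ≤ T + 1 / 2 := by
          rw [← abs_of_pos a1, ← abs_mul, abs_le]
          constructor <;>
            nlinarith [(abs_le.1 k3).1, (abs_le.1 k3).2, (Br x.1.1).1, (Br x.1.1).2]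
        rw [abs_mul, abs_of_pos a1] at k4
        have c1 := χ1 x.1 ⟨mem_closedBall.2 h, mem_closedBall_zero_iff.2 k1,
          mem_closedBall_zero_iff.2 (k2.trans (by nlinarith [b1.2]))⟩
        have c2 := κ1 x.2 ⟨by nlinarith [abs_nonneg x.2.re], by nlinarith [abs_nonneg x.2.im]⟩
        filter_upwards [continuous_fst.continuousAt.eventually c1,
          continuous_snd.continuousAt.eventually c2] with y h1 h2
        simp only [hF, h1, h2, mul_one]
      · filter_upwards [sm_P.continuous.continuousAt.eventually (far h)] with y h1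
        simp only [hF, h1, zero_mul]
    have eX := (Xm_congr loc).trans (Xm_kick sb x)
    have bd : |deriv b x.1.1 * x.2.im| ≤ w / 40 := by
      have h1 := congrArg (fun v : Mo => v.1.2.1.1) ((Xm_eq F x).symm.trans eX)
      have h2 := small x es
      have h3 : ‖es‖ = 1 := by simp [es, Prod.norm_def]
      simp only at h1
      rw [← h1, abs_neg]
      rw [h3, mul_one] at h2
      exact h2.trans e3
    have pos : 0 ≤ 2 * x.1.2.1.1 * (deriv b x.1.1 * x.2.im) +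
        w ^ 2 / 4 * (1 / (1 + x.1.1 ^ 2) * x.1.1) := by
      rcases le_or_gt |x.1.1 - 1| (1 / 10) with h | h
      · have b1 := abs_le.1 h
        have b2 : 2 / 5 ≤ 1 / (1 + x.1.1 ^ 2) * x.1.1 := by
          rw [one_div, inv_mul_eq_div, le_div_iff₀ (by positivity)]
          nlinarith [b1.1, b1.2]
        have b3 : |x.1.2.1.1| ≤ 2 * w := (norm_fst_le x.1.2.1).trans k1
        have b4 : |x.1.2.1.1 * (deriv b x.1.1 * x.2.im)| ≤ 2 * w * (w / 40) := by
          rw [abs_mul]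
          exact mul_le_mul b3 bd (abs_nonneg _) (by positivity)
        nlinarith [(abs_le.1 b4).1, sq_nonneg w]
      · rw [Filter.EventuallyEq.deriv_eq (f := fun _ => (0 : ℝ)) (far h)]
        have : 0 < x.1.1 := by linarith
        simp only [deriv_const, zero_mul, mul_zero, zero_add]
        positivity
    have dP := lin x.1.1 x.1.1
    have dn : HasDerivAt (fun t => n (x.1.1 + t * x.1.1)) (-(n x.1.1 / 2)) 0 := by
      simpa [nd _ hP] using cmp sn dP
    have d1 : HasDerivAt (fun t => (x.1.2.1.1 + t * (deriv b x.1.1 * x.2.im)) ^ 2 +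
        x.1.2.1.2 ^ 2 + w ^ 2 / 4 * arctan (x.1.1 + t * x.1.1))
        (2 * x.1.2.1.1 * (deriv b x.1.1 * x.2.im) +
          w ^ 2 / 4 * (1 / (1 + x.1.1 ^ 2) * x.1.1)) 0 := by
      have := (((lin x.1.2.1.1 (deriv b x.1.1 * x.2.im)).fun_pow 2).add_const
        (x.1.2.1.2 ^ 2)).fun_add (dP.arctan.const_mul (w ^ 2 / 4))
      simpa using this
    have d2 : HasDerivAt (fun t => ((x.1.2.2 + t * x.1.2.2) * n (x.1.1 + t * x.1.1) ^ 2) ^ 2)
        0 0 := by
      refine (((lin x.1.2.2 x.1.2.2).fun_mul (dn.fun_pow 2)).fun_pow 2).congr_deriv ?_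
      simp only [zero_mul, add_zero]
      ring
    have d3 : HasDerivAt (fun t => ((x.2.re + t * (x.2.re / 2 - b x.1.1)) *
        n (x.1.1 + t * x.1.1) - T * B (x.1.1 + t * x.1.1)) ^ 2 +
        ((x.2.im + t * (x.2.im / 2)) * n (x.1.1 + t * x.1.1)) ^ 2) 0 0 := by
      refine (((((lin x.2.re (x.2.re / 2 - b x.1.1)).fun_mul dn).fun_sub
        ((cmp sB dP).const_mul T)).fun_pow 2).fun_add
        (((lin x.2.im (x.2.im / 2)).fun_mul dn).fun_pow 2)).congr_deriv ?_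
      simp only [zero_mul, add_zero]
      rw [show T * (deriv B x.1.1 * x.1.1) = -(b x.1.1 * n x.1.1) by rw [hb, neg_neg]]
      ring
    rw [eX, dir sΞ ((cmp ss1 d1).fun_mul ((cmp ss2 d2).fun_mul (cmp ss3 d3))) fun t => by
      simp [hΞ]]
    simp only [mul_zero, zero_mul, add_zero]
    exact mul_nonpos_of_nonpos_of_nonneg (mul_nonpos_of_nonpos_of_nonneg (s1d _) pos)
      (mul_nonneg (s2r _).1 (s3r _).1)
  · have hP : 1 / 5 ≤ x.1.1 := by linarith
    have hp : 0 < x.1.1 := by linarith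
    have a0 := n2 _ hP
    rw [Prod.norm_def, max_le_iff] at h2
    have a1 : x.1.2.1.1 ^ 2 ≤ w ^ 2 := sq_le_sq' (abs_le.1 h2.1).1 (abs_le.1 h2.1).2
    have a2 : x.1.2.1.2 ^ 2 ≤ w ^ 2 := sq_le_sq' (abs_le.1 h2.2).1 (abs_le.1 h2.2).2
    have a3 : arctan x.1.1 ≤ 2 := by linarith [arctan_lt_pi_div_two x.1.1, pi_le_four]
    have a4 : |x.1.2.2 * n x.1.1 ^ 2| ≤ Y1 := by
      rw [abs_mul, abs_of_nonneg (sq_nonneg (n x.1.1))]
      calc _ ≤ Y1 * x.1.1 * n x.1.1 ^ 2 := by gcongr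
        _ = Y1 * (n x.1.1 ^ 2 * x.1.1) := by ring
        _ = Y1 := by rw [a0, mul_one]
    have a5 : (x.2.re * n x.1.1 - T * B x.1.1) ^ 2 + (x.2.im * n x.1.1) ^ 2 ≤ ε ^ 2 := by
      rw [B0 _ h1]
      calc _ = nq x.2 * n x.1.1 ^ 2 := by rw [nq]; ring
        _ ≤ ε ^ 2 * x.1.1 * n x.1.1 ^ 2 := by gcongr
        _ = ε ^ 2 * (n x.1.1 ^ 2 * x.1.1) := by ring
        _ = ε ^ 2 := by rw [a0, mul_one]
    simp only [hΞ]
    rw [s11 _ (by nlinarith [sq_nonneg w]), s21 _ (sq_le_sq' (abs_le.1 a4).1 (abs_le.1 a4).2),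
      s31 _ a5]
    norm_num
  · obtain ⟨k1, k2, k3, k4⟩ := key x hP hx
    refine ⟨k1, k2, fun h => ?_⟩
    rw [B1 _ h] at k3
    have a0 := n2 _ hP.le
    have a1 := n0 x.1.1
    have a2 : T - 1 ≤ x.2.re * n x.1.1 := by linarith [(abs_le.1 k3).1]
    constructor
    · have a3 : (T - 1) ^ 2 ≤ (x.2.re * n x.1.1) ^ 2 := by gcongr; linarith
      have a4 : 2 ≤ c0 * (x.2.re * n x.1.1) ^ 2 := by nlinarith
      have a5 : (x.2.re * n x.1.1) ^ 2 * x.1.1 = x.2.re ^ 2 := by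
        rw [mul_pow, mul_assoc, a0, mul_one]
      have a6 : 2 * x.1.1 ≤ c0 * (x.2.re * n x.1.1) ^ 2 * x.1.1 := by gcongr
      rw [mul_assoc, a5] at a6
      rw [nq]
      nlinarith [sq_nonneg x.2.im]
    · rw [abs_mul, abs_of_pos a1] at k4
      refine le_of_mul_le_mul_right ?_ a1
      nlinarith

end Pool.Agent.MP_6d695c_gt.T2
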