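import Pool.Agent.MP_6d695c_gt.t2.Spec

/-! PROJECT T2, rows MOD and SMPT: the models and the twisted product are exact symplectic. -/

open scoped Manifold ContDiff Topology
open Set Metric Filter Real

namespace Pool.Agent.MP_6d695c_gt.T2

open SW T1 Theta

namespace SmpA

theorem sub_univ (X : Type) [NormedAddCommGroup X] [NormedSpace ℝ X] : Sub X (univ : Set X) :=
  fun _ _ => ⟨id, id, univ, univ, ⟨isOpen_univ, isOpen_univ, contDiffOn_id, contDiffOn_id,
    fun _ _ => ⟨trivial, trivial, rfl⟩, fun _ _ _ => ⟨trivial, rfl⟩⟩, trivial⟩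

theorem fd_lb (q u v : B4) : fderiv ℝ lb q u v =
    exp q.1 * (u.1 * (v.2.1.1 + q.2.2 * v.2.1.2) + u.2.2 * v.2.1.2) := by
  rw [Symp.fd_app (contDiff_lb.differentiable (by simp) q)]
  have h1 : HasFDerivAt (fun y : B4 => exp y.1 * (v.2.1.1 + y.2.2 * v.2.1.2)) _ q :=
    hasFDerivAt_fst.exp.fun_mul
      (((hasFDerivAt_snd.comp q hasFDerivAt_snd).mul_const v.2.1.2).const_add v.2.1.1)
  rw [show (fun y => lb y v) = fun y : B4 => exp y.1 * (v.2.1.1 + y.2.2 * v.2.1.2) from
    funext fun y => lb_apply y v, h1.fderiv]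
  simp
  ring

theorem smpB : Smp B4 univ lb Pb where
  sub := sub_univ B4
  sl := contDiff_lb
  sP := contDiff_clm_apply_iff.2 fun β => by
    simp only [Pb_apply]
    fun_prop
  tan := fun x _ _ => tg_univ x _
  dual := fun q _ β v _ => by
    have e : exp q.1 * exp (-q.1) = 1 := by rw [← exp_add, add_neg_cancel, exp_zero]
    rw [dd, fd_lb, fd_lb, Pb_apply, expand4 β v]
    simp only [Prod.smul_fst, Prod.smul_snd, smul_eq_mul]
    linear_combination (v.1 * β es + v.2.1.1 * β ea + v.2.1.2 * β eσ + v.2.2 * β ey) * e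

theorem expC {V : Type} [NormedAddCommGroup V] [NormedSpace ℝ V] (β : (V × ℂ) →L[ℝ] ℝ)
    (v : V × ℂ) : β v = β.comp (ContinuousLinearMap.inl ℝ V ℂ) v.1 +
      v.2.re * β (0, 1) + v.2.im * β (0, Complex.I) := by
  have : v = (v.1, 0) + v.2.re • ((0 : V), (1 : ℂ)) + v.2.im • ((0 : V), Complex.I) := by
    refine Prod.ext (by simp) (Complex.ext ?_ ?_) <;> simp
  conv_lhs => rw [this]
  simp only [map_add, map_smul, smul_eq_mul]
  rfl

theorem fd_lm (x u v : Mo) : fderiv ℝ lm x u v = lm u v := by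
  rw [Symp.fd_app (contDiff_lm.differentiable (by simp) x)]
  have r := Complex.reCLM.hasFDerivAt.comp x (hasFDerivAt_snd (𝕜 := ℝ) (p := x))
  have i := Complex.imCLM.hasFDerivAt.comp x (hasFDerivAt_snd (𝕜 := ℝ) (p := x))
  have h1 : HasFDerivAt (fun y : Mo => y.1.1 * v.1.2.1.1 + y.1.2.2 * v.1.2.1.2 +
      (y.2.re * (v.2.im / 2) - y.2.im * (v.2.re / 2))) _ x :=
    ((hasFDerivAt_fst.fst.mul_const _).add (hasFDerivAt_fst.snd.snd.mul_const _)).add
      ((r.mul_const _).sub (i.mul_const _))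
  rw [show (fun y => lm y v) = fun y : Mo => y.1.1 * v.1.2.1.1 + y.1.2.2 * v.1.2.1.2 +
      (y.2.re * (v.2.im / 2) - y.2.im * (v.2.re / 2)) from
    funext fun y => by rw [lm_apply]; ring, h1.fderiv, lm_apply]
  simp
  ring

theorem smpM : Smp Mo univ lm fun _ => Pm where
  sub := sub_univ Mo
  sl := contDiff_lm
  sP := contDiff_const
  tan := fun x _ _ => tg_univ x _
  dual := fun x _ β v _ => by
    rw [dd, fd_lm, fd_lm, lm_apply, lm_apply, Pm_apply, expC β v, expand4 _ v.1]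
    simp only [ContinuousLinearMap.comp_apply, ContinuousLinearMap.inl_apply]
    ring

variable {V : Type} [NormedAddCommGroup V] [NormedSpace ℝ V] {l : V → V →L[ℝ] ℝ} {N : ℝ}

theorem sm_lT [FiniteDimensional ℝ V] (hl : ContDiff ℝ ∞ l) : ContDiff ℝ ∞ (lT N l) :=
  contDiff_clm_apply_iff.2 fun v => by
    have h1 : ContDiff ℝ ∞ fun x : V × ℂ => x.2.re := Complex.reCLM.contDiff.comp contDiff_snd
    have h2 : ContDiff ℝ ∞ fun x : V × ℂ => x.2.im := Complex.imCLM.contDiff.comp contDiff_snd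
    have h3 : ContDiff ℝ ∞ fun x : V × ℂ => rho N x.2 := (contDiff_rho N).comp contDiff_snd
    have h4 : ContDiff ℝ ∞ fun x : V × ℂ => l x.1 v.1 :=
      (hl.comp contDiff_fst).clm_apply contDiff_const
    simp only [lT_apply]
    exact ((contDiff_const.add h3).mul h4).add
      (((h1.mul contDiff_const).sub (h2.mul contDiff_const)).div_const 2)

theorem fd_lT [FiniteDimensional ℝ V] (hl : ContDiff ℝ ∞ l) (q u v : V × ℂ) :
    fderiv ℝ (lT N l) q u v = (1 + rho N q.2) * fderiv ℝ l q.1 u.1 v.1 +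
      N * (q.2.re * u.2.re + q.2.im * u.2.im) * l q.1 v.1 +
      (u.2.re * v.2.im - u.2.im * v.2.re) / 2 := by
  rw [Symp.fd_app ((sm_lT hl).differentiable (by simp) q),
    Symp.fd_app (hl.differentiable (by simp) q.1), ← fderiv_rho]
  have r := Complex.reCLM.hasFDerivAt.comp q (hasFDerivAt_snd (𝕜 := ℝ) (p := q))
  have i := Complex.imCLM.hasFDerivAt.comp q (hasFDerivAt_snd (𝕜 := ℝ) (p := q))
  have a := ((contDiff_rho N).differentiable (by simp) q.2).hasFDerivAt.comp q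
    (hasFDerivAt_snd (𝕜 := ℝ) (p := q))
  have b := ((hl.clm_apply (contDiff_const (c := v.1))).differentiable (by simp)
    q.1).hasFDerivAt.comp q (hasFDerivAt_fst (𝕜 := ℝ) (p := q))
  have h1 : HasFDerivAt (fun y : V × ℂ => (1 + rho N y.2) * l y.1 v.1 +
      (y.2.re * (v.2.im / 2) - y.2.im * (v.2.re / 2))) _ q :=
    ((a.const_add 1).mul b).add ((r.mul_const _).sub (i.mul_const _))
  rw [show (fun y => lT N l y v) = fun y : V × ℂ => (1 + rho N y.2) * l y.1 v.1 +
      (y.2.re * (v.2.im / 2) - y.2.im * (v.2.re / 2)) from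
    funext fun y => by rw [lT_apply]; ring, h1.fderiv]
  simp
  ring

theorem sm_mk {X : Type} [NormedAddCommGroup X] [NormedSpace ℝ X] {f g : X → ℝ}
    (hf : ContDiff ℝ ∞ f) (hg : ContDiff ℝ ∞ g) : ContDiff ℝ ∞ fun x => (⟨f x, g x⟩ : ℂ) :=
  Complex.equivRealProdCLM.symm.contDiff.comp (hf.prodMk hg)

end SmpA

theorem modS : ModStmt :=
  ⟨SmpA.smpB, fun q => (SmpA.smpB.uniq trivial (tg_univ _ _) fun v _ => dd_lb_es q v).symm,
    SmpA.smpM⟩

theorem smpT : SmpTStmt := by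
  intro V E _ _ _ _ _ M l Pi N h hN
  have hp : ∀ z, 1 + rho N z ≠ 0 := fun z => by have := rho_nonneg hN z; positivity
  refine ⟨⟨Symp.sub_ov h.sub, SmpA.sm_lT h.sl, contDiff_clm_apply_iff.2 fun β => ?_,
    fun q hq β => ?_, fun q hq β v hv => ?_⟩, fun q hq => ?_⟩
  · have h1 : ContDiff ℝ ∞ fun x : V × ℂ => x.2.re := Complex.reCLM.contDiff.comp contDiff_snd
    have h2 : ContDiff ℝ ∞ fun x : V × ℂ => x.2.im := Complex.imCLM.contDiff.comp contDiff_snd
    have h3 : ContDiff ℝ ∞ fun x : V × ℂ => (1 + rho N x.2)⁻¹ :=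
      (contDiff_const.add ((contDiff_rho N).comp contDiff_snd)).inv fun x => hp _
    have h4 : ContDiff ℝ ∞ fun x : V × ℂ => Pi x.1 (β.comp (ContinuousLinearMap.inl ℝ V ℂ)) :=
      (h.sP.comp contDiff_fst).clm_apply contDiff_const
    have h5 : ContDiff ℝ ∞ fun x : V × ℂ => Pi x.1 (l x.1) :=
      (h.sP.clm_apply h.sl).comp contDiff_fst
    have h6 := (h3.mul (contDiff_const (c := N))).mul ((h.sl.comp contDiff_fst).clm_apply h4)
    simp only [PT_apply]
    exact (h3.smul (h4.sub ((contDiff_const.mul ((h1.mul contDiff_const).sub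
      (h2.mul contDiff_const))).smul h5))).prodMk
      (SmpA.sm_mk (contDiff_const.add (h6.mul h2)) (contDiff_const.sub (h6.mul h1)))
  · rw [Symp.tg_ov, PT_apply]
    exact h.sub.tg_smul hq _ (h.sub.tg_sub hq (h.tan _ hq _) (h.sub.tg_smul hq _ (h.tan _ hq _)))
  · have hv' := Symp.tg_ov.1 hv
    have d1 := h.dual _ hq (β.comp (ContinuousLinearMap.inl ℝ V ℂ)) _ hv'
    have d2 := h.dual _ hq (l q.1) _ hv'
    have d3 := h.self hq (l q.1)
    have e := mul_inv_cancel₀ (hp q.2)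
    rw [dd] at d1 d2
    rw [dd, SmpA.fd_lT h.sl, SmpA.fd_lT h.sl, SmpA.expC β v, PT_apply, ← d1]
    simp only [map_smul, map_sub, smul_apply, sub_apply, smul_eq_mul, d3]
    generalize (1 + rho N q.2)⁻¹ = r at e ⊢
    generalize 1 + rho N q.2 = s at e ⊢
    generalize Pi q.1 (β.comp (ContinuousLinearMap.inl ℝ V ℂ)) = X
    linear_combination (fderiv ℝ l q.1 X v.1 - fderiv ℝ l q.1 v.1 X -
      N * (q.2.re * β (0, Complex.I) - q.2.im * β (0, 1)) * l q.1 v.1) * e -
      s * r * N * (q.2.re * β (0, Complex.I) - q.2.im * β (0, 1)) * d2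
  · have d3 := h.self hq (l q.1)
    have e1 : (lT N l q).comp (ContinuousLinearMap.inl ℝ V ℂ) = (1 + rho N q.2) • l q.1 :=
      ContinuousLinearMap.ext fun v => by simp [lT_apply]
    have e2 : N * (q.2.re * lT N l q (0, Complex.I) - q.2.im * lT N l q (0, 1)) = rho N q.2 := by
      simp only [lT_apply, rho, nq]
      simp
      ring
    rw [PT_apply, e1, e2, map_smul, map_smul, d3, ← sub_smul, add_sub_cancel_right, one_smul]
    refine Prod.ext rfl (Complex.ext ?_ ?_) <;> simp [lT_apply, ZT0] <;> ring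

end Pool.Agent.MP_6d695c_gt.T2
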