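import Pool.Agent.MP_6d695c_gt.t2.SpecB

/-! PROJECT T2, row SUM: all boxes together. -/

open scoped ContDiff Topology
open Set Metric Filter Real

namespace Pool.Agent.MP_6d695c_gt.T2

open SW T1 Theta

theorem Sum.glue (t : ℝ) : HasDerivAt expNegInvGlue (t⁻¹ ^ 2 * expNegInvGlue t) t := by
  simpa using expNegInvGlue.hasDerivAt_polynomial_eval_inv_mul 1 t

theorem Sum.glue_le (t : ℝ) : expNegInvGlue t ≤ 1 := by
  unfold expNegInvGlue
  split_ifs with h
  · exact zero_le_one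
  · exact exp_le_one_iff.2 (neg_nonpos.2 (inv_nonneg.2 (not_le.1 h).le))

theorem sumS (smpT : SmpTStmt) : SumStmt := by
  intro V E _ _ _ _ _ M U N0 l Pi φ yk Λ L y' N R ε κ e m A G δL δv hA sy sΛ sL oN hy hN hε hκ hκ1
    he cA mA dA hB rΛ zΛ hΛ hL
  obtain ⟨hT, hZ⟩ := smpT V E M l Pi N ⟨hA.sub, hA.sl, hA.sP, hA.tan, hA.dual⟩ hN
  set S := ov M ℂ with hS
  let G' : V × ℂ → ℝ := fun q => ∑ i, G i q
  let L' : V × ℂ → ℝ := fun q => L q.1 + ∑ i, δL i q
  let W : V × ℂ → ℝ := Vh N yk fun x => ∑ i, δv i x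
  let T : V × ℂ → ℝ := fun q => (1 - Λ q.1) * expNegInvGlue (W q - y' ^ 2 / 4) + Λ q.1
  let X := XT N l Pi G'
  have sG : ContDiff ℝ ∞ G' := ContDiff.sum fun i _ => (hB i).sG
  have sL' : ContDiff ℝ ∞ L' := (sL.comp contDiff_fst).add (ContDiff.sum fun i _ => (hB i).sL)
  have sW : ContDiff ℝ ∞ W := contDiff_Vh sy (ContDiff.sum fun i _ => (hB i).sv)
  have sΛ' : ContDiff ℝ ∞ fun q : V × ℂ => Λ q.1 := sΛ.comp contDiff_fst
  have sT : ContDiff ℝ ∞ T := ((contDiff_const.sub sΛ').mul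
    (expNegInvGlue.contDiff.comp (sW.sub contDiff_const))).add sΛ'
  have cX : Continuous X := (hT.sP.clm_apply (hT.sl.add (sG.fderiv_right (by simp)))).continuous
  have D : ∀ {f : V × ℂ → ℝ}, ContDiff ℝ ∞ f → ∀ q, DifferentiableAt ℝ f q :=
    fun h q => h.differentiable (by simp) q
  have tg : ∀ q ∈ S, X q ∈ Tg S q := fun q hq => hT.tan q hq _
  have off : ∀ (q : V × ℂ) i, q.1 ∉ A i →
      ∀ᶠ q' in 𝓝[S] q, G i q' = 0 ∧ δL i q' = 0 ∧ δv i q'.1 = 0 := fun q i h => by
    filter_upwards [self_mem_nhdsWithin, mem_nhdsWithin_of_mem_nhds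
      (continuous_fst.continuousAt.preimage_mem_nhds ((cA i).isClosed.isOpen_compl.mem_nhds h))]
      with q' a b using (hB i).out q' a b
  have inn : ∀ (q : V × ℂ) i, q.1 ∈ A i → ∀ᶠ q' in 𝓝[S] q,
      G' q' = G i q' ∧ L' q' = L q'.1 + δL i q' ∧ W q' = Vh N yk (δv i) q' := fun q i h => by
    have : ∀ᶠ q' in 𝓝[S] q, ∀ j, j ≠ i → G j q' = 0 ∧ δL j q' = 0 ∧ δv j q'.1 = 0 :=
      eventually_all.2 fun j => by
        by_cases c : j = i
        · exact .of_forall fun _ k => absurd c k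
        · exact (off q j fun k => disjoint_left.1 (dA j i c) k h).mono fun _ k _ => k
    refine this.mono fun q' k => ?_
    simp only [G', L', W, Vh, Fintype.sum_eq_single i fun j c => (k j c).1,
      Fintype.sum_eq_single i fun j c => (k j c).2.1,
      Fintype.sum_eq_single (f := fun j => δv j q'.1) i fun j c => (k j c).2.2, and_self]
  have out : ∀ q : V × ℂ, (∀ i, q.1 ∉ A i) → ∀ᶠ q' in 𝓝[S] q,
      G' q' = 0 ∧ L' q' = L q'.1 ∧ W q' = (yk q'.1 * (1 + rho N q'.2)) ^ 2 := fun q h =>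
    (eventually_all.2 fun j => off q j (h j)).mono fun q' k => by simp [G', L', W, Vh, k]
  have outX : ∀ q ∈ S, (∀ i, q.1 ∉ A i) → X q = ZT0 N l Pi q := fun q hq h =>
    (XT_congr hT sG contDiff_const hq ((out q h).mono fun _ k => k.1)).trans
      ((XT_zero q).trans (hZ q hq))
  have fz : ∀ {f : V → ℝ}, ContDiff ℝ ∞ f → ∀ q : V × ℂ,
      fderiv ℝ (fun q : V × ℂ => f q.1) q (ZT0 N l Pi q) =
        (1 + rho N q.2)⁻¹ * fderiv ℝ f q.1 (Pi q.1 (l q.1)) := fun {f} h q => by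
    have : HasFDerivAt (fun q : V × ℂ => f q.1) _ q :=
      (h.differentiable (by simp) q.1).hasFDerivAt.comp q hasFDerivAt_fst
    simp [this.fderiv, ZT0]
  have dT : ∀ q v, fderiv ℝ T q v = (1 - Λ q.1) * ((W q - y' ^ 2 / 4)⁻¹ ^ 2 *
      expNegInvGlue (W q - y' ^ 2 / 4) * fderiv ℝ W q v) +
      (1 - expNegInvGlue (W q - y' ^ 2 / 4)) * fderiv ℝ (fun q : V × ℂ => Λ q.1) q v :=
    fun q v => by
      have h1 := (D sΛ' q).hasFDerivAt
      have h2 : HasFDerivAt T _ q := ((h1.const_sub 1).fun_mul ((Sum.glue _).comp_hasFDerivAt q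
        ((D sW q).hasFDerivAt.sub_const (y' ^ 2 / 4)))).fun_add h1
      simp [h2.fderiv]
      ring
  have inT : ∀ q ∈ S, ∀ i, q.1 ∈ A i → fderiv ℝ T q (X q) = (W q - y' ^ 2 / 4)⁻¹ ^ 2 *
      expNegInvGlue (W q - y' ^ 2 / 4) * fderiv ℝ W q (X q) ∧
      (y' ^ 2 / 4 ≤ W q → 0 < fderiv ℝ W q (X q)) := fun q hq i h => by
    have k := inn q i h
    have z : (fun q : V × ℂ => Λ q.1) =ᶠ[𝓝 q] fun _ => 0 :=
      eventually_of_mem (continuous_fst.continuousAt.preimage_mem_nhds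
        (oN.mem_nhds (mA i _ h).2.2)) fun q' a => zΛ _ a
    refine ⟨by simp [dT, z.fderiv_eq, zΛ _ (mA i _ h).2.2], fun c => ?_⟩
    rw [fderiv_congr_tg (D sW q) (D (contDiff_Vh sy (hB i).sv) q) hq (k.mono fun _ a => a.2.2)
      (tg q hq), show X q = _ from XT_congr hT sG (hB i).sG hq (k.mono fun _ a => a.1)]
    exact (hB i).up q h ((k.self_of_nhdsWithin hq).2.2 ▸ c)
  have nn : ∀ q ∈ S, φ q.1 ≤ 2 → 0 ≤ fderiv ℝ T q (X q) := fun q hq h2 => by
    have g0 := expNegInvGlue.nonneg (W q - y' ^ 2 / 4)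
    have key : ∀ a : ℝ, (y' ^ 2 / 4 ≤ W q → 0 ≤ a) →
        0 ≤ (W q - y' ^ 2 / 4)⁻¹ ^ 2 * expNegInvGlue (W q - y' ^ 2 / 4) * a := fun a h => by
      rcases le_total (W q) (y' ^ 2 / 4) with c | c
      · simp [expNegInvGlue.zero_of_nonpos (sub_nonpos.2 c)]
      · exact mul_nonneg (by positivity) (h c)
    by_cases c : ∃ i, q.1 ∈ A i
    · obtain ⟨i, c⟩ := c
      exact (inT q hq i c).1 ▸ key _ fun k => ((inT q hq i c).2 k).le
    have c' := not_exists.1 c
    obtain ⟨a1, a2, a3⟩ := hΛ q.1 hq h2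
    have r0 := rho_nonneg hN q.2
    rw [dT]
    refine add_nonneg ?_ (mul_nonneg (sub_nonneg.2 (Sum.glue_le _)) ?_)
    · by_cases u : q.1 ∈ U
      · refine mul_nonneg (sub_nonneg.2 (rΛ _).2) (key _ fun k => ?_)
        have h3 : HasFDerivAt (fun q : V × ℂ => rho N q.2) _ q :=
          ((contDiff_rho N).differentiable (by simp) q.2).hasFDerivAt.comp q hasFDerivAt_snd
        have h4 : HasFDerivAt (fun q : V × ℂ => (yk q.1 * (1 + rho N q.2)) ^ 2) _ q :=
          ((D (f := fun q => yk q.1) (sy.comp contDiff_fst) q).hasFDerivAt.fun_mul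
            (h3.const_add 1)).pow 2
        have h5 : fderiv ℝ (rho N) q.2 (ZT0 N l Pi q).2 = rho N q.2 := by
          rw [fderiv_rho, ZT0, rho, nq]
          simp
          ring
        have h6 := fz sy q
        rw [((out q c').self_of_nhdsWithin hq).2.2] at k
        rw [fderiv_congr_tg (D sW q) h4.differentiableAt hq ((out q c').mono fun _ a => a.2.2)
          (tg q hq), outX q hq c', h4.fderiv]
        have h7 : y' / 2 ≤ |yk q.1| * (1 + rho N q.2) := by
          rw [← abs_of_nonneg (by linarith : 0 ≤ 1 + rho N q.2), ← abs_mul]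
          exact le_trans (le_abs_self _) (sq_le_sq.1 (by linarith))
        have h8 : e ≤ (κ + rho N q.2) * |yk q.1| := by
          nlinarith [mul_le_mul_of_nonneg_left h7 hκ.le,
            mul_nonneg (mul_nonneg (sub_nonneg.2 hκ1) r0) (abs_nonneg (yk q.1))]
        have h9 : 0 ≤ yk q.1 * fderiv ℝ yk q.1 (Pi q.1 (l q.1)) + rho N q.2 * yk q.1 ^ 2 := by
          nlinarith [a3 u, mul_le_mul_of_nonneg_right h8 (abs_nonneg (yk q.1)), sq_abs (yk q.1)]
        simp only [smul_apply, add_apply, ContinuousLinearMap.comp_apply, smul_eq_mul,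
          ContinuousLinearMap.coe_snd', h5, h6, nsmul_eq_mul]
        rw [mul_inv_cancel_left₀ (by linarith)]
        norm_num
        nlinarith [mul_nonneg (add_nonneg zero_le_one r0) h9]
      · simp [a2 u]
    · rw [outX q hq c', fz sΛ]
      positivity
  let K := {q : V × ℂ | q.1 ∈ ⋃ i, A i ∧ psT φ ε q ≤ 7 / 4 ∧ y' ^ 2 ≤ W q}
  have cK : IsCompact K := by
    refine ((isCompact_iUnion cA).prod
      (isCompact_closedBall (0 : ℂ) (7 / 4 / ε + 1))).of_isClosed_subset (((isCompact_iUnion cA).isClosed.preimage continuous_fst).inter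
        ((isClosed_le (contDiff_psT hA.sφ ε).continuous continuous_const).inter
          (isClosed_le continuous_const sW.continuous))) fun q hq => ⟨hq.1, ?_⟩
    obtain ⟨i, hi⟩ := mem_iUnion.1 hq.1
    have h1 := hq.2.1
    have h2 : ‖q.2‖ ^ 2 ≤ 7 / 4 / ε := by
      rw [le_div_iff₀ hε, ← nq_eq]
      unfold psT at h1
      linarith [hA.nn _ (mA i _ hi).1]
    rw [mem_closedBall_zero_iff]
    nlinarith [sq_nonneg (‖q.2‖ - 1)]
  have cf : ∀ {f : V × ℂ → ℝ}, ContDiff ℝ ∞ f → ContinuousOn (fun q => fderiv ℝ f q (X q)) K :=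
    fun h => ((h.continuous_fderiv (by simp)).clm_apply cX).continuousOn
  obtain ⟨b, hb, kb⟩ := exists_pos_le cK (cf sT) fun q hq => by
    obtain ⟨i, hi⟩ := mem_iUnion.1 hq.1
    have h1 : 0 < W q - y' ^ 2 / 4 := by nlinarith [hq.2.2]
    obtain ⟨a1, a2⟩ := inT q (mA i _ hi).1 i hi
    rw [a1]
    exact mul_pos (mul_pos (by positivity) (expNegInvGlue.pos_of_pos h1)) (a2 (by linarith))
  obtain ⟨C, kC⟩ := cK.exists_bound_of_continuousOn (cf sL')
  have ha : 0 < (|C| + 1) / b := by positivity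
  have dΦ : ∀ q v, fderiv ℝ (fun q => L' q + (|C| + 1) / b * T q) q v =
      fderiv ℝ L' q v + (|C| + 1) / b * fderiv ℝ T q v := fun q v => by
    simp [((D sL' q).hasFDerivAt.fun_add ((D sT q).hasFDerivAt.const_mul _)).fderiv]
  refine ⟨G', fun q => L' q + (|C| + 1) / b * T q, sG, sL'.add (contDiff_const.mul sT),
    fun q hq h => ?_, fun q hq h => ?_⟩
  · rcases h with h | h
    · exact (out q fun i k => (mA i _ k).2.1.not_ge h).mono fun _ k => k.1
    · filter_upwards [self_mem_nhdsWithin, mem_nhdsWithin_of_mem_nhds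
        ((isOpen_lt continuous_const continuous_snd.norm).mem_nhds h)] with q' a b
      exact Finset.sum_eq_zero fun i _ => (hB i).rad q' a b
  have h1 : φ q.1 ≤ 7 / 4 := le_trans (le_add_of_nonneg_right (mul_nonneg hε.le (nq_nonneg _))) h
  by_cases c : ∃ i, q.1 ∈ A i
  · obtain ⟨i, c⟩ := c
    rcases lt_or_ge (W q) (y' ^ 2) with k | k
    · have n := eventually_eventually_nhdsWithin.2 (inn q i c)
      refine Ly.le (Ly.congr ((hB i).ly q c (((inn q i c).self_of_nhdsWithin hq).2.2 ▸ k)) hq ?_)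
        hq ?_
      · filter_upwards [self_mem_nhdsWithin, n] with q' a b
        exact XT_congr hT sG (hB i).sG a (b.mono fun _ z => z.1)
      · filter_upwards [self_mem_nhdsWithin, n, mem_nhdsWithin_of_mem_nhds ((isOpen_lt
          (hA.sφ.continuous.comp continuous_fst) continuous_const).mem_nhds (mA i _ c).2.1)]
          with q' a b d
        rw [dΦ, fderiv_congr_tg (D sL' q') (D ((sL.comp contDiff_fst).add (hB i).sL) q') a
          (b.mono fun _ z => z.2.1) (tg q' a)]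
        exact le_add_of_nonneg_right (mul_nonneg ha.le (nn q' a (le_trans (le_of_lt d) one_le_two)))
    · have hK : q ∈ K := ⟨mem_iUnion.2 ⟨i, c⟩, h, k⟩
      have h2 := mul_le_mul_of_nonneg_left (kb q hK) ha.le
      rw [div_mul_cancel₀ _ hb.ne'] at h2
      refine Or.inl ?_
      rw [dΦ]
      linarith [(abs_le.1 (kC q hK)).1, le_abs_self C]
  · have c' := not_exists.1 c
    have r0 := rho_nonneg hN q.2
    refine Or.inl ?_
    rw [dΦ, fderiv_congr_tg (D sL' q) (D (sL.comp contDiff_fst) q) hq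
      ((out q c').mono fun _ z => z.2.1) (tg q hq)]
    refine add_pos_of_pos_of_nonneg ?_ (mul_nonneg ha.le (nn q hq (by linarith)))
    rw [outX q hq c']
    exact (fz sL q).symm ▸ mul_pos (by positivity) (hL _ hq h1 c')

end Pool.Agent.MP_6d695c_gt.T2
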