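import Pool.Agent.MP_6d695c_gt.t2.Spec

/-! PROJECT T2, row THETA: the map `Th` relates the Liouville fields. -/

open scoped Manifold ContDiff Topology MeasureTheory
open Set Metric Filter Real

namespace Pool.Agent.MP_6d695c_gt.T2

open SW T1 Theta

/-- the inverse of `Th` -/
noncomputable def ThI (N : ℝ) (x : Mo) : B4 × ℂ :=
  ((log ((x.1.1 + rho N x.2) / (1 + rho N x.2)), x.1.2.1, x.1.2.2 / (x.1.1 + rho N x.2)),
    x.2 * Complex.exp (-(Complex.I * ((N * x.1.2.1.1 : ℝ) : ℂ))))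

theorem rho_Th (N : ℝ) (x : B4 × ℂ) : rho N (Th N x).2 = rho N x.2 := by
  rw [rho, rho, nq_Th]

theorem Th_add_rho (N : ℝ) (x : B4 × ℂ) :
    (Th N x).1.1 + rho N (Th N x).2 = exp x.1.1 * (1 + rho N x.2) := by
  rw [rho_Th]
  simp [Th]

theorem ThI_Th {N : ℝ} (hN : 0 ≤ N) (x : B4 × ℂ) : ThI N (Th N x) = x := by
  have h : 0 < 1 + rho N x.2 := by linarith [rho_nonneg hN x.2]
  have h' : 0 < exp x.1.1 * (1 + rho N x.2) := mul_pos (exp_pos _) h
  rw [ThI, Th_add_rho, rho_Th, mul_div_assoc, div_self h.ne', mul_one, log_exp]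
  refine Prod.ext (Prod.ext rfl (Prod.ext rfl ?_)) ?_
  · exact mul_div_cancel_left₀ _ h'.ne'
  · show x.2 * Complex.exp (Complex.I * ((N * x.1.2.1.1 : ℝ) : ℂ)) *
      Complex.exp (-(Complex.I * ((N * x.1.2.1.1 : ℝ) : ℂ))) = x.2
    rw [mul_assoc, ← Complex.exp_add, add_neg_cancel, Complex.exp_zero, mul_one]

theorem contDiffAt_ThI {N : ℝ} (hN : 0 ≤ N) {x : Mo} (hx : x.1.1 + rho N x.2 ≠ 0) :
    ContDiffAt ℝ ∞ (ThI N) x := by
  have h : 1 + rho N x.2 ≠ 0 := by linarith [rho_nonneg hN x.2]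
  have h1 : ContDiff ℝ ∞ fun x : Mo => rho N x.2 := (contDiff_rho N).comp contDiff_snd
  have h2 : ContDiff ℝ ∞ fun x : Mo => ((N * x.1.2.1.1 : ℝ) : ℂ) :=
    Complex.ofRealCLM.contDiff.comp (by fun_prop : ContDiff ℝ ∞ fun x : Mo => N * x.1.2.1.1)
  have h3 : ContDiff ℝ ∞ fun x : Mo => Complex.exp (-(Complex.I * ((N * x.1.2.1.1 : ℝ) : ℂ))) :=
    (Complex.contDiff_exp (𝕜 := ℝ)).comp (contDiff_const.mul h2).neg
  have h4 : ContDiffAt ℝ ∞ (fun x : Mo => x.1.1 + rho N x.2) x :=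
    (contDiff_fst.fst.add h1).contDiffAt
  have h5 : ContDiffAt ℝ ∞ (fun x : Mo => 1 + rho N x.2) x := (contDiff_const.add h1).contDiffAt
  exact (((h4.div h5 h).log (div_ne_zero hx h)).prodMk (contDiffAt_fst.snd.fst.prodMk
    (contDiffAt_fst.snd.snd.div h4 hx))).prodMk (contDiffAt_snd.mul h3.contDiffAt)

theorem diff_ThI {N : ℝ} (hN : 0 ≤ N) (x : B4 × ℂ) : DifferentiableAt ℝ (ThI N) (Th N x) := by
  have h : 0 < 1 + rho N x.2 := by linarith [rho_nonneg hN x.2]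
  refine (contDiffAt_ThI hN ?_).differentiableAt (by simp)
  rw [Th_add_rho]
  exact (mul_pos (exp_pos _) h).ne'

theorem surj_Th {N : ℝ} (hN : 0 ≤ N) (x : B4 × ℂ) : Function.Surjective (fderiv ℝ (Th N) x) := by
  have d := (contDiff_Th N).differentiable (by simp) x
  have e : fderiv ℝ (ThI N ∘ Th N) x = ContinuousLinearMap.id ℝ _ := by
    rw [show ThI N ∘ Th N = id from funext (ThI_Th hN), fderiv_id]
  rw [fderiv_comp x (diff_ThI hN x) d] at e
  have i : Function.Injective (fderiv ℝ (Th N) x) :=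
    Function.LeftInverse.injective (g := fderiv ℝ (ThI N) (Th N x)) fun v =>
      congrArg (fun L => L v) e
  exact (LinearMap.injective_iff_surjective (f := (fderiv ℝ (Th N) x).toLinearMap)).1 i

theorem fderiv_Th_p (N : ℝ) (x v : B4 × ℂ) : (fderiv ℝ (Th N) x v).1.2.1 = v.1.2.1 := by
  have d := ((contDiff_Th N).differentiable (by simp) x).hasFDerivAt
  have h1 := d.fst.snd.fst
  have h2 := (hasFDerivAt_id (𝕜 := ℝ) x).fst.snd.fst
  exact congrArg (fun L => L v) (h1.unique h2)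

theorem fderiv_Th_w (N : ℝ) (x v : B4 × ℂ) : (fderiv ℝ (Th N) x v).2 =
    (v.2 + x.2 * (Complex.I * ((N * v.1.2.1.1 : ℝ) : ℂ))) *
      Complex.exp (Complex.I * ((N * x.1.2.1.1 : ℝ) : ℂ)) := by
  have d := ((contDiff_Th N).differentiable (by simp) x).hasFDerivAt
  have h1 := d.snd
  have h2 : HasFDerivAt (fun y : B4 × ℂ => ((N * y.1.2.1.1 : ℝ) : ℂ)) _ x :=
    Complex.ofRealCLM.hasFDerivAt.comp x ((hasFDerivAt_id x).fst.snd.fst.fst.const_mul N)
  have h3 := (hasFDerivAt_snd (p := x)).fun_mul (h2.const_mul Complex.I).cexp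
  have := congrArg (fun L => L v) (h1.unique h3)
  refine Eq.trans this ?_
  simp
  ring

theorem rad_rot (z u e : ℂ) (he : e.re ^ 2 + e.im ^ 2 = 1) :
    (z * e).re * (u * e).im - (z * e).im * (u * e).re = z.re * u.im - z.im * u.re := by
  simp only [Complex.mul_re, Complex.mul_im]
  linear_combination (z.re * u.im - z.im * u.re) * he

theorem lm_Th (N : ℝ) (x v : B4 × ℂ) :
    lm (Th N x) (fderiv ℝ (Th N) x v) = lT N lb x v := by
  have he : (Complex.exp (Complex.I * ((N * x.1.2.1.1 : ℝ) : ℂ))).re ^ 2 +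
      (Complex.exp (Complex.I * ((N * x.1.2.1.1 : ℝ) : ℂ))).im ^ 2 = 1 := by
    have := nq_eq (Complex.exp (Complex.I * ((N * x.1.2.1.1 : ℝ) : ℂ)))
    rwa [mul_comm Complex.I, Complex.norm_exp_ofReal_mul_I, one_pow, mul_comm _ Complex.I] at this
  have h := rad_rot x.2 (v.2 + x.2 * (Complex.I * ((N * v.1.2.1.1 : ℝ) : ℂ))) _ he
  rw [lm_apply, fderiv_Th_p, fderiv_Th_w, lT_apply, lb_apply,
    show (Th N x).2 = x.2 * Complex.exp (Complex.I * ((N * x.1.2.1.1 : ℝ) : ℂ)) from rfl, h]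
  simp only [Th, rho, nq, Complex.add_re, Complex.add_im, Complex.mul_re, Complex.mul_im,
    Complex.I_re, Complex.I_im, Complex.ofReal_re, Complex.ofReal_im]
  ring

theorem theta (mod : ModStmt) (smpT : SmpTStmt) : ThetaStmt := by
  intro N hN F hF
  have h := (smpT B4 B4 univ lb Pb N mod.1 hN).1
  rw [ov_univ] at h
  have key : ∀ x, fderiv ℝ (Th N) x (XT N lb Pb (fun x => F (Th N x)) x) = Xm F (Th N x) := by
    intro x
    obtain ⟨k1, k2⟩ := prel (B4 × ℂ) Mo _ _ univ univ univ _ _ _ _ (Th N) 1 x h mod.2.2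
      isOpen_univ trivial trivial (contDiff_Th N).contDiffOn
      (fun y _ _ => ⟨trivial, fun v _ => by rw [lm_Th, one_mul]⟩)
      fun w _ => (surj_Th hN x w).imp fun v hv => ⟨tg_univ _ _, hv⟩
    have c : fderiv ℝ (fun x => F (Th N x)) x =
        (fderiv ℝ F (Th N x)).comp (fderiv ℝ (Th N) x) :=
      fderiv_comp x (hF.differentiable (by simp) _) ((contDiff_Th N).differentiable (by simp) x)
    rw [XT, map_add, map_add, c, k1, k2, one_smul, Xm, map_add]
  refine fun x => ⟨key x, fun Φ hΦ hL => ?_⟩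
  exact rel (B4 × ℂ) Mo univ univ univ (Th N) (ThI N) _ _ _ Φ x 0 isOpen_univ trivial trivial
    (contDiff_Th N).contDiffOn (diff_ThI hN x) (hΦ.comp (contDiff_Th N)) hΦ
    (Eventually.of_forall fun y => ⟨trivial, ThI_Th hN y, tg_univ _ _, key y, (add_zero _).symm⟩) hL

end Pool.Agent.MP_6d695c_gt.T2
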