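import Pool.Agent.MP_6d695c_gt.t2.SpecB

/-! PROJECT T2, row TRANSF: a box is moved by a smooth chart. -/

open scoped Manifold ContDiff Topology MeasureTheory
open Set Metric Filter Real

namespace Pool.Agent.MP_6d695c_gt.T2

open SW T1 Theta

theorem transf (mod : ModStmt) (smpT : SmpTStmt) : TransfStmt := by
  intro V E _ _ _ _ _ M l Pi Ψ κ O A N' yk L yk' L' y' N R G δL δv hS hC hA hAO syk sL syk' sL' hN
    hev hB
  have hp := hC.par
  have hT := (smpT V E M l Pi N hS hN).1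
  have hT' := (smpT B4 B4 univ lb Pb N mod.1 hN).1
  have hK : IsCompact (Ψ '' A) := hA.image_of_continuousOn (hp.sg.continuousOn.mono hAO)
  have hKN : Ψ '' A ⊆ N' := fun x hx => ((hp.mem_image hAO).1 hx).2.1
  obtain ⟨b, sb, -, tb, b1, -⟩ := exists_cut hK hp.oN hKN
  set k : V × ℂ → B4 × ℂ := fun q => (κ q.1, q.2) with hk
  have sk : ContDiff ℝ ∞ k := (hC.sκ.comp contDiff_fst).prodMk contDiff_snd
  have dk : ∀ q v : V × ℂ, fderiv ℝ k q v = (fderiv ℝ κ q.1 v.1, v.2) := fun q v => by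
    have h1 : HasFDerivAt k _ q :=
      ((hC.sκ.differentiable (by simp) q.1).hasFDerivAt.comp q hasFDerivAt_fst).prodMk
        hasFDerivAt_snd
    rw [h1.fderiv]
    rfl
  have hatA : ∀ x ∈ M, x ∈ N' → ∀ a : ℝ, (κ x ∉ A → a = 0) → b x * a = a := by
    intro x hx hxN a ha
    by_cases hc : κ x ∈ A
    · rw [(b1 _ ((hp.mem_image hAO).2 ⟨hx, hxN, hc⟩)).self_of_nhds, one_mul]
    · rw [ha hc, mul_zero]
  have hatB : ∀ x ∈ M, x ∉ Ψ '' A → ∀ a : ℝ, (κ x ∉ A → a = 0) → b x * a = 0 := by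
    intro x hx hxC a ha
    by_cases hxN : x ∈ N'
    · rw [ha fun hc => hxC ((hp.mem_image hAO).2 ⟨hx, hxN, hc⟩), mul_zero]
    · rw [image_eq_zero_of_notMem_tsupport fun h' => hxN (tb h'), zero_mul]
  have oG : ∀ q : V × ℂ, κ q.1 ∉ A → G (k q) = 0 := fun q hq => (hB.out (k q) (mem_univ _) hq).1
  have oL : ∀ q : V × ℂ, κ q.1 ∉ A → δL (k q) = 0 := fun q hq =>
    (hB.out (k q) (mem_univ _) hq).2.1
  have ov' : ∀ x : V, κ x ∉ A → δv (κ x) = 0 := fun x hx =>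
    (hB.out (κ x, 0) (mem_univ _) hx).2.2
  have sG : ContDiff ℝ ∞ fun q : V × ℂ => b q.1 * G (k q) :=
    (sb.comp contDiff_fst).mul (hB.sG.comp sk)
  have sδL : ContDiff ℝ ∞ fun q : V × ℂ => b q.1 * δL (k q) :=
    (sb.comp contDiff_fst).mul (hB.sL.comp sk)
  have sδv : ContDiff ℝ ∞ fun x : V => b x * δv (κ x) := sb.mul (hB.sv.comp hC.sκ)
  have oN : IsOpen {q : V × ℂ | q.1 ∈ N'} := hp.oN.preimage continuous_fst
  have nA : ∀ q : V × ℂ, q.1 ∈ N' → ∀ᶠ x in 𝓝[ov M ℂ] q, x.1 ∈ M ∧ x.1 ∈ N' := fun q hq =>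
    eventually_mem_nhdsWithin.and (mem_nhdsWithin_of_mem_nhds (oN.mem_nhds hq))
  have fA : ∀ q : V × ℂ, q.1 ∈ M → q.1 ∈ N' →
      fderiv ℝ k q (XT N l Pi (fun q => b q.1 * G (k q)) q) = XT N lb Pb G (k q) := by
    intro q hq hqN
    rw [XT_congr (G' := fun q => G (k q)) hT sG (hB.sG.comp sk) hq
      ((nA q hqN).mono fun x hx => hatA _ hx.1 hx.2 _ (oG x))]
    obtain ⟨r1, r2⟩ := prel (V × ℂ) (B4 × ℂ) (E × ℂ) (B4 × ℂ) (ov M ℂ) {q : V × ℂ | q.1 ∈ N'}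
      (ov univ ℂ) (lT N l) (PT N l Pi) (lT N lb) (PT N lb Pb) k 1 q hT hT' oN hqN hq sk.contDiffOn
      (fun x hx hxN => ⟨mem_univ _, fun v hv => by
        have h1 := hp.ret hx hxN (Symp.tg_ov.1 hv)
        have h2 := hC.form _ (hp.rm _ hx hxN).1 (fderiv ℝ κ x.1 v.1)
        rw [h1, (hp.rm _ hx hxN).2] at h2
        rw [dk, lT_apply, lT_apply, one_mul, h2]⟩)
      (fun w _ => by
        obtain ⟨h1, h2⟩ := hp.rm _ hq hqN
        refine ⟨(fderiv ℝ Ψ (κ q.1) w.1, w.2), Symp.tg_ov.2 ?_, ?_⟩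
        · have h3 := hp.tg h1
          rw [h2] at h3
          rw [h3]
          exact mem_range_self _
        · have h3 := hp.dr_dg h1 w.1
          rw [h2] at h3
          rw [dk, h3])
    have h1 : HasFDerivAt (fun q => G (k q)) _ q :=
      (hB.sG.differentiable (by simp) (k q)).hasFDerivAt.comp q
        (sk.differentiable (by simp) q).hasFDerivAt
    rw [XT, XT, map_add, map_add, map_add, r2, h1.fderiv, r1, one_smul]
  have near : ∀ q : V × ℂ, q.1 ∈ Ψ '' A → ∀ᶠ x in 𝓝[ov M ℂ] q,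
      (x.1 ∈ M ∧ x.1 ∈ N') ∧ yk' (κ x.1) = yk x.1 ∧ L' (κ x.1) = L x.1 := by
    intro q hq
    obtain ⟨h1, h2, h3⟩ := (hp.mem_image hAO).1 hq
    have h4 : ContinuousAt (fun x : V × ℂ => κ x.1) q :=
      (hC.sκ.continuous.comp continuous_fst).continuousAt
    filter_upwards [nA q h2, mem_nhdsWithin_of_mem_nhds (h4.eventually (hev _ h3))] with x a1 a2
    rw [(hp.rm _ a1.1 a1.2).2] at a2
    exact ⟨a1, a2⟩
  have eV : ∀ x : V × ℂ, x.1 ∈ M → x.1 ∈ N' → yk' (κ x.1) = yk x.1 →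
      Vh N yk (fun x => b x * δv (κ x)) x = Vh N yk' δv (k x) := fun x h1 h2 h3 => by
    simp only [Vh, hk]
    rw [hatA _ h1 h2 _ (ov' x.1), h3]
  refine ⟨fun q => b q.1 * G (k q), fun q => b q.1 * δL (k q), fun x => b x * δv (κ x), sG, sδL,
    sδv, fun q hq hqA => ⟨hatB _ hq hqA _ (oG q), hatB _ hq hqA _ (oL q), hatB _ hq hqA _ (ov' _)⟩,
    fun q _ hR => ?_, fun q hq hV => ?_, fun q hq hV => ?_⟩
  · rw [hB.rad (k q) (mem_univ _) hR, mul_zero]
  · obtain ⟨h1, h2, h3⟩ := (hp.mem_image hAO).1 hq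
    have h4 := (near q hq).self_of_nhdsWithin (show q ∈ ov M ℂ from h1)
    rw [eV q h1 h2 h4.2.1] at hV
    have dB : DifferentiableAt ℝ (fun x : B4 × ℂ => (Ψ x.1, x.2)) (k q) :=
      ((hp.dg (hAO h3)).comp (k q) differentiableAt_fst).prodMk differentiableAt_snd
    refine rel (V × ℂ) (B4 × ℂ) (ov M ℂ) univ (ov univ ℂ) k (fun x => (Ψ x.1, x.2)) _
      (XT N lb Pb G) _ (fun x => L' x.1 + δL x) q 0 isOpen_univ (mem_univ _) h1 sk.contDiffOn dB
      ((sL.comp contDiff_fst).add sδL) ((sL'.comp contDiff_fst).add hB.sL) ?_ (hB.ly (k q) h3 hV)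
    filter_upwards [near q hq] with x hx
    refine ⟨mem_univ _, Prod.ext (hp.rm _ hx.1.1 hx.1.2).2 rfl, hT.tan x hx.1.1 _,
      fA x hx.1.1 hx.1.2, ?_⟩
    rw [hatA _ hx.1.1 hx.1.2 _ (oL x), add_zero, ← hx.2.2]
  · obtain ⟨h1, h2, h3⟩ := (hp.mem_image hAO).1 hq
    have h4 := (near q hq).self_of_nhdsWithin (show q ∈ ov M ℂ from h1)
    rw [eV q h1 h2 h4.2.1] at hV
    have h5 : HasFDerivAt (fun x => Vh N yk' δv (k x)) _ q :=
      ((contDiff_Vh syk' hB.sv).differentiable (by simp) (k q)).hasFDerivAt.comp q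
        (sk.differentiable (by simp) q).hasFDerivAt
    rw [fderiv_congr_tg ((contDiff_Vh syk sδv).differentiable (by simp) q) h5.differentiableAt
      (show q ∈ ov M ℂ from h1) ((near q hq).mono fun x hx => eV x hx.1.1 hx.1.2 hx.2.1)
      (show XT N l Pi (fun q => b q.1 * G (k q)) q ∈ _ from hT.tan q h1 _), h5.fderiv,
      ContinuousLinearMap.comp_apply, fA q h1 h2]
    exact hB.up (k q) h3 hV

end Pool.Agent.MP_6d695c_gt.T2
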