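import Pool.Agent.MP_6d695c_gt.t2.Main
import Pool.Agent.MP_6d695c_gt.t2.Smp
import Pool.Agent.MP_6d695c_gt.t2.Jay
import Pool.Agent.MP_6d695c_gt.t2.Low
import Pool.Agent.MP_6d695c_gt.t2.Slab
import Pool.Agent.MP_6d695c_gt.t2.Plug
import Pool.Agent.MP_6d695c_gt.t2.Theta
import Pool.Agent.MP_6d695c_gt.t2.Cuts
import Pool.Agent.MP_6d695c_gt.t2.Kset
import Pool.Agent.MP_6d695c_gt.t2.Glue2
import Pool.Agent.MP_6d695c_gt.t2.ProdT
import Pool.Agent.MP_6d695c_gt.t2.EmbT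
import Pool.Agent.MP_6d695c_gt.t2.LimM
import Pool.Agent.MP_6d695c_gt.t2.BoxL
import Pool.Agent.MP_6d695c_gt.t2.BoxU
import Pool.Agent.MP_6d695c_gt.t2.BoxM
import Pool.Agent.MP_6d695c_gt.t2.Transf
import Pool.Agent.MP_6d695c_gt.t2.BoxG
import Pool.Agent.MP_6d695c_gt.t2.Darb4
import Pool.Agent.MP_6d695c_gt.t2.LimCh
import Pool.Agent.MP_6d695c_gt.t2.Sect3
import Pool.Agent.MP_6d695c_gt.t2.Sum
import Pool.Agent.MP_6d695c_gt.t2.Hyp

/-! PROJECT T2: all rows put together. -/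

namespace Pool.Agent.MP_6d695c_gt.T2

theorem plgAll : PlgStmt := plg (low (jay modS)) slab

theorem boxMAll : BoxMStmt :=
  boxM cuts geo plgAll vest (boxL modS smpT (theta modS smpT) geo)
    (boxU modS smpT (theta modS smpT) geo)

theorem mainAll : Main2Stmt :=
  main2 smpT kset avgT moll (limCh darb4 graph limM) (sect3 recent)
    (boxG cuts boxMAll (transf modS smpT)) (sumS smpT) glue2

end Pool.Agent.MP_6d695c_gt.T2
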