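import Pool.Agent.MP_6d695c_gt.t2.Spec

/-! PROJECT T2, rows EMBT and FINH. -/

open scoped Manifold ContDiff Topology
open Set Metric Filter Real

namespace Pool.Agent.MP_6d695c_gt.T2

open SW T1 Theta

namespace EmbT

section Open
variable {X E : Type} [NormedAddCommGroup X] [NormedSpace ℝ X] [NormedAddCommGroup E]
  [NormedSpace ℝ E] {S U : Set X}

theorem tg_inter (hU : IsOpen U) {x : X} (hx : x ∈ U) : Tg (S ∩ U) x = Tg S x := by
  ext v
  constructor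
  · rintro ⟨γ, h0, h1, h2⟩
    exact ⟨γ, h0, h1, h2.mono fun _ h => h.1⟩
  · rintro ⟨γ, h0, h1, h2⟩
    exact ⟨γ, h0, h1, h2.and (h1.continuousAt.eventually (hU.mem_nhds (h0 ▸ hx)))⟩

theorem sub_inter (h : Sub E S) (hU : IsOpen U) : Sub E (S ∩ U) := by
  intro p hp
  obtain ⟨g, r, O, N, hP, hN⟩ := h p hp.1
  refine ⟨g, r, O ∩ g ⁻¹' U, N, ⟨hP.sg.continuousOn.isOpen_inter_preimage hP.oO hU, hP.oN,
    hP.sg.mono inter_subset_left, hP.sr, fun y hy => ?_, fun x hx hx' => ?_⟩, hN⟩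
  · have := hP.gm y hy.1
    exact ⟨⟨this.1, hy.2⟩, this.2⟩
  · have := hP.rm x hx.1 hx'
    exact ⟨⟨this.1, by rw [mem_preimage, this.2]; exact hx.2⟩, this.2⟩

theorem smp_inter {l : X → X →L[ℝ] ℝ} {Pi : X → (X →L[ℝ] ℝ) →L[ℝ] X} (h : Smp E S l Pi)
    (hU : IsOpen U) : Smp E (S ∩ U) l Pi :=
  ⟨sub_inter h.sub hU, h.sl, h.sP, fun x hx α => by
    rw [tg_inter hU hx.2]; exact h.tan x hx.1 α, fun x hx α v hv => by
    rw [tg_inter hU hx.2] at hv; exact h.dual x hx.1 α v hv⟩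

end Open

variable {d : ℕ} {W : Type} [TopologicalSpace W] [ChartedSpace (Euc d) W]
  {V : Type} [NormedAddCommGroup V] [NormedSpace ℝ V]

/-- forget the index -/
noncomputable def pr (V : Type) [NormedAddCommGroup V] [NormedSpace ℝ V] :
    (V × (Fin 1 → ℂ)) →L[ℝ] V × ℂ :=
  (ContinuousLinearMap.fst ℝ V _).prod
    ((ContinuousLinearMap.proj (R := ℝ) (0 : Fin 1)).comp (ContinuousLinearMap.snd ℝ V _))

theorem eT_smooth {e : W → V} (he : ContMDiff (𝓡 d) 𝓘(ℝ, V) ∞ e) :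
    ContMDiff (IP d 1) 𝓘(ℝ, V × ℂ) ∞ (eT e) :=
  (pr V).contDiff.contMDiff.comp (eh_smooth he)

theorem eT_der {e : W → V} (he : ContMDiff (𝓡 d) 𝓘(ℝ, V) ∞ e) (p : W × (Fin 1 → ℂ))
    (v : Euc d × (Fin 1 → ℂ)) :
    mfderiv (IP d 1) 𝓘(ℝ, V × ℂ) (eT e) p v = (mfderiv (𝓡 d) 𝓘(ℝ, V) e p.1 v.1, v.2 0) := by
  have h0 := ((eh_smooth (k := 1) he).mdifferentiableAt (x := p) (by simp)).hasMFDerivAt
  have h1 := ((pr V).hasFDerivAt.hasMFDerivAt.comp p h0).mfderiv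
  exact (congrArg (fun L => L v) h1).trans (congrArg (pr V) (eh_der he p v))

theorem psW2_smooth {φ : W → ℝ} (h : ContMDiff (𝓡 d) 𝓘(ℝ, ℝ) ∞ φ) (ε : ℝ) :
    ContMDiff (IP d 1) 𝓘(ℝ, ℝ) ∞ (psW2 φ ε) :=
  (contDiff_psT (V := ℝ) (φ := id) contDiff_id ε).contMDiff.comp (eT_smooth h)

theorem psW2_der {φ : W → ℝ} (h : ContMDiff (𝓡 d) 𝓘(ℝ, ℝ) ∞ φ) (ε : ℝ) (p : W × (Fin 1 → ℂ))
    (v : Euc d × (Fin 1 → ℂ)) :
    der (IP d 1) (psW2 φ ε) p v = der (𝓡 d) φ p.1 v.1 +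
      ε * (2 * ((p.2 0).re * (v.2 0).re + (p.2 0).im * (v.2 0).im)) := by
  have h1 : HasFDerivAt (psT (V := ℝ) id ε) _ (eT φ p) :=
    (hasFDerivAt_fst (𝕜 := ℝ) (p := eT φ p)).add
      (((contDiff_nq.differentiable (by simp) (eT φ p).2).hasFDerivAt.comp (eT φ p)
        (hasFDerivAt_snd (𝕜 := ℝ) (p := eT φ p))).const_mul ε)
  refine (der_comp (e := eT φ) (u := psT id ε) (u' := psW2 φ ε)
    ((eT_smooth h).mdifferentiableAt (by simp)) h1.differentiableAt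
    (Eventually.of_forall fun _ => rfl) v).trans ?_
  rw [eT_der h, h1.fderiv]
  simp only [add_apply, smul_apply, ContinuousLinearMap.comp_apply, ContinuousLinearMap.coe_fst',
    ContinuousLinearMap.coe_snd', fderiv_nq, smul_eq_mul]
  rfl

theorem psW2_cpt {φ : W → ℝ} (h : Exhausting (𝓡 d) φ) (nn : ∀ x, 0 ≤ φ x) {ε : ℝ} (hε : 0 < ε)
    (a : ℝ) : IsCompact {p | psW2 φ ε p ≤ a} := by
  refine ((h.2 a).prod (isCompact_closedBall (0 : Fin 1 → ℂ) (1 + |a| / ε))).of_isClosed_subset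
    (isClosed_le (psW2_smooth h.1 ε).continuous continuous_const) fun p hp => ?_
  have h1 := nn p.1
  have h2 : φ p.1 + ε * nq (p.2 0) ≤ a := hp
  have h3 := mul_nonneg hε.le (nq_nonneg (p.2 0))
  refine ⟨show φ p.1 ≤ a by linarith, ?_⟩
  rw [mem_closedBall_zero_iff, pi_norm_le_iff_of_nonneg (by positivity)]
  intro i
  rw [Subsingleton.elim i 0]
  have h4 : nq (p.2 0) ≤ |a| / ε := by
    rw [le_div_iff₀ hε]
    linarith [le_abs_self a]
  rw [nq_eq] at h4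
  nlinarith [sq_nonneg (‖p.2 0‖ - 1)]

theorem radial_one (z v : Fin 1 → ℂ) :
    radial z v = ((z 0).re * (v 0).im - (z 0).im * (v 0).re) / 2 := by
  simp [radial]
  ring

end EmbT

open EmbT in
theorem embT (smpT : SmpTStmt) : EmbTStmt := by
  intro d W V _ _ _ _ _ _ l Z φ e l' Pi φ' ε N hE hε hN
  have h6 : ∀ x : W × (Fin 1 → ℂ), psW2 φ ε x < 6 → φ x.1 < 6 := fun x hx => by
    have h : φ x.1 + ε * nq (x.2 0) < 6 := hx
    linarith [mul_nonneg hε.le (nq_nonneg (x.2 0))]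
  have hfn : ∀ x : W × (Fin 1 → ℂ), φ x.1 < 6 → psT φ' ε (eT e x) = psW2 φ ε x := fun x hx => by
    simp only [psT, psW2, eT, hE.fn _ hx]
  have hs := contDiff_psT hE.amb.sφ ε
  have hU : IsOpen {q | psT φ' ε q < 6} := isOpen_lt hs.continuous continuous_const
  have img : eT e '' {x | psW2 φ ε x < 6} =
      ov (e '' {x | φ x < 6}) ℂ ∩ {q | psT φ' ε q < 6} := by
    ext q
    constructor
    · rintro ⟨x, hx, rfl⟩
      exact ⟨⟨x.1, h6 x hx, rfl⟩, (hfn x (h6 x hx)).trans_lt hx⟩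
    · rintro ⟨⟨x, hx, h1⟩, h3⟩
      have h4 : eT e (x, fun _ => q.2) = q := Prod.ext h1 rfl
      exact ⟨_, (hfn (x, _) hx).symm.trans_lt (by rwa [h4]), h4⟩
  obtain ⟨hS, -⟩ := smpT V (Euc d) _ l' Pi N (smp_of_amb hE.amb) hN
  refine ⟨img ▸ inter_subset_left, ⟨psW2_smooth hE.ex.1 ε, psW2_cpt hE.ex hE.nn hε⟩,
    fun x hx => ?_, eT_smooth hE.sm, img ▸ smp_inter hS hU, hs, fun x hx => hfn x (h6 x hx),
    fun x hx v => ?_, fun x hx => ?_, fun x hx u v h => ?_, fun x hx => ?_⟩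
  · refine lt_of_lt_of_eq ?_ (psW2_der hE.ex.1 ε x (ZW Z N x)).symm
    have h0 : der (𝓡 d) φ x.1 ((1 + rho N (x.2 0))⁻¹ • (show Euc d from Z x.1)) =
        (1 + rho N (x.2 0))⁻¹ * der (𝓡 d) φ x.1 (Z x.1) :=
      map_smul (mfderiv (𝓡 d) 𝓘(ℝ, ℝ) φ x.1) _ _
    have h1 : 2 ≤ φ x.1 + ε * nq (x.2 0) := hx
    have h2 := hE.nd x.1
    have h3 : 0 < (1 + rho N (x.2 0))⁻¹ := inv_pos.2 (by linarith [rho_nonneg hN (x.2 0)])
    have h4 : ε * (2 * ((x.2 0).re * (((1 / 2 : ℝ) • x.2) 0).re +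
        (x.2 0).im * (((1 / 2 : ℝ) • x.2) 0).im)) = ε * nq (x.2 0) := by
      simp [nq]
      left
      ring
    refine lt_of_lt_of_eq ?_ (congrArg₂ (· + ·) h0 h4).symm
    have h5 := mul_nonneg hε.le (nq_nonneg (x.2 0))
    by_cases h : 1 ≤ φ x.1
    · linarith [mul_pos h3 (hE.shell x.1 (by linarith))]
    · linarith [not_le.1 h, mul_nonneg h3.le h2]
  · refine Eq.trans ?_ (congrArg (lT N l' (eT e x)) (eT_der hE.sm x v)).symm
    rw [lT_apply]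
    refine Eq.trans (b := (1 + rho N (x.2 0)) * l x.1 v.1 + radial x.2 v.2) rfl ?_
    rw [radial_one, hE.form x.1 (h6 x hx) v.1]
    rfl
  · have hm : eT e x ∈ {q | psT φ' ε q < 6} := (hfn x (h6 x hx)).trans_lt hx
    have ht : Tg (e '' {x | φ x < 6}) (eT e x).1 = range (mfderiv (𝓡 d) 𝓘(ℝ, V) e x.1) :=
      hE.tg x.1 (h6 x hx)
    rw [img, tg_inter hU hm]
    ext v
    rw [Symp.tg_ov, ht]
    constructor
    · rintro ⟨u, hu⟩
      exact ⟨(show Euc d × (Fin 1 → ℂ) from (u, fun _ => v.2)),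
        (eT_der hE.sm x _).trans (Prod.ext hu rfl)⟩
    · rintro ⟨u, hu⟩
      exact ⟨_, congrArg Prod.fst ((eT_der hE.sm x u).symm.trans hu)⟩
  · have h1 := (eT_der hE.sm x u).symm.trans (h.trans (eT_der hE.sm x v))
    refine Prod.ext (hE.inj x.1 (h6 x hx) (congrArg Prod.fst h1)) (funext fun i => ?_)
    rw [Subsingleton.elim i 0]
    exact congrArg Prod.snd h1
  · obtain ⟨ρ, h1, h2⟩ := hE.inv x.1 (h6 x hx)
    refine ⟨fun v => (ρ v.1, fun _ => v.2), ?_, ?_⟩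
    · exact (ContMDiffAt.comp (eT e x) h1 contDiff_fst.contMDiff.contMDiffAt).prodMk
        (contDiff_pi.2 fun _ => contDiff_snd).contMDiff.contMDiffAt
    · filter_upwards [(continuous_fst.tendsto (eT e x)).eventually h2] with v hv x' hx' h
      subst h
      refine Prod.ext (hv x'.1 (h6 x' hx') rfl) (funext fun i => ?_)
      rw [Subsingleton.elim i 0]
      rfl

open FinG in
theorem finH : FinHStmt := by
  intro E _ _ _ H _ I _ W _ _ _ V E' _ _ _ _ _ _ L Z' ψ e l' Pi ψ' G Φ A B hsm hfam hE hW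
  obtain ⟨l, hl⟩ : ∃ l, l = L 1 := ⟨_, rfl⟩
  obtain ⟨Z, hZ⟩ : ∃ Z, Z = Z' 1 := ⟨_, rfl⟩
  have hL : IsLiouville I l Z := hl ▸ hZ ▸ (hfam 1 ⟨zero_le_one, le_rfl⟩).1
  rw [← hl, ← hZ] at hE
  have hP : PreL I l Z := ⟨hL.smooth, hL.nondeg, hL.dual⟩
  have hψ := hE.ex.1
  have hc : Continuous ψ := hψ.continuous
  have hlt : ∀ x, ψ x < 6 → ∀ᶠ y in 𝓝 x, ψ y < 6 := fun x hx =>
    hc.continuousAt.eventually (gt_mem_nhds hx)
  have hd : ∀ x, ψ x < 6 → ∀ u v, dForm I l x u v = dd l' (e x) (De I e x u) (De I e x v) :=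
    fun x hx => (mfd _ _ I W l hL.smooth).2.1 _ e l' x (hE.sm x) hE.smp.sl.contDiffAt
      ((hlt x hx).mono fun y hy => hE.form y hy)
  have ht : ∀ p, ψ p < 6 → Tendsto e (𝓝 p) (𝓝[e '' {x | ψ x < 6}] (e p)) := fun p hp =>
    tendsto_nhdsWithin_iff.2 ⟨hE.sm.continuous.tendsto p, (hlt p hp).mono fun q hq => ⟨q, hq, rfl⟩⟩
  have hG := hW.sG
  have hΦ := hW.sΦ
  have hA := hW.Apos
  have hG0 : ∀ q, 2 ≤ ψ q → ψ q < 6 → ∀ᶠ v in 𝓝 q, G (e v) = 0 := fun q h h6 =>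
    (ht q h6).eventually (hW.far _ ⟨q, h6, rfl⟩ (by rwa [hE.fn _ h6]))
  obtain ⟨GW, hGW⟩ : ∃ GW, GW = gl ψ e G fun _ => 0 := ⟨_, rfl⟩
  have hGWs : ContMDiff I 𝓘(ℝ, ℝ) ∞ GW := hGW ▸ gl_smooth hc hE.sm hG contMDiff_const
    fun q h5 h6 => (hG0 q (by linarith) h6).self_of_nhds
  have hGW0 : ∀ p, 2 ≤ ψ p → ∀ᶠ q in 𝓝 p, GW q = 0 := fun p hp => by
    rw [hGW]
    refine gl_out ?_
    by_cases h6 : ψ p < 6
    · exact (hG0 p hp h6).mono fun q hq _ => hq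
    · filter_upwards [hc.continuousAt.eventually
        (lt_mem_nhds (show 5 < ψ p by linarith [not_lt.1 h6]))] with q hq h7
      exact (hG0 q (by linarith [show 5 < ψ q from hq]) h7).self_of_nhds
  obtain ⟨X, hX, hPre⟩ := family hP hGWs
  have hfarZ : ∀ t p, 2 ≤ ψ p → ZG Z X t p = Z p := fun t p hp => by
    have h1 : X p = 0 := hP.nondeg p _ fun v => (hX p v).trans (der_zero (hGW0 p hp) _)
    rw [ZG, h1, smul_zero, add_zero]
  have hlink : ∀ t p, ψ p < 6 →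
      De I e p (ZG Z X t p) = Pi (e p) (l' (e p) + t • fderiv ℝ G (e p)) := fun t p hp => by
    refine push hE hp (hd p hp) fun v => (dForm_add l p t (Z p) (X p) v).trans ?_
    rw [hX, hP.dual, hE.form p hp, der_comp (hE.sm.mdifferentiableAt (by simp))
      (hG.differentiable (by simp) _) (hGW ▸ gl_in hc hp) v]
    rfl
  have hLi : ∀ t, IsLiouville I (LG l GW t) (ZG Z X t) := fun t => by
    refine ⟨(hPre t).smooth, (hPre t).nondeg, (hPre t).dual, ?_⟩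
    exact compl aflow _ _ I _ _ E' Z (ZG Z X t) ψ {p | ψ p < 6} e
      (fun x => Pi x (l' x + t • fderiv ℝ G x)) ψ' hL.complete hψ
      (fun p hp => ⟨hfarZ t p hp, hE.shell p hp⟩) (fun p hp => show ψ p < 6 by linarith) hE.sm
      hE.smp.sub (hE.smp.sP.clm_apply (hE.smp.sl.add
        ((hG.fderiv_right (m := ∞) (by simp)).const_smul t))) hE.sψ hE.fn (hE.ex.2 5) fun p hp =>
      ⟨hE.smp.tan _ ⟨p, hp, rfl⟩ _, hlink t p hp, hE.inj p hp, hE.inv p hp⟩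
  have hout : ∀ t, ∀ p ∉ {p | ψ p ≤ 2}, 0 < der I ψ p (ZG Z X t p) := fun t p hp => by
    rw [hfarZ t p (not_le.1 hp).le]
    exact hE.shell p (not_le.1 hp).le
  obtain ⟨ΦW, hΦW⟩ : ∃ ΦW, ΦW = gl ψ e Φ fun p => A * ψ p + B := ⟨_, rfl⟩
  have hΦeq : ∀ q, 3 ≤ ψ q → ψ q < 6 → Φ (e q) = A * ψ q + B := fun q h3 h6 => by
    rw [hW.lin _ ⟨q, h6, rfl⟩ (by rwa [hE.fn q h6]), hE.fn q h6]
  have hΦWs : ContMDiff I 𝓘(ℝ, ℝ) ∞ ΦW := hΦW ▸ gl_smooth hc hE.sm hΦ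
    (((contDiff_const.mul contDiff_id).add contDiff_const).contMDiff.comp hψ)
    fun q h5 h6 => hΦeq q (by linarith) h6
  have hΦW3 : ∀ p, 3 < ψ p → ∀ᶠ q in 𝓝 p, ΦW q = A * ψ q + B := fun p hp =>
    hΦW ▸ gl_out ((hc.continuousAt.eventually (lt_mem_nhds hp)).mono fun q hq => hΦeq q hq.le)
  have hhom : Homotopic I (L 0) (LG l GW 1) := by
    have e0 : ∀ l : OneForm I W, LG l GW 0 = l := fun l => funext fun p =>
      (congrArg (l p + ·) (zero_smul ℝ _)).trans (add_zero _)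
    have s1 : ContDiff ℝ ∞ fun t : ℝ => smoothTransition (2 * t) :=
      smoothTransition.contDiff.comp (contDiff_const.mul contDiff_id)
    have s2 : ContDiff ℝ ∞ fun t : ℝ => smoothTransition (2 * t - 1) :=
      smoothTransition.contDiff.comp ((contDiff_const.mul contDiff_id).sub contDiff_const)
    have key : ∀ t : ℝ, ∃ Y : VField I W,
        IsLiouville I (LG (L (smoothTransition (2 * t))) GW (smoothTransition (2 * t - 1))) Y ∧
          ∀ p ∉ {p | ψ p ≤ 2}, 0 < der I ψ p (Y p) := fun t => by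
      rcases le_total (2 * t) 1 with h | h
      · rw [smoothTransition.zero_of_nonpos (show 2 * t - 1 ≤ 0 by linarith), e0]
        have h1 := hfam _ ⟨smoothTransition.nonneg (2 * t), smoothTransition.le_one _⟩
        exact ⟨_, h1.1, fun p hp => h1.2 p (not_le.1 hp).le⟩
      · rw [smoothTransition.one_of_one_le h, ← hl]
        exact ⟨_, hLi _, hout _⟩
    choose Y hY using key
    refine ⟨fun t => LG (L (smoothTransition (2 * t))) GW (smoothTransition (2 * t - 1)), Y, ψ, _,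
      ?_, ?_, fun p => ?_, fun t _ => (hY t).1, hE.ex, hE.ex.2 2, fun t _ => (hY t).2⟩
    · beta_reduce
      rw [smoothTransition.zero_of_nonpos (show 2 * (0 : ℝ) - 1 ≤ 0 by norm_num), e0,
        smoothTransition.zero_of_nonpos (show 2 * (0 : ℝ) ≤ 0 by norm_num)]
    · beta_reduce
      rw [smoothTransition.one_of_one_le (show 1 ≤ 2 * (1 : ℝ) - 1 by norm_num),
        smoothTransition.one_of_one_le (show 1 ≤ 2 * (1 : ℝ) by norm_num), hl]
    · exact ContDiffOn.congr (((hsm p).comp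
        (f := fun q : ℝ × E => (smoothTransition (2 * q.1), q.2))
        ((s1.comp contDiff_fst).prodMk contDiff_snd).contDiffOn fun _ hq => ⟨trivial, hq.2⟩).add
        ((s2.comp contDiff_fst).contDiffOn.smul ((((sm_funIn hGWs p).fderiv_of_isOpen (m := ∞)
          (isOpen_extChartAt_target p) (by simp))).comp contDiffOn_snd fun _ hq => hq.2)))
        fun q hq => formIn_LG _ hGWs _ hq.2
  refine ⟨LG l GW 1, hhom, ⟨_, _, _, hLi 1, hE.ex, hE.ex.2 2, hout 1⟩, ZG Z X 1, ΦW, hLi 1,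
    ⟨hΦWs, fun c => ?_⟩, wcrit _ _ I _ _ _ ΦW (hPre 1) hΦWs fun p => ?_⟩
  · refine (hE.ex.2 (max 3 ((c - B) / A))).of_isClosed_subset
      (isClosed_le hΦWs.continuous continuous_const) fun p hp => ?_
    by_contra h
    have h1 := max_lt_iff.1 (show max 3 ((c - B) / A) < ψ p from not_le.1 h)
    have h2 := (hΦW3 p h1.1).self_of_nhds
    have h3 := (div_lt_iff₀' hA).1 h1.2
    linarith [show ΦW p ≤ c from hp]
  by_cases hp : ψ p ≤ 4
  swap
  · left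
    refine lt_of_lt_of_eq ?_ (der_affine (hψ.mdifferentiableAt (by simp))
      (hΦW3 p (by linarith [not_le.1 hp])) (ZG Z X 1 p)).symm
    exact mul_pos hA (hout 1 p fun h => hp (by linarith [show ψ p ≤ 2 from h]))
  have h6 : ψ p < 6 := by linarith
  have hl1 : ∀ q, ψ q < 6 →
      De I e q (ZG Z X 1 q) = Pi (e q) (l' (e q) + fderiv ℝ G (e q)) :=
    fun q hq => by simpa only [one_smul] using hlink 1 q hq
  have hder : ∀ (u : V → ℝ) (u' : W → ℝ), ContDiff ℝ ∞ u → ∀ q, ψ q < 6 →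
      (∀ᶠ y in 𝓝 q, u' y = u (e y)) → der I u' q (ZG Z X 1 q) =
        fderiv ℝ u (e q) (Pi (e q) (l' (e q) + fderiv ℝ G (e q))) :=
    fun u u' hu q hq h => (der_comp (hE.sm.mdifferentiableAt (by simp))
      (hu.differentiable (by simp) _) h (ZG Z X 1 q)).trans (congrArg _ (hl1 q hq))
  rcases hW.lyap (e p) ⟨p, h6, rfl⟩ (by rwa [hE.fn p h6]) with h |
    ⟨u, ⟨h0, hu, h1, c, hc', h2⟩, h3⟩
  · exact Or.inl (h.trans_eq (hder Φ ΦW hΦ p h6 (hΦW ▸ gl_in hc h6)).symm)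
  right
  obtain ⟨L, hLp, hLe⟩ := chart_le hE h6
  refine ⟨hE.inj p h6 ((hl1 p h6).trans (h0.trans (map_zero _).symm)), fun q => u (e q),
    c / L ^ 2, (hu.contMDiff.comp hE.sm) p, fun v => ?_, by positivity, ?_⟩
  · refine (der_comp (hE.sm.mdifferentiableAt (by simp))
      (hu.differentiable (by simp) _) (Eventually.of_forall fun _ => rfl) v).trans ?_
    rw [h1]; rfl
  · filter_upwards [hlt p h6, hLe, (ht p h6).eventually h2, (ht p h6).eventually h3]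
      with q a1 a2 a3 a4
    rw [hder u _ hu q a1 (Eventually.of_forall fun _ => rfl),
      hder Φ ΦW hΦ q a1 (hΦW ▸ gl_in hc a1)]
    refine ⟨le_trans ?_ a3, a4⟩
    calc _ ≤ c / L ^ 2 * (L * ‖e q - e p‖) ^ 2 := by gcongr
      _ = _ := by field_simp

end Pool.Agent.MP_6d695c_gt.T2
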