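import Pool.Agent.MP_6d695c_gt.t2.Twist

/-! PROJECT T2: from the ambient space to the manifold, along a family of Liouville forms. -/

open scoped Manifold ContDiff Topology
open Set Metric Filter Real

namespace Pool.Agent.MP_6d695c_gt.T2.FT

open SW T1

open FinG in
/-- `finG` for a family of Liouville forms with one exhausting function -/
theorem finF {E : Type} [NormedAddCommGroup E] [NormedSpace ℝ E] [FiniteDimensional ℝ E] {H : Type}
    [TopologicalSpace H] {I : ModelWithCorners ℝ E H} [I.Boundaryless] {W : Type}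
    [TopologicalSpace W] [ChartedSpace H W] [IsManifold I ∞ W] {V E' : Type}
    [NormedAddCommGroup V] [NormedSpace ℝ V] [FiniteDimensional ℝ V] [NormedAddCommGroup E']
    [NormedSpace ℝ E'] [FiniteDimensional ℝ E'] {l : ℝ → OneForm I W} {Z : ℝ → VField I W}
    {ψ : W → ℝ} {e : W → V} {l' : ℝ → V → V →L[ℝ] ℝ} {Pi : ℝ → V → (V →L[ℝ] ℝ) →L[ℝ] V}
    {ψ' G Φ : V → ℝ} {A B : ℝ}
    (hs : ∀ p, ContDiffOn ℝ ∞ (fun q : ℝ × E => formIn I (l q.1) p q.2)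
      (Icc 0 1 ×ˢ (extChartAt I p).target))
    (hL : ∀ t ∈ Icc (0 : ℝ) 1, IsLiouville I (l t) (Z t))
    (hEt : ∀ t ∈ Icc (0 : ℝ) 1, EmbG I E' (l t) (Z t) ψ e (l' t) (Pi t) ψ')
    (hW : Wein (e '' {x | ψ x < 6}) (l' 1) (Pi 1) ψ' A B G Φ) :
    ∃ l₁, Homotopic I (l 0) l₁ ∧ WeinsteinMfd I l₁ := by
  have m1 : (1 : ℝ) ∈ Icc (0 : ℝ) 1 := ⟨zero_le_one, le_rfl⟩
  have hE := hEt 1 m1
  have hP : ∀ t ∈ Icc (0 : ℝ) 1, PreL I (l t) (Z t) := fun t ht =>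
    ⟨(hL t ht).smooth, (hL t ht).nondeg, (hL t ht).dual⟩
  have hψ := hE.ex.1
  have hc : Continuous ψ := hψ.continuous
  have hlt : ∀ x, ψ x < 6 → ∀ᶠ y in 𝓝 x, ψ y < 6 := fun x hx =>
    hc.continuousAt.eventually (gt_mem_nhds hx)
  have hd : ∀ t ∈ Icc (0 : ℝ) 1, ∀ x, ψ x < 6 → ∀ u v,
      dForm I (l t) x u v = dd (l' t) (e x) (De I e x u) (De I e x v) :=
    fun t ht x hx => (mfd _ _ I W (l t) (hL t ht).smooth).2.1 _ e (l' t) x (hE.sm x)
      (hEt t ht).smp.sl.contDiffAt ((hlt x hx).mono fun y hy => (hEt t ht).form y hy)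
  have ht : ∀ p, ψ p < 6 → Tendsto e (𝓝 p) (𝓝[e '' {x | ψ x < 6}] (e p)) := fun p hp =>
    tendsto_nhdsWithin_iff.2 ⟨hE.sm.continuous.tendsto p, (hlt p hp).mono fun q hq => ⟨q, hq, rfl⟩⟩
  have hG := hW.sG
  have hΦ := hW.sΦ
  have hA := hW.Apos
  have hG0 : ∀ q, 2 ≤ ψ q → ψ q < 6 → ∀ᶠ v in 𝓝 q, G (e v) = 0 := fun q h h6 =>
    (ht q h6).eventually (hW.far _ ⟨q, h6, rfl⟩ (by rwa [hE.fn _ h6]))
  obtain ⟨GW, hGW⟩ : ∃ GW, GW = gl ψ e G fun _ => 0 := ⟨_, rfl⟩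
  have hGWs : ContMDiff I 𝓘(ℝ, ℝ) ∞ GW := hGW ▸ gl_smooth hc hE.sm hG contMDiff_const
    fun q h5 h6 => (hG0 q (by linarith) h6).self_of_nhds
  have hGW0 : ∀ p, 2 ≤ ψ p → ∀ᶠ q in 𝓝 p, GW q = 0 := fun p hp => by
    rw [hGW]
    refine gl_out ?_
    by_cases h6 : ψ p < 6
    · exact (hG0 p hp h6).mono fun q hq _ => hq
    · filter_upwards [hc.continuousAt.eventually
        (lt_mem_nhds (show 5 < ψ p by linarith [not_lt.1 h6]))] with q hq h7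
      exact (hG0 q (by linarith [show 5 < ψ q from hq]) h7).self_of_nhds
  have : Nonempty (VField I W) := ⟨Z 0⟩
  choose! X hX hPre using fun t (h : t ∈ Icc (0 : ℝ) 1) => family (hP t h) hGWs
  have hfarZ : ∀ t ∈ Icc (0 : ℝ) 1, ∀ p, 2 ≤ ψ p → ZG (Z t) (X t) t p = Z t p :=
    fun t h p hp => by
      have h1 : X t p = 0 := (hP t h).nondeg p _ fun v =>
        (hX t h p v).trans (der_zero (hGW0 p hp) _)
      rw [ZG, h1, smul_zero, add_zero]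
  have hlink : ∀ t ∈ Icc (0 : ℝ) 1, ∀ p, ψ p < 6 → De I e p (ZG (Z t) (X t) t p) =
      Pi t (e p) (l' t (e p) + t • fderiv ℝ G (e p)) := fun t h p hp => by
    refine push (hEt t h) hp (hd t h p hp) fun v => (dForm_add (l t) p t (Z t p) (X t p) v).trans ?_
    rw [hX t h, (hP t h).dual, (hEt t h).form p hp, der_comp (hE.sm.mdifferentiableAt (by simp))
      (hG.differentiable (by simp) _) (hGW ▸ gl_in hc hp) v]
    rfl
  have hLi : ∀ t ∈ Icc (0 : ℝ) 1, IsLiouville I (LG (l t) GW t) (ZG (Z t) (X t) t) :=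
    fun t h => by
    refine ⟨(hPre t h t).smooth, (hPre t h t).nondeg, (hPre t h t).dual, ?_⟩
    exact compl aflow _ _ I _ _ E' (Z t) (ZG (Z t) (X t) t) ψ {p | ψ p < 6} e
      (fun x => Pi t x (l' t x + t • fderiv ℝ G x)) ψ' (hL t h).complete hψ
      (fun p hp => ⟨hfarZ t h p hp, (hEt t h).shell p hp⟩) (fun p hp => show ψ p < 6 by linarith)
      hE.sm hE.smp.sub ((hEt t h).smp.sP.clm_apply ((hEt t h).smp.sl.add
        ((hG.fderiv_right (m := ∞) (by simp)).const_smul t))) hE.sψ hE.fn (hE.ex.2 5) fun p hp =>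
      ⟨(hEt t h).smp.tan _ ⟨p, hp, rfl⟩ _, hlink t h p hp, hE.inj p hp, hE.inv p hp⟩
  have hout : ∀ t ∈ Icc (0 : ℝ) 1, ∀ p ∉ {p | ψ p ≤ 2}, 0 < der I ψ p (ZG (Z t) (X t) t p) :=
    fun t h p hp => by
      rw [hfarZ t h p (not_le.1 hp).le]
      exact (hEt t h).shell p (not_le.1 hp).le
  obtain ⟨ΦW, hΦW⟩ : ∃ ΦW, ΦW = gl ψ e Φ fun p => A * ψ p + B := ⟨_, rfl⟩
  have hΦeq : ∀ q, 3 ≤ ψ q → ψ q < 6 → Φ (e q) = A * ψ q + B := fun q h3 h6 => by
    rw [hW.lin _ ⟨q, h6, rfl⟩ (by rwa [hE.fn q h6]), hE.fn q h6]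
  have hΦWs : ContMDiff I 𝓘(ℝ, ℝ) ∞ ΦW := hΦW ▸ gl_smooth hc hE.sm hΦ
    (((contDiff_const.mul contDiff_id).add contDiff_const).contMDiff.comp hψ)
    fun q h5 h6 => hΦeq q (by linarith) h6
  have hΦW3 : ∀ p, 3 < ψ p → ∀ᶠ q in 𝓝 p, ΦW q = A * ψ q + B := fun p hp =>
    hΦW ▸ gl_out ((hc.continuousAt.eventually (lt_mem_nhds hp)).mono fun q hq => hΦeq q hq.le)
  refine ⟨LG (l 1) GW 1, ⟨fun t => LG (l t) GW t, fun t => ZG (Z t) (X t) t, ψ, _, ?_, rfl,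
    fun p => ?_, hLi, hE.ex, hE.ex.2 2, hout⟩,
    ⟨_, _, _, hLi 1 m1, hE.ex, hE.ex.2 2, hout 1 m1⟩, ZG (Z 1) (X 1) 1, ΦW, hLi 1 m1,
    ⟨hΦWs, fun c => ?_⟩, wcrit _ _ I _ _ _ ΦW (hPre 1 m1 1) hΦWs fun p => ?_⟩
  · funext p
    exact (congrArg (l 0 p + ·) (zero_smul ℝ _)).trans (add_zero _)
  · exact ContDiffOn.congr ((hs p).add (contDiffOn_fst.smul
      ((((sm_funIn hGWs p).fderiv_of_isOpen (m := ∞) (isOpen_extChartAt_target p)
        (by simp))).comp contDiffOn_snd fun _ hq => hq.2)))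
      fun q hq => formIn_LG (l q.1) hGWs q.1 hq.2
  · refine (hE.ex.2 (max 3 ((c - B) / A))).of_isClosed_subset
      (isClosed_le hΦWs.continuous continuous_const) fun p hp => ?_
    by_contra h
    have h1 := max_lt_iff.1 (show max 3 ((c - B) / A) < ψ p from not_le.1 h)
    have h2 := (hΦW3 p h1.1).self_of_nhds
    have h3 := (div_lt_iff₀' hA).1 h1.2
    linarith [show ΦW p ≤ c from hp]
  by_cases hp : ψ p ≤ 4
  swap
  · left
    refine lt_of_lt_of_eq ?_ (der_affine (hψ.mdifferentiableAt (by simp))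
      (hΦW3 p (by linarith [not_le.1 hp])) (ZG (Z 1) (X 1) 1 p)).symm
    exact mul_pos hA (hout 1 m1 p fun h => hp (by linarith [show ψ p ≤ 2 from h]))
  have h6 : ψ p < 6 := by linarith
  have hl1 : ∀ q, ψ q < 6 →
      De I e q (ZG (Z 1) (X 1) 1 q) = Pi 1 (e q) (l' 1 (e q) + fderiv ℝ G (e q)) :=
    fun q hq => by simpa only [one_smul] using hlink 1 m1 q hq
  have hder : ∀ (u : V → ℝ) (u' : W → ℝ), ContDiff ℝ ∞ u → ∀ q, ψ q < 6 →
      (∀ᶠ y in 𝓝 q, u' y = u (e y)) → der I u' q (ZG (Z 1) (X 1) 1 q) =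
        fderiv ℝ u (e q) (Pi 1 (e q) (l' 1 (e q) + fderiv ℝ G (e q))) :=
    fun u u' hu q hq h => (der_comp (hE.sm.mdifferentiableAt (by simp))
      (hu.differentiable (by simp) _) h (ZG (Z 1) (X 1) 1 q)).trans (congrArg _ (hl1 q hq))
  rcases hW.lyap (e p) ⟨p, h6, rfl⟩ (by rwa [hE.fn p h6]) with h |
    ⟨u, ⟨h0, hu, h1, c, hc', h2⟩, h3⟩
  · exact Or.inl (h.trans_eq (hder Φ ΦW hΦ p h6 (hΦW ▸ gl_in hc h6)).symm)
  right
  obtain ⟨L, hLp, hLe⟩ := FinG.chart_le hE h6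
  refine ⟨hE.inj p h6 ((hl1 p h6).trans (h0.trans (map_zero _).symm)), fun q => u (e q),
    c / L ^ 2, (hu.contMDiff.comp hE.sm) p, fun v => ?_, by positivity, ?_⟩
  · refine (der_comp (hE.sm.mdifferentiableAt (by simp))
      (hu.differentiable (by simp) _) (Eventually.of_forall fun _ => rfl) v).trans ?_
    rw [h1]; rfl
  · filter_upwards [hlt p h6, hLe, (ht p h6).eventually h2, (ht p h6).eventually h3]
      with q a1 a2 a3 a4
    rw [hder u _ hu q a1 (Eventually.of_forall fun _ => rfl),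
      hder Φ ΦW hΦ q a1 (hΦW ▸ gl_in hc a1)]
    refine ⟨le_trans ?_ a3, a4⟩
    calc _ ≤ c / L ^ 2 * (L * ‖e q - e p‖) ^ 2 := by gcongr
      _ = _ := by field_simp

/-! ### Relatively open pieces -/

section Open
variable {X : Type} [NormedAddCommGroup X] [NormedSpace ℝ X] {E : Type} [NormedAddCommGroup E]
  [NormedSpace ℝ E] {S U : Set X}

theorem tg_inter (hU : IsOpen U) {x : X} (hx : x ∈ U) : Tg (S ∩ U) x = Tg S x := by
  ext v
  refine ⟨fun ⟨γ, h0, h1, h2⟩ => ⟨γ, h0, h1, h2.mono fun t ht => ht.1⟩,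
    fun ⟨γ, h0, h1, h2⟩ => ⟨γ, h0, h1, h2.and ?_⟩⟩
  exact h1.continuousAt.eventually (hU.mem_nhds (by rwa [h0]))

theorem sub_inter (h : Sub E S) (hU : IsOpen U) : Sub E (S ∩ U) := by
  intro p hp
  obtain ⟨g, r, O, N, hP, hN⟩ := h p hp.1
  refine ⟨g, r, O ∩ g ⁻¹' U, N ∩ U, ⟨hP.sg.continuousOn.isOpen_inter_preimage hP.oO hU,
    hP.oN.inter hU, hP.sg.mono inter_subset_left, hP.sr.mono inter_subset_left, fun y hy => ?_,
    fun x hx hx' => ?_⟩, hN, hp.2⟩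
  · have := hP.gm y hy.1
    exact ⟨⟨this.1, hy.2⟩, ⟨this.2.1, hy.2⟩, this.2.2⟩
  · have := hP.rm x hx.1 hx'.1
    exact ⟨⟨this.1, by rw [mem_preimage, this.2]; exact hx.2⟩, this.2⟩

theorem smp_inter {l : X → X →L[ℝ] ℝ} {Pi : X → (X →L[ℝ] ℝ) →L[ℝ] X} (h : Smp E S l Pi)
    (hU : IsOpen U) : Smp E (S ∩ U) l Pi :=
  ⟨sub_inter h.sub hU, h.sl, h.sP, fun x hx α => by rw [tg_inter hU hx.2]; exact h.tan x hx.1 α,
    fun x hx α v hv => h.dual x hx.1 α v (by rwa [tg_inter hU hx.2] at hv)⟩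

theorem wein_mono {S' : Set X} {l : X → X →L[ℝ] ℝ} {Pi : X → (X →L[ℝ] ℝ) →L[ℝ] X} {ψ G Φ : X → ℝ}
    {A B : ℝ} (h : Wein S l Pi ψ A B G Φ) (hS : S' ⊆ S) : Wein S' l Pi ψ A B G Φ :=
  ⟨h.Apos, h.sG, h.sΦ, fun q hq h2 => nhdsWithin_mono q hS (h.far q (hS hq) h2),
    fun q hq => h.lin q (hS hq), fun q hq h4 => (h.lyap q (hS hq) h4).mono (nhdsWithin_mono q hS)⟩

end Open

/-! ### Linear algebra -/

section Alg
variable {E : Type} [NormedAddCommGroup E] [NormedSpace ℝ E] {ι : Type} [Fintype ι]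

theorem alg_nondeg (B : E →L[ℝ] E →L[ℝ] ℝ) (a : E →L[ℝ] ℝ) (z : E)
    (hn : ∀ u, (∀ v, B u v - B v u = 0) → u = 0) (hz : ∀ v, B z v - B v z = a v) {r c : ℝ}
    (hr : r ≠ 0) (w : ι → ℂ) (u : E × (ι → ℂ))
    (hu : ∀ v : E × (ι → ℂ), r * (B u.1 v.1 - B v.1 u.1) + c * ipc w u.2 * a v.1 -
      c * ipc w v.2 * a u.1 + omC u.2 v.2 = 0) : u = 0 := by
  have h0 : ∀ w : ι → ℂ, ipc w 0 = 0 := fun w => by simp [ipc]
  have h1 : r • u.1 + (c * ipc w u.2) • z = 0 := hn _ fun v => by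
    have h2 := hu (v, 0)
    rw [h0, Prd.omC_zero, ← hz] at h2
    simp only [map_add, map_smul, add_apply, smul_apply, smul_eq_mul]
    linarith
  have h2 : a u.1 = 0 := by
    have h3 := congrArg a h1
    rw [map_add, map_smul, map_smul, map_zero, ← hz z, sub_self, smul_zero, add_zero,
      smul_eq_zero] at h3
    exact h3.resolve_left hr
  have h3 : u.2 = 0 := Prd.omC_nondeg fun v => by simpa [h2] using hu (0, v)
  rw [h3, h0, mul_zero, zero_smul, add_zero, smul_eq_zero] at h1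
  exact Prod.ext (h1.resolve_left hr) h3

theorem alg_dual (B : E →L[ℝ] E →L[ℝ] ℝ) (a : E →L[ℝ] ℝ) (z : E) (hz : ∀ v, B z v - B v z = a v)
    {c : ℝ} (hc : 0 ≤ c) (w : ι → ℂ) (v : E × (ι → ℂ)) :
    (1 + c * nsq w / 2) * (B ((1 + c * nsq w / 2)⁻¹ • z) v.1 - B v.1 ((1 + c * nsq w / 2)⁻¹ • z)) +
      c * ipc w ((1 / 2 : ℝ) • w) * a v.1 - c * ipc w v.2 * a ((1 + c * nsq w / 2)⁻¹ • z) +
      omC ((1 / 2 : ℝ) • w) v.2 = (1 + c * nsq w / 2) * a v.1 + radial w v.2 := by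
  have h0 := (one_add_pos hc w).ne'
  have h1 : a z = 0 := by rw [← hz z, sub_self]
  simp only [map_smul, smul_apply, smul_eq_mul, ← mul_sub, hz, h1, ipc_smul, ipc_self,
    Prd.omC_smul, Prd.radial_apply, mul_inv_cancel_left₀ h0]
  ring

end Alg

/-! ### The twisted form on `W × ℂ^k` -/

section Tw
variable {d k : ℕ} {W : Type} [TopologicalSpace W] [ChartedSpace (Euc d) W]

/-- the form `(1 + c |z|² / 2) l + radial` -/
noncomputable def tw (c : ℝ) (l : OneForm (𝓡 d) W) (k : ℕ) :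
    OneForm (IP d k) (W × (Fin k → ℂ)) := fun p =>
  ((1 + c * nsq p.2 / 2) • (l p.1).comp (ContinuousLinearMap.fst ℝ (Euc d) (Fin k → ℂ)) +
    (radial p.2).comp (ContinuousLinearMap.snd ℝ (Euc d) (Fin k → ℂ)) :
      Euc d × (Fin k → ℂ) →L[ℝ] ℝ)

/-- its Liouville field -/
noncomputable def Ztw (c : ℝ) (Z : VField (𝓡 d) W) (k : ℕ) :
    VField (IP d k) (W × (Fin k → ℂ)) := fun p =>
  ((1 + c * nsq p.2 / 2)⁻¹ • (show Euc d from Z p.1), (1 / 2 : ℝ) • p.2)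

theorem tw_apply (c : ℝ) (l : OneForm (𝓡 d) W) (p : W × (Fin k → ℂ)) (v : Euc d × (Fin k → ℂ)) :
    tw c l k p v = (1 + c * nsq p.2 / 2) * l p.1 v.1 + radial p.2 v.2 := rfl

theorem tw_zero (l : OneForm (𝓡 d) W) : tw 0 l k = stab _ l k := by
  funext p
  simp only [tw, zero_mul, zero_div, add_zero, one_smul]
  rfl

theorem nsq_smul {ι : Type} [Fintype ι] (a : ℝ) (z : ι → ℂ) : nsq (a • z) = a ^ 2 * nsq z := by
  simp only [nsq, Finset.mul_sum, Pi.smul_apply, Complex.smul_re, Complex.smul_im, smul_eq_mul]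
  exact Finset.sum_congr rfl fun i _ => by ring

theorem Ztw_complete {c : ℝ} (hc : 0 ≤ c) {Z : VField (𝓡 d) W}
    (h : ∀ x, ∃ γ : ℝ → W, γ 0 = x ∧ IsMIntegralCurve γ Z) (p : W × (Fin k → ℂ)) :
    ∃ γ : ℝ → W × (Fin k → ℂ), γ 0 = p ∧ IsMIntegralCurve γ (Ztw c Z k) := by
  obtain ⟨γ, h0, hγ⟩ := h p.1
  obtain ⟨r, hr⟩ : ∃ r, r = c * nsq p.2 / 2 := ⟨_, rfl⟩
  have hr0 : 0 ≤ r := hr ▸ div_nonneg (mul_nonneg hc (nsq_nonneg _)) zero_le_two
  have hpos : ∀ t : ℝ, 0 < 1 + r * exp t := fun t => by positivity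
  refine ⟨fun t => (γ (t - log (1 + r * exp t) + log (1 + r)), exp (t / 2) • p.2),
    by simp [h0], fun t => ?_⟩
  have h1 : HasDerivAt (fun t : ℝ => exp (t / 2) • p.2) ((1 / 2 : ℝ) • exp (t / 2) • p.2) t := by
    have := (((hasDerivAt_id t).div_const 2).exp).smul_const p.2
    rwa [mul_comm, mul_smul] at this
  have h3 : HasDerivAt (fun t : ℝ => t - log (1 + r * exp t) + log (1 + r))
      (1 + c * nsq (exp (t / 2) • p.2) / 2)⁻¹ t := by
    have h4 := ((hasDerivAt_id t).sub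
      ((((hasDerivAt_exp t).const_mul r).const_add 1).log (hpos t).ne')).add_const (log (1 + r))
    refine h4.congr_deriv ?_
    have h5 : 1 + c * nsq (exp (t / 2) • p.2) / 2 = 1 + r * exp t := by
      rw [nsq_smul, ← exp_nat_mul, hr]
      push_cast
      rw [show 2 * (t / 2) = t by ring]
      ring
    have := (hpos t).ne'
    rw [h5]
    field_simp
    ring
  have h2 := ((hγ _).comp t h3.hasFDerivAt.hasMFDerivAt).prodMk h1.hasFDerivAt.hasMFDerivAt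
  refine h2.congr_mfderiv (ContinuousLinearMap.ext fun s => Prod.ext ?_ rfl)
  exact mul_smul (show ℝ from s) (1 + c * nsq (exp (t / 2) • p.2) / 2)⁻¹
    (show Euc d from Z (γ (t - log (1 + r * exp t) + log (1 + r))))

variable [IsManifold (𝓡 d) ∞ W]

theorem formIn_tw (c : ℝ) (l : OneForm (𝓡 d) W) {p : W × (Fin k → ℂ)}
    {y : Euc d × (Fin k → ℂ)} (hy : y ∈ (extChartAt (IP d k) p).target) :
    formIn (IP d k) (tw c l k) p y = lt c (formIn (𝓡 d) l p.1) y := by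
  refine ContinuousLinearMap.ext fun v => ?_
  have h2 := Prd.dS_prod hy v
  have h3 := congrFun (Prd.symm_eq p) y
  change tw c l k _
    (mfderiv 𝓘(ℝ, Euc d × (Fin k → ℂ)) (IP d k) (extChartAt (IP d k) p).symm y v) = _
  rw [h2]
  refine (congrArg (fun z => (show Euc d × (Fin k → ℂ) →L[ℝ] ℝ from tw c l k z)
    (mfderiv 𝓘(ℝ, Euc d) (𝓡 d) (extChartAt (𝓡 d) p.1).symm y.1 v.1, v.2)) h3).trans ?_
  refine (tw_apply c l _ _).trans ?_
  rw [lt_apply, Prd.radial_apply]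
  rfl

theorem sm_lt {E F : Type} [NormedAddCommGroup E] [NormedSpace ℝ E] [NormedAddCommGroup F]
    [NormedSpace ℝ F] {ι : Type} [Fintype ι] {a : E → E →L[ℝ] ℝ} {c : F → ℝ}
    {y : F → E × (ι → ℂ)} {S : Set F} (hc : ContDiff ℝ ∞ c) (hy : ContDiff ℝ ∞ y)
    (ha : ContDiffOn ℝ ∞ (fun q => a (y q).1) S) :
    ContDiffOn ℝ ∞ (fun q => lt (c q) a (y q)) S := by
  have h1 : ContDiff ℝ ∞ fun q => 1 + c q * nsq (y q).2 / 2 :=
    contDiff_const.add ((hc.mul (contDiff_nsq.comp hy.snd)).div_const 2)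
  have h2 : ContDiffOn ℝ ∞
      (fun q => (a (y q).1).comp (ContinuousLinearMap.fst ℝ E (ι → ℂ))) S :=
    ha.clm_comp contDiffOn_const
  have h3 : ContDiff ℝ ∞ fun q => (radial (y q).2).comp (ContinuousLinearMap.snd ℝ E (ι → ℂ)) :=
    ((Prd.contDiff_radial (ι := ι)).comp hy.snd).clm_comp contDiff_const
  have h4 : ContDiffOn ℝ ∞ (fun q => (1 + c q * nsq (y q).2 / 2) •
      (a (y q).1).comp (ContinuousLinearMap.fst ℝ E (ι → ℂ))) S :=
    h1.contDiffOn.fun_smul h2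
  have h5 := h4.add h3.contDiffOn
  exact h5

theorem sm_tw {l : OneForm (𝓡 d) W}
    (hl : ∀ p, ContDiffOn ℝ ∞ (formIn (𝓡 d) l p) (extChartAt (𝓡 d) p).target)
    (p : W × (Fin k → ℂ)) :
    ContDiffOn ℝ ∞ (fun q : ℝ × (Euc d × (Fin k → ℂ)) => formIn (IP d k) (tw q.1 l k) p q.2)
      (univ ×ˢ (extChartAt (IP d k) p).target) :=
  (sm_lt (a := formIn (𝓡 d) l p.1) contDiff_fst contDiff_snd
    ((hl p.1).comp (contDiffOn_snd.fst) fun _ hq => Prd.mem_target.1 hq.2)).congr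
    fun q hq => formIn_tw q.1 l hq.2

theorem dForm_tw {l : OneForm (𝓡 d) W}
    (hl : ∀ p, ContDiffOn ℝ ∞ (formIn (𝓡 d) l p) (extChartAt (𝓡 d) p).target) (c : ℝ)
    (p : W × (Fin k → ℂ)) (u v : Euc d × (Fin k → ℂ)) :
    dForm (IP d k) (tw c l k) p u v = (1 + c * nsq p.2 / 2) * dForm (𝓡 d) l p.1 u.1 v.1 +
      c * ipc p.2 u.2 * l p.1 v.1 - c * ipc p.2 v.2 * l p.1 u.1 + omC u.2 v.2 := by
  have hn := extChartAt_target_mem_nhds (I := IP d k) p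
  have e := congrFun (Prd.chart_eq (d := d) p) p
  have h1 : formIn (IP d k) (tw c l k) p =ᶠ[𝓝 (extChartAt (IP d k) p p)] _ :=
    mem_of_superset hn fun y hy => formIn_tw c l hy
  have h2 := dd_lt c (l := formIn (𝓡 d) l p.1) (p := extChartAt (IP d k) p p)
    (by rw [e]; exact ((hl p.1).contDiffAt (extChartAt_target_mem_nhds _)).differentiableAt (by simp))
    u v
  have h3 : ∀ w : Euc d, formIn (𝓡 d) l p.1 (extChartAt (𝓡 d) p.1 p.1) w = l p.1 w := fun w => by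
    have := Mfd.formIn_dC l (mem_extChartAt_source (I := 𝓡 d) p.1) w
    rwa [Mfd.dC_self] at this
  rw [dForm, h1.fderiv_eq]
  refine h2.trans ?_
  rw [e]
  simp only [h3]
  rfl

theorem liou_tw {l : OneForm (𝓡 d) W} {Z : VField (𝓡 d) W} (hL : IsLiouville (𝓡 d) l Z) {c : ℝ}
    (hc : 0 ≤ c) : IsLiouville (IP d k) (tw c l k) (Ztw c Z k) := by
  refine ⟨fun p => (sm_tw hL.smooth p).comp (f := fun y => (c, y))
    (contDiffOn_const.prodMk contDiffOn_id) fun y hy => ⟨trivial, hy⟩, fun p u hu => ?_,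
    fun p v => ?_, Ztw_complete hc hL.complete⟩
  · simp only [dForm_tw hL.smooth] at hu
    exact alg_nondeg (E := Euc d) _ (l p.1) (Z p.1) (hL.nondeg p.1) (hL.dual p.1)
      (one_add_pos hc p.2).ne' p.2 u hu
  · exact (dForm_tw hL.smooth c p _ v).trans
      (alg_dual (E := Euc d) _ (l p.1) (Z p.1) (hL.dual p.1) hc p.2 v)

variable {V : Type} [NormedAddCommGroup V] [NormedSpace ℝ V] [FiniteDimensional ℝ V]
  {l : OneForm (𝓡 d) W} {Z : VField (𝓡 d) W} {φ : W → ℝ} {e : W → V} {l' : V → V →L[ℝ] ℝ}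
  {Pi : V → (V →L[ℝ] ℝ) →L[ℝ] V} {φ' : V → ℝ} {ε : ℝ}

omit [IsManifold (𝓡 d) ∞ W] [FiniteDimensional ℝ V] in
theorem img_eq (hE : Emb l Z φ e l' Pi φ') (hε : 0 < ε) :
    eh e k '' {p | φ p.1 + ε * nsq p.2 < 6} =
      hat (e '' {x | φ x < 6}) (Fin k) ∩ {q | φ' q.1 + ε * nsq q.2 < 6} := by
  ext q
  constructor
  · rintro ⟨p, hp, rfl⟩
    have h6 : φ p.1 < 6 := by
      have h1 : φ p.1 + ε * nsq p.2 < 6 := hp
      linarith [mul_nonneg hε.le (nsq_nonneg p.2)]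
    refine ⟨⟨p.1, h6, rfl⟩, ?_⟩
    show φ' (e p.1) + ε * nsq p.2 < 6
    rwa [hE.fn _ h6]
  · rintro ⟨⟨x, hx, h⟩, h2⟩
    refine ⟨(x, q.2), ?_, Prod.ext h rfl⟩
    show φ x + ε * nsq q.2 < 6
    rw [← hE.fn x hx, h]
    exact h2

omit [IsManifold (𝓡 d) ∞ W] in
theorem emb_tw (hE : Emb l Z φ e l' Pi φ') (hε : 0 < ε) {c : ℝ} (hc : 0 ≤ c) :
    EmbG (IP d k) (Euc d × (Fin k → ℂ)) (tw c l k) (Ztw c Z k) (fun p => φ p.1 + ε * nsq p.2)
      (eh e k) (lt c l') (Pt c l' Pi) fun q => φ' q.1 + ε * nsq q.2 := by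
  have h6 : ∀ p : W × (Fin k → ℂ), φ p.1 + ε * nsq p.2 < 6 → φ p.1 < 6 := fun p hp => by
    linarith [mul_nonneg hε.le (nsq_nonneg p.2)]
  have hs : ∀ {Y : Type} [NormedAddCommGroup Y] [NormedSpace ℝ Y] {u : Y → ℝ}, ContDiff ℝ ∞ u →
      ContDiff ℝ ∞ fun q : Y × (Fin k → ℂ) => u q.1 + ε * nsq q.2 := fun hu =>
    (hu.comp contDiff_fst).add (contDiff_const.mul (contDiff_nsq.comp contDiff_snd))
  have hψ : ContMDiff (IP d k) 𝓘(ℝ, ℝ) ∞ fun p : W × (Fin k → ℂ) => φ p.1 + ε * nsq p.2 :=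
    (hs (u := id) contDiff_id).contMDiff.comp (eh_smooth hE.ex.1)
  have hU : IsOpen {q : V × (Fin k → ℂ) | φ' q.1 + ε * nsq q.2 < 6} :=
    isOpen_lt (hs hE.amb.sφ).continuous continuous_const
  refine ⟨⟨hψ, fun a => ?_⟩, fun p hp => ?_, eh_smooth hE.sm, ?_, hs hE.amb.sφ, fun p hp => ?_,
    fun p hp v => ?_, fun p hp => ?_, fun p hp => hE.ehinj (h6 p hp), fun p hp => ?_⟩
  · refine ((hE.ex.2 a).prod (isCompact_nsq (a / ε))).of_isClosed_subset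
      (isClosed_le hψ.continuous continuous_const) fun p hp => ?_
    have h1 := hE.nn p.1
    have h2 := mul_nonneg hε.le (nsq_nonneg p.2)
    have h3 : φ p.1 + ε * nsq p.2 ≤ a := hp
    exact ⟨show φ p.1 ≤ a by linarith,
      show nsq p.2 ≤ a / ε from (le_div_iff₀' hε).2 (by linarith)⟩
  · obtain ⟨L, hL, hL'⟩ := hasFDerivAt_nsq p.2
    have h0 := (hasFDerivAt_fst (𝕜 := ℝ) (p := eh φ k p)).add
      ((HasFDerivAt.comp (eh φ k p) (g := nsq) hL (hasFDerivAt_snd (𝕜 := ℝ))).const_mul ε)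
    have h1 : HasFDerivAt (fun q : ℝ × (Fin k → ℂ) => q.1 + ε * nsq q.2) _ (eh φ k p) := h0
    have h2 := der_comp (I := IP d k) (e := eh φ k) (u' := fun p => φ p.1 + ε * nsq p.2)
      ((eh_smooth hE.ex.1).mdifferentiableAt (by simp)) h1.differentiableAt
      (Eventually.of_forall fun _ => rfl) (Ztw c Z k p)
    replace h2 := h2.trans (congrArg _ (eh_der hE.ex.1 p (Ztw c Z k p)))
    rw [h1.fderiv] at h2
    refine lt_of_lt_of_eq ?_ h2.symm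
    change 0 < (show Euc d →L[ℝ] ℝ from mfderiv (𝓡 d) 𝓘(ℝ, ℝ) φ p.1)
      ((1 + c * nsq p.2 / 2)⁻¹ • (show Euc d from Z p.1)) + ε * L ((1 / 2 : ℝ) • p.2)
    rw [map_smul, hL', ipc_smul, ipc_self]
    change 0 < (1 + c * nsq p.2 / 2)⁻¹ * der (𝓡 d) φ p.1 (Z p.1) + _
    have h3 := inv_pos.2 (one_add_pos hc p.2)
    have h4 := mul_nonneg hε.le (nsq_nonneg p.2)
    by_cases h : 1 ≤ φ p.1
    · linarith [mul_pos h3 (hE.shell p.1 (by linarith))]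
    · linarith [mul_nonneg h3.le (hE.nd p.1), not_le.1 h]
  · rw [img_eq hE hε]
    exact smp_inter (smp_lt (smp_of_amb hE.amb) hc) hU
  · show φ' (e p.1) + ε * nsq p.2 = _
    rw [hE.fn _ (h6 p hp)]
  · refine Eq.trans ?_ (congrArg (lt c l' (eh e k p)) (eh_der hE.sm p v)).symm
    exact congrArg (fun a : ℝ => (1 + c * nsq p.2 / 2) * a + radial p.2 v.2)
      (hE.form p.1 (h6 p hp) v.1)
  · have hm : eh e k p ∈ hat (e '' {x | φ x < 6}) (Fin k) ∩ {q | φ' q.1 + ε * nsq q.2 < 6} :=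
      img_eq hE hε ▸ ⟨p, hp, rfl⟩
    have ht : Tg (e '' {x | φ x < 6}) (eh e k p).1 = range (mfderiv (𝓡 d) 𝓘(ℝ, V) e p.1) :=
      hE.tg p.1 (h6 p hp)
    rw [img_eq hE hε, tg_inter hU hm.2]
    ext v
    rw [tg_hat_iff, ht]
    constructor
    · rintro ⟨u, hu⟩
      exact ⟨(show Euc d × (Fin k → ℂ) from (u, v.2)), (eh_der hE.sm p _).trans (Prod.ext hu rfl)⟩
    · rintro ⟨u, hu⟩
      exact ⟨_, congrArg Prod.fst ((eh_der hE.sm p u).symm.trans hu)⟩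
  · obtain ⟨ρ, h1, h2⟩ := hE.ehinv (k := k) (h6 p hp)
    exact ⟨ρ, h1, h2.mono fun v hv x' hx' => hv x' (h6 x' hx')⟩

/-- a Weinstein structure for the twisted form in the ambient space gives the theorem -/
theorem finT (hL : IsLiouville (𝓡 d) l Z) (hE : Emb l Z φ e l' Pi φ') {N : ℝ} (hN : 0 ≤ N)
    (hε : 0 < ε) {A B : ℝ} {G Φ : V × (Fin k → ℂ) → ℝ}
    (hW : Wein (hat (e '' {x | φ x < 6}) (Fin k)) (lt N l') (Pt N l' Pi)
      (fun q => φ' q.1 + ε * nsq q.2) A B G Φ) :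
    ∃ l₁, Homotopic (IP d k) (stab _ l k) l₁ ∧ WeinsteinMfd (IP d k) l₁ := by
  have h := finF (I := IP d k) (E' := Euc d × (Fin k → ℂ)) (l := fun t => tw (t * N) l k)
    (Z := fun t => Ztw (t * N) Z k) (l' := fun t => lt (t * N) l') (Pi := fun t => Pt (t * N) l' Pi)
    (fun p => (sm_tw hL.smooth p).comp (f := fun q : ℝ × _ => (q.1 * N, q.2))
      ((contDiffOn_fst.mul contDiffOn_const).prodMk contDiffOn_snd) fun q hq => ⟨trivial, hq.2⟩)
    (fun t ht => liou_tw hL (mul_nonneg ht.1 hN)) (fun t ht => emb_tw hE hε (mul_nonneg ht.1 hN))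
    (A := A) (B := B) (G := G) (Φ := Φ) (by
      simp only [one_mul]
      exact wein_mono hW (by rw [img_eq hE hε]; exact inter_subset_left))
  simpa only [zero_mul, tw_zero] using h

end Tw

end Pool.Agent.MP_6d695c_gt.T2.FT
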