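import Pool.Agent.MP_6d695c_gt.t2.SpecB

/-! PROJECT T2, rows MAIN and FINAL. -/

open scoped Manifold ContDiff Topology MeasureTheory
open Set Metric Filter Real

namespace Pool.Agent.MP_6d695c_gt.T2

open SW T1 Theta

theorem exists_lo {m : ℕ} {a : Fin m → ℝ} (h : ∀ i, 0 < a i) : ∃ c, 0 < c ∧ ∀ i, c ≤ a i :=
  ((eventually_all.2 fun i => (eventually_le_nhds (h i)).filter_mono
    (nhdsWithin_le_nhds (s := Ioi (0 : ℝ)))).and self_mem_nhdsWithin).exists.imp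
    fun _ hc => ⟨hc.2, hc.1⟩

theorem exists_hi {m : ℕ} (a : Fin m → ℝ) : ∃ c, 1 ≤ c ∧ ∀ i, a i ≤ c :=
  ((eventually_ge_atTop 1).and (eventually_all.2 fun i => eventually_ge_atTop (a i))).exists

theorem Bxo.mono {V : Type} [NormedAddCommGroup V] [NormedSpace ℝ V] [FiniteDimensional ℝ V]
    {M A : Set V} {l : V → V →L[ℝ] ℝ} {Pi : V → (V →L[ℝ] ℝ) →L[ℝ] V} {yk L : V → ℝ}
    {y' N R R' : ℝ} {G δL : V × ℂ → ℝ} {δv : V → ℝ} (h : Bxo M A l Pi yk L y' N R G δL δv)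
    (hR : R ≤ R') : Bxo M A l Pi yk L y' N R' G δL δv :=
  ⟨h.sG, h.sL, h.sv, h.out, fun q hq hr => h.rad q hq (hR.trans_lt hr), h.ly, h.up⟩

theorem fderiv_psT {V : Type} [NormedAddCommGroup V] [NormedSpace ℝ V] {φ : V → ℝ}
    (h : ContDiff ℝ ∞ φ) (ε : ℝ) (q v : V × ℂ) : fderiv ℝ (psT φ ε) q v =
      fderiv ℝ φ q.1 v.1 + ε * (2 * (q.2.re * v.2.re + q.2.im * v.2.im)) := by
  have h1 : HasFDerivAt (psT φ ε) _ q :=
    ((h.differentiable (by simp) q.1).hasFDerivAt.comp q hasFDerivAt_fst).add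
      (((contDiff_nq.differentiable (by simp) q.2).hasFDerivAt.comp q hasFDerivAt_snd).const_mul ε)
  rw [h1.fderiv]
  simp [fderiv_nq]

theorem main2 (smpT : SmpTStmt) (kset : KsetStmt) (avgT : AvgStmt) (moll : MollStmt)
    (limCh : LimChStmt) (sect3 : Sect3Stmt) (boxG : BoxGStmt) (sumS : SumStmt)
    (glue2 : Glue2Stmt) : Main2Stmt := by
  intro V _ _ _ M U K₀ l Pi φ yv μ hA hnn hH
  have hS := smp_of_amb hA
  have cφ := hA.sφ.continuous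
  obtain ⟨Z, KL, fl, sZ, lZ, eZ, hf, hi⟩ := aflow V (Euc 4) M (fun x => Pi x (l x)) φ 4 hA.sub
    hA.smZ hA.sφ (fun x hx => hA.tan x hx _) (hA.cpt _ (by norm_num))
  rw [show (4 : ℝ) + 1 = 5 by norm_num] at hi
  have hC : Cut M l Pi φ Z fl := ⟨sZ, eZ, hf, hi⟩
  obtain ⟨K, cK, KK, hK, hout, hΛ⟩ := kset V _ M K₀ l Pi φ Z fl hA hnn hC hH.core
  have hon := fun x (hx : x ∈ K) => hH.on x (KK hx) (hK x hx).1 (by linarith [(hK x hx).2.1])
  obtain ⟨κ0, κ0p, hκ0⟩ := exists_pos_le cK hH.cμ.continuousOn fun x hx => (hon x hx).2.2.1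
  obtain ⟨κ, κp, κ1, κ2⟩ : ∃ κ, 0 < κ ∧ κ ≤ 1 ∧ κ < κ0 :=
    ⟨min (κ0 / 2) 1, by positivity, min_le_right _ _, (min_le_left _ _).trans_lt (by linarith)⟩
  have oU2 : IsOpen (U ∩ {x | κ < μ x}) := hH.oU.inter (isOpen_lt continuous_const hH.cμ)
  have KU2 : K ⊆ U ∩ {x | κ < μ x} := fun x hx => ⟨(hon x hx).1, κ2.trans_le (hκ0 x hx)⟩
  obtain ⟨Λ, N0, sΛ, oN0, KN0, rΛ, zΛ, mΛ⟩ := hΛ _ oU2 KU2
  have oφ : ∀ c : ℝ, IsOpen {x | φ x < c} := fun c => isOpen_lt cφ continuous_const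
  obtain ⟨m, bx, h, hB, cov⟩ := sect3 V M (N0 ∩ (U ∩ {x | κ < μ x}) ∩ {x | φ x < 1}) K l yv μ Z fl
    hf ((oN0.inter oU2).inter (oφ 1)) cK fun p hp =>
      ⟨(hK p hp).1, ⟨⟨KN0 hp, KU2 hp⟩, (hK p hp).2.1⟩, (hon p hp).2.1,
        limCh V M l Pi φ yv μ Z fl p hS cφ hC hH.sy hH.cμ (hK p hp).1
          (by linarith [(hK p hp).2.1]) (hon p hp).2.1 (by
            filter_upwards [self_mem_nhdsWithin, mem_nhdsWithin_of_mem_nhds
              ((hH.oU.inter (oφ 4)).mem_nhds ⟨(hon p hp).1,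
                show φ p < 4 by linarith [(hK p hp).2.1]⟩)] with x h1 h2
            exact hH.eq x h1 (le_of_lt h2.2) h2.1) (hon p hp).2.2.2⟩
  have h0 := hB.hpos
  have cD : IsCompact {x ∈ M | φ x ≤ 2} := hA.cpt 2 (by norm_num)
  obtain ⟨Cμ, hCμ⟩ := cD.exists_bound_of_continuousOn hH.cμ.continuousOn
  obtain ⟨N1, hN1⟩ : ∃ N1 : Fin m → Set V, ∀ b, N1 b =
      (bx b).N ∩ (bx b).κ ⁻¹' {q | |q.1| < 2 * h ∧ ‖q.2‖ < 9 / 2 * (bx b).w} := ⟨_, fun _ => rfl⟩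
  have oN1 : ∀ b, IsOpen (N1 b) := fun b => hN1 b ▸ (hB.ch b).top.oN.inter
    (((isOpen_lt continuous_fst.abs continuous_const).inter
      (isOpen_lt continuous_snd.norm continuous_const)).preimage (hB.ch b).top.cκ)
  have sub4 : ∀ b, cb h (4 * (bx b).w) ⊆ cb (10 * h) (5 * (bx b).w) := fun b =>
    cb_mono (by linarith) (by linarith [hB.wpos b])
  have inN1 : ∀ b, (bx b).Ψ '' cb h (4 * (bx b).w) ⊆ N1 b := by
    rintro b _ ⟨q, hq, rfl⟩
    obtain ⟨-, h1, h2⟩ := (hB.ch b).top.gm q (hB.sub b (sub4 b hq))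
    rw [hN1]
    refine ⟨h1, ?_⟩
    rw [mem_preimage, h2]
    exact ⟨by linarith [hq.1], by linarith [hq.2, hB.wpos b]⟩
  have ofN1 : ∀ b, ∀ x ∈ M, x ∈ N1 b → ∃ q ∈ cb (10 * h) (5 * (bx b).w), (bx b).Ψ q = x :=
    fun b x hx h1 => by
      rw [hN1] at h1
      exact ⟨(bx b).κ x, ⟨by linarith [h1.2.1], by linarith [h1.2.2, hB.wpos b]⟩,
        ((hB.ch b).top.rm x hx h1.1).2⟩
  have lowN1 : ∀ b, ∀ x ∈ M, x ∈ N1 b → x ∈ N0 ∩ (U ∩ {x | κ < μ x}) ∩ {x | φ x < 1} :=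
    fun b x hx h1 => by
      obtain ⟨q, hq, rfl⟩ := ofN1 b x hx h1
      exact hB.low b q hq
  have μle : ∀ x ∈ M, φ x ≤ 2 → |μ x| ≤ Cμ := fun x hx h1 => hCμ x ⟨hx, h1⟩
  choose β s₀ sβ β0 βout s₀r βpos hβ using fun b => boxG V _ M (N1 b) l Pi yv μ fl (bx b) h κ Cμ
    hS hH.sy.continuous (hB.ch b) h0 hB.hle (hB.wpos b) (hB.wle b) (hB.sub b) (oN1 b) (inN1 b)
    κp κ1 fun x hx h1 => ⟨le_of_lt (lowN1 b x hx h1).1.2.2, (le_abs_self _).trans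
      (μle x hx (by linarith [show φ x < 1 from (lowN1 b x hx h1).2]))⟩
  obtain ⟨st, sst, st1, st0, str, -⟩ := exists_step (show (15 / 8 : ℝ) < 2 by norm_num)
  have f0 : ∀ x, 0 ≤ ∑ b, β b x := fun x => Finset.sum_nonneg fun b _ => β0 b x
  obtain ⟨L, M0, sL, M00, hL⟩ := avgT V {x ∈ M | φ x ≤ 2} {x ∈ M | φ x ≤ 5} Z KL fl
    (fun x => ∑ b, β b x + (1 - st (φ x))) sZ lZ hf cD (hA.cpt 5 (by norm_num))
    (fun x hx => ⟨hx.1, by linarith [hx.2]⟩) (fun t x hx => hi t x hx.1 hx.2)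
    ((ContDiff.sum fun b _ => sβ b).add (contDiff_const.sub (sst.comp hA.sφ)))
    (fun x => by linarith [f0 x, (str (φ x)).2]) fun x hx => by
      by_cases hxK : x ∈ K
      · obtain ⟨b, u, hu, q, hq, e⟩ := cov _ ((hK x hxK).2.2 1 zero_le_one)
        have h1 := (hB.ch b).top.flow q (s₀ b) fun v hv => hB.sub b (by
          rw [uIcc_of_le (s₀r b).1] at hv
          have h2 := abs_nonpos_iff.1 hq.1
          refine ⟨?_, ?_⟩
          · simp only [es, Prod.fst_add, Prod.smul_fst, smul_eq_mul, mul_one, h2, zero_add]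
            rw [abs_of_nonneg hv.1]
            linarith [hv.2, (s₀r b).2]
          · have : (q + v • es).2 = q.2 := by ext <;> simp [es]
            rw [this]
            linarith [hq.2, hB.wpos b])
        refine ⟨s₀ b + (u + 1), by linarith [(s₀r b).1, hu.1], ?_⟩
        rw [hf.add, hf.add, e, h1]
        linarith [(str (φ ((bx b).Ψ (q + s₀ b • es)))).2, βpos b q hq,
          Finset.single_le_sum (f := fun i => β i ((bx b).Ψ (q + s₀ b • es)))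
            (fun i _ => β0 i _) (Finset.mem_univ b)]
      · obtain ⟨t, t0, ht⟩ := hout x hx.1 hx.2 hxK
        exact ⟨t, t0, by linarith [f0 (fl t x), st0 _ ht.le]⟩
  have hL' : ∀ x ∈ M, φ x ≤ 7 / 4 → 2 - M0 * ∑ b, β b x ≤ fderiv ℝ L x (Pi x (l x)) :=
    fun x hx h1 => by
      have := hL x ⟨hx, by linarith⟩
      rwa [st1 _ (by linarith), sub_self, add_zero, eZ x hx (by linarith)] at this
  choose y1 y1p hy1 using fun b => hβ b M0 L M00 sL fun x hx h1 => by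
    have h2 := hL' x hx (by linarith [show φ x < 1 from (lowN1 b x hx h1).2])
    rwa [Finset.sum_eq_single b (fun b' _ hb => βout b' x hx (by
      rintro ⟨q', hq', e'⟩
      obtain ⟨q, hq, e⟩ := ofN1 b x hx h1
      exact hB.disj b' b hb q' (sub4 b' hq') q hq (e'.trans e.symm))) (by simp)] at h2
  obtain ⟨y', y'p, hy'⟩ := exists_lo y1p
  choose e ep he using fun b => hy1 b y' y'p (hy' b)
  obtain ⟨e1, e1p, he1⟩ := exists_lo ep
  obtain ⟨CZ, CZp, hCZ⟩ : ∃ CZ, 1 ≤ CZ ∧ ∀ x ∈ M, φ x ≤ 2 → ‖Pi x (l x)‖ ≤ CZ := by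
    obtain ⟨C, hC⟩ := cD.exists_bound_of_continuousOn hA.smZ.continuous.continuousOn
    exact ⟨max 1 C, le_max_left _ _, fun x hx h1 => (hC x ⟨hx, h1⟩).trans (le_max_right _ _)⟩
  obtain ⟨e2, e2p, e21, e22⟩ : ∃ e2, 0 < e2 ∧ e2 ≤ e1 ∧ (|Cμ| + 1) * e2 ≤ κ * y' / 2 :=
    ⟨min e1 (κ * y' / 2 / (|Cμ| + 1)), by positivity, min_le_left _ _, by
      rw [← le_div_iff₀' (by positivity)]
      exact min_le_right _ _⟩
  obtain ⟨c, sc, cc, -, c1, -⟩ := exists_cut cD isOpen_univ (subset_univ _)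
  obtain ⟨yk, syk, -, hyk⟩ := moll V (fun x => c x * yv x) (e2 / CZ)
    ((sc.of_le (by simp)).mul hH.sy) cc.mul_right (by positivity)
  have e23 : e2 / CZ ≤ e2 := div_le_self e2p.le CZp
  have happ : ∀ x ∈ M, φ x ≤ 2 → x ∈ U → |yk x - yv x| ≤ e2 ∧
      |fderiv ℝ yk x (Pi x (l x)) - μ x * yv x| ≤ e2 := fun x hx h1 h2 => by
    have h3 : (fun x => c x * yv x) =ᶠ[𝓝 x] yv :=
      (c1 x ⟨hx, h1⟩).mono fun y hy => by simp only [hy, one_mul]
    obtain ⟨h4, h5⟩ := hyk x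
    rw [h3.fderiv_eq] at h5
    rw [show c x * yv x = yv x from h3.self_of_nhds] at h4
    refine ⟨h4.trans e23, ?_⟩
    rw [← hH.eq x hx (by linarith) h2, ← sub_apply]
    calc _ ≤ ‖fderiv ℝ yk x - fderiv ℝ yv x‖ * ‖Pi x (l x)‖ := ContinuousLinearMap.le_opNorm _ _
      _ ≤ e2 / CZ * CZ := by gcongr; exact hCZ x hx h1
      _ = e2 := by field_simp
  choose A N0' R' cA inA βA N0p hbox using fun b => he b yk syk fun x hx h1 => by
    have h2 := lowN1 b x hx h1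
    have h3 := happ x hx (by linarith [show φ x < 1 from h2.2]) h2.1.2.1
    exact ⟨h3.1.trans (e21.trans (he1 b)), h3.2.trans (e21.trans (he1 b))⟩
  obtain ⟨N, N1', hN⟩ := exists_hi N0'
  obtain ⟨R, R1, hR⟩ := exists_hi R'
  have Np : 0 ≤ N := by linarith
  choose G δL δv hG using fun b => hbox b N (hN b)
  have εp : 0 < 1 / (4 * R ^ 2) := by positivity
  obtain ⟨G', Φ, sG, sΦ, far, ly⟩ := sumS V _ M (U ∩ {x | κ < μ x}) N0 l Pi φ yk Λ L y' N R _ κ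
    ((|Cμ| + 1) * e2) m A G δL δv hA syk sΛ sL oN0 y'p Np εp κp κ1 e22 cA
    (fun b x hx => ⟨(inA b x hx).1, (lowN1 b x (inA b x hx).1 (inA b x hx).2).2,
      (lowN1 b x (inA b x hx).1 (inA b x hx).2).1.1⟩)
    (fun b b' hb => Set.disjoint_left.2 fun x hx hx' => by
      obtain ⟨q, hq, e⟩ := ofN1 b x (inA b x hx).1 (inA b x hx).2
      obtain ⟨q', hq', e'⟩ := ofN1 b' x (inA b' x hx').1 (inA b' x hx').2
      exact hB.disj b b' hb q hq q' hq' (e.trans e'.symm))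
    (fun b => (hG b).mono (hR b)) rΛ zΛ
    (fun x hx h1 => ⟨(mΛ x hx h1).1, (mΛ x hx h1).2, fun h2 => by
      obtain ⟨h3, h4⟩ := happ x hx h1 h2.1
      have h5 : κ < μ x := h2.2
      have h6 := (μle x hx h1).trans (le_abs_self Cμ)
      have h7 : |μ x * (yk x - yv x)| ≤ |Cμ| * e2 := by
        rw [abs_mul]
        gcongr
      have h8 : |fderiv ℝ yk x (Pi x (l x)) - μ x * yk x| ≤ (|Cμ| + 1) * e2 := by
        rw [abs_le] at h4 h7 ⊢
        constructor <;> linarith [h4.1, h4.2, h7.1, h7.2]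
      have h9 : |yk x * (fderiv ℝ yk x (Pi x (l x)) - μ x * yk x)| ≤ (|Cμ| + 1) * e2 * |yk x| := by
        rw [abs_mul, mul_comm]
        gcongr
      nlinarith [(abs_le.1 h9).1, mul_nonneg (sub_nonneg.2 h5.le) (sq_nonneg (yk x))]⟩)
    fun x hx h1 h2 => by
      have := hL' x hx h1
      rw [Finset.sum_eq_zero fun b _ => βA b x hx (h2 b)] at this
      linarith
  obtain ⟨hT, hZT⟩ := smpT V _ M l Pi N hS Np
  obtain ⟨A', B', Φ', hW⟩ := glue2 _ _ (ov M ℂ) (lT N l) (PT N l Pi) (psT φ (1 / (4 * R ^ 2))) G' Φ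
    hT (contDiff_psT hA.sφ _) sG sΦ (by
      have : {q ∈ ov M ℂ | psT φ (1 / (4 * R ^ 2)) q ≤ 4} = ({x ∈ M | φ x ≤ 4} ×ˢ
          closedBall (0 : ℂ) (4 * R)) ∩ {q | psT φ (1 / (4 * R ^ 2)) q ≤ 4} := by
        ext q
        refine ⟨fun hq => ⟨⟨⟨hq.1, ?_⟩, ?_⟩, hq.2⟩, fun hq => ⟨hq.1.1.1, hq.2⟩⟩
        · linarith [mul_nonneg εp.le (nq_nonneg q.2), show φ q.1 + _ * nq q.2 ≤ 4 from hq.2]
        · have h1 : 1 / (4 * R ^ 2) * nq q.2 ≤ 4 := by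
            linarith [hA.nn q.1 hq.1, show φ q.1 + _ * nq q.2 ≤ 4 from hq.2]
          rw [nq_eq, one_div, inv_mul_le_iff₀ (by positivity)] at h1
          rw [mem_closedBall_zero_iff]
          exact abs_le_of_sq_le_sq' (by linarith) (by positivity) |>.2
      rw [this]
      exact ((hA.cpt 4 (by norm_num)).prod (isCompact_closedBall _ _)).inter_right
        (isClosed_le (contDiff_psT hA.sφ _).continuous continuous_const))
    (fun q hq h1 => by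
      have h2 : 3 / 2 ≤ φ q.1 + 1 / (4 * R ^ 2) * nq q.2 := h1
      refine ⟨?_, far q hq ?_⟩
      · rw [hZT q hq, fderiv_psT hA.sφ, ZT0]
        have h3 : 0 < (1 + rho N q.2)⁻¹ := by have := rho_nonneg Np q.2; positivity
        have h4 : 2 * (q.2.re * ((1 / 2 : ℝ) • q.2).re + q.2.im * ((1 / 2 : ℝ) • q.2).im) =
            nq q.2 := by
          simp [nq]
          ring
        simp only [map_smul, smul_eq_mul, h4]
        by_cases h5 : 1 / 8 ≤ φ q.1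
        · linarith [mul_pos h3 (hA.shell q.1 hq h5), mul_nonneg εp.le (nq_nonneg q.2)]
        · linarith [mul_nonneg h3.le (hnn q.1 hq), not_le.1 h5]
      · by_contra h3
        obtain ⟨h4, h5⟩ := not_or.1 h3
        have h6 : nq q.2 ≤ R ^ 2 := by
          rw [nq_eq]
          gcongr
          exact not_lt.1 h5
        have h7 : 1 / (4 * R ^ 2) * nq q.2 ≤ 1 / 4 := by
          calc _ ≤ 1 / (4 * R ^ 2) * R ^ 2 := by gcongr
            _ = 1 / 4 := by field_simp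
        linarith [not_le.1 h4]) ly
  exact ⟨N, _, A', B', G', Φ', Np, εp, hW⟩

theorem Wein.mono {V : Type} [NormedAddCommGroup V] [NormedSpace ℝ V] {S S' : Set V}
    {l : V → V →L[ℝ] ℝ} {Pi : V → (V →L[ℝ] ℝ) →L[ℝ] V} {ψ G Φ : V → ℝ} {A B : ℝ}
    (h : Wein S l Pi ψ A B G Φ) (hS : S' ⊆ S) : Wein S' l Pi ψ A B G Φ :=
  ⟨h.Apos, h.sG, h.sΦ, fun q hq h1 => nhdsWithin_mono q hS (h.far q (hS hq) h1),
    fun q hq => h.lin q (hS hq), fun q hq h1 => (h.lyap q (hS hq) h1).mono (nhdsWithin_mono q hS)⟩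

theorem final2 (main : Main2Stmt) (hyp : HypStmt) (prodT : ProdTStmt) (embT : EmbTStmt)
    (finH : FinHStmt) (W : Type) [TopologicalSpace W] [ChartedSpace (Euc 4) W]
    [IsManifold (𝓡 4) ∞ W] [T2Space W] (l : OneForm (𝓡 4) W) (Z : VField (𝓡 4) W)
    (hZ : IsLiouville (𝓡 4) l Z) (h : LiouvilleMfd (𝓡 4) l) (y μ : W → ℝ) (U : Set W)
    (hU : IsOpen U) (hy : ContMDiffOn (𝓡 4) 𝓘(ℝ, ℝ) 1 y U) (hμ : ContinuousOn μ U)
    (he : ∀ x ∈ U, der (𝓡 4) y x (Z x) = μ x * y x)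
    (hK : ∀ x ∈ skeleton Z, x ∈ U ∧ y x = 0 ∧ 0 < μ x ∧
      ∃ u v, der (𝓡 4) y x u * l x v ≠ der (𝓡 4) y x v * l x u) :
    ∃ l₁, Homotopic (IP 4 1) (stab (𝓡 4) l 1) l₁ ∧ WeinsteinMfd (IP 4 1) l₁ := by
  obtain ⟨Z', φ₀, K, hL, hex, hKc, hpos⟩ := h
  obtain rfl : Z' = Z := funext fun x => by
    have key : ∀ a b v : Euc 4, dForm (𝓡 4) l x (a - b) v =
        dForm (𝓡 4) l x a v - dForm (𝓡 4) l x b v := fun a b v => by
      simp only [dForm, map_sub, sub_apply]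
      ring
    exact sub_eq_zero.1 (hZ.nondeg x _ fun v =>
      (key (Z' x) (Z x) v).trans (sub_eq_zero.2 ((hL.dual x v).trans (hZ.dual x v).symm)))
  obtain ⟨n, φ, e, l', Pi, φ', hE⟩ := emb 4 W l Z' φ₀ K ⟨hL.smooth, hL.nondeg, hL.dual⟩ hex
    hKc hpos
  have hlt : ∀ x, φ x < 6 → ∀ᶠ y in 𝓝 x, φ y < 6 := fun x hx =>
    hE.ex.1.continuous.continuousAt.eventually (gt_mem_nhds hx)
  have hnn : ∀ x ∈ e '' {x | φ x < 6}, 0 ≤ fderiv ℝ φ' x (Pi x (l' x)) := by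
    rintro _ ⟨x, hx, rfl⟩
    have := der_comp (u' := φ) (hE.sm.mdifferentiableAt (x := x) (by simp))
      (hE.amb.sφ.differentiable (by simp) _) ((hlt x hx).mono fun y hy => (hE.fn y hy).symm) (Z' x)
    rw [← hE.fld x hx]
    exact (hE.nd x).trans_eq this
  obtain ⟨yv, μ', U', K₀, hH⟩ := hyp 4 W _ l Z' φ y μ U e l' Pi φ' hL hE hU hy hμ he hK
  obtain ⟨N, ε, A, B, G, Φ, Np, εp, hW⟩ := main _ _ U' K₀ l' Pi φ' yv μ' hE.amb hnn hH
  obtain ⟨h1, h2⟩ := prodT 4 W l Z' hL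
  obtain ⟨h3, h4⟩ := embT 4 W _ l Z' φ e l' Pi φ' ε N hE εp Np
  obtain ⟨l₁, h5, h6⟩ := finH _ _ (IP 4 1) _ _ (Euc 4 × ℂ) (fun t => LW l (t * N))
    (fun t => ZW Z' (t * N)) (psW2 φ ε) (eT e) (lT N l') (PT N l' Pi) (psT φ' ε) G Φ A B
    (fun p => (h1 p).comp (f := fun q : ℝ × (Euc 4 × (Fin 1 → ℂ)) => (q.1 * N, q.2))
      ((contDiffOn_fst.mul contDiffOn_const).prodMk contDiffOn_snd) fun q hq => ⟨trivial, hq.2⟩)
    (fun t ht => ⟨h2 _ (mul_nonneg ht.1 Np),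
      (embT 4 W _ l Z' φ e l' Pi φ' ε _ hE εp (mul_nonneg ht.1 Np)).2.shell⟩)
    (by simpa only [one_mul] using h4) (Wein.mono hW h3)
  refine ⟨l₁, ?_, h6⟩
  have : LW l (0 * N) = stab (𝓡 4) l 1 := by
    funext p
    simp only [LW, stab, rho, zero_mul, zero_div, add_zero, one_smul]
  rwa [this] at h5

end Pool.Agent.MP_6d695c_gt.T2
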