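import Pool.Agent.MP_6d695c_gt.t1.All
import Pool.Agent.MP_6d695c_gt.sw.Trap

/-! PROJECT T2: definitions, statements of the rows, small shared lemmas.
See /team-store/d12_6d695c_helper39_T2.md. -/

open scoped Manifold ContDiff Topology MeasureTheory
open Set Metric Filter Real

namespace Pool.Agent.MP_6d695c_gt.T2

open SW T1 Theta

noncomputable section

/-! ### The two models -/

/-- points (s, (a, σ), y) or (P, (a, σ), Y) -/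
abbrev B4 : Type := ℝ × (ℝ × ℝ) × ℝ

/-- points ((P, (a, σ), Y), w) -/
abbrev Mo : Type := B4 × ℂ

def es : B4 := (1, (0, 0), 0)
def ea : B4 := (0, (1, 0), 0)
def eσ : B4 := (0, (0, 1), 0)
def ey : B4 := (0, (0, 0), 1)

/-- square of the norm -/
def nq (z : ℂ) : ℝ := z.re ^ 2 + z.im ^ 2

/-- `N |z|² / 2` -/
def rho (N : ℝ) (z : ℂ) : ℝ := N * nq z / 2

/-- the radial form of `ℂ` -/
def radC (z : ℂ) : ℂ →L[ℝ] ℝ := (z.re / 2) • Complex.imCLM - (z.im / 2) • Complex.reCLM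

/-- `da` -/
def da4 : B4 →L[ℝ] ℝ := (ContinuousLinearMap.fst ℝ ℝ ℝ).comp
  ((ContinuousLinearMap.fst ℝ (ℝ × ℝ) ℝ).comp (ContinuousLinearMap.snd ℝ ℝ _))

/-- `dσ` -/
def dσ4 : B4 →L[ℝ] ℝ := (ContinuousLinearMap.snd ℝ ℝ ℝ).comp
  ((ContinuousLinearMap.fst ℝ (ℝ × ℝ) ℝ).comp (ContinuousLinearMap.snd ℝ ℝ _))

/-- the form `exp s * (da + y dσ)` -/
def lb (q : B4) : B4 →L[ℝ] ℝ := exp q.1 • (da4 + q.2.2 • dσ4)

/-- the inverse of `d lb` -/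
def Pb (q : B4) : (B4 →L[ℝ] ℝ) →L[ℝ] B4 :=
  LinearMap.toContinuousLinearMap
    { toFun := fun β => exp (-q.1) • (β ea, (-β es + q.2.2 * β ey, -β ey), β eσ - q.2.2 * β ea)
      map_add' := fun u v => by ext <;> simp <;> ring
      map_smul' := fun a v => by ext <;> simp <;> ring }

/-- the form `P da + Y dσ + radial` -/
def lm (x : Mo) : Mo →L[ℝ] ℝ :=
  (x.1.1 • da4 + x.1.2.2 • dσ4).comp (ContinuousLinearMap.fst ℝ B4 ℂ) +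
    (radC x.2).comp (ContinuousLinearMap.snd ℝ B4 ℂ)

/-- the inverse of `d lm` -/
def Pm : (Mo →L[ℝ] ℝ) →L[ℝ] Mo :=
  LinearMap.toContinuousLinearMap
    { toFun := fun β => ((β (ea, 0), (-β (es, 0), -β (ey, 0)), β (eσ, 0)),
        ⟨β (0, Complex.I), -β (0, 1)⟩)
      map_add' := fun u v => by
        refine Prod.ext ?_ (Complex.ext ?_ ?_)
        · ext <;> simp <;> ring
        · simp
        · simp; ring
      map_smul' := fun a v => by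
        refine Prod.ext ?_ (Complex.ext ?_ ?_)
        · ext <;> simp
        · simp
        · simp }

/-- the Liouville field of `lm + dF` -/
def Xm (F : Mo → ℝ) (x : Mo) : Mo := Pm (lm x + fderiv ℝ F x)

/-- from the twisted product to the model -/
def Th (N : ℝ) (x : B4 × ℂ) : Mo :=
  ((exp x.1.1 * (1 + rho N x.2) - rho N x.2, x.1.2.1, exp x.1.1 * (1 + rho N x.2) * x.1.2.2),
    x.2 * Complex.exp (Complex.I * ((N * x.1.2.1.1 : ℝ) : ℂ)))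

/-- the polar chart -/
def Jm (x : Mo) : ℝ × Y 2 :=
  (log (nq x.2 / 2), Complex.arg x.2, ![x.1.2.1.1, x.1.2.1.2],
    ![x.1.1 / (nq x.2 / 2), x.1.2.2 / (nq x.2 / 2)])

/-- closed box -/
def cb (h w : ℝ) : Set B4 := {q | |q.1| ≤ h ∧ ‖q.2‖ ≤ w}

/-- the value on the axis `s = 0`, `y = 0` -/
def ell (L : B4 → ℝ) (p : ℝ × ℝ) : ℝ := L (0, p, 0)

/-- the cone over which the trap acts -/
def Cone (I1 : ℝ) (x : Mo) : Prop :=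
  I1 ≤ nq x.2 / 2 ∧ |x.1.1| ≤ nq x.2 / 2 ∧ |x.1.2.2| ≤ nq x.2 / 2

/-- the region where the plug acts -/
def Act (w h' Y1 I1 R : ℝ) : Set Mo :=
  {x | ‖x.1.2.1‖ ≤ 3 * w ∧ ‖x.2‖ ≤ R ∧ ((|x.1.1 - 1| ≤ h' ∧ |x.1.2.2| ≤ 4 * Y1) ∨ Cone I1 x)}

/-- the trap in the model -/
structure Low (w η I0 I1 I2 c0 : ℝ) (ℓ : ℝ × ℝ → ℝ) (F Λ Ξ E : Mo → ℝ) : Prop where
  sF : ContDiff ℝ ∞ F
  sΛ : ContDiff ℝ ∞ Λ
  sΞ : ContDiff ℝ ∞ Ξ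
  sE : ContDiff ℝ ∞ E
  out : ∀ x, F x ≠ 0 → ‖x.1.2.1‖ ≤ 3 * w ∧ Cone I1 x ∧ nq x.2 / 2 ≤ I0
  supp : ∀ x, Ξ x ≠ 0 → ‖x.1.2.1‖ ≤ 3 * w ∧ Cone I1 x
  rng : ∀ x, Ξ x ∈ Icc (0 : ℝ) 1
  mono : ∀ x, fderiv ℝ Ξ x (Xm F x) ≤ 0
  one : ∀ x : Mo, I0 ≤ nq x.2 / 2 → |x.1.1| ≤ c0 * (nq x.2 / 2) → |x.1.2.2| ≤ c0 * (nq x.2 / 2) →
    ‖x.1.2.1‖ ≤ 2 * w → |x.2.im| ≤ c0 * x.2.re → Ξ x = 1
  bE : ∀ x, |E x| ≤ η
  bΛ : ∀ x, |Λ x| ≤ 2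
  slow : ∀ x : Mo, I2 < nq x.2 / 2 → 0 ≤ fderiv ℝ (fun x => ℓ x.1.2.1 - E x) x (Xm F x)
  ly : ∀ x : Mo, I2 < nq x.2 / 2 → Ly univ (Xm F) Λ x

/-- the kick -/
structure Slab (w h' Y1 c0 θ R ε : ℝ) (F Ξ : Mo → ℝ) : Prop where
  sF : ContDiff ℝ ∞ F
  sΞ : ContDiff ℝ ∞ Ξ
  out : ∀ x, F x ≠ 0 → ‖x.1.2.1‖ ≤ 3 * w ∧ ‖x.2‖ ≤ R ∧ |x.1.1 - 1| ≤ h' ∧ |x.1.2.2| ≤ 4 * Y1
  small : ∀ x (v : B4), |fderiv ℝ F x (v, 0)| ≤ θ * ‖v‖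
  rng : ∀ x, Ξ x ∈ Icc (0 : ℝ) 1
  mono : ∀ x : Mo, 1 / 5 < x.1.1 → fderiv ℝ Ξ x (Xm F x) ≤ 0
  one : ∀ x : Mo, 1 + h' ≤ x.1.1 → ‖x.1.2.1‖ ≤ w → |x.1.2.2| ≤ Y1 * x.1.1 →
    nq x.2 ≤ ε ^ 2 * x.1.1 → Ξ x = 1
  supp : ∀ x : Mo, 1 / 5 < x.1.1 → Ξ x ≠ 0 → ‖x.1.2.1‖ ≤ 2 * w ∧ |x.1.2.2| ≤ 2 * Y1 * x.1.1 ∧
    (x.1.1 ≤ 1 - h' → x.1.1 ≤ c0 * (nq x.2 / 2) ∧ |x.2.im| ≤ c0 * x.2.re)

/-- the plug -/
structure Plg (w h' η Y1 ys I1 ε R I2 : ℝ) (ℓ g : ℝ × ℝ → ℝ) (F E Ξ : Mo → ℝ) : Prop where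
  sF : ContDiff ℝ ∞ F
  sE : ContDiff ℝ ∞ E
  sΞ : ContDiff ℝ ∞ Ξ
  out : ∀ x ∉ Act w h' Y1 I1 R, F x = 0
  bd : ∀ x, |E x| ≤ η
  ly : ∀ x : Mo, 1 / 2 ≤ x.1.1 ∨ I2 < nq x.2 / 2 → Ly univ (Xm F) (fun x => ℓ x.1.2.1 + E x) x
  up : ∀ x : Mo, ys ≤ |x.1.2.2| →
    0 < fderiv ℝ (fun x : Mo => (x.1.2.2 * exp (g x.1.2.1)) ^ 2) x (Xm F x)
  rng : ∀ x, Ξ x ∈ Icc (0 : ℝ) 1
  mono : ∀ x, fderiv ℝ Ξ x (Xm F x) ≤ 0
  one : ∀ x : Mo, 1 + h' ≤ x.1.1 → ‖x.1.2.1‖ ≤ w → |x.1.2.2| ≤ Y1 * x.1.1 →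
    nq x.2 ≤ ε ^ 2 * x.1.1 → Ξ x = 1
  supp : ∀ x, Ξ x ≠ 0 → ‖x.1.2.1‖ ≤ 3 * w ∧
    ((1 - h' ≤ x.1.1 ∧ |x.1.2.2| ≤ 2 * Y1 * x.1.1) ∨ Cone I1 x)

/-- the step at the top of the box -/
structure Top (h : ℝ) (tp : ℝ → ℝ) : Prop where
  st : ContDiff ℝ ∞ tp
  t1 : ∀ s ≤ h / 3, tp s = 1
  t0 : ∀ s, h / 2 ≤ s → tp s = 0
  tr : ∀ s, tp s ∈ Icc (0 : ℝ) 1
  td : ∀ s, deriv tp s ≤ 0
  neg : ∀ s ∈ Ioo (h / 3) (h / 2), deriv tp s < 0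

/-- the cut-off functions of a box -/
structure Cs (h w h'' y4 δ K : ℝ) (ν ν2 : ℝ → ℝ) (c : (ℝ × ℝ) × ℝ → ℝ) : Prop where
  pos : 0 < h''
  le : h'' ≤ h / 4
  sν : ContDiff ℝ ∞ ν
  ν1 : ∀ s, |s| ≤ h'' → ν s = 1
  ν0 : ∀ s, h / 4 ≤ |s| → ν s = 0
  νr : ∀ s, ν s ∈ Icc (0 : ℝ) 1
  νd : ∀ s, s * deriv ν s ≤ 0 ∧ -δ ≤ s * deriv ν s
  sν2 : ContDiff ℝ ∞ ν2
  ν21 : ∀ s, |s| ≤ h / 4 → ν2 s = 1
  ν20 : ∀ s, 3 / 10 * h ≤ |s| → ν2 s = 0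
  ν2r : ∀ s, ν2 s ∈ Icc (0 : ℝ) 1
  ν2d : ∀ s, |deriv ν2 s| ≤ K
  sc : ContDiff ℝ ∞ c
  cr : ∀ p, c p ∈ Icc (0 : ℝ) 1
  c1 : ∀ p : (ℝ × ℝ) × ℝ, ‖p.1‖ ≤ 7 / 2 * w → |p.2| ≤ y4 / 2 → c p = 1
  c0 : ∀ p, c p ≠ 0 → ‖p.1‖ ≤ 4 * w ∧ |p.2| ≤ y4

/-- the twisting constant is large -/
structure Big (h h' Y1 I1 ε N : ℝ) : Prop where
  h0 : 0 < h
  h1 : h ≤ 1 / 100
  h'0 : 0 < h'
  h'1 : h' ≤ h / 16
  Y0 : 0 < Y1
  I0 : 0 < I1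
  ε0 : 0 < ε
  N1 : 6 ≤ N * (h * ε ^ 2)
  N2 : 1 + 1 / I1 ≤ N * h'
  N3 : 1 + 1 / Y1 ≤ N

/-- the correction of the Lyapunov function -/
def dL (N M : ℝ) (tp ν ν2 : ℝ → ℝ) (c : (ℝ × ℝ) × ℝ → ℝ) (L : B4 → ℝ) (E Ξ : Mo → ℝ)
    (x : B4 × ℂ) : ℝ :=
  c x.1.2 * ν x.1.1 * (ell L x.1.2.1 - L x.1) + c x.1.2 * ν2 x.1.1 * E (Th N x) -
    M * (tp x.1.1 * Ξ (Th N x))

/-! ### The twisted product -/

section Tw
variable {V : Type} [NormedAddCommGroup V] [NormedSpace ℝ V]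

/-- the form (1 + ρ) l + radial -/
def lT (N : ℝ) (l : V → V →L[ℝ] ℝ) (q : V × ℂ) : (V × ℂ) →L[ℝ] ℝ :=
  (1 + rho N q.2) • (l q.1).comp (ContinuousLinearMap.fst ℝ V ℂ) +
    (radC q.2).comp (ContinuousLinearMap.snd ℝ V ℂ)

/-- its Liouville field -/
def ZT0 (N : ℝ) (l : V → V →L[ℝ] ℝ) (Pi : V → (V →L[ℝ] ℝ) →L[ℝ] V) (q : V × ℂ) : V × ℂ :=
  ((1 + rho N q.2)⁻¹ • Pi q.1 (l q.1), (1 / 2 : ℝ) • q.2)

omit [NormedAddCommGroup V] [NormedSpace ℝ V] in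
/-- `φ + ε |z|²` -/
def psT (φ : V → ℝ) (ε : ℝ) (q : V × ℂ) : ℝ := φ q.1 + ε * nq q.2

variable [FiniteDimensional ℝ V]

/-- the inverse of `d lT` -/
def PT (N : ℝ) (l : V → V →L[ℝ] ℝ) (Pi : V → (V →L[ℝ] ℝ) →L[ℝ] V) (q : V × ℂ) :
    ((V × ℂ) →L[ℝ] ℝ) →L[ℝ] V × ℂ :=
  LinearMap.toContinuousLinearMap
    { toFun := fun β => ((1 + rho N q.2)⁻¹ • (Pi q.1 (β.comp (ContinuousLinearMap.inl ℝ V ℂ)) -
          (N * (q.2.re * β (0, Complex.I) - q.2.im * β (0, 1))) • Pi q.1 (l q.1)),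
        ⟨β (0, Complex.I) + (1 + rho N q.2)⁻¹ * N *
            l q.1 (Pi q.1 (β.comp (ContinuousLinearMap.inl ℝ V ℂ))) * q.2.im,
          -β (0, 1) - (1 + rho N q.2)⁻¹ * N *
            l q.1 (Pi q.1 (β.comp (ContinuousLinearMap.inl ℝ V ℂ))) * q.2.re⟩)
      map_add' := fun u v => by
        refine Prod.ext ?_ (Complex.ext ?_ ?_)
        · simp only [ContinuousLinearMap.add_comp, map_add, add_apply, Prod.fst_add]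
          module
        · simp only [ContinuousLinearMap.add_comp, map_add, add_apply, Prod.snd_add,
            Complex.add_re]
          ring
        · simp only [ContinuousLinearMap.add_comp, map_add, add_apply, Prod.snd_add,
            Complex.add_im]
          ring
      map_smul' := fun a v => by
        refine Prod.ext ?_ (Complex.ext ?_ ?_)
        · simp only [ContinuousLinearMap.smul_comp, map_smul, smul_apply, Prod.smul_fst,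
            RingHom.id_apply, smul_eq_mul]
          module
        · simp only [ContinuousLinearMap.smul_comp, map_smul, smul_apply, Prod.smul_snd,
            RingHom.id_apply, smul_eq_mul, Complex.smul_re]
          ring
        · simp only [ContinuousLinearMap.smul_comp, map_smul, smul_apply, Prod.smul_snd,
            RingHom.id_apply, smul_eq_mul, Complex.smul_im]
          ring }

/-- the Liouville field of `lT + dG` -/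
def XT (N : ℝ) (l : V → V →L[ℝ] ℝ) (Pi : V → (V →L[ℝ] ℝ) →L[ℝ] V) (G : V × ℂ → ℝ) (q : V × ℂ) :
    V × ℂ := PT N l Pi q (lT N l q + fderiv ℝ G q)

end Tw

section Mfd
variable {d : ℕ} {W : Type} [TopologicalSpace W] [ChartedSpace (Euc d) W]

/-- the form (1 + ρ) l + radial on `W × ℂ` -/
def LW (l : OneForm (𝓡 d) W) (N : ℝ) : OneForm (IP d 1) (W × (Fin 1 → ℂ)) := fun p =>
  ((1 + rho N (p.2 0)) • (l p.1).comp (ContinuousLinearMap.fst ℝ (Euc d) (Fin 1 → ℂ)) +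
    (radial p.2).comp (ContinuousLinearMap.snd ℝ (Euc d) (Fin 1 → ℂ)) :
      Euc d × (Fin 1 → ℂ) →L[ℝ] ℝ)

/-- its Liouville field -/
def ZW (Z : VField (𝓡 d) W) (N : ℝ) : VField (IP d 1) (W × (Fin 1 → ℂ)) := fun p =>
  (show Euc d × (Fin 1 → ℂ) from
    ((1 + rho N (p.2 0))⁻¹ • (show Euc d from Z p.1), (1 / 2 : ℝ) • p.2))

omit [TopologicalSpace W] in
/-- `e × id` -/
def eT {V : Type} (e : W → V) (p : W × (Fin 1 → ℂ)) : V × ℂ := (e p.1, p.2 0)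

omit [TopologicalSpace W] in
/-- `φ + ε |z|²` -/
def psW2 (φ : W → ℝ) (ε : ℝ) (p : W × (Fin 1 → ℂ)) : ℝ := φ p.1 + ε * nq (p.2 0)

end Mfd

end

/-! ### Statements of the rows -/

/-- MOD: the two models are exact symplectic -/
def ModStmt : Prop :=
  Smp B4 univ lb Pb ∧ (∀ q, Pb q (lb q) = es) ∧ Smp Mo univ lm fun _ => Pm

/-- SMPT: the twisted product is exact symplectic -/
def SmpTStmt : Prop :=
  ∀ (V E : Type) [NormedAddCommGroup V] [NormedSpace ℝ V] [FiniteDimensional ℝ V]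
    [NormedAddCommGroup E] [NormedSpace ℝ E] (M : Set V) (l : V → V →L[ℝ] ℝ)
    (Pi : V → (V →L[ℝ] ℝ) →L[ℝ] V) (N : ℝ), Smp E M l Pi → 0 ≤ N →
    Smp (E × ℂ) (ov M ℂ) (lT N l) (PT N l Pi) ∧
      ∀ q ∈ ov M ℂ, PT N l Pi q (lT N l q) = ZT0 N l Pi q

/-- THETA: the map `Th` relates the fields -/
def ThetaStmt : Prop :=
  ∀ N : ℝ, 0 ≤ N → ∀ F : Mo → ℝ, ContDiff ℝ ∞ F → ∀ x,
    fderiv ℝ (Th N) x (XT N lb Pb (fun x => F (Th N x)) x) = Xm F (Th N x) ∧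
    ∀ Φ : Mo → ℝ, ContDiff ℝ ∞ Φ → Ly univ (Xm F) Φ (Th N x) →
      Ly univ (XT N lb Pb fun x => F (Th N x)) (fun x => Φ (Th N x)) x

/-- JAY: the polar chart relates the fields -/
def JayStmt : Prop :=
  ∀ x : Mo, x.2 ∈ Complex.slitPlane → ContDiffAt ℝ ∞ Jm x ∧
    ∀ (f : ℝ × Y 2 → ℝ) (F : Mo → ℝ), ContDiff ℝ ∞ f → ContDiff ℝ ∞ F →
      (∀ᶠ x' in 𝓝 x, F x' = f (Jm x')) →
      fderiv ℝ Jm x (Xm F x) = XY f (Jm x) ∧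
      ∀ (Λ' : ℝ × Y 2 → ℝ) (Λ : Mo → ℝ), ContDiff ℝ ∞ Λ' → ContDiff ℝ ∞ Λ →
        (∀ᶠ x' in 𝓝 x, Λ x' = Λ' (Jm x')) → Ly univ (XY f) Λ' (Jm x) → Ly univ (Xm F) Λ x

/-- LOW: the trap in the model -/
def LowStmt : Prop :=
  ∀ (w η I0 : ℝ) (ℓ : ℝ × ℝ → ℝ), 0 < w → w ≤ 1 / 20 → 0 < η → 0 < I0 → ContDiff ℝ ∞ ℓ →
    ∃ I1 c0, 0 < I1 ∧ I1 ≤ I0 ∧ 0 < c0 ∧ ∀ I2, 0 < I2 →
      ∃ F Λ Ξ E, Low w η I0 I1 I2 c0 ℓ F Λ Ξ E

/-- SLAB: the kick -/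
def SlabStmt : Prop :=
  ∀ w h' Y1 c0 θ : ℝ, 0 < w → 0 < h' → h' ≤ 1 / 10 → 0 < Y1 → 0 < c0 → 0 < θ →
    ∃ R ε F Ξ, 0 < ε ∧ Slab w h' Y1 c0 θ R ε F Ξ

/-- PLUG: kick and trap together -/
def PlgStmt : Prop :=
  ∀ (w h' η Y1 ys : ℝ) (ℓ g : ℝ × ℝ → ℝ), 0 < w → w ≤ 1 / 20 → 0 < h' → h' ≤ 1 / 10 → 0 < η →
    0 < Y1 → Y1 ≤ 1 / 2 → 0 < ys → ContDiff ℝ ∞ ℓ → ContDiff ℝ ∞ g →
    ∃ I1 ε R, 0 < I1 ∧ 0 < ε ∧ ∀ I2, 0 < I2 → ∃ F E Ξ, Plg w h' η Y1 ys I1 ε R I2 ℓ g F E Ξ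

/-- CUTS: the cut-off functions -/
def CutsStmt : Prop :=
  ∀ h w : ℝ, 0 < h → 0 < w →
    (∃ tp, Top h tp) ∧
    ∃ K, 0 < K ∧ ∀ δ, 0 < δ → ∃ h'', 0 < h'' ∧ ∀ y4, 0 < y4 → ∃ ν ν2 c, Cs h w h'' y4 δ K ν ν2 c

/-- GEO: where the regions of the model lie in the box -/
def GeoStmt : Prop :=
  ∀ h h' Y1 I1 ε N : ℝ, Big h h' Y1 I1 ε N → ∀ x : B4 × ℂ,
    (Cone I1 (Th N x) → |x.1.1| ≤ 2 * h' ∧ |x.1.2.2| ≤ Y1 ∧ 1 / N < nq (Th N x).2 / 2) ∧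
    (|(Th N x).1.1 - 1| ≤ h' → |(Th N x).1.2.2| ≤ 4 * Y1 → |x.1.1| ≤ 2 * h' ∧ |x.1.2.2| ≤ 5 * Y1) ∧
    (1 - h' ≤ (Th N x).1.1 → |(Th N x).1.2.2| ≤ 2 * Y1 * (Th N x).1.1 →
      -(2 * h') ≤ x.1.1 ∧ |x.1.2.2| ≤ 2 * Y1) ∧
    (h / 3 ≤ x.1.1 → 1 + h' ≤ (Th N x).1.1 ∧ nq (Th N x).2 ≤ ε ^ 2 * (Th N x).1.1 ∧
      h / 3 * (1 + rho N x.2) ≤ (Th N x).1.1) ∧
    (|x.1.1| ≤ h → 1 / 2 ≤ (Th N x).1.1 ∨ 1 / N < nq (Th N x).2 / 2)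

/-- MOLL: smooth approximation in the `C¹` norm -/
def MollStmt : Prop :=
  ∀ (X : Type) [NormedAddCommGroup X] [NormedSpace ℝ X] [FiniteDimensional ℝ X] (f : X → ℝ)
    (e : ℝ), ContDiff ℝ 1 f → HasCompactSupport f → 0 < e →
    ∃ g : X → ℝ, ContDiff ℝ ∞ g ∧ HasCompactSupport g ∧
      ∀ x, |g x - f x| ≤ e ∧ ‖fderiv ℝ g x - fderiv ℝ f x‖ ≤ e

/-- KSET: the invariant set and the function that sees the outside -/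
def KsetStmt : Prop :=
  ∀ (V E : Type) [NormedAddCommGroup V] [NormedSpace ℝ V] [FiniteDimensional ℝ V]
    [NormedAddCommGroup E] [NormedSpace ℝ E] (M K₀ : Set V) (l : V → V →L[ℝ] ℝ)
    (Pi : V → (V →L[ℝ] ℝ) →L[ℝ] V) (φ : V → ℝ) (Z : V → V) (fl : ℝ → V → V),
    Amb E M l Pi φ (1 / 8) → (∀ x ∈ M, 0 ≤ fderiv ℝ φ x (Pi x (l x))) → Cut M l Pi φ Z fl →
    Core M l Pi φ K₀ →
    ∃ K, IsCompact K ∧ K ⊆ K₀ ∧ (∀ x ∈ K, x ∈ M ∧ φ x < 1 ∧ ∀ t, 0 ≤ t → fl t x ∈ K) ∧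
      (∀ x ∈ M, φ x ≤ 2 → x ∉ K → ∃ t, 0 ≤ t ∧ 2 < φ (fl t x)) ∧
      ∀ U, IsOpen U → K ⊆ U → ∃ (Λ : V → ℝ) (N0 : Set V), ContDiff ℝ ∞ Λ ∧ IsOpen N0 ∧ K ⊆ N0 ∧
        (∀ x, Λ x ∈ Icc (0 : ℝ) 1) ∧ (∀ x ∈ N0, Λ x = 0) ∧
        ∀ x ∈ M, φ x ≤ 2 → 0 ≤ fderiv ℝ Λ x (Pi x (l x)) ∧ (x ∉ U → Λ x = 1)

/-- AVG: averaging along the flow -/
def AvgStmt : Prop :=
  ∀ (V : Type) [NormedAddCommGroup V] [NormedSpace ℝ V] [FiniteDimensional ℝ V] (D D₁ : Set V)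
    (Z : V → V) (K : NNReal) (fl : ℝ → V → V) (f : V → ℝ), ContDiff ℝ ∞ Z → LipschitzWith K Z →
    IsFlow Z fl → IsCompact D → IsCompact D₁ → D ⊆ D₁ → (∀ t, ∀ x ∈ D₁, fl t x ∈ D₁) →
    ContDiff ℝ ∞ f → (∀ x, 0 ≤ f x) → (∀ x ∈ D, ∃ t, 0 ≤ t ∧ 0 < f (fl t x)) →
    ∃ (L : V → ℝ) (M0 : ℝ), ContDiff ℝ ∞ L ∧ 0 ≤ M0 ∧ ∀ x ∈ D, 2 - M0 * f x ≤ fderiv ℝ L x (Z x)

/-- GLUE2: gluing with the exhausting function -/
def Glue2Stmt : Prop :=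
  ∀ (V E : Type) [NormedAddCommGroup V] [NormedSpace ℝ V] [NormedAddCommGroup E]
    [NormedSpace ℝ E] (S : Set V) (l : V → V →L[ℝ] ℝ) (Pi : V → (V →L[ℝ] ℝ) →L[ℝ] V)
    (ψ G Φ : V → ℝ), Smp E S l Pi → ContDiff ℝ ∞ ψ → ContDiff ℝ ∞ G → ContDiff ℝ ∞ Φ →
    IsCompact {q ∈ S | ψ q ≤ 4} →
    (∀ q ∈ S, 3 / 2 ≤ ψ q → 0 < fderiv ℝ ψ q (Pi q (l q)) ∧ ∀ᶠ q' in 𝓝[S] q, G q' = 0) →
    (∀ q ∈ S, ψ q ≤ 7 / 4 → Ly S (fun x => Pi x (l x + fderiv ℝ G x)) Φ q) →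
    ∃ A B Φ', Wein S l Pi ψ A B G Φ'

/-- PRODT: the twisted forms on `W × ℂ` are Liouville -/
def ProdTStmt : Prop :=
  ∀ (d : ℕ) (W : Type) [TopologicalSpace W] [ChartedSpace (Euc d) W] [IsManifold (𝓡 d) ∞ W]
    (l : OneForm (𝓡 d) W) (Z : VField (𝓡 d) W), IsLiouville (𝓡 d) l Z →
    (∀ p, ContDiffOn ℝ ∞ (fun q : ℝ × (Euc d × (Fin 1 → ℂ)) => formIn (IP d 1) (LW l q.1) p q.2)
      (univ ×ˢ (extChartAt (IP d 1) p).target)) ∧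
    ∀ N, 0 ≤ N → IsLiouville (IP d 1) (LW l N) (ZW Z N)

/-- EMBT: the embedding of the twisted product -/
def EmbTStmt : Prop :=
  ∀ (d : ℕ) (W V : Type) [TopologicalSpace W] [ChartedSpace (Euc d) W] [IsManifold (𝓡 d) ∞ W]
    [NormedAddCommGroup V] [NormedSpace ℝ V] [FiniteDimensional ℝ V] (l : OneForm (𝓡 d) W)
    (Z : VField (𝓡 d) W) (φ : W → ℝ) (e : W → V) (l' : V → V →L[ℝ] ℝ)
    (Pi : V → (V →L[ℝ] ℝ) →L[ℝ] V) (φ' : V → ℝ) (ε N : ℝ), Emb l Z φ e l' Pi φ' → 0 < ε →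
    0 ≤ N → eT e '' {p | psW2 φ ε p < 6} ⊆ ov (e '' {x | φ x < 6}) ℂ ∧
    EmbG (IP d 1) (Euc d × ℂ) (LW l N) (ZW Z N) (psW2 φ ε) (eT e) (lT N l') (PT N l' Pi)
      (psT φ' ε)

/-- FINH: from the ambient space to the manifold, after a first homotopy -/
def FinHStmt : Prop :=
  ∀ (E : Type) [NormedAddCommGroup E] [NormedSpace ℝ E] [FiniteDimensional ℝ E] (H : Type)
    [TopologicalSpace H] (I : ModelWithCorners ℝ E H) [I.Boundaryless] (W : Type)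
    [TopologicalSpace W] [ChartedSpace H W] [IsManifold I ∞ W] (V E' : Type)
    [NormedAddCommGroup V] [NormedSpace ℝ V] [FiniteDimensional ℝ V] [NormedAddCommGroup E']
    [NormedSpace ℝ E'] [FiniteDimensional ℝ E'] (L : ℝ → OneForm I W) (Z : ℝ → VField I W)
    (ψ : W → ℝ) (e : W → V) (l' : V → V →L[ℝ] ℝ) (Pi : V → (V →L[ℝ] ℝ) →L[ℝ] V)
    (ψ' G Φ : V → ℝ) (A B : ℝ),
    (∀ p, ContDiffOn ℝ ∞ (fun q : ℝ × E => formIn I (L q.1) p q.2)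
      (univ ×ˢ (extChartAt I p).target)) →
    (∀ t ∈ Icc (0 : ℝ) 1, IsLiouville I (L t) (Z t) ∧ ∀ x, 2 ≤ ψ x → 0 < der I ψ x (Z t x)) →
    EmbG I E' (L 1) (Z 1) ψ e l' Pi ψ' → Wein (e '' {x | ψ x < 6}) l' Pi ψ' A B G Φ →
    ∃ l₁, Homotopic I (L 0) l₁ ∧ WeinsteinMfd I l₁

/-! ### Small shared lemmas -/

section Small

theorem nq_nonneg (z : ℂ) : 0 ≤ nq z := by unfold nq; positivity

theorem nq_eq (z : ℂ) : nq z = ‖z‖ ^ 2 := (sq_norm_eq z).symm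

theorem contDiff_nq : ContDiff ℝ ∞ nq :=
  (Complex.reCLM.contDiff.pow 2).add (Complex.imCLM.contDiff.pow 2)

theorem fderiv_nq (z v : ℂ) : fderiv ℝ nq z v = 2 * (z.re * v.re + z.im * v.im) := by
  have h : HasFDerivAt nq _ z :=
    (Complex.reCLM.hasFDerivAt.pow 2).add (Complex.imCLM.hasFDerivAt.pow 2)
  rw [h.fderiv]
  simp
  ring

theorem rho_nonneg {N : ℝ} (hN : 0 ≤ N) (z : ℂ) : 0 ≤ rho N z :=
  div_nonneg (mul_nonneg hN (nq_nonneg z)) two_pos.le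

theorem contDiff_rho (N : ℝ) : ContDiff ℝ ∞ (rho N) :=
  (contDiff_const.mul contDiff_nq).div_const 2

theorem fderiv_rho (N : ℝ) (z v : ℂ) : fderiv ℝ (rho N) z v = N * (z.re * v.re + z.im * v.im) := by
  have h : HasFDerivAt (fun z => (N / 2) * nq z) _ z :=
    (contDiff_nq.differentiable (by simp) z).hasFDerivAt.const_mul (N / 2)
  rw [show rho N = fun z => (N / 2) * nq z from funext fun z => by rw [rho]; ring, h.fderiv]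
  simp only [smul_apply, fderiv_nq, smul_eq_mul]
  ring

theorem radC_apply (z v : ℂ) : radC z v = (z.re * v.im - z.im * v.re) / 2 := by
  simp [radC]
  ring

theorem lb_apply (q v : B4) : lb q v = exp q.1 * (v.2.1.1 + q.2.2 * v.2.1.2) := by
  simp [lb, da4, dσ4, mul_add]

theorem Pb_apply (q : B4) (β : B4 →L[ℝ] ℝ) : Pb q β =
    exp (-q.1) • (β ea, (-β es + q.2.2 * β ey, -β ey), β eσ - q.2.2 * β ea) := rfl

theorem lm_apply (x v : Mo) : lm x v = x.1.1 * v.1.2.1.1 + x.1.2.2 * v.1.2.1.2 +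
    (x.2.re * v.2.im - x.2.im * v.2.re) / 2 := by
  simp [lm, da4, dσ4, radC_apply]

theorem Pm_apply (β : Mo →L[ℝ] ℝ) : Pm β = ((β (ea, 0), (-β (es, 0), -β (ey, 0)), β (eσ, 0)),
    ⟨β (0, Complex.I), -β (0, 1)⟩) := rfl

theorem Xm_eq (F : Mo → ℝ) (x : Mo) : Xm F x =
    ((x.1.1 + fderiv ℝ F x (ea, 0), (-fderiv ℝ F x (es, 0), -fderiv ℝ F x (ey, 0)),
      x.1.2.2 + fderiv ℝ F x (eσ, 0)),
      ⟨x.2.re / 2 + fderiv ℝ F x (0, Complex.I), x.2.im / 2 - fderiv ℝ F x (0, 1)⟩) := by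
  rw [Xm, Pm_apply]
  refine Prod.ext ?_ (Complex.ext ?_ ?_)
  · simp [lm_apply, ea, es, ey, eσ]
  · simp [lm_apply]
  · simp [lm_apply]
    ring

theorem Xm_of_zero {F : Mo → ℝ} {x : Mo} (h : ∀ᶠ y in 𝓝 x, F y = 0) :
    Xm F x = ((x.1.1, (0, 0), x.1.2.2), (1 / 2 : ℝ) • x.2) := by
  have : fderiv ℝ F x = 0 := by
    rw [Filter.EventuallyEq.fderiv_eq (f := fun _ => (0 : ℝ)) h]
    simp
  rw [Xm_eq, this]
  refine Prod.ext (by simp) (Complex.ext ?_ ?_) <;> simp <;> ring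

theorem Xm_congr {F F' : Mo → ℝ} {x : Mo} (h : ∀ᶠ y in 𝓝 x, F y = F' y) : Xm F x = Xm F' x := by
  rw [Xm, Xm, Filter.EventuallyEq.fderiv_eq h]

theorem contDiff_lm : ContDiff ℝ ∞ lm := by
  have h1 : ContDiff ℝ ∞ fun x : Mo => x.2.re := Complex.reCLM.contDiff.comp contDiff_snd
  have h2 : ContDiff ℝ ∞ fun x : Mo => x.2.im := Complex.imCLM.contDiff.comp contDiff_snd
  unfold lm radC
  fun_prop

theorem contDiff_Xm {F : Mo → ℝ} (hF : ContDiff ℝ ∞ F) : ContDiff ℝ ∞ (Xm F) :=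
  Pm.contDiff.comp (contDiff_lm.add (hF.fderiv_right (by simp)))

theorem expand4 (β : B4 →L[ℝ] ℝ) (v : B4) :
    β v = v.1 * β es + v.2.1.1 * β ea + v.2.1.2 * β eσ + v.2.2 * β ey := by
  have : v = v.1 • es + v.2.1.1 • ea + v.2.1.2 • eσ + v.2.2 • ey := by
    ext <;> simp [es, ea, eσ, ey]
  conv_lhs => rw [this]
  simp only [map_add, map_smul, smul_eq_mul]

theorem contDiff_Th (N : ℝ) : ContDiff ℝ ∞ (Th N) := by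
  have h1 : ContDiff ℝ ∞ fun x : B4 × ℂ => rho N x.2 := (contDiff_rho N).comp contDiff_snd
  have h2 : ContDiff ℝ ∞ fun x : B4 × ℂ => ((N * x.1.2.1.1 : ℝ) : ℂ) :=
    Complex.ofRealCLM.contDiff.comp (by fun_prop : ContDiff ℝ ∞ fun x : B4 × ℂ => N * x.1.2.1.1)
  have h3 : ContDiff ℝ ∞ fun x : B4 × ℂ => Complex.exp (Complex.I * ((N * x.1.2.1.1 : ℝ) : ℂ)) :=
    (Complex.contDiff_exp (𝕜 := ℝ)).comp (contDiff_const.mul h2)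
  unfold Th
  fun_prop

theorem norm_Th (N : ℝ) (x : B4 × ℂ) : ‖(Th N x).2‖ = ‖x.2‖ := by
  rw [Th, norm_mul, mul_comm Complex.I, Complex.norm_exp_ofReal_mul_I, mul_one]

theorem nq_Th (N : ℝ) (x : B4 × ℂ) : nq (Th N x).2 = nq x.2 := by rw [nq_eq, nq_eq, norm_Th]

theorem isClosed_cb (h w : ℝ) : IsClosed (cb h w) :=
  (isClosed_le (continuous_fst.abs) continuous_const).inter
    (isClosed_le continuous_snd.norm continuous_const)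

theorem isCompact_cb (h w : ℝ) : IsCompact (cb h w) :=
  (isCompact_closedBall (0 : B4) (max h w)).of_isClosed_subset (isClosed_cb h w) fun q hq => by
    rw [mem_closedBall_zero_iff, Prod.norm_def]
    exact max_le_max hq.1 hq.2

theorem convex_cb (h w : ℝ) : Convex ℝ (cb h w) := by
  have : cb h w = closedBall (0 : ℝ) h ×ˢ closedBall (0 : (ℝ × ℝ) × ℝ) w := by
    ext q
    simp [cb]
  rw [this]
  exact (convex_closedBall _ _).prod (convex_closedBall _ _)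

theorem cb_mono {h w h' w' : ℝ} (a : h ≤ h') (b : w ≤ w') : cb h w ⊆ cb h' w' :=
  fun _ hq => ⟨hq.1.trans a, hq.2.trans b⟩

theorem isClosed_Cone (I1 : ℝ) : IsClosed {x | Cone I1 x} := by
  have h : Continuous fun x : Mo => nq x.2 / 2 :=
    (contDiff_nq.continuous.comp continuous_snd).div_const 2
  exact (isClosed_le continuous_const h).inter
    ((isClosed_le (by fun_prop) h).inter (isClosed_le (by fun_prop) h))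

theorem isClosed_Act (w h' Y1 I1 R : ℝ) : IsClosed (Act w h' Y1 I1 R) :=
  (isClosed_le (f := fun x : Mo => ‖x.1.2.1‖) (by fun_prop) continuous_const).inter
    ((isClosed_le (f := fun x : Mo => ‖x.2‖) (by fun_prop) continuous_const).inter
      (((isClosed_le (f := fun x : Mo => |x.1.1 - 1|) (by fun_prop) continuous_const).inter
        (isClosed_le (f := fun x : Mo => |x.1.2.2|) (by fun_prop) continuous_const)).union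
          (isClosed_Cone I1)))

theorem contDiff_ell {L : B4 → ℝ} (hL : ContDiff ℝ ∞ L) : ContDiff ℝ ∞ (ell L) :=
  hL.comp (contDiff_const.prodMk (contDiff_id.prodMk contDiff_const))

variable {X : Type} [NormedAddCommGroup X] [NormedSpace ℝ X] {S : Set X} {Z : X → X}
  {Φ Φ' : X → ℝ} {x : X}

/-- a Lyapunov function may be replaced by one that grows at a comparable rate -/
theorem Ly.scale (h : Ly S Z Φ x) (hx : x ∈ S) {c : ℝ} (hc : 0 < c)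
    (hle : ∀ᶠ y in 𝓝[S] x, c * fderiv ℝ Φ y (Z y) ≤ fderiv ℝ Φ' y (Z y)) : Ly S Z Φ' x := by
  rcases h with h | ⟨u, h1, h2⟩
  · exact Or.inl ((mul_pos hc h).trans_le (hle.self_of_nhdsWithin hx))
  · refine Or.inr ⟨_, Lyap.good_smul h1 hc, (h2.and hle).mono fun y hy => le_trans ?_ hy.2⟩
    rw [Lyap.der_add contDiff_const h1.2.1]
    simpa using mul_le_mul_of_nonneg_left hy.1 hc.le

variable {V : Type} [NormedAddCommGroup V] [NormedSpace ℝ V] {M : Set V} {l : V → V →L[ℝ] ℝ}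
  {Pi : V → (V →L[ℝ] ℝ) →L[ℝ] V} {N : ℝ}

theorem lT_apply (q v : V × ℂ) : lT N l q v =
    (1 + rho N q.2) * l q.1 v.1 + (q.2.re * v.2.im - q.2.im * v.2.re) / 2 := by
  simp [lT, radC_apply]

theorem PT_apply [FiniteDimensional ℝ V] (q : V × ℂ) (β : (V × ℂ) →L[ℝ] ℝ) : PT N l Pi q β =
    ((1 + rho N q.2)⁻¹ • (Pi q.1 (β.comp (ContinuousLinearMap.inl ℝ V ℂ)) -
        (N * (q.2.re * β (0, Complex.I) - q.2.im * β (0, 1))) • Pi q.1 (l q.1)),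
      ⟨β (0, Complex.I) + (1 + rho N q.2)⁻¹ * N *
          l q.1 (Pi q.1 (β.comp (ContinuousLinearMap.inl ℝ V ℂ))) * q.2.im,
        -β (0, 1) - (1 + rho N q.2)⁻¹ * N *
          l q.1 (Pi q.1 (β.comp (ContinuousLinearMap.inl ℝ V ℂ))) * q.2.re⟩) := rfl

omit [NormedAddCommGroup V] [NormedSpace ℝ V] in
theorem ov_univ (F : Type) : ov (univ : Set V) F = univ := rfl

theorem contDiff_psT {φ : V → ℝ} (h : ContDiff ℝ ∞ φ) (ε : ℝ) : ContDiff ℝ ∞ (psT φ ε) :=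
  (h.comp contDiff_fst).add (contDiff_const.mul (contDiff_nq.comp contDiff_snd))

/-- the field does not see a function that vanishes near the point -/
theorem XT_congr [FiniteDimensional ℝ V] {E : Type} [NormedAddCommGroup E] [NormedSpace ℝ E]
    (h : Smp E (ov M ℂ) (lT N l) (PT N l Pi)) {G G' : V × ℂ → ℝ} (hG : ContDiff ℝ ∞ G)
    (hG' : ContDiff ℝ ∞ G') {q : V × ℂ} (hq : q ∈ ov M ℂ)
    (he : ∀ᶠ y in 𝓝[ov M ℂ] q, G y = G' y) : XT N l Pi G q = XT N l Pi G' q :=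
  h.congr hq fun v hv => by
    rw [add_apply, add_apply, fderiv_congr_tg (hG.differentiable (by simp) q)
      (hG'.differentiable (by simp) q) hq he hv]

theorem XT_zero [FiniteDimensional ℝ V] (q : V × ℂ) :
    XT N l Pi (fun _ => 0) q = PT N l Pi q (lT N l q) := by
  simp [XT]

theorem contDiff_lb : ContDiff ℝ ∞ lb := by
  unfold lb
  fun_prop

theorem dd_lb_es (q v : B4) : dd lb q es v = lb q v := by
  have d := (contDiff_lb.differentiable (by simp) q)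
  have k : ∀ u v : B4, fderiv ℝ lb q u v =
      exp q.1 * (u.1 * (v.2.1.1 + q.2.2 * v.2.1.2) + u.2.2 * v.2.1.2) := fun u v => by
    rw [Symp.fd_app d]
    have h1 : HasFDerivAt (fun y : B4 => exp y.1 * (v.2.1.1 + y.2.2 * v.2.1.2)) _ q :=
      hasFDerivAt_fst.exp.fun_mul
        (((hasFDerivAt_snd.comp q hasFDerivAt_snd).mul_const v.2.1.2).const_add v.2.1.1)
    rw [show (fun y => lb y v) = fun y : B4 => exp y.1 * (v.2.1.1 + y.2.2 * v.2.1.2) from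
      funext fun y => lb_apply y v, h1.fderiv]
    simp
    ring
  rw [dd, k, k, lb_apply]
  simp [es]

end Small

end Pool.Agent.MP_6d695c_gt.T2
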