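import Pool.Agent.MP_6d695c_gt.t1.FinG

/-! PROJECT T2: the twisted form `(1 + N |z|² / 2) l + radial` in the ambient space. -/

open scoped ContDiff Topology
open Set Metric Filter Real

namespace Pool.Agent.MP_6d695c_gt.T2.FT

open SW T1

noncomputable section

variable {V : Type} [NormedAddCommGroup V] [NormedSpace ℝ V] {ι : Type} [Fintype ι]

/-- the twisted form -/
def lt (N : ℝ) (l : V → V →L[ℝ] ℝ) (p : V × (ι → ℂ)) : V × (ι → ℂ) →L[ℝ] ℝ :=
  (1 + N * nsq p.2 / 2) • (l p.1).comp (ContinuousLinearMap.fst ℝ V (ι → ℂ)) +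
    (radial p.2).comp (ContinuousLinearMap.snd ℝ V (ι → ℂ))

theorem lt_apply (N : ℝ) (l : V → V →L[ℝ] ℝ) (p v : V × (ι → ℂ)) :
    lt N l p v = (1 + N * nsq p.2 / 2) * l p.1 v.1 + omC p.2 v.2 / 2 := by
  rw [← Prd.radial_apply]
  rfl

/-- multiplication by `i` -/
def mI (z : ι → ℂ) : ι → ℂ := fun i => Complex.I * z i

theorem omC_mI (z v : ι → ℂ) : omC (mI z) v = -ipc z v := by
  simp only [omC, ipc, mI, ← Finset.sum_neg_distrib]
  exact Finset.sum_congr rfl fun i _ => by simp; ring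

theorem ipc_mI (z : ι → ℂ) : ipc z (mI z) = 0 :=
  Finset.sum_eq_zero fun i _ => by simp [mI]; ring

theorem omC_self_mI (z : ι → ℂ) : omC z (mI z) = nsq z :=
  Finset.sum_congr rfl fun i _ => by simp [mI]; ring

theorem contDiff_mI : ContDiff ℝ ∞ (mI : (ι → ℂ) → ι → ℂ) :=
  contDiff_pi.2 fun i => contDiff_const.mul (contDiff_apply ℝ ℂ i)

theorem one_add_pos {N : ℝ} (hN : 0 ≤ N) (z : ι → ℂ) : 0 < 1 + N * nsq z / 2 := by
  have := mul_nonneg hN (nsq_nonneg z)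
  linarith

theorem contDiff_lt (N : ℝ) {l : V → V →L[ℝ] ℝ} (hl : ContDiff ℝ ∞ l) :
    ContDiff ℝ ∞ (lt N l : V × (ι → ℂ) → _) :=
  ((contDiff_const.add ((contDiff_const.mul (contDiff_nsq.comp contDiff_snd)).div_const 2)).smul
    ((hl.comp contDiff_fst).clm_comp contDiff_const)).add
    (((Prd.contDiff_radial (ι := ι)).comp contDiff_snd).clm_comp contDiff_const)

theorem dd_lt (N : ℝ) {l : V → V →L[ℝ] ℝ} {p : V × (ι → ℂ)} (hl : DifferentiableAt ℝ l p.1)
    (u v : V × (ι → ℂ)) :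
    dd (lt N l) p u v = (1 + N * nsq p.2 / 2) * dd l p.1 u.1 v.1 + N * ipc p.2 u.2 * l p.1 v.1 -
      N * ipc p.2 v.2 * l p.1 u.1 + omC u.2 v.2 := by
  obtain ⟨L, hL, hL'⟩ := hasFDerivAt_nsq p.2
  have h0 : HasFDerivAt (fun q : V × (ι → ℂ) => 1 + N * nsq q.2 / 2)
      ((N / 2) • L.comp (ContinuousLinearMap.snd ℝ V (ι → ℂ))) p := by
    have := ((hL.comp p (hasFDerivAt_snd (𝕜 := ℝ) (E := V))).const_mul (N / 2)).const_add 1
    refine this.congr_of_eventuallyEq (Eventually.of_forall fun q => ?_)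
    simp only [Function.comp_apply]
    ring
  have h1 := h0.smul
    ((hl.hasFDerivAt.comp p hasFDerivAt_fst).clm_comp
      (hasFDerivAt_const (ContinuousLinearMap.fst ℝ V (ι → ℂ)) p))
  have h2 := ((Prd.radL ι).hasFDerivAt.comp p (hasFDerivAt_snd (𝕜 := ℝ) (E := V))).clm_comp
    (hasFDerivAt_const (ContinuousLinearMap.snd ℝ V (ι → ℂ)) p)
  have h3 : fderiv ℝ (lt N l) p = _ := (h1.add h2).fderiv
  have h4 : ∀ a b : ι → ℂ, Prd.radL ι a b = omC a b / 2 := fun a b => Prd.radial_apply a b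
  simp only [dd, h3]
  simp [hL', h4, Prd.omC_anti v.2 u.2]
  ring

variable [DecidableEq ι]

theorem ipc_shC (z : ι → ℂ) (α : (ι → ℂ) →L[ℝ] ℝ) : ipc z (shC α) = α (mI z) := by
  rw [← omC_shC α, Prd.omC_anti, omC_mI, neg_neg]

variable [FiniteDimensional ℝ V]

/-- the inverse of the exterior derivative of the twisted form -/
def Pt (N : ℝ) (l : V → V →L[ℝ] ℝ) (Pi : V → (V →L[ℝ] ℝ) →L[ℝ] V) (p : V × (ι → ℂ)) :
    (V × (ι → ℂ) →L[ℝ] ℝ) →L[ℝ] V × (ι → ℂ) :=
  LinearMap.toContinuousLinearMap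
    { toFun := fun β => ((1 + N * nsq p.2 / 2)⁻¹ •
          (Pi p.1 (β.comp (ContinuousLinearMap.inl ℝ V (ι → ℂ))) -
            (N * β (0, mI p.2)) • Pi p.1 (l p.1)),
        shC (β.comp (ContinuousLinearMap.inr ℝ V (ι → ℂ))) -
          ((1 + N * nsq p.2 / 2)⁻¹ * N *
            l p.1 (Pi p.1 (β.comp (ContinuousLinearMap.inl ℝ V (ι → ℂ))))) • mI p.2)
      map_add' := fun u v => by
        refine Prod.ext ?_ ?_
        · simp only [ContinuousLinearMap.add_comp, map_add, add_apply, Prod.fst_add]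
          module
        · simp only [ContinuousLinearMap.add_comp, map_add, shC_add, Prod.snd_add]
          module
      map_smul' := fun a v => by
        refine Prod.ext ?_ ?_
        · simp only [ContinuousLinearMap.smul_comp, map_smul, smul_apply, Prod.smul_fst,
            RingHom.id_apply, smul_eq_mul]
          module
        · simp only [ContinuousLinearMap.smul_comp, map_smul, shC_smul, Prod.smul_snd,
            RingHom.id_apply, smul_eq_mul]
          module }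

theorem Pt_apply (N : ℝ) (l : V → V →L[ℝ] ℝ) (Pi : V → (V →L[ℝ] ℝ) →L[ℝ] V) (p : V × (ι → ℂ))
    (β : V × (ι → ℂ) →L[ℝ] ℝ) : Pt N l Pi p β = ((1 + N * nsq p.2 / 2)⁻¹ •
          (Pi p.1 (β.comp (ContinuousLinearMap.inl ℝ V (ι → ℂ))) -
            (N * β (0, mI p.2)) • Pi p.1 (l p.1)),
        shC (β.comp (ContinuousLinearMap.inr ℝ V (ι → ℂ))) -
          ((1 + N * nsq p.2 / 2)⁻¹ * N *
            l p.1 (Pi p.1 (β.comp (ContinuousLinearMap.inl ℝ V (ι → ℂ))))) • mI p.2) := rfl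

theorem contDiff_Pt {N : ℝ} (hN : 0 ≤ N) {l : V → V →L[ℝ] ℝ} {Pi : V → (V →L[ℝ] ℝ) →L[ℝ] V}
    (hl : ContDiff ℝ ∞ l) (hP : ContDiff ℝ ∞ Pi) :
    ContDiff ℝ ∞ (Pt N l Pi : V × (ι → ℂ) → _) := by
  refine contDiff_clm_apply_iff.2 fun β => ?_
  have h1 : ContDiff ℝ ∞ fun p : V × (ι → ℂ) => (1 + N * nsq p.2 / 2)⁻¹ :=
    (contDiff_const.add ((contDiff_const.mul (contDiff_nsq.comp contDiff_snd)).div_const 2)).inv
      fun p => (one_add_pos hN p.2).ne'
  have h2 : ContDiff ℝ ∞ fun p : V × (ι → ℂ) => mI p.2 := contDiff_mI.comp contDiff_snd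
  have h3 : ContDiff ℝ ∞ fun p : V × (ι → ℂ) =>
      Pi p.1 (β.comp (ContinuousLinearMap.inl ℝ V (ι → ℂ))) :=
    (hP.comp contDiff_fst).clm_apply contDiff_const
  have h4 : ContDiff ℝ ∞ fun p : V × (ι → ℂ) => l p.1 := hl.comp contDiff_fst
  simp only [Pt_apply]
  exact (h1.smul (h3.sub ((contDiff_const.mul (β.contDiff.comp
    (contDiff_const.prodMk h2))).smul ((hP.comp contDiff_fst).clm_apply h4)))).prodMk
    (contDiff_const.sub (((h1.mul contDiff_const).mul (h4.clm_apply h3)).smul h2))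

variable {E : Type} [NormedAddCommGroup E] [NormedSpace ℝ E] {M : Set V} {l : V → V →L[ℝ] ℝ}
  {Pi : V → (V →L[ℝ] ℝ) →L[ℝ] V} {N : ℝ}

omit [DecidableEq ι] [FiniteDimensional ℝ V] in
theorem tg_hat_iff {p v : V × (ι → ℂ)} : v ∈ Tg (hat M ι) p ↔ v.1 ∈ Tg M p.1 := by
  refine ⟨fun ⟨γ, h0, h1, h2⟩ => ⟨fun t => (γ t).1, by simp [h0], ?_, h2⟩, tg_hat⟩
  exact (ContinuousLinearMap.fst ℝ V (ι → ℂ)).hasFDerivAt.comp_hasDerivAt 0 h1

omit [FiniteDimensional ℝ V] in
/-- the Liouville form vanishes on the Liouville field -/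
theorem l_self (h : Smp E M l Pi) {x : V} (hx : x ∈ M) : l x (Pi x (l x)) = 0 := h.self hx _

theorem smp_lt (h : Smp E M l Pi) (hN : 0 ≤ N) :
    Smp (E × (ι → ℂ)) (hat M ι) (lt N l) (Pt N l Pi) := by
  refine ⟨h.sub.hat, contDiff_lt N h.sl, contDiff_Pt hN h.sl h.sP, fun p hp β => ?_,
    fun p hp β v hv => ?_⟩
  · exact tg_hat (h.sub.tg_smul hp _ (h.sub.tg_sub hp (h.tan _ hp _)
      (h.sub.tg_smul hp _ (h.tan _ hp _))))
  · have hv' := tg_hat_iff.1 hv
    have h0 := (one_add_pos hN p.2).ne'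
    have h1 := h.dual p.1 hp (β.comp (ContinuousLinearMap.inl ℝ V (ι → ℂ))) v.1 hv'
    have h2 := h.dual p.1 hp (l p.1) v.1 hv'
    have h3 := l_self h hp
    have h4 : ∀ (a b : V) (s t : ℝ), dd l p.1 (s • (a - t • b)) v.1 =
        s * (dd l p.1 a v.1 - t * dd l p.1 b v.1) := fun a b s t => by
      simp only [dd, map_smul, map_sub, smul_apply, sub_apply, smul_eq_mul]
      ring
    have h5 : ∀ (a b : ι → ℂ) (s : ℝ), ipc p.2 (a - s • b) = ipc p.2 a - s * ipc p.2 b :=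
      fun a b s => by
        rw [sub_eq_add_neg, ← neg_smul, ipc_add, ipc_smul]
        ring
    have h6 : β v = β (v.1, 0) + β (0, v.2) := by rw [← map_add]; simp
    rw [dd_lt N (h.sl.differentiable (by simp) _), Pt_apply]
    simp only [h4, h1, h2, h5, ipc_shC, ipc_mI, omC_sub, omC_shC, Prd.omC_smul, omC_mI, map_smul,
      map_sub, h3, smul_eq_mul, h6, ContinuousLinearMap.comp_apply, ContinuousLinearMap.inl_apply,
      ContinuousLinearMap.inr_apply]
    generalize 1 + N * nsq p.2 / 2 = a at h0 ⊢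
    field_simp
    ring

/-- the Liouville field of the twisted form -/
theorem Pt_lt (h : Smp E M l Pi) (hN : 0 ≤ N) {p : V × (ι → ℂ)} (hp : p ∈ hat M ι) :
    Pt N l Pi p (lt N l p) =
      ((1 + N * nsq p.2 / 2)⁻¹ • Pi p.1 (l p.1), (1 / 2 : ℝ) • p.2) := by
  refine ((smp_lt h hN).uniq hp (tg_hat (h.sub.tg_smul hp _ (h.tan _ hp _))) fun v hv => ?_).symm
  have h0 := (one_add_pos hN p.2).ne'
  have h2 := h.dual p.1 hp (l p.1) v.1 (tg_hat_iff.1 hv)
  have h4 : ∀ (a : V) (s : ℝ), dd l p.1 (s • a) v.1 = s * dd l p.1 a v.1 := fun a s => by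
    simp only [dd, map_smul, smul_apply, smul_eq_mul]
    ring
  rw [dd_lt N (h.sl.differentiable (by simp) _), lt_apply]
  simp only [h4, h2, ipc_smul, ipc_self, Prd.omC_smul, map_smul, l_self h hp, smul_eq_mul]
  rw [mul_inv_cancel_left₀ h0]
  ring

end

end Pool.Agent.MP_6d695c_gt.T2.FT
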